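import Pool.Agent.Helper80.TF.AlgA

/-!
# The horizontal space defined by an alternating form
-/

open Manifold Set Filter Topology MeasureTheory

namespace Pool.Agent.Helper80.TF

variable {r : ℕ} {V : Type*} [NormedAddCommGroup V] [NormedSpace ℝ V]

/-- Naturality of horizontal vectors. -/
theorem Horiz.comp {V' : Type*} [NormedAddCommGroup V'] [NormedSpace ℝ V']
    {η : (V × (Fin r → ℝ)) [⋀^Fin r]→L[ℝ] ℝ} (A : V' × (Fin r → ℝ) →L[ℝ] V × (Fin r → ℝ))
    (N : (Fin r → ℝ) ≃ₗ[ℝ] (Fin r → ℝ)) (hA : ∀ s, A (0, s) = (0, N s))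
    (ξ : V' × (Fin r → ℝ)) :
    Horiz (η.compContinuousLinearMap A) ξ ↔ Horiz η (A ξ) := by
  have key : ∀ (s : Fin r → Fin r → ℝ) (l : Fin r),
      (η.compContinuousLinearMap A) (Function.update (fun m => (0, s m)) l ξ) =
        η (Function.update (fun m => (0, N (s m))) l (A ξ)) := by
    intro s l
    rw [ContinuousAlternatingMap.compContinuousLinearMap_apply]
    congr 1
    funext m
    by_cases h : m = l
    · subst h
      simp
    · simp [Function.update_of_ne h, hA]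
  constructor
  · intro h s l
    have h1 := h (fun m => N.symm (s m)) l
    rw [key] at h1
    simpa using h1
  · intro h s l
    rw [key]
    exact h (fun m => N (s m)) l

/-- Consequence of `horiz_iff` and `Horiz.comp`. -/
theorem hvec_comp {V' : Type*} [NormedAddCommGroup V'] [NormedSpace ℝ V']
    {η : (V × (Fin r → ℝ)) [⋀^Fin r]→L[ℝ] ℝ} (a : V' →L[ℝ] V)
    (N : (Fin r → ℝ) ≃ₗ[ℝ] (Fin r → ℝ)) (σ : V' →L[ℝ] (Fin r → ℝ))
    (A : V' × (Fin r → ℝ) →L[ℝ] V × (Fin r → ℝ)) (hA : ∀ v s, A (v, s) = (a v, N s + σ v))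
    (h0 : η (eb V r) ≠ 0) (h1 : (η.compContinuousLinearMap A) (eb V' r) ≠ 0) (v : V') :
    N (hvec (η.compContinuousLinearMap A) v) = hvec η (a v) + σ v := by
  have h2 := (horiz_iff h1 v _).2 rfl
  rw [Horiz.comp A N (fun s => by rw [hA, map_zero, map_zero, add_zero]) _, hA] at h2
  have h3 : N (-(hvec (η.compContinuousLinearMap A) v)) + σ v =
      -(N (hvec (η.compContinuousLinearMap A) v) - σ v) := by
    rw [map_neg]
    abel
  rw [h3] at h2
  have h4 := (horiz_iff h0 (a v) _).1 h2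
  rw [← h4]
  abel

/-- Compatibility with the complex structure: take `A = (JV, J)`. -/
theorem hvec_hol {η : (V × (Fin r → ℝ)) [⋀^Fin r]→L[ℝ] ℝ} (JV : V →L[ℝ] V)
    (J : (Fin r → ℝ) →L[ℝ] (Fin r → ℝ)) (hJ : ∀ s, J (J s) = -s)
    (hη : η.compContinuousLinearMap (JV.prodMap J) = η) (h0 : η (eb V r) ≠ 0) (v : V) :
    hvec η (JV v) = J (hvec η v) := by
  let N : (Fin r → ℝ) ≃ₗ[ℝ] (Fin r → ℝ) :=
    LinearEquiv.ofLinearMap (J : (Fin r → ℝ) →ₗ[ℝ] (Fin r → ℝ))
      (-(J : (Fin r → ℝ) →ₗ[ℝ] (Fin r → ℝ)))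
      (by
        apply LinearMap.ext
        intro s
        show J (-(J s)) = s
        rw [map_neg, hJ, neg_neg])
      (by
        apply LinearMap.ext
        intro s
        show -(J (J s)) = s
        rw [hJ, neg_neg])
  have h := hvec_comp (η := η) JV N 0 (JV.prodMap J) (fun v s => by
    show (JV v, J s) = (JV v, J s + 0)
    rw [add_zero]) h0 (by rw [hη]; exact h0) v
  rw [hη, ContinuousLinearMap.zero_apply, add_zero] at h
  exact h.symm

end Pool.Agent.Helper80.TF
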