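import Pool.Agent.Helper80.TF.Core

/-!
# The horizontal space defined by an alternating form
-/

open Manifold Set Filter Topology MeasureTheory

namespace Pool.Agent.Helper80.TF

variable {r : ℕ} {V : Type*} [NormedAddCommGroup V] [NormedSpace ℝ V]

/-- `ξ` is horizontal: the contraction of `η` with `ξ` vanishes on the fibre. -/
def Horiz (η : (V × (Fin r → ℝ)) [⋀^Fin r]→L[ℝ] ℝ) (ξ : V × (Fin r → ℝ)) : Prop :=
  ∀ (s : Fin r → Fin r → ℝ) (l : Fin r), η (Function.update (fun m => (0, s m)) l ξ) = 0

/-- The components of the vertical part. -/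
noncomputable def hvec (η : (V × (Fin r → ℝ)) [⋀^Fin r]→L[ℝ] ℝ) : V →L[ℝ] (Fin r → ℝ) :=
  ContinuousLinearMap.pi fun l => (η (eb V r))⁻¹ •
    (η.toContinuousMultilinearMap.toContinuousLinearMap (eb V r) l).comp
      (ContinuousLinearMap.inl ℝ V (Fin r → ℝ))

theorem hvec_apply (η : (V × (Fin r → ℝ)) [⋀^Fin r]→L[ℝ] ℝ) (v : V) (l : Fin r) :
    hvec η v l = (η (eb V r))⁻¹ * η (Function.update (eb V r) l (v, 0)) := by
  rfl

private theorem AlgA_sum (s : Fin r → ℝ) :
    ((0, s) : V × (Fin r → ℝ)) = ∑ k, s k • eb V r k := by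
  ext1
  · rw [Prod.fst_sum]
    simp [eb]
  · rw [Prod.snd_sum]
    funext j
    rw [Finset.sum_apply]
    simp [eb, Pi.single_apply]

private theorem AlgA_eb (η : (V × (Fin r → ℝ)) [⋀^Fin r]→L[ℝ] ℝ) (l k : Fin r) :
    η (Function.update (eb V r) l (eb V r k)) = if k = l then η (eb V r) else 0 := by
  split_ifs with h
  · rw [h, Function.update_eq_self]
  · refine η.map_eq_zero_of_eq _ (i := l) (j := k) ?_ (Ne.symm h)
    rw [Function.update_self, Function.update_of_ne h]

private theorem AlgA_lin (η : (V × (Fin r → ℝ)) [⋀^Fin r]→L[ℝ] ℝ) (v : V) (y : Fin r → ℝ)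
    (l : Fin r) : η (Function.update (eb V r) l (v, -y)) =
      η (Function.update (eb V r) l (v, 0)) - y l * η (eb V r) := by
  let φ : (V × (Fin r → ℝ)) →L[ℝ] ℝ :=
    η.toContinuousMultilinearMap.toContinuousLinearMap (eb V r) l
  have hφ : ∀ x, φ x = η (Function.update (eb V r) l x) := fun x => rfl
  rw [← hφ, ← hφ]
  have h1 : ((v, -y) : V × (Fin r → ℝ)) = (v, 0) + (0, -y) := by simp
  rw [h1, map_add, AlgA_sum (-y), map_sum]
  have h2 : ∀ k, φ ((-y) k • eb V r k) = if k = l then -(y l * η (eb V r)) else 0 := by
    intro k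
    rw [map_smul, hφ, AlgA_eb, smul_eq_mul]
    split_ifs with h
    · rw [h, Pi.neg_apply, neg_mul]
    · rw [mul_zero]
  rw [Finset.sum_congr rfl fun k _ => h2 k, Finset.sum_ite_eq' Finset.univ l,
    if_pos (Finset.mem_univ l)]
  ring

/-- tuples of standard basis vectors and one vector `ξ` -/
private theorem AlgA_tuple (η : (V × (Fin r → ℝ)) [⋀^Fin r]→L[ℝ] ℝ) (ξ : V × (Fin r → ℝ))
    (H : ∀ k, η (Function.update (eb V r) k ξ) = 0) (l : Fin r) (ρ : Fin r → Fin r) :
    η (Function.update (fun m => eb V r (ρ m)) l ξ) = 0 := by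
  classical
  by_cases hinj : ∀ m m' : Fin r, m ≠ l → m' ≠ l → ρ m = ρ m' → m = m'
  · obtain ⟨k, hk⟩ : ∃ k, k ∉ (Finset.univ.erase l).image ρ := by
      by_contra hcon
      push Not at hcon
      have h1 : Finset.univ ⊆ (Finset.univ.erase l).image ρ := fun k _ => hcon k
      have h2 := (Finset.card_le_card h1).trans Finset.card_image_le
      rw [Finset.card_erase_of_mem (Finset.mem_univ l)] at h2
      have h3 : 0 < (Finset.univ : Finset (Fin r)).card := Finset.card_pos.2 ⟨l, Finset.mem_univ l⟩
      omega
    have hk' : ∀ m, m ≠ l → ρ m ≠ k := by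
      intro m hm h
      exact hk (Finset.mem_image.2 ⟨m, Finset.mem_erase.2 ⟨hm, Finset.mem_univ m⟩, h⟩)
    have hσ : Function.Injective (Function.update ρ l k) := by
      intro m m' h
      by_cases hm : m = l
      · by_cases hm' : m' = l
        · rw [hm, hm']
        · rw [hm, Function.update_self, Function.update_of_ne hm'] at h
          exact absurd h.symm (hk' m' hm')
      · by_cases hm' : m' = l
        · rw [hm', Function.update_self, Function.update_of_ne hm] at h
          exact absurd h (hk' m hm)
        · rw [Function.update_of_ne hm, Function.update_of_ne hm'] at h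
          exact hinj m m' hm hm' h
    let e : Equiv.Perm (Fin r) := Equiv.ofBijective _ (Finite.injective_iff_bijective.1 hσ)
    have h1 : Function.update (fun m => eb V r (ρ m)) l ξ =
        (Function.update (eb V r) k ξ) ∘ e := by
      funext m
      change _ = Function.update (eb V r) k ξ (Function.update ρ l k m)
      by_cases hm : m = l
      · rw [hm, Function.update_self, Function.update_self, Function.update_self]
      · rw [Function.update_of_ne hm, Function.update_of_ne hm, Function.update_of_ne (hk' m hm)]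
    have h2 := η.toAlternatingMap.map_perm (Function.update (eb V r) k ξ) e
    rw [h1]
    change η ((Function.update (eb V r) k ξ) ∘ e) = 0
    change η ((Function.update (eb V r) k ξ) ∘ e) = Equiv.Perm.sign e • η _ at h2
    rw [h2, H k, smul_zero]
  · push Not at hinj
    obtain ⟨m, m', hm, hm', h1, h2⟩ := hinj
    refine η.map_eq_zero_of_eq _ (i := m) (j := m') ?_ h2
    rw [Function.update_of_ne hm, Function.update_of_ne hm', h1]

private theorem AlgA_horiz (η : (V × (Fin r → ℝ)) [⋀^Fin r]→L[ℝ] ℝ) (ξ : V × (Fin r → ℝ)) :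
    Horiz η ξ ↔ ∀ l, η (Function.update (eb V r) l ξ) = 0 := by
  classical
  constructor
  · intro h l
    exact h (fun m => Pi.single m 1) l
  · intro H s l
    let g : Fin r → Fin r → V × (Fin r → ℝ) := fun m k =>
      if m = l then (if k = l then ξ else 0) else s m k • eb V r k
    have h1 : Function.update (fun m => ((0, s m) : V × (Fin r → ℝ))) l ξ =
        fun m => ∑ k, g m k := by
      funext m
      by_cases hm : m = l
      · rw [hm, Function.update_self]
        simp [g]
      · rw [Function.update_of_ne hm, AlgA_sum (s m)]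
        simp [g, hm]
    have h2 := η.toMultilinearMap.map_sum g
    change η (fun m => ∑ k, g m k) = ∑ ρ : Fin r → Fin r, η (fun m => g m (ρ m)) at h2
    rw [h1, h2]
    refine Finset.sum_eq_zero fun ρ _ => ?_
    by_cases hρ : ρ l = l
    · have h3 : (fun m => g m (ρ m)) = fun m => (if m = l then (1 : ℝ) else s m (ρ m)) •
          (Function.update (fun m => eb V r (ρ m)) l ξ) m := by
        funext m
        by_cases hm : m = l
        · rw [hm, Function.update_self, if_pos rfl, one_smul]
          simp [g, hρ]
        · rw [Function.update_of_ne hm, if_neg hm]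
          simp [g, hm]
      have h4 := η.toMultilinearMap.map_smul_univ
        (fun m => if m = l then (1 : ℝ) else s m (ρ m))
        (Function.update (fun m => eb V r (ρ m)) l ξ)
      change η (fun m => (if m = l then (1 : ℝ) else s m (ρ m)) •
          (Function.update (fun m => eb V r (ρ m)) l ξ) m) =
        (∏ m, (if m = l then (1 : ℝ) else s m (ρ m))) •
          η (Function.update (fun m => eb V r (ρ m)) l ξ) at h4
      rw [h3, h4, AlgA_tuple η ξ H l ρ, smul_zero]
    · refine η.map_coord_zero l ?_
      simp [g, hρ]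

/-- Proof sketch: for the direct implication take `s m = e_m`.  Conversely the alternating form
of degree `r - 1` obtained by contraction of `η` with `(v, - hvec η v)` and restriction to the
fibre vanishes on all `(r - 1)`-tuples of distinct basis vectors (`Basis.ext_alternating`). -/
theorem horiz_iff {η : (V × (Fin r → ℝ)) [⋀^Fin r]→L[ℝ] ℝ} (h0 : η (eb V r) ≠ 0) (v : V)
    (y : Fin r → ℝ) : Horiz η (v, -y) ↔ y = hvec η v := by
  rw [AlgA_horiz, funext_iff]
  refine forall_congr' fun l => ?_
  rw [AlgA_lin, hvec_apply, sub_eq_zero, eq_inv_mul_iff_mul_eq₀ h0, mul_comm (y l)]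
  exact eq_comm

end Pool.Agent.Helper80.TF
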