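import Pool.Agent.Helper80.TF.Core

/-!
# Averages over the unit cube: elementary properties
-/

open Manifold Set Filter Topology MeasureTheory

namespace Pool.Agent.Helper80.TF

variable {r : ℕ} {F : Type*} [NormedAddCommGroup F] [NormedSpace ℝ F]

theorem volume_cube : volume (cube r) = 1 := by
  rw [cube, volume_pi_pi]
  simp

theorem measurableSet_cube : MeasurableSet (cube r) :=
  MeasurableSet.univ_pi fun _ => measurableSet_Ico

/-- Proof: the cube is contained in the compact set `Icc 0 1`. -/
theorem integrableOn_cube {f : (Fin r → ℝ) → F} (hf : Continuous f) :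
    IntegrableOn f (cube r) := by
  have h : IsCompact (univ.pi fun _ : Fin r => Icc (0 : ℝ) 1) :=
    isCompact_univ_pi fun _ => isCompact_Icc
  exact (hf.continuousOn.integrableOn_compact h).mono_set
    (Set.pi_mono fun _ _ => Ico_subset_Icc_self)

theorem avg_const [CompleteSpace F] (c : F) : avg (fun _ : Fin r → ℝ => c) = c := by
  rw [avg, setIntegral_const, measureReal_def, volume_cube]
  simp

theorem avg_add {f g : (Fin r → ℝ) → F} (hf : Continuous f) (hg : Continuous g) :
    avg (fun t => f t + g t) = avg f + avg g :=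
  integral_add (integrableOn_cube hf) (integrableOn_cube hg)

theorem avg_sub {f g : (Fin r → ℝ) → F} (hf : Continuous f) (hg : Continuous g) :
    avg (fun t => f t - g t) = avg f - avg g :=
  integral_sub (integrableOn_cube hf) (integrableOn_cube hg)

theorem avg_neg (f : (Fin r → ℝ) → F) : avg (fun t => -f t) = -avg f :=
  integral_neg f

theorem avg_clm [CompleteSpace F] {G : Type*} [NormedAddCommGroup G] [NormedSpace ℝ G]
    [CompleteSpace G] (A : F →L[ℝ] G) {f : (Fin r → ℝ) → F} (hf : Continuous f) :
    avg (fun t => A (f t)) = A (avg f) :=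
  A.integral_comp_comm (integrableOn_cube hf)

/-- The average of a family of alternating forms, evaluated at `v`. -/
theorem avg_alt_apply {E : Type*} [NormedAddCommGroup E] [NormedSpace ℝ E] {k : ℕ}
    {f : (Fin r → ℝ) → E [⋀^Fin k]→L[ℝ] ℝ} (hf : Continuous f) (v : Fin k → E) :
    (avg f) v = avg fun t => f t v :=
  (avg_clm ((ContinuousMultilinearMap.apply ℝ (fun _ : Fin k => E) ℝ v).comp
    (ContinuousAlternatingMap.toContinuousMultilinearMapCLM ℝ)) hf).symm

theorem avg_pos {f : (Fin r → ℝ) → ℝ} (hf : Continuous f) (h : ∀ t, 0 < f t) : 0 < avg f := by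
  rw [avg, setIntegral_pos_iff_support_of_nonneg_ae
    (Eventually.of_forall fun t => (h t).le) (integrableOn_cube hf)]
  have h1 : Function.support f = univ := by
    ext t
    simp [(h t).ne']
  rw [h1, univ_inter, volume_cube]
  exact one_pos

/-- Proof: `ℝ ^ r` is connected, so that `f` has constant sign. -/
theorem avg_ne_zero {f : (Fin r → ℝ) → ℝ} (hf : Continuous f) (h : ∀ t, f t ≠ 0) :
    avg f ≠ 0 := by
  by_cases h0 : ∃ t, f t < 0
  · obtain ⟨t, ht⟩ := h0
    have h1 : ∀ s, 0 < -f s := by
      intro s
      by_contra hs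
      rw [not_lt, neg_nonpos] at hs
      obtain ⟨u, hu⟩ := mem_range_of_exists_le_of_exists_ge hf ⟨t, ht.le⟩ ⟨s, hs⟩
      exact h u hu
    have h2 : 0 < avg fun t => -f t := avg_pos hf.neg h1
    rw [avg_neg] at h2
    intro h3
    rw [h3, neg_zero] at h2
    exact lt_irrefl _ h2
  · push Not at h0
    exact (avg_pos hf fun t => lt_of_le_of_ne (h0 t) (h t).symm).ne'

end Pool.Agent.Helper80.TF
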