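import Pool.Agent.Helper80.TF.AvgA

/-!
# Averages over the unit cube: invariance
-/

open Manifold Set Filter Topology MeasureTheory Pointwise

namespace Pool.Agent.Helper80.TF

variable {r : ℕ} {F : Type*} [NormedAddCommGroup F] [NormedSpace ℝ F]

private theorem AvgB_cube : cube r = ZSpan.fundamentalDomain (Pi.basisFun ℝ (Fin r)) :=
  (ZSpan.fundamentalDomain_pi_basisFun (ι := Fin r)).symm

/-- Integer vectors are the elements of the span of the standard basis. -/
private theorem AvgB_mem_span (v : Fin r → ℝ) :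
    v ∈ Submodule.span ℤ (Set.range (Pi.basisFun ℝ (Fin r))) ↔ ∃ n, v = intVec n := by
  constructor
  · intro h
    induction h using Submodule.span_induction with
    | mem x hx =>
      obtain ⟨i, rfl⟩ := hx
      refine ⟨Pi.single i 1, ?_⟩
      ext j
      rw [Pi.basisFun_apply, intVec, Pi.single_apply, Pi.single_apply]
      split_ifs <;> simp
    | zero => exact ⟨0, by ext j; simp [intVec]⟩
    | add x y _ _ hx hy =>
      obtain ⟨n, rfl⟩ := hx
      obtain ⟨m, rfl⟩ := hy
      exact ⟨n + m, by ext j; simp [intVec]⟩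
    | smul a x _ hx =>
      obtain ⟨n, rfl⟩ := hx
      exact ⟨a • n, by ext j; simp [intVec]⟩
  · rintro ⟨n, rfl⟩
    have h : intVec n = ∑ i, n i • (Pi.basisFun ℝ (Fin r)) i := by
      ext j
      simp [intVec, Finset.sum_apply, Pi.single_apply]
    rw [h]
    exact Submodule.sum_mem _ fun i _ => Submodule.smul_mem _ _
      (Submodule.subset_span (Set.mem_range_self i))

private theorem AvgB_countable :
    Countable (Submodule.span ℤ (Set.range (Pi.basisFun ℝ (Fin r)))).toAddSubgroup :=
  inferInstanceAs (Countable (Submodule.span ℤ (Set.range (Pi.basisFun ℝ (Fin r)))))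

/-- The cube is a fundamental domain. -/
private theorem AvgB_fund : IsAddFundamentalDomain
    (Submodule.span ℤ (Set.range (Pi.basisFun ℝ (Fin r)))).toAddSubgroup (cube r) volume := by
  rw [AvgB_cube]
  exact ZSpan.isAddFundamentalDomain' _ _

omit [NormedAddCommGroup F] [NormedSpace ℝ F] in
private theorem AvgB_inv {f : (Fin r → ℝ) → F} (hf : Per f)
    (g : (Submodule.span ℤ (Set.range (Pi.basisFun ℝ (Fin r)))).toAddSubgroup) (x : Fin r → ℝ) :
    f (g +ᵥ x) = f x := by
  obtain ⟨n, hn⟩ := (AvgB_mem_span (g : Fin r → ℝ)).1 g.2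
  have h : g +ᵥ x = x + intVec n := by
    rw [← hn, add_comm]
    rfl
  rw [h]
  exact hf x n

/-- Proof sketch: `cube r` is `ZSpan.fundamentalDomain (Pi.basisFun ℝ (Fin r))`
(`ZSpan.fundamentalDomain_pi_basisFun`), hence a fundamental domain of the group of integer
vectors, and so is its translate; use `IsAddFundamentalDomain.setIntegral_eq`. -/
theorem avg_shift {f : (Fin r → ℝ) → F} (hf : Per f) (s : Fin r → ℝ) :
    avg (fun t => f (t + s)) = avg f := by
  have h1 : IsAddFundamentalDomain
      (Submodule.span ℤ (Set.range (Pi.basisFun ℝ (Fin r)))).toAddSubgroup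
      (s +ᵥ cube r) volume := AvgB_fund.vadd_of_comm s
  have := AvgB_countable (r := r)
  have h2 := AvgB_fund.setIntegral_eq h1 (f := f) (AvgB_inv hf)
  rw [avg, avg, h2]
  have h3 := (measurePreserving_add_right (volume : Measure (Fin r → ℝ)) s).setIntegral_image_emb
    (MeasurableEquiv.addRight s).measurableEmbedding f (cube r)
  have h4 : (fun t => t + s) '' cube r = s +ᵥ cube r := by
    ext t
    constructor
    · rintro ⟨u, hu, rfl⟩
      exact ⟨u, hu, add_comm s u⟩
    · rintro ⟨u, hu, rfl⟩
      exact ⟨u, hu, add_comm u s⟩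
  rw [← h4]
  exact h3.symm

private theorem AvgB_span {N : (Fin r → ℝ) ≃L[ℝ] (Fin r → ℝ)} (hN : Integral N) :
    Submodule.span ℤ (Set.range ((Pi.basisFun ℝ (Fin r)).map N.toLinearEquiv)) =
      Submodule.span ℤ (Set.range (Pi.basisFun ℝ (Fin r))) := by
  rw [← ZSpan.map]
  ext v
  rw [AvgB_mem_span, Submodule.mem_map]
  constructor
  · rintro ⟨w, hw, rfl⟩
    obtain ⟨n, rfl⟩ := (AvgB_mem_span w).1 hw
    obtain ⟨m, hm⟩ := hN.1 n
    exact ⟨m, hm⟩
  · rintro ⟨n, rfl⟩
    obtain ⟨m, hm⟩ := hN.2 n
    refine ⟨intVec m, (AvgB_mem_span _).2 ⟨m, rfl⟩, ?_⟩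
    rw [← hm]
    exact N.apply_symm_apply _

private theorem AvgB_image {N : (Fin r → ℝ) ≃L[ℝ] (Fin r → ℝ)} (hN : Integral N) :
    IsAddFundamentalDomain
      (Submodule.span ℤ (Set.range (Pi.basisFun ℝ (Fin r)))).toAddSubgroup
      (N '' cube r) volume := by
  have h1 := ZSpan.isAddFundamentalDomain' ((Pi.basisFun ℝ (Fin r)).map N.toLinearEquiv)
    (volume : Measure (Fin r → ℝ))
  rw [AvgB_span hN, ← ZSpan.map_fundamentalDomain, ← AvgB_cube] at h1
  exact h1

/-- Proof: `N` and its inverse have integer matrices. -/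
theorem abs_det_of_integral {N : (Fin r → ℝ) ≃L[ℝ] (Fin r → ℝ)} (hN : Integral N) :
    |LinearMap.det (N : (Fin r → ℝ) →ₗ[ℝ] (Fin r → ℝ))| = 1 := by
  have := AvgB_countable (r := r)
  have h1 := AvgB_fund.measure_eq (AvgB_image hN)
  rw [Measure.addHaar_image_continuousLinearEquiv, volume_cube, mul_one] at h1
  have h2 := congrArg ENNReal.toReal h1
  rw [ENNReal.toReal_ofReal (abs_nonneg _)] at h2
  exact h2.symm

/-- Proof sketch: change of variables; the image of the cube under `N` is again a fundamental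
domain of the integer vectors. -/
theorem avg_integral {f : (Fin r → ℝ) → F} (hf : Per f) {N : (Fin r → ℝ) ≃L[ℝ] (Fin r → ℝ)}
    (hN : Integral N) : avg (fun t => f (N t)) = avg f := by
  have := AvgB_countable (r := r)
  have h2 := AvgB_fund.setIntegral_eq (AvgB_image hN) (f := f) (AvgB_inv hf)
  rw [avg, avg, h2]
  have hd := abs_det_of_integral hN
  have hmp : MeasurePreserving N (volume : Measure (Fin r → ℝ)) volume := by
    refine ⟨N.continuous.measurable, ?_⟩
    have h3 := Measure.map_linearMap_addHaar_eq_smul_addHaar (volume : Measure (Fin r → ℝ))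
      (f := (N : (Fin r → ℝ) →ₗ[ℝ] (Fin r → ℝ))) (by
        intro h
        rw [h, abs_zero] at hd
        exact zero_ne_one hd)
    rw [abs_inv, hd, inv_one, ENNReal.ofReal_one, one_smul] at h3
    exact h3
  exact (hmp.setIntegral_image_emb N.toHomeomorph.measurableEmbedding f (cube r)).symm

theorem avg_affine {f : (Fin r → ℝ) → F} (hf : Per f) {N : (Fin r → ℝ) ≃L[ℝ] (Fin r → ℝ)}
    (hN : Integral N) (s : Fin r → ℝ) : avg (fun t => f (N t + s)) = avg f := by
  have h : Per fun t => f (t + s) := by
    intro t n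
    change f (t + intVec n + s) = f (t + s)
    rw [show t + intVec n + s = t + s + intVec n by abel]
    exact hf _ _
  have h2 := avg_integral h hN
  rw [avg_shift hf] at h2
  exact h2

end Pool.Agent.Helper80.TF
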