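import Pool.Agent.Helper80.TF.AvgB

/-!
# Averages over the unit cube: derivatives
-/

open Manifold Set Filter Topology MeasureTheory

namespace Pool.Agent.Helper80.TF

variable {r : ℕ} {F : Type*} [NormedAddCommGroup F] [NormedSpace ℝ F] [CompleteSpace F]
variable {V : Type*} [NormedAddCommGroup V] [NormedSpace ℝ V]

omit [CompleteSpace F] in
private theorem avgC_hasFDerivAt {D : Set V} (hD : IsOpen D) {f : V × (Fin r → ℝ) → F}
    (hf : ContDiffOn ℝ (⊤ : ℕ∞) f (D ×ˢ univ)) {y : V} (hy : y ∈ D) (t : Fin r → ℝ) :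
    HasFDerivAt f (fderiv ℝ f (y, t)) (y, t) := by
  have h1 : D ×ˢ (univ : Set (Fin r → ℝ)) ∈ 𝓝 (y, t) :=
    (hD.prod isOpen_univ).mem_nhds ⟨hy, mem_univ _⟩
  exact ((hf.contDiffAt h1).differentiableAt (by simp)).hasFDerivAt

omit [CompleteSpace F] in
private theorem avgC_continuousOn {D : Set V} (hD : IsOpen D) {f : V × (Fin r → ℝ) → F}
    (hf : ContDiffOn ℝ (⊤ : ℕ∞) f (D ×ˢ univ)) :
    ContinuousOn (fderiv ℝ f) (D ×ˢ univ) :=
  hf.continuousOn_fderiv_of_isOpen (hD.prod isOpen_univ) (by simp)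

/-- Proof sketch: differentiation under the integral sign
(`hasFDerivAt_integral_of_dominated_of_fderiv_le`); the bound comes from the compactness of the
closed cube.  It may be easier with `contDiffOn_convolution_right_with_param`. -/
theorem avg_hasFDerivAt {D : Set V} (hD : IsOpen D) {f : V × (Fin r → ℝ) → F}
    (hf : ContDiffOn ℝ (⊤ : ℕ∞) f (D ×ˢ univ)) {x : V} (hx : x ∈ D) :
    HasFDerivAt (fun y => avg fun t => f (y, t))
      (avg fun t => (fderiv ℝ f (x, t)).comp (ContinuousLinearMap.inl ℝ V (Fin r → ℝ))) x := by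
  have hcont : ∀ y ∈ D, Continuous fun t => f (y, t) := fun y hy =>
    hf.continuousOn.comp_continuous (by fun_prop) fun t => ⟨hy, mem_univ _⟩
  have hcont' : ∀ y ∈ D, Continuous fun t => fderiv ℝ f (y, t) := fun y hy =>
    (avgC_continuousOn hD hf).comp_continuous (by fun_prop) fun t => ⟨hy, mem_univ _⟩
  have hK : IsCompact (univ.pi fun _ : Fin r => Icc (0 : ℝ) 1) :=
    isCompact_univ_pi fun _ => isCompact_Icc
  -- a uniform bound near `x`
  obtain ⟨C, hC⟩ := hK.exists_bound_of_continuousOn (hcont' x hx).continuousOn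
  have hopen : IsOpen ((D ×ˢ (univ : Set (Fin r → ℝ))) ∩
      (fun p => ‖fderiv ℝ f p‖) ⁻¹' Iio (C + 1)) :=
    (avgC_continuousOn hD hf).norm.isOpen_inter_preimage (hD.prod isOpen_univ) isOpen_Iio
  obtain ⟨u, v, hu, -, hxu, hKv, huv⟩ := generalized_tube_lemma (isCompact_singleton (x := x)) hK
    hopen (by
      rintro ⟨y, t⟩ ⟨hy, ht⟩
      rw [mem_singleton_iff] at hy
      subst hy
      refine ⟨⟨hx, mem_univ _⟩, ?_⟩
      have := hC t ht
      simp only [mem_preimage, mem_Iio]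
      linarith)
  have hxu' : x ∈ u := hxu rfl
  have hcube : ∀ᵐ t ∂(volume.restrict (cube r)), t ∈ univ.pi fun _ : Fin r => Icc (0 : ℝ) 1 :=
    (ae_restrict_mem measurableSet_cube).mono fun t ht =>
      Set.pi_mono (fun _ _ => Ico_subset_Icc_self) ht
  have hinl : ‖ContinuousLinearMap.inl ℝ V (Fin r → ℝ)‖ ≤ 1 :=
    ContinuousLinearMap.norm_inl_le_one ℝ V (Fin r → ℝ)
  have hfin : IsFiniteMeasure (volume.restrict (cube r)) :=
    ⟨by rw [Measure.restrict_apply_univ, volume_cube]; exact ENNReal.one_lt_top⟩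
  refine hasFDerivAt_integral_of_dominated_of_fderiv_le (s := u ∩ D)
    (F' := fun y t => (fderiv ℝ f (y, t)).comp (ContinuousLinearMap.inl ℝ V (Fin r → ℝ)))
    (bound := fun _ => |C + 1|)
    ((hu.inter hD).mem_nhds ⟨hxu', hx⟩) ?_ (integrableOn_cube (hcont x hx)) ?_ ?_
    (integrable_const _) ?_
  · filter_upwards [hD.mem_nhds hx] with y hy
    exact (hcont y hy).aestronglyMeasurable
  · exact ((hcont' x hx).clm_comp continuous_const).aestronglyMeasurable
  · filter_upwards [hcube] with t ht y hy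
    have h2 : ‖fderiv ℝ f (y, t)‖ < C + 1 := (huv (mk_mem_prod hy.1 (hKv ht))).2
    calc ‖(fderiv ℝ f (y, t)).comp (ContinuousLinearMap.inl ℝ V (Fin r → ℝ))‖
        ≤ ‖fderiv ℝ f (y, t)‖ * ‖ContinuousLinearMap.inl ℝ V (Fin r → ℝ)‖ :=
          ContinuousLinearMap.opNorm_comp_le _ _
      _ ≤ ‖fderiv ℝ f (y, t)‖ * 1 := by gcongr
      _ ≤ |C + 1| := by rw [mul_one]; exact h2.le.trans (le_abs_self _)
  · refine Eventually.of_forall fun t y hy => ?_
    have h3 := avgC_hasFDerivAt hD hf hy.2 t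
    have h4 : HasFDerivAt (fun y : V => (y, t)) (ContinuousLinearMap.inl ℝ V (Fin r → ℝ)) y :=
      hasFDerivAt_prodMk_left y t
    exact h3.comp y h4

/-- Derivative of the average in the direction `v`. -/
theorem avg_fderiv {D : Set V} (hD : IsOpen D) {f : V × (Fin r → ℝ) → F}
    (hf : ContDiffOn ℝ (⊤ : ℕ∞) f (D ×ˢ univ)) {x : V} (hx : x ∈ D) (v : V) :
    fderiv ℝ (fun y => avg fun t => f (y, t)) x v = avg fun t => fderiv ℝ f (x, t) (v, 0) := by
  rw [(avg_hasFDerivAt hD hf hx).fderiv]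
  have hcont' : Continuous fun t => fderiv ℝ f (x, t) :=
    (avgC_continuousOn hD hf).comp_continuous (by fun_prop) fun t => ⟨hx, mem_univ _⟩
  have h := avg_clm (ContinuousLinearMap.apply ℝ F v)
    (hcont'.clm_comp (continuous_const (y := ContinuousLinearMap.inl ℝ V (Fin r → ℝ))))
  rw [ContinuousLinearMap.apply_apply] at h
  rw [← h]
  rfl

/-- Proof sketch: `avg (fun t => f (x, t + c s))` does not depend on `c` by `avg_shift`;
differentiate at `c = 0` under the integral sign. -/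
theorem avg_fderiv_fibre {D : Set V} (hD : IsOpen D) {f : V × (Fin r → ℝ) → F}
    (hf : ContDiffOn ℝ (⊤ : ℕ∞) f (D ×ˢ univ)) {x : V} (hx : x ∈ D)
    (hper : Per fun t => f (x, t)) (s : Fin r → ℝ) :
    avg (fun t => fderiv ℝ f (x, t) (0, s)) = 0 := by
  have hg : ContDiffOn ℝ (⊤ : ℕ∞) (fun p : ℝ × (Fin r → ℝ) => f (x, p.2 + p.1 • s))
      ((univ : Set ℝ) ×ˢ univ) := by
    refine hf.comp (t := D ×ˢ univ) (ContDiff.contDiffOn ?_) fun p _ => ⟨hx, mem_univ _⟩
    exact contDiff_const.prodMk (contDiff_snd.add (contDiff_fst.smul contDiff_const))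
  have h := avg_fderiv isOpen_univ hg (mem_univ (0 : ℝ)) 1
  have h1 : (fun c : ℝ => avg fun t => f (x, t + c • s)) = fun _ => avg fun t => f (x, t) :=
    funext fun c => avg_shift hper (c • s)
  have h2 : (fun y : ℝ => avg fun t => (fun p : ℝ × (Fin r → ℝ) => f (x, p.2 + p.1 • s)) (y, t)) =
      fun _ => avg fun t => f (x, t) := h1
  rw [h2, fderiv_fun_const] at h
  rw [Pi.zero_apply, ContinuousLinearMap.zero_apply] at h
  rw [h]
  congr 1
  funext t
  have h3 : HasFDerivAt f (fderiv ℝ f (x, t)) (x, t + (0 : ℝ) • s) := by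
    rw [zero_smul, add_zero]
    exact avgC_hasFDerivAt hD hf hx t
  have h4 : HasFDerivAt (fun p : ℝ × (Fin r → ℝ) => (x, p.2 + p.1 • s))
      ((0 : ℝ × (Fin r → ℝ) →L[ℝ] V).prod (ContinuousLinearMap.snd ℝ ℝ (Fin r → ℝ) +
        (ContinuousLinearMap.fst ℝ ℝ (Fin r → ℝ)).smulRight s)) ((0 : ℝ), t) :=
    (hasFDerivAt_const x _).prodMk (hasFDerivAt_snd.add (hasFDerivAt_fst.smul_const s))
  have h5 := HasFDerivAt.comp ((0 : ℝ), t) h3 h4
  have h6 : fderiv ℝ (fun p : ℝ × (Fin r → ℝ) => f (x, p.2 + p.1 • s)) ((0 : ℝ), t) = _ :=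
    h5.fderiv
  rw [h6]
  simp

end Pool.Agent.Helper80.TF
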