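import Pool.Agent.Helper80.TF.AvgC

/-!
# Averages over the unit cube: smoothness
-/

open Manifold Set Filter Topology MeasureTheory

namespace Pool.Agent.Helper80.TF

variable {r : ℕ} {F : Type*} [NormedAddCommGroup F] [NormedSpace ℝ F] [CompleteSpace F]
variable {V : Type*} [NormedAddCommGroup V] [NormedSpace ℝ V]

/-- Proof sketch: either induction on the order with `avg_hasFDerivAt`, or the convolution with
the indicator function of the cube (`contDiffOn_convolution_right_with_param`), after multiplying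
`f` by a smooth function with compact support in `t` which is `1` on the cube. -/
theorem avg_contDiffOn {D : Set V} (hD : IsOpen D) {f : V × (Fin r → ℝ) → F}
    (hf : ContDiffOn ℝ (⊤ : ℕ∞) f (D ×ˢ univ)) :
    ContDiffOn ℝ (⊤ : ℕ∞) (fun y => avg fun t => f (y, t)) D := by
  let χ : ContDiffBump (0 : Fin r → ℝ) := ⟨1, 2, one_pos, one_lt_two⟩
  let g : V → (Fin r → ℝ) → F := fun y t => χ (-t) • f (y, -t)
  let w : (Fin r → ℝ) → ℝ := (cube r).indicator fun _ => 1
  have hw : LocallyIntegrable w volume := by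
    refine Integrable.locallyIntegrable ?_
    rw [integrable_indicator_iff measurableSet_cube]
    exact integrableOn_cube continuous_const
  have hgs : ∀ y, ∀ t, y ∈ D → t ∉ Metric.closedBall (0 : Fin r → ℝ) 2 → g y t = 0 := by
    intro y t _ ht
    have h1 : χ (-t) = 0 := by
      apply χ.zero_of_le_dist
      rw [Metric.mem_closedBall, dist_zero_right, not_le] at ht
      rw [dist_zero_right, norm_neg]
      exact ht.le
    change χ (-t) • f (y, -t) = 0
    rw [h1, zero_smul]
  have hg : ContDiffOn ℝ (⊤ : ℕ∞) (Function.HasUncurry.uncurry g) (D ×ˢ univ) := by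
    have h1 : ContDiffOn ℝ (⊤ : ℕ∞) (fun p : V × (Fin r → ℝ) => χ (-p.2)) (D ×ˢ univ) :=
      (χ.contDiff.comp contDiff_snd.neg).contDiffOn
    have h2 : ContDiffOn ℝ (⊤ : ℕ∞) (fun p : V × (Fin r → ℝ) => f (p.1, -p.2)) (D ×ˢ univ) := by
      have h3 : ContDiffOn ℝ (⊤ : ℕ∞) (fun p : V × (Fin r → ℝ) => (p.1, -p.2)) (D ×ˢ univ) :=
        (contDiff_fst.prodMk contDiff_snd.neg).contDiffOn
      exact hf.comp h3 fun p hp => ⟨hp.1, mem_univ _⟩
    exact h1.smul h2
  have hconv := contDiffOn_convolution_right_with_param_comp (𝕜 := ℝ) (n := (⊤ : ℕ∞))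
    (ContinuousLinearMap.lsmul ℝ ℝ : ℝ →L[ℝ] F →L[ℝ] F) (s := D) (v := fun _ : V => (0 : Fin r → ℝ))
    contDiffOn_const (μ := volume) hD (isCompact_closedBall _ _) hgs hw hg
  refine hconv.congr fun y _ => ?_
  have hcube : ∀ t ∈ cube r, χ t = 1 := by
    intro t ht
    apply χ.one_of_mem_closedBall
    rw [Metric.mem_closedBall, dist_zero_right, pi_norm_le_iff_of_nonneg zero_le_one]
    intro i
    have h1 := ht i (mem_univ i)
    rw [Real.norm_eq_abs, abs_of_nonneg h1.1]
    exact h1.2.le
  change (∫ t in cube r, f (y, t)) = ∫ t, w t • g y (0 - t)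
  rw [← integral_indicator measurableSet_cube]
  refine integral_congr_ae (Eventually.of_forall fun t => ?_)
  change (cube r).indicator (fun t => f (y, t)) t = w t • g y (0 - t)
  by_cases ht : t ∈ cube r
  · have h1 : w t = 1 := indicator_of_mem ht _
    have h2 : g y (0 - t) = χ t • f (y, t) := by
      change χ (-(0 - t)) • f (y, -(0 - t)) = χ t • f (y, t)
      rw [zero_sub, neg_neg]
    rw [indicator_of_mem ht, h1, h2, hcube t ht, one_smul, one_smul]
  · have h1 : w t = 0 := indicator_of_notMem ht _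
    rw [indicator_of_notMem ht, h1, zero_smul]

end Pool.Agent.Helper80.TF
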