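import Pool.Agent.Helper80.TF.Core

/-!
# Exterior derivatives of forms of low degree
-/

open Manifold Set Filter Topology MeasureTheory

namespace Pool.Agent.Helper80.TF

variable {E : Type*} [NormedAddCommGroup E] [NormedSpace ℝ E]

/-- Unfold `extDeriv` and use `ContinuousAlternatingMap.alternatizeUncurryFin_apply`. -/
theorem extDeriv_two (g : E → E [⋀^Fin 2]→L[ℝ] ℝ) (p a b c : E) :
    extDeriv g p ![a, b, c] =
      fderiv ℝ g p a ![b, c] - fderiv ℝ g p b ![a, c] + fderiv ℝ g p c ![a, b] := by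
  have e0 : (0 : Fin 3).removeNth ![a, b, c] = ![b, c] := by
    funext i; fin_cases i <;> rfl
  have e1 : (1 : Fin 3).removeNth ![a, b, c] = ![a, c] := by
    funext i; fin_cases i <;> rfl
  have e2 : (2 : Fin 3).removeNth ![a, b, c] = ![a, b] := by
    funext i; fin_cases i <;> rfl
  rw [extDeriv, ContinuousAlternatingMap.alternatizeUncurryFin_apply, Fin.sum_univ_three, e0, e1,
    e2]
  simp
  ring

theorem extDeriv_three (g : E → E [⋀^Fin 3]→L[ℝ] ℝ) (p a b c d : E) :
    extDeriv g p ![a, b, c, d] =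
      fderiv ℝ g p a ![b, c, d] - fderiv ℝ g p b ![a, c, d] + fderiv ℝ g p c ![a, b, d] -
        fderiv ℝ g p d ![a, b, c] := by
  have e0 : (0 : Fin 4).removeNth ![a, b, c, d] = ![b, c, d] := by
    funext i; fin_cases i <;> rfl
  have e1 : (1 : Fin 4).removeNth ![a, b, c, d] = ![a, c, d] := by
    funext i; fin_cases i <;> rfl
  have e2 : (2 : Fin 4).removeNth ![a, b, c, d] = ![a, b, d] := by
    funext i; fin_cases i <;> rfl
  have e3 : (3 : Fin 4).removeNth ![a, b, c, d] = ![a, b, c] := by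
    funext i; fin_cases i <;> rfl
  rw [extDeriv, ContinuousAlternatingMap.alternatizeUncurryFin_apply, Fin.sum_univ_four, e0, e1,
    e2, e3]
  simp
  ring

/-- Derivative of the evaluation of a form-valued function. -/
theorem fderiv_alt_apply {F : Type*} [NormedAddCommGroup F] [NormedSpace ℝ F] {k : ℕ}
    {g : F → E [⋀^Fin k]→L[ℝ] ℝ} {p : F} (hg : DifferentiableAt ℝ g p) (w : Fin k → E) (v : F) :
    fderiv ℝ (fun y => g y w) p v = fderiv ℝ g p v w := by
  have h1 : HasFDerivAt (fun y => g y w)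
      ((ContinuousAlternatingMap.apply ℝ E ℝ w).comp (fderiv ℝ g p)) p :=
    (ContinuousAlternatingMap.apply ℝ E ℝ w).hasFDerivAt.comp p hg.hasFDerivAt
  rw [h1.fderiv]
  rfl

end Pool.Agent.Helper80.TF
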