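import Pool.Agent.Helper80.TF.AvgC
import Pool.Agent.Helper80.TF.ExtD

/-!
# The average of a closed form over the fibres
-/

open Manifold Set Filter Topology MeasureTheory

namespace Pool.Agent.Helper80.TF

variable {r : ℕ} {V : Type*} [NormedAddCommGroup V] [NormedSpace ℝ V]

section BalAvg

variable {k : ℕ} {D : Set V} {g : V × (Fin r → ℝ) → (V × (Fin r → ℝ)) [⋀^Fin k]→L[ℝ] ℝ}

private theorem BalAvg_contDiffOn (hg : ContDiffOn ℝ (⊤ : ℕ∞) g (D ×ˢ univ))
    (w : Fin k → V × (Fin r → ℝ)) : ContDiffOn ℝ (⊤ : ℕ∞) (fun p => g p w) (D ×ˢ univ) :=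
  (ContinuousAlternatingMap.apply ℝ (V × (Fin r → ℝ)) ℝ w).contDiff.comp_contDiffOn hg

private theorem BalAvg_diffAt (hD : IsOpen D) (hg : ContDiffOn ℝ (⊤ : ℕ∞) g (D ×ˢ univ)) {x : V}
    (hx : x ∈ D) (t : Fin r → ℝ) : DifferentiableAt ℝ g (x, t) :=
  (hg.contDiffAt ((hD.prod isOpen_univ).mem_nhds ⟨hx, mem_univ t⟩)).differentiableAt
    (by simp)

private theorem BalAvg_cont (hg : ContDiffOn ℝ (⊤ : ℕ∞) g (D ×ˢ univ)) {x : V} (hx : x ∈ D) :
    Continuous fun t => g (x, t) := by
  have h1 : ContinuousOn (fun t : Fin r → ℝ => g (x, t)) univ :=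
    hg.continuousOn.comp (by fun_prop) fun t _ => ⟨hx, mem_univ t⟩
  exact continuousOn_univ.mp h1

private theorem BalAvg_cont_fderiv (hD : IsOpen D) (hg : ContDiffOn ℝ (⊤ : ℕ∞) g (D ×ˢ univ))
    {x : V} (hx : x ∈ D) (u : V × (Fin r → ℝ)) (w : Fin k → V × (Fin r → ℝ)) :
    Continuous fun t => fderiv ℝ g (x, t) u w := by
  have h0 : ContinuousOn (fderiv ℝ g) (D ×ˢ univ) :=
    hg.continuousOn_fderiv_of_isOpen (hD.prod isOpen_univ) (by simp)
  have h1 : ContinuousOn (fun t : Fin r → ℝ => fderiv ℝ g (x, t)) univ :=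
    h0.comp (by fun_prop) fun t _ => ⟨hx, mem_univ t⟩
  have h2 : Continuous fun t : Fin r → ℝ => fderiv ℝ g (x, t) := continuousOn_univ.mp h1
  exact (ContinuousAlternatingMap.apply ℝ (V × (Fin r → ℝ)) ℝ w).continuous.comp
    (h2.clm_apply continuous_const)

private theorem BalAvg_fderiv (hD : IsOpen D) (hg : ContDiffOn ℝ (⊤ : ℕ∞) g (D ×ˢ univ)) {x : V}
    (hx : x ∈ D) (w : Fin k → V × (Fin r → ℝ)) (v : V) :
    fderiv ℝ (fun y => (avg fun t => g (y, t)) w) x v =
      avg fun t => fderiv ℝ g (x, t) (v, 0) w := by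
  have h1 : (fun y => (avg fun t => g (y, t)) w) =ᶠ[𝓝 x] fun y => avg fun t => g (y, t) w := by
    filter_upwards [hD.mem_nhds hx] with y hy
    exact avg_alt_apply (BalAvg_cont hg hy) w
  rw [h1.fderiv_eq]
  have h2 := avg_fderiv hD (BalAvg_contDiffOn hg w) hx v
  rw [h2]
  congr 1
  funext t
  exact fderiv_alt_apply (BalAvg_diffAt hD hg hx t) w (v, 0)

private theorem BalAvg_fibre (hD : IsOpen D) (hg : ContDiffOn ℝ (⊤ : ℕ∞) g (D ×ˢ univ)) {x : V}
    (hx : x ∈ D) (hper : Per fun t => g (x, t)) (w : Fin k → V × (Fin r → ℝ)) (s : Fin r → ℝ) :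
    avg (fun t => fderiv ℝ g (x, t) (0, s) w) = 0 := by
  have h2 := avg_fderiv_fibre hD (BalAvg_contDiffOn hg w) hx
    (fun t n => by
      have h3 := hper t n
      change g (x, t + intVec n) = g (x, t) at h3
      change g (x, t + intVec n) w = g (x, t) w
      rw [h3]) s
  rw [← h2]
  congr 1
  funext t
  exact (fderiv_alt_apply (BalAvg_diffAt hD hg hx t) w (0, s)).symm

private theorem BalAvg_sum {ι : Type} (S : Finset ι) (c : ι → ℝ) (b : ι → (Fin r → ℝ) → ℝ)
    (hb : ∀ i ∈ S, Continuous (b i)) :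
    avg (fun t => ∑ i ∈ S, c i * b i t) = ∑ i ∈ S, c i * avg (b i) := by
  unfold avg
  rw [integral_finsetSum]
  · refine Finset.sum_congr rfl fun i _ => ?_
    exact integral_const_mul _ _
  · intro i hi
    exact (integrableOn_cube (hb i hi)).const_mul _

end BalAvg

/-- Proof sketch: evaluate `extDeriv g (x, t) = 0` at `(v, 0), e_0, …, e_{r-1}` (unfold with
`ContinuousAlternatingMap.alternatizeUncurryFin_apply`) and take the average over `t`; the terms
with a derivative in the direction of the fibre vanish by `avg_fderiv_fibre`. -/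
theorem closed_avg_top {D : Set V} (hD : IsOpen D)
    {g : V × (Fin r → ℝ) → (V × (Fin r → ℝ)) [⋀^Fin r]→L[ℝ] ℝ}
    (hg : ContDiffOn ℝ (⊤ : ℕ∞) g (D ×ˢ univ)) (hper : ∀ x ∈ D, Per fun t => g (x, t))
    (hc : ∀ x ∈ D, ∀ t, extDeriv g (x, t) = 0) {x : V} (hx : x ∈ D) (v : V) :
    fderiv ℝ (fun y => (avg fun t => g (y, t)) (eb V r)) x v = 0 := by
  rw [BalAvg_fderiv hD hg hx]
  let w : Fin (r + 1) → V × (Fin r → ℝ) := Fin.cons (v, 0) (eb V r)
  have h1 : ∀ t, fderiv ℝ g (x, t) (v, 0) (eb V r) =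
      ∑ l : Fin r, (-(-1 : ℝ) ^ ((l : ℕ) + 1)) *
        fderiv ℝ g (x, t) (0, Pi.single l 1) (l.succ.removeNth w) := by
    intro t
    have h2 : extDeriv g (x, t) w = 0 := by
      rw [hc x hx t]
      rfl
    rw [extDeriv, ContinuousAlternatingMap.alternatizeUncurryFin_apply, Fin.sum_univ_succ] at h2
    have h3 : (0 : Fin (r + 1)).removeNth w = eb V r := by
      rw [Fin.removeNth_zero]
      exact Fin.tail_cons _ _
    have h4 : w 0 = (v, 0) := rfl
    rw [h3, h4] at h2
    simp only [Fin.val_zero, pow_zero, one_smul, Fin.val_succ] at h2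
    rw [eq_neg_of_add_eq_zero_left h2, ← Finset.sum_neg_distrib]
    refine Finset.sum_congr rfl fun l _ => ?_
    have h5 : w l.succ = (0, Pi.single l 1) := rfl
    rw [h5, neg_mul, zsmul_eq_mul]
    push_cast
    rfl
  simp_rw [h1]
  rw [BalAvg_sum]
  · refine Finset.sum_eq_zero fun l _ => ?_
    rw [BalAvg_fibre hD hg hx (hper x hx), mul_zero]
  · intro l _
    exact BalAvg_cont_fderiv hD hg hx _ _

/-- Proof sketch: the same with the vectors `(v, 0), e_0, …, (v', 0), …, e_{r-1}`, where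
`(v', 0)` is at the place `l` of the tuple `eb V r`; the term where `(v', 0)` is removed is
`(-1) ^ (l + 1)` times the value at `(v, 0), e_0, …` (without `e_l`), and this is the value at
`Function.update (eb V r) l (v, 0)` up to the sign `(-1) ^ l`. -/
theorem closed_avg_one {D : Set V} (hD : IsOpen D)
    {g : V × (Fin r → ℝ) → (V × (Fin r → ℝ)) [⋀^Fin r]→L[ℝ] ℝ}
    (hg : ContDiffOn ℝ (⊤ : ℕ∞) g (D ×ˢ univ)) (hper : ∀ x ∈ D, Per fun t => g (x, t))
    (hc : ∀ x ∈ D, ∀ t, extDeriv g (x, t) = 0) {x : V} (hx : x ∈ D) (v v' : V) (l : Fin r) :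
    fderiv ℝ (fun y => (avg fun t => g (y, t)) (Function.update (eb V r) l (v', 0))) x v =
      fderiv ℝ (fun y => (avg fun t => g (y, t)) (Function.update (eb V r) l (v, 0))) x v' := by
  cases r with
  | zero => exact l.elim0
  | succ r =>
    rw [BalAvg_fderiv hD hg hx, BalAvg_fderiv hD hg hx]
    let w : Fin (r + 1 + 1) → V × (Fin (r + 1) → ℝ) :=
      Fin.cons (v, 0) (Function.update (eb V (r + 1)) l (v', 0))
    have hrem : l.succ.removeNth w =
        Matrix.vecCons ((v, 0) : V × (Fin (r + 1) → ℝ)) (l.removeNth (eb V (r + 1))) := by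
      funext i
      refine Fin.cases ?_ (fun j => ?_) i
      · rfl
      · rw [Matrix.cons_val_succ, Fin.removeNth_apply, Fin.succ_succAbove_succ]
        change Function.update (eb V (r + 1)) l (v', 0) (l.succAbove j) = _
        rw [Function.update_of_ne (Fin.succAbove_ne l j), Fin.removeNth_apply]
    have h1 : ∀ t, fderiv ℝ g (x, t) (v, 0) (Function.update (eb V (r + 1)) l (v', 0)) -
        fderiv ℝ g (x, t) (v', 0) (Function.update (eb V (r + 1)) l (v, 0)) =
        ∑ m ∈ Finset.univ.erase l, (-(-1 : ℝ) ^ ((m : ℕ) + 1)) *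
          fderiv ℝ g (x, t) (0, Pi.single m 1) (m.succ.removeNth w) := by
      intro t
      have h2 : extDeriv g (x, t) w = 0 := by
        rw [hc x hx t]
        rfl
      rw [extDeriv, ContinuousAlternatingMap.alternatizeUncurryFin_apply,
        Fin.sum_univ_succ] at h2
      have h3 : (0 : Fin (r + 1 + 1)).removeNth w =
          Function.update (eb V (r + 1)) l (v', 0) := by
        rw [Fin.removeNth_zero]
        exact Fin.tail_cons _ _
      have h4 : w 0 = (v, 0) := rfl
      rw [h3, h4] at h2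
      simp only [Fin.val_zero, pow_zero, one_smul, Fin.val_succ] at h2
      rw [← Finset.add_sum_erase _ _ (Finset.mem_univ l)] at h2
      have h5 : w l.succ = (v', 0) := by
        change Function.update (eb V (r + 1)) l (v', 0) l = _
        rw [Function.update_self]
      have h6 := ContinuousAlternatingMap.map_insertNth (fderiv ℝ g (x, t) (v', 0)) l
        ((v, 0) : V × (Fin (r + 1) → ℝ)) (l.removeNth (eb V (r + 1)))
      rw [Fin.insertNth_removeNth] at h6
      rw [h5, hrem] at h2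
      have h7 : ((-1 : ℤ) ^ ((l : ℕ) + 1)) • (fderiv ℝ g (x, t) (v', 0))
          (Matrix.vecCons ((v, 0) : V × (Fin (r + 1) → ℝ)) (l.removeNth (eb V (r + 1)))) =
          -(fderiv ℝ g (x, t) (v', 0)) (Function.update (eb V (r + 1)) l (v, 0)) := by
        rw [h6, pow_succ, mul_neg_one, neg_smul]
      rw [h7] at h2
      have h8 : ∑ m ∈ Finset.univ.erase l, (-(-1 : ℝ) ^ ((m : ℕ) + 1)) *
          fderiv ℝ g (x, t) (0, Pi.single m 1) (m.succ.removeNth w) =
          -∑ m ∈ Finset.univ.erase l, ((-1 : ℤ) ^ ((m : ℕ) + 1)) •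
            (fderiv ℝ g (x, t) (w m.succ)) (m.succ.removeNth w) := by
        rw [← Finset.sum_neg_distrib]
        refine Finset.sum_congr rfl fun m hm => ?_
        have h9 : w m.succ = (0, Pi.single m 1) := by
          change Function.update (eb V (r + 1)) l (v', 0) m = _
          rw [Function.update_of_ne (Finset.ne_of_mem_erase hm)]
          rfl
        rw [h9, neg_mul, zsmul_eq_mul]
        push_cast
        rfl
      rw [h8]
      linarith
    have h2 : avg (fun t => fderiv ℝ g (x, t) (v, 0)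
        (Function.update (eb V (r + 1)) l (v', 0)) -
        fderiv ℝ g (x, t) (v', 0) (Function.update (eb V (r + 1)) l (v, 0))) = 0 := by
      simp_rw [h1]
      rw [BalAvg_sum]
      · refine Finset.sum_eq_zero fun m _ => ?_
        rw [BalAvg_fibre hD hg hx (hper x hx), mul_zero]
      · intro m _
        exact BalAvg_cont_fderiv hD hg hx _ _
    rw [avg_sub (BalAvg_cont_fderiv hD hg hx _ _) (BalAvg_cont_fderiv hD hg hx _ _)] at h2
    exact sub_eq_zero.1 h2

end Pool.Agent.Helper80.TF
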