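import Pool.Agent.Helper80.TF.CtrB
import Pool.Agent.Helper80.TF.AvgD

/-!
# The contraction of the average of a closed form is closed
-/

open Manifold Set Filter Topology MeasureTheory

set_option linter.unusedSectionVars false

namespace Pool.Agent.Helper80.TF

variable {V : Type*} [NormedAddCommGroup V] [NormedSpace ℝ V]

/-- The exterior derivative of the average over the fibres, seen as a form on `V × ℝ ^ r` whose
coefficients do not depend on `t`.  Use `extDeriv_apply` (or `extDeriv` and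
`ContinuousAlternatingMap.alternatizeUncurryFin_apply`), `avg_hasFDerivAt`, `avg_fderiv`,
`avg_fderiv_fibre` (which remove the derivatives in the direction of the fibre), and
`avg_alt_apply`. -/
theorem extDeriv_avg {r m : ℕ} {D : Set V} (hD : IsOpen D)
    {g : V × (Fin r → ℝ) → (V × (Fin r → ℝ)) [⋀^Fin m]→L[ℝ] ℝ}
    (hg : ContDiffOn ℝ (⊤ : ℕ∞) g (D ×ˢ univ)) (hper : ∀ x ∈ D, Per fun t => g (x, t))
    {x : V} (hx : x ∈ D) (s : Fin r → ℝ) (w : Fin (m + 1) → V × (Fin r → ℝ)) :
    extDeriv (fun p : V × (Fin r → ℝ) => avg fun t => g (p.1, t)) (x, s) w =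
      avg fun t => extDeriv g (x, t) w := by
  have hcont : Continuous fun t => fderiv ℝ g (x, t) :=
    (hg.continuousOn_fderiv_of_isOpen (hD.prod isOpen_univ) (by simp)).comp_continuous
      (by fun_prop) fun t => ⟨hx, mem_univ _⟩
  have hcw : ∀ u : V × (Fin r → ℝ), Continuous fun t => fderiv ℝ g (x, t) u := fun u =>
    hcont.clm_apply continuous_const
  -- the derivative of the average
  have h1 : fderiv ℝ (fun p : V × (Fin r → ℝ) => avg fun t => g (p.1, t)) (x, s) =
      (fderiv ℝ (fun y => avg fun t => g (y, t)) x).comp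
        (ContinuousLinearMap.fst ℝ V (Fin r → ℝ)) := by
    have h2 := (avg_hasFDerivAt hD hg hx).differentiableAt.hasFDerivAt
    have h3 : HasFDerivAt (fun p : V × (Fin r → ℝ) => p.1)
        (ContinuousLinearMap.fst ℝ V (Fin r → ℝ)) (x, s) := hasFDerivAt_fst
    exact (HasFDerivAt.comp (x, s) (f := fun p : V × (Fin r → ℝ) => p.1)
      (g := fun y => avg fun t => g (y, t)) h2 h3).fderiv
  have h4 : ∀ u : V × (Fin r → ℝ),
      fderiv ℝ (fun p : V × (Fin r → ℝ) => avg fun t => g (p.1, t)) (x, s) u =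
      avg fun t => fderiv ℝ g (x, t) u := by
    intro u
    rw [h1, ContinuousLinearMap.comp_apply, ContinuousLinearMap.coe_fst',
      avg_fderiv hD hg hx]
    have h5 := avg_fderiv_fibre hD hg hx (hper x hx) u.2
    have h6 := avg_add (hcw (u.1, 0)) (hcw (0, u.2))
    rw [h5, add_zero] at h6
    rw [← h6]
    congr 1
    funext t
    rw [← map_add, Prod.mk_add_mk, add_zero, zero_add]
  rw [extDeriv, ContinuousAlternatingMap.alternatizeUncurryFin_apply]
  have h7 : ∀ t, extDeriv g (x, t) w =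
      ∑ i : Fin (m + 1), (-1 : ℝ) ^ (i : ℕ) * fderiv ℝ g (x, t) (w i) (i.removeNth w) := by
    intro t
    rw [extDeriv, ContinuousAlternatingMap.alternatizeUncurryFin_apply]
    refine Finset.sum_congr rfl fun i _ => ?_
    rw [← smul_eq_mul]
    rcases Nat.even_or_odd (i : ℕ) with h | h
    · rw [h.neg_one_pow, h.neg_one_pow, one_smul, one_smul]
    · rw [h.neg_one_pow, h.neg_one_pow, neg_smul, neg_smul, one_smul, one_smul]
  have h8 : avg (fun t => extDeriv g (x, t) w) =
      ∑ i : Fin (m + 1), (-1 : ℝ) ^ (i : ℕ) *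
        avg fun t => fderiv ℝ g (x, t) (w i) (i.removeNth w) := by
    have h9 : (fun t => extDeriv g (x, t) w) = fun t =>
        ∑ i : Fin (m + 1), (-1 : ℝ) ^ (i : ℕ) * fderiv ℝ g (x, t) (w i) (i.removeNth w) :=
      funext h7
    rw [h9, avg, integral_finsetSum]
    · refine Finset.sum_congr rfl fun i _ => ?_
      exact integral_const_mul _ _
    · intro i _
      refine Integrable.const_mul ?_ _
      refine integrableOn_cube ?_
      exact (ContinuousAlternatingMap.apply ℝ (V × (Fin r → ℝ)) ℝ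
        (i.removeNth w)).continuous.comp (hcw (w i))
  rw [h8]
  refine Finset.sum_congr rfl fun i _ => ?_
  rw [h4, avg_alt_apply (hcw (w i)), ← smul_eq_mul]
  rcases Nat.even_or_odd (i : ℕ) with h | h
  · rw [h.neg_one_pow, h.neg_one_pow, one_smul, one_smul]
  · rw [h.neg_one_pow, h.neg_one_pow, neg_smul, neg_smul, one_smul, one_smul]

variable {k : ℕ}

private theorem CtrC_bound (Ψ : (V × (Fin (k * 2) → ℝ)) [⋀^Fin ((k + 1) * 2)]→L[ℝ] ℝ) :
    ‖ctr Ψ‖ ≤ 1 * ‖Ψ‖ := by
  refine ContinuousAlternatingMap.opNorm_le_bound _ (by positivity) fun v => ?_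
  change ‖Ψ (tup (v 0, 0) (v 1, 0))‖ ≤ _
  refine (Ψ.le_opNorm _).trans ?_
  rw [one_mul]
  refine mul_le_mul_of_nonneg_left ?_ (norm_nonneg _)
  have h1 : ∏ l, ‖tup ((v 0, 0) : V × (Fin (k * 2) → ℝ)) (v 1, 0) l‖ =
      ∏ l : Fin (k * 2 + 1 + 1), ‖(Matrix.vecCons ((v 0, 0) : V × (Fin (k * 2) → ℝ))
        (Matrix.vecCons (v 1, 0) (eb V (k * 2)))) l‖ :=
    Fin.prod_congr' (fun l : Fin (k * 2 + 1 + 1) =>
      ‖(Matrix.vecCons ((v 0, 0) : V × (Fin (k * 2) → ℝ))
        (Matrix.vecCons (v 1, 0) (eb V (k * 2)))) l‖) (tup_cast k)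
  rw [h1, Fin.prod_univ_succ, Fin.prod_univ_succ, Fin.prod_univ_two]
  have h2 : ∏ l : Fin (k * 2), ‖(Matrix.vecCons ((v 0, 0) : V × (Fin (k * 2) → ℝ))
      (Matrix.vecCons (v 1, 0) (eb V (k * 2)))) l.succ.succ‖ ≤ 1 := by
    refine Finset.prod_le_one (fun _ _ => norm_nonneg _) fun l _ => ?_
    change ‖((0, Pi.single l 1) : V × (Fin (k * 2) → ℝ))‖ ≤ 1
    rw [Prod.norm_def]
    refine max_le (by simp) ((pi_norm_le_iff_of_nonneg zero_le_one).2 fun i => ?_)
    by_cases h : i = l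
    · subst h
      simp
    · simp [Pi.single_eq_of_ne h]
  have h3 : ‖(Matrix.vecCons ((v 0, 0) : V × (Fin (k * 2) → ℝ))
      (Matrix.vecCons (v 1, 0) (eb V (k * 2)))) 0‖ = ‖v 0‖ := by
    change ‖((v 0, 0) : V × (Fin (k * 2) → ℝ))‖ = _
    rw [Prod.norm_def]
    simp
  have h4 : ‖(Matrix.vecCons ((v 0, 0) : V × (Fin (k * 2) → ℝ))
      (Matrix.vecCons (v 1, 0) (eb V (k * 2)))) (Fin.succ 0)‖ = ‖v 1‖ := by
    change ‖((v 1, 0) : V × (Fin (k * 2) → ℝ))‖ = _
    rw [Prod.norm_def]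
    simp
  rw [h3, h4, ← mul_assoc]
  exact mul_le_of_le_one_right (by positivity) h2

/-- The contraction, as a continuous linear map. -/
private noncomputable def CtrC_clm :
    ((V × (Fin (k * 2) → ℝ)) [⋀^Fin ((k + 1) * 2)]→L[ℝ] ℝ) →L[ℝ] V [⋀^Fin 2]→L[ℝ] ℝ :=
  LinearMap.mkContinuous
    { toFun := ctr
      map_add' := fun f g => by ext v; rfl
      map_smul' := fun c f => by ext v; rfl } 1 CtrC_bound

omit [NormedSpace ℝ V] in
private theorem CtrC_tup (ξ η : V × (Fin (k * 2) → ℝ)) (l : Fin ((k + 1) * 2)) :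
    tup ξ η l = if l.val = 0 then ξ else if l.val = 1 then η else
      if h : l.val - 2 < k * 2 then eb V (k * 2) ⟨l.val - 2, h⟩ else 0 := by
  obtain ⟨l, hl⟩ := l
  rcases l with _ | _ | l
  · rfl
  · rfl
  · rw [if_neg (by simp), if_neg (by simp), dif_pos (by simp only; omega)]
    rfl

private theorem CtrC_cast (k : ℕ) : (k + 1) * 2 + 1 = k * 2 + 1 + 1 + 1 := by ring

/-- the vectors `a, b, c, e_1, …, e_{2k}` -/
private def CtrC_W (v : Fin 3 → V) (l : Fin ((k + 1) * 2 + 1)) : V × (Fin (k * 2) → ℝ) :=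
  if l.val = 0 then (v 0, 0) else if l.val = 1 then (v 1, 0) else
    if l.val = 2 then (v 2, 0) else
      if h : l.val - 3 < k * 2 then eb V (k * 2) ⟨l.val - 3, h⟩ else 0

omit [NormedSpace ℝ V] in
private theorem CtrC_rem (v : Fin 3 → V) (i : Fin 3) (i' : Fin ((k + 1) * 2 + 1))
    (hi : i'.val = i.val) :
    i'.removeNth (CtrC_W (k := k) v) =
      tup ((i.removeNth v) 0, 0) ((i.removeNth v) 1, 0) := by
  funext l
  rw [CtrC_tup]
  change CtrC_W v (i'.succAbove l) = _
  have hval : (i'.succAbove l).val = if l.val < i'.val then l.val else l.val + 1 := by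
    rw [Fin.succAbove]
    by_cases h : l.castSucc < i'
    · rw [if_pos h, if_pos (by simpa [Fin.lt_def] using h)]
      rfl
    · rw [if_neg h, if_neg (by simpa [Fin.lt_def] using h)]
      rfl
  rw [CtrC_W, hval]
  have hl := l.2
  fin_cases i
  · have h0 : i'.val = 0 := hi
    rw [h0]
    have e0 : (Fin.removeNth (0 : Fin 3) v) 0 = v 1 := rfl
    have e1 : (Fin.removeNth (0 : Fin 3) v) 1 = v 2 := rfl
    simp only [Fin.zero_eta, e0, e1, not_lt_zero, if_false]
    by_cases h1 : l.val = 0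
    · simp [h1]
    · by_cases h2 : l.val = 1
      · simp [h2]
      · rw [if_neg (by omega), if_neg (by omega), if_neg (by omega), if_neg h1, if_neg h2,
          dif_pos (by omega), dif_pos (by omega)]
        congr 1
  · have h0 : i'.val = 1 := hi
    rw [h0]
    have e0 : (Fin.removeNth (1 : Fin 3) v) 0 = v 0 := rfl
    have e1 : (Fin.removeNth (1 : Fin 3) v) 1 = v 2 := rfl
    simp only [Fin.mk_one, e0, e1]
    by_cases h1 : l.val = 0
    · simp [h1]
    · by_cases h2 : l.val = 1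
      · simp [h2]
      · rw [if_neg (by omega : ¬ l.val < 1), if_neg (by omega), if_neg (by omega),
          if_neg (by omega), if_neg h1, if_neg h2, dif_pos (by omega), dif_pos (by omega)]
        congr 1
  · have h0 : i'.val = 2 := hi
    rw [h0]
    have e0 : (Fin.removeNth (2 : Fin 3) v) 0 = v 0 := rfl
    have e1 : (Fin.removeNth (2 : Fin 3) v) 1 = v 1 := rfl
    simp only [Fin.reduceFinMk, e0, e1]
    by_cases h1 : l.val = 0
    · simp [h1]
    · by_cases h2 : l.val = 1
      · simp [h2]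
      · rw [if_neg (by omega : ¬ l.val < 2), if_neg (by omega), if_neg (by omega),
          if_neg (by omega), if_neg h1, if_neg h2, dif_pos (by omega), dif_pos (by omega)]
        congr 1

/-- If the form `G` with coefficients independent of `t` is closed at `x`, then so is its
contraction: evaluate `extDeriv (fun p => G p.1) (x, 0)` at `a, b, c, e_1, …, e_{2k}`; the
derivatives in the directions `e_l` vanish. -/
theorem extDeriv_ctr {k : ℕ} {G : V → (V × (Fin (k * 2) → ℝ)) [⋀^Fin ((k + 1) * 2)]→L[ℝ] ℝ}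
    {x : V} (hG : DifferentiableAt ℝ G x)
    (hc : extDeriv (fun p : V × (Fin (k * 2) → ℝ) => G p.1) (x, 0) = 0) :
    extDeriv (fun y => ctr (G y)) x = 0 := by
  have h1 : fderiv ℝ (fun p : V × (Fin (k * 2) → ℝ) => G p.1) (x, 0) =
      (fderiv ℝ G x).comp (ContinuousLinearMap.fst ℝ V (Fin (k * 2) → ℝ)) := by
    have h3 : HasFDerivAt (fun p : V × (Fin (k * 2) → ℝ) => p.1)
        (ContinuousLinearMap.fst ℝ V (Fin (k * 2) → ℝ)) (x, 0) := hasFDerivAt_fst
    exact (HasFDerivAt.comp (x, (0 : Fin (k * 2) → ℝ))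
      (f := fun p : V × (Fin (k * 2) → ℝ) => p.1) (g := G) hG.hasFDerivAt h3).fderiv
  have h2 : fderiv ℝ (fun y => ctr (G y)) x = (CtrC_clm (k := k) (V := V)).comp (fderiv ℝ G x) :=
    ((CtrC_clm (k := k) (V := V)).hasFDerivAt.comp x hG.hasFDerivAt).fderiv
  ext v
  rw [extDeriv, ContinuousAlternatingMap.alternatizeUncurryFin_apply, h2]
  have h4 := DFunLike.congr_fun hc (CtrC_W v)
  rw [extDeriv, ContinuousAlternatingMap.alternatizeUncurryFin_apply, h1] at h4
  rw [← Fin.sum_congr' _ (CtrC_cast k).symm, Fin.sum_univ_succ, Fin.sum_univ_succ,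
    Fin.sum_univ_succ] at h4
  have h5 : ∀ j : Fin (k * 2), (fderiv ℝ G x).comp
      (ContinuousLinearMap.fst ℝ V (Fin (k * 2) → ℝ))
      (CtrC_W v (Fin.cast (CtrC_cast k).symm j.succ.succ.succ)) = 0 := by
    intro j
    have h6 : (CtrC_W v (Fin.cast (CtrC_cast k).symm j.succ.succ.succ)).1 = 0 := by
      rw [CtrC_W, if_neg (by simp), if_neg (by simp), if_neg (by simp)]
      split_ifs
      · rfl
      · rfl
    rw [ContinuousLinearMap.comp_apply, ContinuousLinearMap.coe_fst', h6, map_zero]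
  have h7 : ∑ j : Fin (k * 2),
      (-1 : ℤ) ^ ((Fin.cast (CtrC_cast k).symm j.succ.succ.succ : Fin ((k + 1) * 2 + 1)) : ℕ) •
      ((fderiv ℝ G x).comp (ContinuousLinearMap.fst ℝ V (Fin (k * 2) → ℝ))
        (CtrC_W v (Fin.cast (CtrC_cast k).symm j.succ.succ.succ)))
        ((Fin.cast (CtrC_cast k).symm j.succ.succ.succ).removeNth (CtrC_W v)) = 0 := by
    refine Finset.sum_eq_zero fun j _ => ?_
    rw [h5]
    exact smul_zero _
  rw [Fin.sum_univ_succ, Fin.sum_univ_succ, Fin.sum_univ_one]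
  rw [CtrC_rem v 0 _ rfl, CtrC_rem v 1 _ rfl, CtrC_rem v 2 _ rfl, h7, add_zero] at h4
  exact h4

end Pool.Agent.Helper80.TF
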