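import Pool.Agent.Helper80.TF.CtrP
import Pool.Agent.Helper80.TF.CtrC

/-!
# Naturality, smoothness and closedness of the contraction, general degree
-/

open Manifold Set Filter Topology MeasureTheory

set_option linter.unusedSectionVars false

namespace Pool.Agent.Helper80.TF

variable {k p : ℕ} {V : Type*} [NormedAddCommGroup V] [NormedSpace ℝ V]

/-- an alternating form of top degree, evaluated on the image of the basis -/
private theorem CtrPB_det {m : ℕ} (θ : (Fin m → ℝ) [⋀^Fin m]→ₗ[ℝ] ℝ)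
    (N : (Fin m → ℝ) →ₗ[ℝ] (Fin m → ℝ)) :
    θ (fun l => N (Pi.single l 1)) = LinearMap.det N * θ (fun l => Pi.single l 1) := by
  have h1 := θ.eq_smul_basis_det (Pi.basisFun ℝ (Fin m))
  have h2 : (fun l => N (Pi.single l 1)) = N ∘ (Pi.basisFun ℝ (Fin m)) := by
    funext l
    simp
  have h3 : (fun l => Pi.single l 1 : Fin m → Fin m → ℝ) = (Pi.basisFun ℝ (Fin m)) := by
    funext l
    simp
  rw [h2, h3]
  conv_lhs => rw [h1]
  rw [AlternatingMap.smul_apply, Module.Basis.det_comp, Module.Basis.det_self, smul_eq_mul,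
    mul_one, mul_comm]

private theorem CtrPB_append_left {E : Type*} {m n : ℕ} (u : Fin m → E) (w : Fin n → E)
    (i : Fin m) (x : E) : Fin.append (Function.update u i x) w =
      Function.update (Fin.append u w) (Fin.castAdd n i) x := by
  funext l
  induction l using Fin.addCases with
  | left j =>
    by_cases h : j = i
    · subst h
      simp
    · have h' : Fin.castAdd n j ≠ Fin.castAdd n i := fun h2 => h (Fin.castAdd_injective _ _ h2)
      rw [Function.update_of_ne h', Fin.append_left, Fin.append_left, Function.update_of_ne h]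
  | right j =>
    have h' : Fin.natAdd m j ≠ Fin.castAdd n i := by
      intro h2
      have := congrArg Fin.val h2
      simp at this
      omega
    rw [Function.update_of_ne h', Fin.append_right, Fin.append_right]

private theorem CtrPB_append_right {E : Type*} {m n : ℕ} (u : Fin m → E) (w : Fin n → E)
    (i : Fin n) (x : E) : Fin.append u (Function.update w i x) =
      Function.update (Fin.append u w) (Fin.natAdd m i) x := by
  funext l
  induction l using Fin.addCases with
  | left j =>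
    have h' : Fin.castAdd n j ≠ Fin.natAdd m i := by
      intro h2
      have := congrArg Fin.val h2
      simp at this
      omega
    rw [Function.update_of_ne h', Fin.append_left, Fin.append_left]
  | right j =>
    by_cases h : j = i
    · subst h
      simp
    · have h' : Fin.natAdd m j ≠ Fin.natAdd m i := fun h2 => h (Fin.natAdd_injective _ _ h2)
      rw [Function.update_of_ne h', Fin.append_right, Fin.append_right, Function.update_of_ne h]

/-- the form as a function of the first entries -/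
private noncomputable def CtrPB_fst {E : Type*} [AddCommGroup E] [Module ℝ E] {m n : ℕ}
    (φ : E [⋀^Fin (m + n)]→ₗ[ℝ] ℝ) (w : Fin n → E) : MultilinearMap ℝ (fun _ : Fin m => E) ℝ where
  toFun u := φ (Fin.append u w)
  map_update_add' := by
    intro hd u l x y
    obtain rfl : hd = instDecidableEqFin m := Subsingleton.elim _ _
    rw [CtrPB_append_left, CtrPB_append_left, CtrPB_append_left, φ.map_update_add]
  map_update_smul' := by
    intro hd u l c x
    obtain rfl : hd = instDecidableEqFin m := Subsingleton.elim _ _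
    rw [CtrPB_append_left, CtrPB_append_left, φ.map_update_smul]

/-- the form as a function of the last entries -/
private noncomputable def CtrPB_snd {E : Type*} [AddCommGroup E] [Module ℝ E] {m n : ℕ}
    (φ : E [⋀^Fin (m + n)]→ₗ[ℝ] ℝ) (u : Fin m → E) : E [⋀^Fin n]→ₗ[ℝ] ℝ where
  toFun w := φ (Fin.append u w)
  map_update_add' := by
    intro hd w l x y
    obtain rfl : hd = instDecidableEqFin n := Subsingleton.elim _ _
    rw [CtrPB_append_right, CtrPB_append_right, CtrPB_append_right, φ.map_update_add]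
  map_update_smul' := by
    intro hd w l c x
    obtain rfl : hd = instDecidableEqFin n := Subsingleton.elim _ _
    rw [CtrPB_append_right, CtrPB_append_right, φ.map_update_smul]
  map_eq_zero_of_eq' := by
    intro w i j h hij
    refine φ.map_eq_zero_of_eq _ (i := Fin.natAdd m i) (j := Fin.natAdd m j) ?_ ?_
    · rw [Fin.append_right, Fin.append_right, h]
    · intro h2
      exact hij (Fin.natAdd_injective _ _ h2)

private theorem CtrPB_sum (s : Fin (k * 2) → ℝ) :
    ((0, s) : V × (Fin (k * 2) → ℝ)) = ∑ l, s l • eb V (k * 2) l := by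
  refine Prod.ext ?_ ?_
  · rw [Prod.fst_sum]
    simp [eb]
  · rw [Prod.snd_sum]
    funext i
    simp [eb, Pi.single_apply]

private theorem CtrPB_zero {m : ℕ}
    (φ : (V × (Fin (k * 2) → ℝ)) [⋀^Fin (m + k * 2)]→ₗ[ℝ] ℝ)
    (u : Fin m → V × (Fin (k * 2) → ℝ)) (i : Fin m) (hi : (u i).1 = 0) :
    φ (Fin.append u (eb V (k * 2))) = 0 := by
  have h1 : u = Function.update u i (∑ l, (u i).2 l • eb V (k * 2) l) := by
    rw [← CtrPB_sum]
    have : ((0, (u i).2) : V × (Fin (k * 2) → ℝ)) = u i := by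
      rw [← hi]
    rw [this, Function.update_eq_self]
  rw [h1, CtrPB_append_left, φ.map_update_sum]
  refine Finset.sum_eq_zero fun l _ => ?_
  rw [φ.map_update_smul]
  have h2 : φ (Function.update (Fin.append u (eb V (k * 2))) (Fin.castAdd (k * 2) i)
      (eb V (k * 2) l)) = 0 := by
    refine φ.map_eq_zero_of_eq _ (i := Fin.castAdd (k * 2) i) (j := Fin.natAdd m l) ?_ ?_
    · have h' : Fin.natAdd m l ≠ Fin.castAdd (k * 2) i := by
        intro h2
        have := congrArg Fin.val h2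
        simp at this
        omega
      rw [Function.update_self, Function.update_of_ne h', Fin.append_right]
    · intro h2
      have := congrArg Fin.val h2
      simp at this
      omega
  rw [h2, smul_zero]

private theorem CtrPB_first {m : ℕ}
    (φ : (V × (Fin (k * 2) → ℝ)) [⋀^Fin (m + k * 2)]→ₗ[ℝ] ℝ)
    (u : Fin m → V × (Fin (k * 2) → ℝ)) :
    φ (Fin.append u (eb V (k * 2))) = φ (Fin.append (fun i => ((u i).1, 0)) (eb V (k * 2))) := by
  have h1 : u = (fun i => ((u i).1, 0)) + fun i => (0, (u i).2) := by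
    funext i
    rw [Pi.add_apply, Prod.mk_add_mk, add_zero, zero_add]
  have h2 := (CtrPB_fst φ (eb V (k * 2))).map_add_univ (fun i => ((u i).1, 0))
    (fun i => (0, (u i).2))
  rw [← h1] at h2
  change φ (Fin.append u (eb V (k * 2))) = _ at h2
  rw [h2, Finset.sum_eq_single Finset.univ]
  · rw [Finset.piecewise_univ]
    rfl
  · intro s _ hs
    obtain ⟨i, hi⟩ : ∃ i, i ∉ s := by
      by_contra hcon
      push Not at hcon
      exact hs (Finset.eq_univ_iff_forall.2 hcon)
    refine CtrPB_zero φ _ i ?_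
    rw [Finset.piecewise_eq_of_notMem _ _ _ hi]
  · intro h
    exact absurd (Finset.mem_univ _) h

/-- the form with the casted index type -/
private noncomputable def CtrPB_al (Ψ : (V × (Fin (k * 2) → ℝ)) [⋀^Fin ((k + p) * 2)]→L[ℝ] ℝ) :
    (V × (Fin (k * 2) → ℝ)) [⋀^Fin (p * 2 + k * 2)]→ₗ[ℝ] ℝ :=
  Ψ.toAlternatingMap.domDomCongr (finCongr (tupP_cast k p))

private theorem CtrPB_al_apply (Ψ : (V × (Fin (k * 2) → ℝ)) [⋀^Fin ((k + p) * 2)]→L[ℝ] ℝ)
    (u : Fin (p * 2 + k * 2) → V × (Fin (k * 2) → ℝ)) :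
    CtrPB_al Ψ u = Ψ (fun l => u (Fin.cast (tupP_cast k p) l)) := rfl

/-- Naturality (compare `ctr_comp`).  Adding fibre vectors to the first entries does not change
the value, because the other entries are a basis of the fibre; replacing `e_1, …, e_{2k}` by
`N e_1, …, N e_{2k}` multiplies by `det N`. -/
theorem ctrP_comp {V' : Type*} [NormedAddCommGroup V'] [NormedSpace ℝ V'] (a : V' →L[ℝ] V)
    (N : (Fin (k * 2) → ℝ) →L[ℝ] (Fin (k * 2) → ℝ)) (σ : V' →L[ℝ] (Fin (k * 2) → ℝ))
    (A : V' × (Fin (k * 2) → ℝ) →L[ℝ] V × (Fin (k * 2) → ℝ))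
    (hA : ∀ v s, A (v, s) = (a v, N s + σ v))
    (Ψ : (V × (Fin (k * 2) → ℝ)) [⋀^Fin ((k + p) * 2)]→L[ℝ] ℝ) :
    ctrP (Ψ.compContinuousLinearMap A) =
      LinearMap.det (N : (Fin (k * 2) → ℝ) →ₗ[ℝ] (Fin (k * 2) → ℝ)) •
        (ctrP Ψ).compContinuousLinearMap a := by
  ext v
  rw [ContinuousAlternatingMap.smul_apply]
  change Ψ (fun l => A (tupP (fun i => (v i, 0)) l)) = _ • Ψ (tupP (fun i => (a (v i), 0)))
  let θ : (Fin (k * 2) → ℝ) [⋀^Fin (k * 2)]→ₗ[ℝ] ℝ :=
    (CtrPB_snd (CtrPB_al Ψ) (fun i => (a (v i), σ (v i)))).compLinearMap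
      (LinearMap.inr ℝ V (Fin (k * 2) → ℝ))
  have h1 : Ψ (fun l => A (tupP (fun i => (v i, 0)) l)) = θ (fun l => N (Pi.single l 1)) := by
    change _ = CtrPB_al Ψ (Fin.append (fun i => (a (v i), σ (v i)))
      (fun l => ((0, N (Pi.single l 1)) : V × (Fin (k * 2) → ℝ))))
    rw [CtrPB_al_apply]
    congr 1
    funext l
    rw [tupP]
    generalize Fin.cast (tupP_cast k p) l = l'
    induction l' using Fin.addCases with
    | left j =>
      rw [Fin.append_left, Fin.append_left, hA, map_zero, zero_add]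
    | right j =>
      rw [Fin.append_right, Fin.append_right, eb, hA, map_zero, map_zero, add_zero]
  have h2 : θ (fun l => Pi.single l 1) = Ψ (tupP (fun i => (a (v i), 0))) := by
    change CtrPB_al Ψ (Fin.append (fun i => (a (v i), σ (v i))) (eb V (k * 2))) = _
    rw [CtrPB_first]
    rfl
  rw [h1, ← h2, smul_eq_mul]
  exact CtrPB_det θ (N : (Fin (k * 2) → ℝ) →ₗ[ℝ] (Fin (k * 2) → ℝ))

private theorem CtrPB_bound (Ψ : (V × (Fin (k * 2) → ℝ)) [⋀^Fin ((k + p) * 2)]→L[ℝ] ℝ) :
    ‖ctrP Ψ‖ ≤ 1 * ‖Ψ‖ := by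
  refine ContinuousAlternatingMap.opNorm_le_bound _ (by positivity) fun v => ?_
  change ‖Ψ (tupP (fun i => (v i, 0)))‖ ≤ _
  refine (Ψ.le_opNorm _).trans ?_
  rw [one_mul]
  refine mul_le_mul_of_nonneg_left ?_ (norm_nonneg _)
  have h1 : ∏ l, ‖tupP (fun i => ((v i, 0) : V × (Fin (k * 2) → ℝ))) l‖ =
      ∏ l : Fin (p * 2 + k * 2), ‖(Fin.append (fun i => ((v i, 0) : V × (Fin (k * 2) → ℝ)))
        (eb V (k * 2))) l‖ :=
    Fin.prod_congr' (fun l : Fin (p * 2 + k * 2) =>
      ‖(Fin.append (fun i => ((v i, 0) : V × (Fin (k * 2) → ℝ))) (eb V (k * 2))) l‖)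
      (tupP_cast k p)
  rw [h1, Fin.prod_univ_add]
  have h2 : ∏ l : Fin (k * 2), ‖(Fin.append (fun i => ((v i, 0) : V × (Fin (k * 2) → ℝ)))
      (eb V (k * 2))) (Fin.natAdd (p * 2) l)‖ ≤ 1 := by
    refine Finset.prod_le_one (fun _ _ => norm_nonneg _) fun l _ => ?_
    rw [Fin.append_right]
    change ‖((0, Pi.single l 1) : V × (Fin (k * 2) → ℝ))‖ ≤ 1
    rw [Prod.norm_def]
    refine max_le (by simp) ((pi_norm_le_iff_of_nonneg zero_le_one).2 fun i => ?_)
    by_cases h : i = l
    · subst h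
      simp
    · simp [Pi.single_eq_of_ne h]
  have h3 : ∏ i : Fin (p * 2), ‖(Fin.append (fun i => ((v i, 0) : V × (Fin (k * 2) → ℝ)))
      (eb V (k * 2))) (Fin.castAdd (k * 2) i)‖ = ∏ i, ‖v i‖ := by
    refine Finset.prod_congr rfl fun i _ => ?_
    rw [Fin.append_left, Prod.norm_def]
    simp
  rw [h3]
  exact mul_le_of_le_one_right (by positivity) h2

/-- The contraction, as a continuous linear map. -/
private noncomputable def CtrPB_clm :
    ((V × (Fin (k * 2) → ℝ)) [⋀^Fin ((k + p) * 2)]→L[ℝ] ℝ) →L[ℝ] V [⋀^Fin (p * 2)]→L[ℝ] ℝ :=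
  LinearMap.mkContinuous
    { toFun := ctrP
      map_add' := fun f g => by ext v; rfl
      map_smul' := fun c f => by ext v; rfl } 1 CtrPB_bound

/-- The contraction of a smooth family of forms is smooth (compare `contDiffOn_ctr`). -/
theorem contDiffOn_ctrP {X : Type*} [NormedAddCommGroup X] [NormedSpace ℝ X]
    [FiniteDimensional ℝ V]
    {Ψ : X → (V × (Fin (k * 2) → ℝ)) [⋀^Fin ((k + p) * 2)]→L[ℝ] ℝ} {s : Set X}
    (h : ContDiffOn ℝ (⊤ : ℕ∞) Ψ s) : ContDiffOn ℝ (⊤ : ℕ∞) (fun x => ctrP (Ψ x)) s :=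
  (CtrPB_clm (k := k) (p := p) (V := V)).contDiff.comp_contDiffOn h

private theorem CtrPB_cast (k p : ℕ) : (k + p) * 2 + 1 = (p * 2 + 1) + k * 2 := by ring

/-- the vectors `v_0, …, v_{2p}, e_1, …, e_{2k}` -/
private def CtrPB_W (v : Fin (p * 2 + 1) → V) (l : Fin ((k + p) * 2 + 1)) :
    V × (Fin (k * 2) → ℝ) :=
  Fin.append (fun i => ((v i, 0) : V × (Fin (k * 2) → ℝ))) (eb V (k * 2))
    (Fin.cast (CtrPB_cast k p) l)

private theorem CtrPB_succ_left (i : Fin (p * 2 + 1)) (j : Fin (p * 2)) :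
    (Fin.cast (CtrPB_cast k p).symm (Fin.castAdd (k * 2) i)).succAbove
        (Fin.cast (tupP_cast k p).symm (Fin.castAdd (k * 2) j)) =
      Fin.cast (CtrPB_cast k p).symm (Fin.castAdd (k * 2) (i.succAbove j)) := by
  apply Fin.ext
  by_cases h : j.val < i.val
  · rw [Fin.succAbove_of_castSucc_lt _ _ (by simpa [Fin.lt_def] using h)]
    simp only [Fin.val_cast, Fin.val_castAdd, Fin.val_castSucc]
    rw [Fin.succAbove_of_castSucc_lt _ _ (by simpa [Fin.lt_def] using h)]
    simp
  · rw [Fin.succAbove_of_le_castSucc _ _ (by simpa [Fin.le_def] using h)]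
    simp only [Fin.val_cast, Fin.val_castAdd, Fin.val_succ]
    rw [Fin.succAbove_of_le_castSucc _ _ (by simpa [Fin.le_def] using h)]
    simp

private theorem CtrPB_succ_right (i : Fin (p * 2 + 1)) (j : Fin (k * 2)) :
    (Fin.cast (CtrPB_cast k p).symm (Fin.castAdd (k * 2) i)).succAbove
        (Fin.cast (tupP_cast k p).symm (Fin.natAdd (p * 2) j)) =
      Fin.cast (CtrPB_cast k p).symm (Fin.natAdd (p * 2 + 1) j) := by
  apply Fin.ext
  have hi := i.2
  rw [Fin.succAbove_of_le_castSucc _ _ (by simp [Fin.le_def]; omega)]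
  simp
  omega

private theorem CtrPB_rem (v : Fin (p * 2 + 1) → V) (i : Fin (p * 2 + 1)) :
    (Fin.cast (CtrPB_cast k p).symm (Fin.castAdd (k * 2) i)).removeNth (CtrPB_W (k := k) v) =
      tupP (fun j => ((i.removeNth v) j, 0)) := by
  funext l
  obtain ⟨l', rfl⟩ : ∃ l', l = Fin.cast (tupP_cast k p).symm l' :=
    ⟨Fin.cast (tupP_cast k p) l, by simp⟩
  rw [Fin.removeNth_apply, tupP, Fin.cast_cast, Fin.cast_eq_self]
  induction l' using Fin.addCases with
  | left j =>
    rw [CtrPB_succ_left, CtrPB_W, Fin.cast_cast, Fin.cast_eq_self, Fin.append_left,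
      Fin.append_left, Fin.removeNth_apply]
  | right j =>
    rw [CtrPB_succ_right, CtrPB_W, Fin.cast_cast, Fin.cast_eq_self, Fin.append_right,
      Fin.append_right]

/-- If the form `G` with coefficients independent of `t` is closed at `x`, then so is its
contraction (compare `extDeriv_ctr`): evaluate `extDeriv (fun p => G p.1) (x, 0)` at
`(v_0, 0), …, (v_{2p}, 0), e_1, …, e_{2k}`; the derivatives in the directions `e_l` vanish. -/
theorem extDeriv_ctrP {G : V → (V × (Fin (k * 2) → ℝ)) [⋀^Fin ((k + p) * 2)]→L[ℝ] ℝ}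
    {x : V} (hG : DifferentiableAt ℝ G x)
    (hc : extDeriv (fun q : V × (Fin (k * 2) → ℝ) => G q.1) (x, 0) = 0) :
    extDeriv (fun y => ctrP (G y)) x = 0 := by
  have h1 : fderiv ℝ (fun p : V × (Fin (k * 2) → ℝ) => G p.1) (x, 0) =
      (fderiv ℝ G x).comp (ContinuousLinearMap.fst ℝ V (Fin (k * 2) → ℝ)) := by
    have h3 : HasFDerivAt (fun p : V × (Fin (k * 2) → ℝ) => p.1)
        (ContinuousLinearMap.fst ℝ V (Fin (k * 2) → ℝ)) (x, 0) := hasFDerivAt_fst
    exact (HasFDerivAt.comp (x, (0 : Fin (k * 2) → ℝ))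
      (f := fun p : V × (Fin (k * 2) → ℝ) => p.1) (g := G) hG.hasFDerivAt h3).fderiv
  have h2 : fderiv ℝ (fun y => ctrP (G y)) x =
      (CtrPB_clm (k := k) (p := p) (V := V)).comp (fderiv ℝ G x) :=
    ((CtrPB_clm (k := k) (p := p) (V := V)).hasFDerivAt.comp x hG.hasFDerivAt).fderiv
  ext v
  rw [extDeriv, ContinuousAlternatingMap.alternatizeUncurryFin_apply, h2]
  have h4 := DFunLike.congr_fun hc (CtrPB_W v)
  rw [extDeriv, ContinuousAlternatingMap.alternatizeUncurryFin_apply, h1] at h4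
  rw [← Fin.sum_congr' _ (CtrPB_cast k p).symm, Fin.sum_univ_add] at h4
  have h7 : ∑ j : Fin (k * 2), (-1 : ℤ) ^
        ((Fin.cast (CtrPB_cast k p).symm (Fin.natAdd (p * 2 + 1) j) :
          Fin ((k + p) * 2 + 1)) : ℕ) •
      ((fderiv ℝ G x).comp (ContinuousLinearMap.fst ℝ V (Fin (k * 2) → ℝ))
        (CtrPB_W v (Fin.cast (CtrPB_cast k p).symm (Fin.natAdd (p * 2 + 1) j))))
        ((Fin.cast (CtrPB_cast k p).symm (Fin.natAdd (p * 2 + 1) j)).removeNth (CtrPB_W v)) =
      0 := by
    refine Finset.sum_eq_zero fun j _ => ?_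
    have h6 : (CtrPB_W v (Fin.cast (CtrPB_cast k p).symm
        (Fin.natAdd (p * 2 + 1) j)) : V × (Fin (k * 2) → ℝ)).1 = 0 := by
      rw [CtrPB_W, Fin.cast_cast, Fin.cast_eq_self, Fin.append_right]
      rfl
    rw [ContinuousLinearMap.comp_apply, ContinuousLinearMap.coe_fst', h6, map_zero]
    exact smul_zero _
  rw [h7, add_zero] at h4
  refine Eq.trans ?_ h4
  refine Finset.sum_congr rfl fun i _ => ?_
  rw [CtrPB_rem]
  have h8 : (CtrPB_W v (Fin.cast (CtrPB_cast k p).symm (Fin.castAdd (k * 2) i)) :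
      V × (Fin (k * 2) → ℝ)) = (v i, 0) := by
    rw [CtrPB_W, Fin.cast_cast, Fin.cast_eq_self, Fin.append_left]
  rw [h8]
  rfl

end Pool.Agent.Helper80.TF
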