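import Pool.Agent.Helper80.TF.CtrD0

/-!
# Positivity of the contraction of a power of a positive form
-/

open Manifold Set Filter Topology MeasureTheory

set_option linter.unusedSectionVars false

namespace Pool.Agent.Helper80.TF

section

variable {L : Type*} [NormedAddCommGroup L] [NormedSpace ℝ L]

private theorem CtrD_add (a : L [⋀^Fin 2]→L[ℝ] ℝ) (x y z : L) :
    a ![x + y, z] = a ![x, z] + a ![y, z] := by
  have h := a.map_update_add ![x, z] 0 x y
  have e : ∀ w : L, Function.update ![x, z] 0 w = ![w, z] := by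
    intro w
    ext i
    fin_cases i <;> simp
  rwa [e, e, e] at h

private theorem CtrD_smul (a : L [⋀^Fin 2]→L[ℝ] ℝ) (c : ℝ) (x z : L) :
    a ![c • x, z] = c * a ![x, z] := by
  have h := a.map_update_smul ![x, z] 0 c x
  have e : ∀ w : L, Function.update ![x, z] 0 w = ![w, z] := by
    intro w
    ext i
    fin_cases i <;> simp
  rw [e, e] at h
  rw [h, smul_eq_mul]

private theorem CtrD_swap (a : L [⋀^Fin 2]→L[ℝ] ℝ) (x y : L) : a ![x, y] = -a ![y, x] := by
  have h := a.toAlternatingMap.map_swap ![y, x] (i := 0) (j := 1) (by decide)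
  have e : (![y, x] : Fin 2 → L) ∘ (Equiv.swap (0 : Fin 2) 1) = ![x, y] := by
    ext i
    fin_cases i <;> simp
  rw [e] at h
  exact h

private theorem CtrD_smul' (a : L [⋀^Fin 2]→L[ℝ] ℝ) (c : ℝ) (x z : L) :
    a ![z, c • x] = c * a ![z, x] := by
  rw [CtrD_swap, CtrD_smul, CtrD_swap a z x]
  ring

private theorem CtrD_neg (a : L [⋀^Fin 2]→L[ℝ] ℝ) (x z : L) : a ![-x, z] = -a ![x, z] := by
  have h := CtrD_smul a (-1) x z
  rw [neg_one_smul] at h
  rw [h]
  ring

private theorem CtrD_self (a : L [⋀^Fin 2]→L[ℝ] ℝ) (x : L) : a ![x, x] = 0 := by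
  have h := CtrD_swap a x x
  linarith

private theorem CtrD_sum (a : L [⋀^Fin 2]→L[ℝ] ℝ) {ι : Type*} (s : Finset ι) (c : ι → ℝ)
    (f : ι → L) (z : L) : a ![∑ i ∈ s, c i • f i, z] = ∑ i ∈ s, c i * a ![f i, z] := by
  classical
  induction s using Finset.induction_on with
  | empty =>
    rw [Finset.sum_empty, Finset.sum_empty]
    have h := CtrD_smul a 0 0 z
    rwa [zero_smul, zero_mul] at h
  | insert i s hi ih =>
    rw [Finset.sum_insert hi, Finset.sum_insert hi, CtrD_add, CtrD_smul, ih]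

/-- The symplectic basis. -/
private theorem CtrD_basis (J : L →L[ℝ] L) (hJ : ∀ x, J (J x) = -x)
    (a : L [⋀^Fin 2]→L[ℝ] ℝ) (h1 : ∀ x y, a ![J x, J y] = a ![x, y])
    (h2 : ∀ x, x ≠ 0 → 0 < a ![x, J x]) (k : ℕ) [FiniteDimensional ℝ L]
    (hk : Module.finrank ℝ L = k * 2) (n : ℕ) (hn : n ≤ k) :
    ∃ u : Fin n → L, (∀ i j, a ![u i, u j] = 0) ∧
      ∀ i j, a ![u i, J (u j)] = if i = j then 1 else 0 := by
  induction n with
  | zero => exact ⟨fun i => i.elim0, fun i => i.elim0, fun i => i.elim0⟩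
  | succ n ih =>
    obtain ⟨u, hu1, hu2⟩ := ih (by omega)
    let φ : L →ₗ[ℝ] (Fin n × Fin 2 → ℝ) :=
      { toFun := fun x p => a ![x, if p.2 = 0 then u p.1 else J (u p.1)]
        map_add' := fun x y => by
          funext p
          exact CtrD_add a _ _ _
        map_smul' := fun c x => by
          funext p
          exact CtrD_smul a _ _ _ }
    have hker : LinearMap.ker φ ≠ ⊥ := by
      apply LinearMap.ker_ne_bot_of_finrank_lt
      rw [Module.finrank_fintype_fun_eq_card, Fintype.card_prod, Fintype.card_fin,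
        Fintype.card_fin, hk]
      omega
    obtain ⟨x, hx, hx0⟩ := Submodule.exists_mem_ne_zero_of_ne_bot hker
    have hx1 : ∀ i, a ![x, u i] = 0 := by
      intro i
      have := congrFun (LinearMap.mem_ker.1 hx) (i, 0)
      exact this
    have hx2 : ∀ i, a ![x, J (u i)] = 0 := by
      intro i
      have := congrFun (LinearMap.mem_ker.1 hx) (i, 1)
      exact this
    have hpos := h2 x hx0
    set c : ℝ := (Real.sqrt (a ![x, J x]))⁻¹ with hc
    have hc2 : c * (c * a ![x, J x]) = 1 := by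
      rw [hc, ← mul_assoc, ← mul_inv, Real.mul_self_sqrt hpos.le, inv_mul_cancel₀ hpos.ne']
    have hx3 : ∀ i, a ![u i, J x] = 0 := by
      intro i
      rw [← h1, hJ, CtrD_swap, CtrD_neg, hx2]
      simp
    refine ⟨Fin.cons (c • x) u, ?_, ?_⟩
    · intro i j
      refine Fin.cases ?_ (fun i => ?_) i
      · refine Fin.cases ?_ (fun j => ?_) j
        · exact CtrD_self a _
        · rw [Fin.cons_zero, Fin.cons_succ, CtrD_smul, hx1, mul_zero]
      · refine Fin.cases ?_ (fun j => ?_) j
        · rw [Fin.cons_zero, Fin.cons_succ, CtrD_smul', CtrD_swap, hx1]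
          simp
        · rw [Fin.cons_succ, Fin.cons_succ]
          exact hu1 i j
    · intro i j
      refine Fin.cases ?_ (fun i => ?_) i
      · refine Fin.cases ?_ (fun j => ?_) j
        · rw [Fin.cons_zero, map_smul, CtrD_smul, CtrD_smul', hc2, if_pos rfl]
        · rw [Fin.cons_zero, Fin.cons_succ, CtrD_smul, hx2, mul_zero,
            if_neg (Fin.succ_ne_zero j).symm]
      · refine Fin.cases ?_ (fun j => ?_) j
        · rw [Fin.cons_zero, Fin.cons_succ, map_smul, CtrD_smul', hx3, mul_zero,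
            if_neg (Fin.succ_ne_zero i)]
        · rw [Fin.cons_succ, Fin.cons_succ, hu2]
          simp only [Fin.succ_inj]

/-- The symplectic basis is linearly independent. -/
private theorem CtrD_indep {k : ℕ} (J : L →L[ℝ] L) (a : L [⋀^Fin 2]→L[ℝ] ℝ)
    (h1 : ∀ x y, a ![J x, J y] = a ![x, y]) (u : Fin k → L) (hu1 : ∀ i j, a ![u i, u j] = 0)
    (hu2 : ∀ i j, a ![u i, J (u j)] = if i = j then 1 else 0) :
    LinearIndependent ℝ (inter J u) := by
  rw [Fintype.linearIndependent_iff]
  intro c hc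
  have hc' : ∑ p : Fin k × Fin 2, c (finProdFinEquiv p) • (if p.2 = 0 then u p.1 else J (u p.1)) =
      0 := by
    rw [← hc, ← Equiv.sum_comp finProdFinEquiv]
    refine Finset.sum_congr rfl fun p _ => ?_
    simp only [inter, Equiv.symm_apply_apply]
  have key : ∀ p : Fin k × Fin 2, c (finProdFinEquiv p) = 0 := by
    rintro ⟨j, s⟩
    have hz : ∀ z : L, ∑ p : Fin k × Fin 2,
        c (finProdFinEquiv p) * a ![if p.2 = 0 then u p.1 else J (u p.1), z] = 0 := by
      intro z
      rw [← CtrD_sum, hc']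
      have h := CtrD_smul a 0 0 z
      rwa [zero_smul, zero_mul] at h
    fin_cases s
    · have h := hz (J (u j))
      rw [Fintype.sum_prod_type] at h
      simp only [Fin.sum_univ_two, if_true, Fin.isValue, one_ne_zero, if_false, hu2, h1, hu1,
        mul_zero, add_zero, mul_ite, mul_one, Finset.sum_ite_eq', Finset.mem_univ] at h
      exact h
    · have h := hz (u j)
      rw [Fintype.sum_prod_type] at h
      have h3 : ∀ i, a ![J (u i), u j] = if i = j then -1 else 0 := by
        intro i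
        rw [CtrD_swap, hu2]
        by_cases hij : i = j
        · rw [if_pos hij, if_pos hij.symm]
        · rw [if_neg hij, if_neg (fun h => hij h.symm), neg_zero]
      simp only [Fin.sum_univ_two, if_true, Fin.isValue, one_ne_zero, if_false, h3, hu1,
        mul_zero, zero_add, mul_ite, mul_neg, mul_one, Finset.sum_ite_eq', Finset.mem_univ,
        neg_eq_zero] at h
      exact h
  intro l
  have h := key (finProdFinEquiv.symm l)
  rwa [Equiv.apply_symm_apply] at h

private theorem CtrD_comp2 {L L' : Type*} (A : L → L') (a b : L) : A ∘ ![a, b] = ![A a, A b] := by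
  funext j
  fin_cases j <;> rfl

private theorem CtrD_vec2 {L : Type*} (v : Fin 2 → L) : v = ![v 0, v 1] := by
  funext j
  fin_cases j <;> rfl

end

variable {k : ℕ} {V : Type*} [NormedAddCommGroup V] [NormedSpace ℂ V]

/-- The determinant of a complex structure is `1`: for a positive form `E` the form `E ^ k` is
`J`-invariant; use `top_comp` and `wpow_ne_zero`. -/
theorem det_J_eq_one (J : (Fin (k * 2) → ℝ) →L[ℝ] (Fin (k * 2) → ℝ)) (hJ : ∀ x, J (J x) = -x)
    (E : (Fin (k * 2) → ℝ) [⋀^Fin 2]→L[ℝ] ℝ) (e1 : ∀ x y, E ![J x, J y] = E ![x, y])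
    (e2 : ∀ x, x ≠ 0 → 0 < E ![x, J x]) :
    LinearMap.det (J : (Fin (k * 2) → ℝ) →ₗ[ℝ] (Fin (k * 2) → ℝ)) = 1 := by
  have h0 := wpow_ne_zero (Pi.basisFun ℝ (Fin (k * 2))) J hJ E e1 e2
  have h1 := top_comp J (wpow k E)
  have h2 : E.compContinuousLinearMap J = E := by
    ext w
    rw [ContinuousAlternatingMap.compContinuousLinearMap_apply, CtrD_vec2 w, CtrD_comp2, e1]
  rw [← wpow_comp, h2] at h1
  have h3 : (LinearMap.det (J : (Fin (k * 2) → ℝ) →ₗ[ℝ] (Fin (k * 2) → ℝ)) - 1) *
      wpow k E (Pi.basisFun ℝ (Fin (k * 2))) = 0 := by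
    rw [sub_mul, ← h1]
    ring
  rcases mul_eq_zero.1 h3 with h | h
  · linarith
  · exact absurd h h0

/-- Choose a basis `u_0, J u_0, …` of the fibre and write the standard basis as its image under
`P`.  Then both factors are `det P` times a positive number, by `wpow_pos_inter` for the fibre and
for the space spanned by `v`, `i v` and the fibre. -/
theorem ctr_wpow_pos (J : (Fin (k * 2) → ℝ) →L[ℝ] (Fin (k * 2) → ℝ)) (hJ : ∀ x, J (J x) = -x)
    (E : (Fin (k * 2) → ℝ) [⋀^Fin 2]→L[ℝ] ℝ) (e1 : ∀ x y, E ![J x, J y] = E ![x, y])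
    (e2 : ∀ x, x ≠ 0 → 0 < E ![x, J x])
    (a : (V × (Fin (k * 2) → ℝ)) [⋀^Fin 2]→L[ℝ] ℝ)
    (h1 : ∀ ξ η : V × (Fin (k * 2) → ℝ), a ![(mulI V ξ.1, J ξ.2), (mulI V η.1, J η.2)] = a ![ξ, η])
    (h2 : ∀ ξ : V × (Fin (k * 2) → ℝ), ξ ≠ 0 → 0 < a ![ξ, (mulI V ξ.1, J ξ.2)])
    {v : V} (hv : v ≠ 0) :
    0 < wpow k E (Pi.basisFun ℝ (Fin (k * 2))) * ctr (wpow (k + 1) a) ![v, mulI V v] := by
  have hfr : Module.finrank ℝ (Fin (k * 2) → ℝ) = k * 2 := by
    rw [Module.finrank_fintype_fun_eq_card, Fintype.card_fin]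
  obtain ⟨u, hu1, hu2⟩ := CtrD_basis J hJ E e1 e2 k hfr k le_rfl
  have hu := CtrD_indep J E e1 u hu1 hu2
  -- the fibre
  have hF := wpow_pos_inter hfr J hJ E e1 e2 u hu
  let P : (Fin (k * 2) → ℝ) →L[ℝ] (Fin (k * 2) → ℝ) :=
    LinearMap.toContinuousLinearMap ((Pi.basisFun ℝ (Fin (k * 2))).constr ℝ (inter J u))
  have hP : ∀ l, P (Pi.single l 1) = inter J u l := by
    intro l
    have h := (Pi.basisFun ℝ (Fin (k * 2))).constr_basis ℝ (inter J u) l
    rw [Pi.basisFun_apply] at h
    exact h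
  have hdF : 0 < LinearMap.det (P : (Fin (k * 2) → ℝ) →ₗ[ℝ] (Fin (k * 2) → ℝ)) *
      wpow k E (Pi.basisFun ℝ (Fin (k * 2))) := by
    rw [← top_comp]
    have h3 : ((wpow k E).compContinuousLinearMap P) (Pi.basisFun ℝ (Fin (k * 2))) =
        wpow k E (inter J u) := by
      rw [ContinuousAlternatingMap.compContinuousLinearMap_apply]
      congr 1
      funext l
      rw [Function.comp_apply, Pi.basisFun_apply, hP]
    rw [h3]
    exact hF
  -- the space spanned by `v`, `i v` and the fibre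
  let B : ℂ × (Fin (k * 2) → ℝ) →L[ℝ] V × (Fin (k * 2) → ℝ) :=
    (((ContinuousLinearMap.toSpanSingleton ℂ v).restrictScalars ℝ).prodMap
      (ContinuousLinearMap.id ℝ (Fin (k * 2) → ℝ)))
  have hB : ∀ z s, B (z, s) = (z • v, s) := fun z s => rfl
  let J' : ℂ × (Fin (k * 2) → ℝ) →L[ℝ] ℂ × (Fin (k * 2) → ℝ) := (mulI ℂ).prodMap J
  have hJ' : ∀ z s, J' (z, s) = (Complex.I * z, J s) := fun z s => rfl
  have hBJ : ∀ ξ, B (J' ξ) = (mulI V (B ξ).1, J (B ξ).2) := by
    rintro ⟨z, s⟩
    rw [hJ', hB, hB]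
    refine Prod.ext ?_ rfl
    show (Complex.I * z) • v = Complex.I • (z • v)
    rw [mul_smul]
  have hBinj : ∀ ξ, ξ ≠ 0 → B ξ ≠ 0 := by
    rintro ⟨z, s⟩ hξ h
    rw [hB, Prod.mk_eq_zero] at h
    apply hξ
    rcases smul_eq_zero.1 h.1 with h3 | h3
    · rw [h3, h.2]
      rfl
    · exact absurd h3 hv
  have hfr' : Module.finrank ℝ (ℂ × (Fin (k * 2) → ℝ)) = (k + 1) * 2 := by
    rw [Module.finrank_prod, hfr, Complex.finrank_real_complex]
    ring
  let u' : Fin (k + 1) → ℂ × (Fin (k * 2) → ℝ) := Fin.cons (1, 0) fun i => (0, u i)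
  have hu' : LinearIndependent ℝ (inter J' u') := by
    rw [Fintype.linearIndependent_iff] at hu ⊢
    intro c hc
    have hc' : ∑ p : Fin (k + 1) × Fin 2,
        c (finProdFinEquiv p) • (if p.2 = 0 then u' p.1 else J' (u' p.1)) = 0 := by
      rw [← hc, ← Equiv.sum_comp finProdFinEquiv]
      refine Finset.sum_congr rfl fun p _ => ?_
      simp only [inter, Equiv.symm_apply_apply]
    rw [Fintype.sum_prod_type, Fin.sum_univ_succ] at hc'
    simp only [Fin.sum_univ_two, if_true, Fin.isValue, one_ne_zero, if_false] at hc'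
    have hu0 : u' 0 = (1, 0) := rfl
    have hus : ∀ i : Fin k, u' i.succ = (0, u i) := fun i => rfl
    simp only [hu0, hus, hJ', mul_one, map_zero, mul_zero] at hc'
    have hfst := congrArg Prod.fst hc'
    have hsnd := congrArg Prod.snd hc'
    simp only [Prod.fst_add, Prod.smul_fst, Prod.fst_sum, smul_zero, add_zero,
      Finset.sum_const_zero, Prod.fst_zero] at hfst
    simp only [Prod.snd_add, Prod.smul_snd, Prod.snd_sum, smul_zero, zero_add,
      Prod.snd_zero] at hsnd
    have hre := congrArg Complex.re hfst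
    have him := congrArg Complex.im hfst
    simp at hre him
    have hrest : ∀ l : Fin (k * 2), c (Fin.cast (tup_cast k).symm l.succ.succ) = 0 := by
      refine hu (fun l : Fin (k * 2) => c (Fin.cast (tup_cast k).symm l.succ.succ)) ?_
      rw [← hsnd, ← Equiv.sum_comp finProdFinEquiv, Fintype.sum_prod_type]
      refine Finset.sum_congr rfl fun i _ => ?_
      rw [Fin.sum_univ_two]
      have e3 : ∀ s : Fin 2, (Fin.cast (tup_cast k).symm (finProdFinEquiv (i, s)).succ.succ) =
          finProdFinEquiv (i.succ, s) := by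
        intro s
        apply Fin.ext
        simp [finProdFinEquiv]
        ring
      simp only [inter, Equiv.symm_apply_apply, e3, if_true, Fin.isValue, one_ne_zero, if_false]
    intro l
    obtain ⟨l, hl⟩ := l
    rcases l with _ | _ | l
    · have e4 : (⟨0, hl⟩ : Fin ((k + 1) * 2)) = finProdFinEquiv ((0 : Fin (k + 1)), (0 : Fin 2)) := by
        apply Fin.ext
        simp [finProdFinEquiv]
      rw [e4]
      exact hre
    · have e4 : (⟨0 + 1, hl⟩ : Fin ((k + 1) * 2)) =
          finProdFinEquiv ((0 : Fin (k + 1)), (1 : Fin 2)) := by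
        apply Fin.ext
        simp [finProdFinEquiv]
      rw [e4]
      exact him
    · exact hrest ⟨l, by omega⟩
  have hL := wpow_pos_inter hfr' J' (by
      rintro ⟨z, s⟩
      rw [hJ', hJ', hJ, ← mul_assoc, Complex.I_mul_I]
      refine Prod.ext ?_ rfl
      show -1 * z = -z
      ring) (a.compContinuousLinearMap B) (by
      intro ξ η
      rw [ContinuousAlternatingMap.compContinuousLinearMap_apply,
        ContinuousAlternatingMap.compContinuousLinearMap_apply, CtrD_comp2, CtrD_comp2, hBJ, hBJ,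
        h1]) (by
      intro ξ hξ
      rw [ContinuousAlternatingMap.compContinuousLinearMap_apply, CtrD_comp2, hBJ]
      exact h2 _ (hBinj ξ hξ)) u' hu'
  rw [wpow_comp, ContinuousAlternatingMap.compContinuousLinearMap_apply] at hL
  -- comparison with the contraction
  have hctr := ctr_comp (ContinuousLinearMap.id ℝ V) P 0
    ((ContinuousLinearMap.id ℝ V).prodMap P) (fun v s => by
      show (v, P s) = (v, P s + 0)
      rw [add_zero]) (wpow (k + 1) a)
  have hctr2 : ctr ((wpow (k + 1) a).compContinuousLinearMap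
      ((ContinuousLinearMap.id ℝ V).prodMap P)) ![v, mulI V v] =
      wpow (k + 1) a (B ∘ inter J' u') := by
    rw [ctr_apply, ContinuousAlternatingMap.compContinuousLinearMap_apply]
    congr 1
    funext l
    obtain ⟨l, hl⟩ := l
    rcases l with _ | _ | l
    · have e4 : (⟨0, hl⟩ : Fin ((k + 1) * 2)) = finProdFinEquiv ((0 : Fin (k + 1)), (0 : Fin 2)) := by
        apply Fin.ext
        simp [finProdFinEquiv]
      have e5 : (B ∘ inter J' u') ⟨0, hl⟩ = (v, 0) := by
        rw [e4, Function.comp_apply, inter, Equiv.symm_apply_apply, if_pos rfl]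
        show B (1, 0) = (v, 0)
        rw [hB, one_smul]
      rw [e5]
      show (v, P 0) = (v, 0)
      rw [map_zero]
    · have e4 : (⟨0 + 1, hl⟩ : Fin ((k + 1) * 2)) =
          finProdFinEquiv ((0 : Fin (k + 1)), (1 : Fin 2)) := by
        apply Fin.ext
        simp [finProdFinEquiv]
      have e5 : (B ∘ inter J' u') ⟨0 + 1, hl⟩ = (mulI V v, 0) := by
        rw [e4, Function.comp_apply, inter, Equiv.symm_apply_apply, if_neg (by simp)]
        show B (J' (1, 0)) = (mulI V v, 0)
        rw [hJ', hB, mul_one, map_zero]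
        rfl
      rw [e5]
      show (mulI V v, P 0) = (mulI V v, 0)
      rw [map_zero]
    · have hl' : l < k * 2 := by omega
      set p := finProdFinEquiv.symm (⟨l, hl'⟩ : Fin (k * 2)) with hp
      have e4 : (⟨l + 1 + 1, hl⟩ : Fin ((k + 1) * 2)) = finProdFinEquiv (p.1.succ, p.2) := by
        have e6 : (⟨l, hl'⟩ : Fin (k * 2)) = finProdFinEquiv p := by
          rw [hp, Equiv.apply_symm_apply]
        have e7 := congrArg Fin.val e6
        apply Fin.ext
        simp only [finProdFinEquiv_apply_val] at e7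
        simp only [finProdFinEquiv_apply_val, Fin.val_succ]
        omega
      have e5 : (B ∘ inter J' u') ⟨l + 1 + 1, hl⟩ = (0, inter J u ⟨l, hl'⟩) := by
        rw [e4, Function.comp_apply, inter, inter, Equiv.symm_apply_apply, ← hp]
        by_cases hs : p.2 = 0
        · rw [if_pos hs, if_pos hs]
          show B (0, u p.1) = _
          rw [hB, zero_smul]
        · rw [if_neg hs, if_neg hs]
          show B (J' (0, u p.1)) = _
          rw [hJ', hB, mul_zero, zero_smul]
      rw [e5]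
      show ((0 : V), P (Pi.single ⟨l, hl'⟩ 1)) = _
      rw [hP]
  have hdL : 0 < LinearMap.det (P : (Fin (k * 2) → ℝ) →ₗ[ℝ] (Fin (k * 2) → ℝ)) *
      ctr (wpow (k + 1) a) ![v, mulI V v] := by
    rw [← hctr2, hctr] at hL
    exact hL
  have hmul := mul_pos hdF hdL
  have hfin : (LinearMap.det (P : (Fin (k * 2) → ℝ) →ₗ[ℝ] (Fin (k * 2) → ℝ))) ^ 2 *
      (wpow k E (Pi.basisFun ℝ (Fin (k * 2))) * ctr (wpow (k + 1) a) ![v, mulI V v]) =
      LinearMap.det (P : (Fin (k * 2) → ℝ) →ₗ[ℝ] (Fin (k * 2) → ℝ)) *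
      wpow k E (Pi.basisFun ℝ (Fin (k * 2))) *
      (LinearMap.det (P : (Fin (k * 2) → ℝ) →ₗ[ℝ] (Fin (k * 2) → ℝ)) *
      ctr (wpow (k + 1) a) ![v, mulI V v]) := by ring
  rw [← hfin] at hmul
  exact pos_of_mul_pos_right hmul (sq_nonneg _)

end Pool.Agent.Helper80.TF
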