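import Pool.Agent.Helper80.TF.CtrP
import Pool.Agent.Helper80.TF.CtrD
import Pool.Agent.Helper80.TF.CtrPB

/-!
# Positivity of the contraction of a power of a positive form, general degree
-/

open Manifold Set Filter Topology MeasureTheory

set_option linter.unusedSectionVars false

namespace Pool.Agent.Helper80.TF

section

variable {L : Type*} [NormedAddCommGroup L] [NormedSpace ℝ L]

private theorem CtrPD_add (a : L [⋀^Fin 2]→L[ℝ] ℝ) (x y z : L) :
    a ![x + y, z] = a ![x, z] + a ![y, z] := by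
  have h := a.map_update_add ![x, z] 0 x y
  have e : ∀ w : L, Function.update ![x, z] 0 w = ![w, z] := by
    intro w
    ext i
    fin_cases i <;> simp
  rwa [e, e, e] at h

private theorem CtrPD_smul (a : L [⋀^Fin 2]→L[ℝ] ℝ) (c : ℝ) (x z : L) :
    a ![c • x, z] = c * a ![x, z] := by
  have h := a.map_update_smul ![x, z] 0 c x
  have e : ∀ w : L, Function.update ![x, z] 0 w = ![w, z] := by
    intro w
    ext i
    fin_cases i <;> simp
  rw [e, e] at h
  rw [h, smul_eq_mul]

private theorem CtrPD_swap (a : L [⋀^Fin 2]→L[ℝ] ℝ) (x y : L) : a ![x, y] = -a ![y, x] := by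
  have h := a.toAlternatingMap.map_swap ![y, x] (i := 0) (j := 1) (by decide)
  have e : (![y, x] : Fin 2 → L) ∘ (Equiv.swap (0 : Fin 2) 1) = ![x, y] := by
    ext i
    fin_cases i <;> simp
  rw [e] at h
  exact h

private theorem CtrPD_smul' (a : L [⋀^Fin 2]→L[ℝ] ℝ) (c : ℝ) (x z : L) :
    a ![z, c • x] = c * a ![z, x] := by
  rw [CtrPD_swap, CtrPD_smul, CtrPD_swap a z x]
  ring

private theorem CtrPD_neg (a : L [⋀^Fin 2]→L[ℝ] ℝ) (x z : L) : a ![-x, z] = -a ![x, z] := by
  have h := CtrPD_smul a (-1) x z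
  rw [neg_one_smul] at h
  rw [h]
  ring

private theorem CtrPD_self (a : L [⋀^Fin 2]→L[ℝ] ℝ) (x : L) : a ![x, x] = 0 := by
  have h := CtrPD_swap a x x
  linarith

private theorem CtrPD_sum (a : L [⋀^Fin 2]→L[ℝ] ℝ) {ι : Type*} (s : Finset ι) (c : ι → ℝ)
    (f : ι → L) (z : L) : a ![∑ i ∈ s, c i • f i, z] = ∑ i ∈ s, c i * a ![f i, z] := by
  classical
  induction s using Finset.induction_on with
  | empty =>
    rw [Finset.sum_empty, Finset.sum_empty]
    have h := CtrPD_smul a 0 0 z
    rwa [zero_smul, zero_mul] at h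
  | insert i s hi ih =>
    rw [Finset.sum_insert hi, Finset.sum_insert hi, CtrPD_add, CtrPD_smul, ih]

/-- The symplectic basis. -/
private theorem CtrPD_basis (J : L →L[ℝ] L) (hJ : ∀ x, J (J x) = -x)
    (a : L [⋀^Fin 2]→L[ℝ] ℝ) (h1 : ∀ x y, a ![J x, J y] = a ![x, y])
    (h2 : ∀ x, x ≠ 0 → 0 < a ![x, J x]) (k : ℕ) [FiniteDimensional ℝ L]
    (hk : Module.finrank ℝ L = k * 2) (n : ℕ) (hn : n ≤ k) :
    ∃ u : Fin n → L, (∀ i j, a ![u i, u j] = 0) ∧
      ∀ i j, a ![u i, J (u j)] = if i = j then 1 else 0 := by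
  induction n with
  | zero => exact ⟨fun i => i.elim0, fun i => i.elim0, fun i => i.elim0⟩
  | succ n ih =>
    obtain ⟨u, hu1, hu2⟩ := ih (by omega)
    let φ : L →ₗ[ℝ] (Fin n × Fin 2 → ℝ) :=
      { toFun := fun x p => a ![x, if p.2 = 0 then u p.1 else J (u p.1)]
        map_add' := fun x y => by
          funext p
          exact CtrPD_add a _ _ _
        map_smul' := fun c x => by
          funext p
          exact CtrPD_smul a _ _ _ }
    have hker : LinearMap.ker φ ≠ ⊥ := by
      apply LinearMap.ker_ne_bot_of_finrank_lt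
      rw [Module.finrank_fintype_fun_eq_card, Fintype.card_prod, Fintype.card_fin,
        Fintype.card_fin, hk]
      omega
    obtain ⟨x, hx, hx0⟩ := Submodule.exists_mem_ne_zero_of_ne_bot hker
    have hx1 : ∀ i, a ![x, u i] = 0 := by
      intro i
      have := congrFun (LinearMap.mem_ker.1 hx) (i, 0)
      exact this
    have hx2 : ∀ i, a ![x, J (u i)] = 0 := by
      intro i
      have := congrFun (LinearMap.mem_ker.1 hx) (i, 1)
      exact this
    have hpos := h2 x hx0
    set c : ℝ := (Real.sqrt (a ![x, J x]))⁻¹ with hc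
    have hc2 : c * (c * a ![x, J x]) = 1 := by
      rw [hc, ← mul_assoc, ← mul_inv, Real.mul_self_sqrt hpos.le, inv_mul_cancel₀ hpos.ne']
    have hx3 : ∀ i, a ![u i, J x] = 0 := by
      intro i
      rw [← h1, hJ, CtrPD_swap, CtrPD_neg, hx2]
      simp
    refine ⟨Fin.cons (c • x) u, ?_, ?_⟩
    · intro i j
      refine Fin.cases ?_ (fun i => ?_) i
      · refine Fin.cases ?_ (fun j => ?_) j
        · exact CtrPD_self a _
        · rw [Fin.cons_zero, Fin.cons_succ, CtrPD_smul, hx1, mul_zero]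
      · refine Fin.cases ?_ (fun j => ?_) j
        · rw [Fin.cons_zero, Fin.cons_succ, CtrPD_smul', CtrPD_swap, hx1]
          simp
        · rw [Fin.cons_succ, Fin.cons_succ]
          exact hu1 i j
    · intro i j
      refine Fin.cases ?_ (fun i => ?_) i
      · refine Fin.cases ?_ (fun j => ?_) j
        · rw [Fin.cons_zero, map_smul, CtrPD_smul, CtrPD_smul', hc2, if_pos rfl]
        · rw [Fin.cons_zero, Fin.cons_succ, CtrPD_smul, hx2, mul_zero,
            if_neg (Fin.succ_ne_zero j).symm]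
      · refine Fin.cases ?_ (fun j => ?_) j
        · rw [Fin.cons_zero, Fin.cons_succ, map_smul, CtrPD_smul', hx3, mul_zero,
            if_neg (Fin.succ_ne_zero i)]
        · rw [Fin.cons_succ, Fin.cons_succ, hu2]
          simp only [Fin.succ_inj]

/-- The symplectic basis is linearly independent. -/
private theorem CtrPD_indep {k : ℕ} (J : L →L[ℝ] L) (a : L [⋀^Fin 2]→L[ℝ] ℝ)
    (h1 : ∀ x y, a ![J x, J y] = a ![x, y]) (u : Fin k → L) (hu1 : ∀ i j, a ![u i, u j] = 0)
    (hu2 : ∀ i j, a ![u i, J (u j)] = if i = j then 1 else 0) :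
    LinearIndependent ℝ (inter J u) := by
  rw [Fintype.linearIndependent_iff]
  intro c hc
  have hc' : ∑ p : Fin k × Fin 2, c (finProdFinEquiv p) • (if p.2 = 0 then u p.1 else J (u p.1)) =
      0 := by
    rw [← hc, ← Equiv.sum_comp finProdFinEquiv]
    refine Finset.sum_congr rfl fun p _ => ?_
    simp only [inter, Equiv.symm_apply_apply]
  have key : ∀ p : Fin k × Fin 2, c (finProdFinEquiv p) = 0 := by
    rintro ⟨j, s⟩
    have hz : ∀ z : L, ∑ p : Fin k × Fin 2,
        c (finProdFinEquiv p) * a ![if p.2 = 0 then u p.1 else J (u p.1), z] = 0 := by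
      intro z
      rw [← CtrPD_sum, hc']
      have h := CtrPD_smul a 0 0 z
      rwa [zero_smul, zero_mul] at h
    fin_cases s
    · have h := hz (J (u j))
      rw [Fintype.sum_prod_type] at h
      simp only [Fin.sum_univ_two, if_true, Fin.isValue, one_ne_zero, if_false, hu2, h1, hu1,
        mul_zero, add_zero, mul_ite, mul_one, Finset.sum_ite_eq', Finset.mem_univ] at h
      exact h
    · have h := hz (u j)
      rw [Fintype.sum_prod_type] at h
      have h3 : ∀ i, a ![J (u i), u j] = if i = j then -1 else 0 := by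
        intro i
        rw [CtrPD_swap, hu2]
        by_cases hij : i = j
        · rw [if_pos hij, if_pos hij.symm]
        · rw [if_neg hij, if_neg (fun h => hij h.symm), neg_zero]
      simp only [Fin.sum_univ_two, if_true, Fin.isValue, one_ne_zero, if_false, h3, hu1,
        mul_zero, zero_add, mul_ite, mul_neg, mul_one, Finset.sum_ite_eq', Finset.mem_univ,
        neg_eq_zero] at h
      exact h
  intro l
  have h := key (finProdFinEquiv.symm l)
  rwa [Equiv.apply_symm_apply] at h

private theorem CtrPD_comp2 {L L' : Type*} (A : L → L') (a b : L) : A ∘ ![a, b] = ![A a, A b] := by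
  funext j
  fin_cases j <;> rfl

private theorem CtrPD_vec2 {L : Type*} (v : Fin 2 → L) : v = ![v 0, v 1] := by
  funext j
  fin_cases j <;> rfl

end


private theorem CtrPD_inter_left {k p : ℕ} {L : Type*} (J : L → L) (f : Fin p → L) (g : Fin k → L)
    (m : Fin (p * 2)) :
    inter J (fun i : Fin (k + p) => Fin.append f g (Fin.cast (Nat.add_comm k p) i))
      (Fin.cast (tupP_cast k p).symm (Fin.castAdd (k * 2) m)) = inter J f m := by
  obtain ⟨⟨j, s⟩, rfl⟩ := finProdFinEquiv.surjective m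
  have e1 : (Fin.cast (tupP_cast k p).symm (Fin.castAdd (k * 2) (finProdFinEquiv (j, s)))) =
      finProdFinEquiv (Fin.cast (Nat.add_comm k p).symm (Fin.castAdd k j), s) := by
    apply Fin.ext
    simp [finProdFinEquiv]
  rw [e1]
  simp only [inter, Equiv.symm_apply_apply, Fin.cast_cast, Fin.cast_eq_self, Fin.append_left]

private theorem CtrPD_inter_right {k p : ℕ} {L : Type*} (J : L → L) (f : Fin p → L)
    (g : Fin k → L) (m : Fin (k * 2)) :
    inter J (fun i : Fin (k + p) => Fin.append f g (Fin.cast (Nat.add_comm k p) i))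
      (Fin.cast (tupP_cast k p).symm (Fin.natAdd (p * 2) m)) = inter J g m := by
  obtain ⟨⟨j, s⟩, rfl⟩ := finProdFinEquiv.surjective m
  have e1 : (Fin.cast (tupP_cast k p).symm (Fin.natAdd (p * 2) (finProdFinEquiv (j, s)))) =
      finProdFinEquiv (Fin.cast (Nat.add_comm k p).symm (Fin.natAdd p j), s) := by
    apply Fin.ext
    simp [finProdFinEquiv]
    ring
  rw [e1]
  simp only [inter, Equiv.symm_apply_apply, Fin.cast_cast, Fin.cast_eq_self, Fin.append_right]

variable {k p : ℕ} {V : Type*} [NormedAddCommGroup V] [NormedSpace ℂ V]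

/-- Compare `ctr_wpow_pos`.  Choose a basis `w_0, J w_0, …` of the fibre and write the standard
basis as its image under `P`.  Then both factors are `det P` times a positive number, by
`wpow_pos_inter` for the fibre and for the space spanned by the `u_j`, `i u_j` and the fibre (the
tuple `(u_0, 0), (i u_0, 0), …, (0, w_0), (0, J w_0), …` is `inter` of `(u_j, 0), (0, w_j)`). -/
theorem ctrP_wpow_pos (J : (Fin (k * 2) → ℝ) →L[ℝ] (Fin (k * 2) → ℝ)) (hJ : ∀ x, J (J x) = -x)
    (E : (Fin (k * 2) → ℝ) [⋀^Fin 2]→L[ℝ] ℝ) (e1 : ∀ x y, E ![J x, J y] = E ![x, y])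
    (e2 : ∀ x, x ≠ 0 → 0 < E ![x, J x])
    (a : (V × (Fin (k * 2) → ℝ)) [⋀^Fin 2]→L[ℝ] ℝ)
    (h1 : ∀ ξ η : V × (Fin (k * 2) → ℝ), a ![(mulI V ξ.1, J ξ.2), (mulI V η.1, J η.2)] = a ![ξ, η])
    (h2 : ∀ ξ : V × (Fin (k * 2) → ℝ), ξ ≠ 0 → 0 < a ![ξ, (mulI V ξ.1, J ξ.2)])
    {u : Fin p → V} (hu : LinearIndependent ℝ (inter (mulI V) u)) :
    0 < wpow k E (Pi.basisFun ℝ (Fin (k * 2))) *
      ctrP (wpow (k + p) a) (inter (mulI V) u) := by
  have hfr : Module.finrank ℝ (Fin (k * 2) → ℝ) = k * 2 := by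
    rw [Module.finrank_fintype_fun_eq_card, Fintype.card_fin]
  obtain ⟨w, hw1, hw2⟩ := CtrPD_basis J hJ E e1 e2 k hfr k le_rfl
  have hw := CtrPD_indep J E e1 w hw1 hw2
  -- the fibre
  have hF := wpow_pos_inter hfr J hJ E e1 e2 w hw
  let P : (Fin (k * 2) → ℝ) →L[ℝ] (Fin (k * 2) → ℝ) :=
    LinearMap.toContinuousLinearMap ((Pi.basisFun ℝ (Fin (k * 2))).constr ℝ (inter J w))
  have hP : ∀ l, P (Pi.single l 1) = inter J w l := by
    intro l
    have h := (Pi.basisFun ℝ (Fin (k * 2))).constr_basis ℝ (inter J w) l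
    rw [Pi.basisFun_apply] at h
    exact h
  have hdF : 0 < LinearMap.det (P : (Fin (k * 2) → ℝ) →ₗ[ℝ] (Fin (k * 2) → ℝ)) *
      wpow k E (Pi.basisFun ℝ (Fin (k * 2))) := by
    rw [← top_comp]
    have h3 : ((wpow k E).compContinuousLinearMap P) (Pi.basisFun ℝ (Fin (k * 2))) =
        wpow k E (inter J w) := by
      rw [ContinuousAlternatingMap.compContinuousLinearMap_apply]
      congr 1
      funext l
      rw [Function.comp_apply, Pi.basisFun_apply, hP]
    rw [h3]
    exact hF
  -- the space spanned by the `u_j`, `i u_j` and the fibre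
  let T : (Fin p → ℂ) →L[ℝ] V := ∑ j, ((ContinuousLinearMap.toSpanSingleton ℂ (u j)).comp
    (ContinuousLinearMap.proj j : (Fin p → ℂ) →L[ℂ] ℂ)).restrictScalars ℝ
  have hT : ∀ z, T z = ∑ j, z j • u j := by
    intro z
    simp [T]
  let B : (Fin p → ℂ) × (Fin (k * 2) → ℝ) →L[ℝ] V × (Fin (k * 2) → ℝ) :=
    T.prodMap (ContinuousLinearMap.id ℝ (Fin (k * 2) → ℝ))
  have hB : ∀ z s, B (z, s) = (T z, s) := fun z s => rfl
  let JC : (Fin p → ℂ) →L[ℝ] (Fin p → ℂ) := Complex.I • ContinuousLinearMap.id ℝ (Fin p → ℂ)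
  have hJC : ∀ z, JC z = Complex.I • z := fun z => rfl
  have hTJ : ∀ z, T (JC z) = mulI V (T z) := by
    intro z
    rw [hT, hT, hJC]
    show ∑ j, (Complex.I • z) j • u j = Complex.I • ∑ j, z j • u j
    rw [Finset.smul_sum]
    refine Finset.sum_congr rfl fun j _ => ?_
    rw [Pi.smul_apply, smul_assoc]
  let J' : (Fin p → ℂ) × (Fin (k * 2) → ℝ) →L[ℝ] (Fin p → ℂ) × (Fin (k * 2) → ℝ) := JC.prodMap J
  have hJ' : ∀ z s, J' (z, s) = (JC z, J s) := fun z s => rfl
  have hBJ : ∀ ξ, B (J' ξ) = (mulI V (B ξ).1, J (B ξ).2) := by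
    rintro ⟨z, s⟩
    rw [hJ', hB, hB, hTJ]
  have hTe : ∀ j, T (Pi.single j 1) = u j := by
    intro j
    rw [hT, Finset.sum_eq_single j]
    · rw [Pi.single_eq_same, one_smul]
    · intro i _ hi
      rw [Pi.single_eq_of_ne hi, zero_smul]
    · intro h
      exact absurd (Finset.mem_univ _) h
  have hTi : ∀ l, T (inter JC (fun j : Fin p => (Pi.single j 1 : Fin p → ℂ)) l) =
      inter (mulI V) u l := by
    intro l
    unfold inter
    split_ifs
    · exact hTe _
    · rw [hTJ, hTe]
  have hTinj : ∀ z, T z = 0 → z = 0 := by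
    intro z hz
    rw [Fintype.linearIndependent_iff] at hu
    have h3 := hu (fun l => if (finProdFinEquiv.symm l).2 = 0 then
      (z (finProdFinEquiv.symm l).1).re else (z (finProdFinEquiv.symm l).1).im) (by
        rw [← hz, hT, ← Equiv.sum_comp finProdFinEquiv, Fintype.sum_prod_type]
        refine Finset.sum_congr rfl fun j _ => ?_
        rw [Fin.sum_univ_two]
        simp only [inter, Equiv.symm_apply_apply, if_true, Fin.isValue, one_ne_zero, if_false]
        show (z j).re • u j + (z j).im • (Complex.I • u j) = z j • u j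
        conv_rhs => rw [← Complex.re_add_im (z j)]
        rw [add_smul, mul_smul]
        rfl)
    funext j
    have h4 := h3 (finProdFinEquiv (j, 0))
    have h5 := h3 (finProdFinEquiv (j, 1))
    simp only [Equiv.symm_apply_apply, if_true, Fin.isValue, one_ne_zero, if_false] at h4 h5
    exact Complex.ext h4 h5
  have hBinj : ∀ ξ, ξ ≠ 0 → B ξ ≠ 0 := by
    rintro ⟨z, s⟩ hξ h
    rw [hB, Prod.mk_eq_zero] at h
    apply hξ
    rw [hTinj z h.1, h.2]
    rfl
  have hfr' : Module.finrank ℝ ((Fin p → ℂ) × (Fin (k * 2) → ℝ)) = (k + p) * 2 := by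
    rw [Module.finrank_prod, hfr, Module.finrank_pi_fintype]
    simp only [Complex.finrank_real_complex, Finset.sum_const, Finset.card_univ, Fintype.card_fin,
      smul_eq_mul]
    ring
  let u' : Fin (k + p) → (Fin p → ℂ) × (Fin (k * 2) → ℝ) := fun i =>
    Fin.append (fun j : Fin p => ((Pi.single j 1, 0) : (Fin p → ℂ) × (Fin (k * 2) → ℝ)))
      (fun i => (0, w i)) (Fin.cast (Nat.add_comm k p) i)
  have hleft : ∀ m : Fin (p * 2), inter J' u' (Fin.cast (tupP_cast k p).symm
      (Fin.castAdd (k * 2) m)) =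
      (inter JC (fun j : Fin p => (Pi.single j 1 : Fin p → ℂ)) m, 0) := by
    intro m
    show inter J' (fun i : Fin (k + p) => Fin.append
      (fun j : Fin p => ((Pi.single j 1, 0) : (Fin p → ℂ) × (Fin (k * 2) → ℝ)))
      (fun i => (0, w i)) (Fin.cast (Nat.add_comm k p) i)) _ = _
    rw [CtrPD_inter_left]
    unfold inter
    split_ifs
    · rfl
    · rw [hJ', map_zero]
  have hright : ∀ m : Fin (k * 2), inter J' u' (Fin.cast (tupP_cast k p).symm
      (Fin.natAdd (p * 2) m)) = (0, inter J w m) := by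
    intro m
    show inter J' (fun i : Fin (k + p) => Fin.append
      (fun j : Fin p => ((Pi.single j 1, 0) : (Fin p → ℂ) × (Fin (k * 2) → ℝ)))
      (fun i => (0, w i)) (Fin.cast (Nat.add_comm k p) i)) _ = _
    rw [CtrPD_inter_right]
    unfold inter
    split_ifs
    · rfl
    · rw [hJ', map_zero]
  have hu' : LinearIndependent ℝ (inter J' u') := by
    rw [Fintype.linearIndependent_iff] at hu hw ⊢
    intro c hc
    rw [← Equiv.sum_comp (finCongr (tupP_cast k p).symm), Fin.sum_univ_add] at hc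
    simp only [finCongr_apply, hleft, hright] at hc
    have hfst := congrArg (fun ξ => T ξ.1) hc
    have hsnd := congrArg Prod.snd hc
    simp only [Prod.fst_add, Prod.fst_sum, Prod.smul_fst, smul_zero, Finset.sum_const_zero,
      add_zero, map_sum, map_smul, hTi, Prod.fst_zero, map_zero] at hfst
    simp only [Prod.snd_add, Prod.snd_sum, Prod.smul_snd, smul_zero, Finset.sum_const_zero,
      zero_add, Prod.snd_zero] at hsnd
    have h3 := hu _ hfst
    have h4 := hw _ hsnd
    intro l
    obtain ⟨l', rfl⟩ : ∃ l', l = Fin.cast (tupP_cast k p).symm l' :=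
      ⟨Fin.cast (tupP_cast k p) l, by simp⟩
    induction l' using Fin.addCases with
    | left j => exact h3 j
    | right j => exact h4 j
  have hL := wpow_pos_inter hfr' J' (by
      rintro ⟨z, s⟩
      rw [hJ', hJ', hJ, hJC, hJC, ← mul_smul, Complex.I_mul_I]
      refine Prod.ext ?_ rfl
      show (-1 : ℂ) • z = -z
      rw [neg_one_smul]) (a.compContinuousLinearMap B) (by
      intro ξ η
      rw [ContinuousAlternatingMap.compContinuousLinearMap_apply,
        ContinuousAlternatingMap.compContinuousLinearMap_apply, CtrPD_comp2, CtrPD_comp2, hBJ, hBJ,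
        h1]) (by
      intro ξ hξ
      rw [ContinuousAlternatingMap.compContinuousLinearMap_apply, CtrPD_comp2, hBJ]
      exact h2 _ (hBinj ξ hξ)) u' hu'
  rw [wpow_comp, ContinuousAlternatingMap.compContinuousLinearMap_apply] at hL
  -- comparison with the contraction
  have hctr := ctrP_comp (ContinuousLinearMap.id ℝ V) P 0
    ((ContinuousLinearMap.id ℝ V).prodMap P) (fun v s => by
      show (v, P s) = (v, P s + 0)
      rw [add_zero]) (wpow (k + p) a)
  have hctr2 : ctrP ((wpow (k + p) a).compContinuousLinearMap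
      ((ContinuousLinearMap.id ℝ V).prodMap P)) (inter (mulI V) u) =
      wpow (k + p) a (B ∘ inter J' u') := by
    rw [ctrP_apply, ContinuousAlternatingMap.compContinuousLinearMap_apply]
    congr 1
    funext l
    obtain ⟨l', rfl⟩ : ∃ l', l = Fin.cast (tupP_cast k p).symm l' :=
      ⟨Fin.cast (tupP_cast k p) l, by simp⟩
    induction l' using Fin.addCases with
    | left j =>
      rw [Function.comp_apply, Function.comp_apply, hleft, hB, hTi]
      have e5 : tupP (fun i => ((inter (mulI V) u i, 0) : V × (Fin (k * 2) → ℝ)))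
          (Fin.cast (tupP_cast k p).symm (Fin.castAdd (k * 2) j)) = (inter (mulI V) u j, 0) := by
        simp [tupP]
      rw [e5]
      show (_, P 0) = (_, (0 : Fin (k * 2) → ℝ))
      rw [map_zero]
      rfl
    | right j =>
      rw [Function.comp_apply, Function.comp_apply, hright, hB, map_zero]
      have e5 : tupP (fun i => ((inter (mulI V) u i, 0) : V × (Fin (k * 2) → ℝ)))
          (Fin.cast (tupP_cast k p).symm (Fin.natAdd (p * 2) j)) = (0, Pi.single j 1) := by
        simp [tupP, eb]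
      rw [e5]
      show ((0 : V), P (Pi.single j 1)) = _
      rw [hP]
  have hdL : 0 < LinearMap.det (P : (Fin (k * 2) → ℝ) →ₗ[ℝ] (Fin (k * 2) → ℝ)) *
      ctrP (wpow (k + p) a) (inter (mulI V) u) := by
    rw [← hctr2, hctr] at hL
    exact hL
  have hmul := mul_pos hdF hdL
  have hfin : (LinearMap.det (P : (Fin (k * 2) → ℝ) →ₗ[ℝ] (Fin (k * 2) → ℝ))) ^ 2 *
      (wpow k E (Pi.basisFun ℝ (Fin (k * 2))) * ctrP (wpow (k + p) a) (inter (mulI V) u)) =
      LinearMap.det (P : (Fin (k * 2) → ℝ) →ₗ[ℝ] (Fin (k * 2) → ℝ)) *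
      wpow k E (Pi.basisFun ℝ (Fin (k * 2))) *
      (LinearMap.det (P : (Fin (k * 2) → ℝ) →ₗ[ℝ] (Fin (k * 2) → ℝ)) *
      ctrP (wpow (k + p) a) (inter (mulI V) u)) := by ring
  rw [← hfin] at hmul
  exact pos_of_mul_pos_right hmul (sq_nonneg _)

end Pool.Agent.Helper80.TF
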