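import Mathlib

/-!
# Smoothness of form-valued functions
-/

open Set Filter Topology

namespace Pool.Agent.Helper80.TF

variable {E F G : Type*} [NormedAddCommGroup E] [NormedSpace ℝ E] [NormedAddCommGroup F]
  [NormedSpace ℝ F] [NormedAddCommGroup G] [NormedSpace ℝ G]

/-- The alternatization, as a continuous linear map. -/
noncomputable def altCLM (E G : Type*) [NormedAddCommGroup E] [NormedSpace ℝ E]
    [NormedAddCommGroup G] [NormedSpace ℝ G] (k : ℕ) :
    ContinuousMultilinearMap ℝ (fun _ : Fin k => E) G →L[ℝ] E [⋀^Fin k]→L[ℝ] G :=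
  LinearMap.mkContinuous
    { toFun := fun f => ContinuousMultilinearMap.alternatization f
      map_add' := fun f g => map_add _ f g
      map_smul' := by
        intro c f
        ext v
        simp only [ContinuousMultilinearMap.alternatization_apply_apply, RingHom.id_apply,
          ContinuousMultilinearMap.smul_apply, ContinuousAlternatingMap.smul_apply,
          Finset.smul_sum]
        refine Finset.sum_congr rfl fun σ _ => ?_
        rw [smul_comm] }
    (Fintype.card (Equiv.Perm (Fin k)))
    (by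
      intro f
      refine ContinuousAlternatingMap.opNorm_le_bound _ (by positivity) fun v => ?_
      change ‖ContinuousMultilinearMap.alternatization f v‖ ≤ _
      rw [ContinuousMultilinearMap.alternatization_apply_apply]
      refine (norm_sum_le _ _).trans ?_
      have h : ∀ σ ∈ (Finset.univ : Finset (Equiv.Perm (Fin k))),
          ‖Equiv.Perm.sign σ • f (v ∘ σ)‖ ≤ ‖f‖ * ∏ i, ‖v i‖ := by
        intro σ _
        have h1 : ‖Equiv.Perm.sign σ • f (v ∘ σ)‖ = ‖f (v ∘ σ)‖ := by
          rcases Int.units_eq_one_or (Equiv.Perm.sign σ) with h | h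
          · rw [h, one_smul]
          · rw [h, Units.neg_smul, one_smul, norm_neg]
        rw [h1]
        refine (f.le_opNorm _).trans_eq ?_
        congr 1
        exact Equiv.prod_comp σ fun i => ‖v i‖
      refine (Finset.sum_le_sum h).trans_eq ?_
      rw [Finset.sum_const, Finset.card_univ, nsmul_eq_mul, mul_assoc])

theorem altCLM_apply {k : ℕ} (f : ContinuousMultilinearMap ℝ (fun _ : Fin k => E) G) :
    altCLM E G k f = ContinuousMultilinearMap.alternatization f := rfl

theorem altCLM_toCM {k : ℕ} (a : E [⋀^Fin k]→L[ℝ] G) :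
    altCLM E G k a.toContinuousMultilinearMap = (Nat.factorial k : ℝ) • a := by
  ext v
  rw [altCLM_apply, ContinuousMultilinearMap.alternatization_apply_apply,
    ContinuousAlternatingMap.smul_apply]
  have h : ∀ σ ∈ (Finset.univ : Finset (Equiv.Perm (Fin k))),
      Equiv.Perm.sign σ • a.toContinuousMultilinearMap (v ∘ σ) = a v := by
    intro σ _
    have h1 : a.toContinuousMultilinearMap (v ∘ σ) = a.toAlternatingMap (v ∘ σ) := rfl
    have h2 : a v = a.toAlternatingMap v := rfl
    rw [h1, h2, AlternatingMap.map_perm, smul_smul]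
    have h3 : Equiv.Perm.sign σ * Equiv.Perm.sign σ = 1 := Int.units_mul_self _
    rw [h3, one_smul]
  rw [Finset.sum_congr rfl h, Finset.sum_const, Finset.card_univ, Fintype.card_perm,
    Fintype.card_fin, Nat.cast_smul_eq_nsmul]

/-- A form-valued function is smooth if it is smooth as a function with values in multilinear
maps. -/
theorem contDiffOn_of_toCM {X : Type*} [NormedAddCommGroup X] [NormedSpace ℝ X] {k : ℕ}
    {n : WithTop ℕ∞} {g : X → E [⋀^Fin k]→L[ℝ] G} {s : Set X}
    (h : ContDiffOn ℝ n (fun x => (g x).toContinuousMultilinearMap) s) : ContDiffOn ℝ n g s := by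
  have h1 : g = fun x => (Nat.factorial k : ℝ)⁻¹ •
      altCLM E G k (g x).toContinuousMultilinearMap := by
    funext x
    rw [altCLM_toCM, smul_smul, inv_mul_cancel₀ (by positivity), one_smul]
  rw [h1]
  exact (((altCLM E G k).contDiff.comp_contDiffOn h).const_smul _)

theorem contDiffOn_toCM {X : Type*} [NormedAddCommGroup X] [NormedSpace ℝ X] {k : ℕ}
    {n : WithTop ℕ∞} {g : X → E [⋀^Fin k]→L[ℝ] G} {s : Set X} (h : ContDiffOn ℝ n g s) :
    ContDiffOn ℝ n (fun x => (g x).toContinuousMultilinearMap) s :=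
  (ContinuousAlternatingMap.toContinuousMultilinearMapCLM ℝ :
    (E [⋀^Fin k]→L[ℝ] G) →L[ℝ] _).contDiff.comp_contDiffOn h

/-- The pullback of a form depends smoothly on the form and on the linear map. -/
theorem contDiffOn_compAlt {X : Type*} [NormedAddCommGroup X] [NormedSpace ℝ X] {k : ℕ}
    {n : WithTop ℕ∞} {g : X → F [⋀^Fin k]→L[ℝ] G} {A : X → E →L[ℝ] F} {s : Set X}
    (hg : ContDiffOn ℝ n g s) (hA : ContDiffOn ℝ n A s) :
    ContDiffOn ℝ n (fun x => (g x).compContinuousLinearMap (A x)) s := by
  apply contDiffOn_of_toCM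
  have h1 := contDiffOn_toCM hg
  have h2 : ContDiffOn ℝ n (fun x =>
      ContinuousMultilinearMap.compContinuousLinearMapContinuousMultilinear ℝ
        (fun _ : Fin k => E) (fun _ : Fin k => F) G (fun _ => A x)) s :=
    (ContinuousMultilinearMap.contDiff _).comp_contDiffOn (contDiffOn_pi.2 fun _ => hA)
  exact h2.clm_apply h1

/-- Evaluation of a form-valued function on vectors which depend on the point. -/
theorem contDiffOn_alt_apply {X : Type*} [NormedAddCommGroup X] [NormedSpace ℝ X] {k : ℕ}
    {n : WithTop ℕ∞} {g : X → E [⋀^Fin k]→L[ℝ] G} {v : X → Fin k → E} {s : Set X}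
    (hg : ContDiffOn ℝ n g s) (hv : ∀ i, ContDiffOn ℝ n (fun x => v x i) s) :
    ContDiffOn ℝ n (fun x => g x (v x)) s := by
  have h1 := contDiffOn_toCM hg
  have hA : ∀ i, ContDiffOn ℝ n (fun x => ContinuousLinearMap.toSpanSingleton ℝ (v x i)) s :=
    fun i => (ContinuousLinearMap.toSpanSingletonCLE (𝕜 := ℝ) (E := E)).contDiff.comp_contDiffOn
      (hv i)
  have h2 : ContDiffOn ℝ n (fun x =>
      ContinuousMultilinearMap.compContinuousLinearMapContinuousMultilinear ℝ
        (fun _ : Fin k => ℝ) (fun _ : Fin k => E) G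
        (fun i => ContinuousLinearMap.toSpanSingleton ℝ (v x i))) s :=
    (ContinuousMultilinearMap.contDiff _).comp_contDiffOn (contDiffOn_pi.2 hA)
  have h3 := (ContinuousMultilinearMap.apply ℝ (fun _ : Fin k => ℝ) G
    (fun _ => (1 : ℝ))).contDiff.comp_contDiffOn (h2.clm_apply h1)
  refine h3.congr fun x _ => ?_
  change g x (v x) = (g x) fun i => ContinuousLinearMap.toSpanSingleton ℝ (v x i) (1 : ℝ)
  congr 1
  funext i
  simp

/-- The exterior derivative of a smooth form is smooth. -/
theorem contDiffOn_extDeriv {k : ℕ} {g : E → E [⋀^Fin k]→L[ℝ] G} {s : Set E} (hs : IsOpen s)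
    (hg : ContDiffOn ℝ (⊤ : ℕ∞) g s) : ContDiffOn ℝ (⊤ : ℕ∞) (extDeriv g) s := by
  have h1 : ContDiffOn ℝ (⊤ : ℕ∞) (fderiv ℝ g) s := hg.fderiv_of_isOpen hs (by simp)
  exact (ContinuousAlternatingMap.alternatizeUncurryFinCLM ℝ E G).contDiff.comp_contDiffOn h1

end Pool.Agent.Helper80.TF
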