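import Pool.Agent.Helper80.TF.RootE
import Pool.Agent.Helper80.TF.Smth

/-!
# Smoothness of the root
-/

open Manifold Set Filter Topology MeasureTheory

set_option linter.unusedSectionVars false

namespace Pool.Agent.Helper80.TF

variable {p : ℕ} {V : Type*} [NormedAddCommGroup V] [NormedSpace ℂ V] [FiniteDimensional ℝ V]

section RootFReal

variable {W : Type*} [NormedAddCommGroup W] [NormedSpace ℝ W] [FiniteDimensional ℝ W]

variable (W) in
/-- `toForm` as a linear map. -/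
private noncomputable def RootFL : (W →L[ℝ] W →L[ℝ] ℝ) →ₗ[ℝ] W [⋀^Fin 2]→L[ℝ] ℝ where
  toFun := fun R => toForm R
  map_add' := by
    intro R R'
    ext v
    change (R (v 0) (v 1) + R' (v 0) (v 1) - (R (v 1) (v 0) + R' (v 1) (v 0))) / 2 =
      (R (v 0) (v 1) - R (v 1) (v 0)) / 2 + (R' (v 0) (v 1) - R' (v 1) (v 0)) / 2
    ring
  map_smul' := by
    intro c R
    ext v
    change (c * R (v 0) (v 1) - c * R (v 1) (v 0)) / 2 =
      c * ((R (v 0) (v 1) - R (v 1) (v 0)) / 2)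
    ring

private theorem RootFL_bound (R : W →L[ℝ] W →L[ℝ] ℝ) : ‖RootFL W R‖ ≤ 1 * ‖R‖ := by
  rw [one_mul]
  have h0 : 0 ≤ ‖R‖ := norm_nonneg R
  refine ContinuousAlternatingMap.opNorm_le_bound _ h0 fun v => ?_
  change ‖(R (v 0) (v 1) - R (v 1) (v 0)) / 2‖ ≤ _
  rw [Fin.prod_univ_two, norm_div, Real.norm_two]
  have h1 := R.le_opNorm₂ (v 0) (v 1)
  have h2 := R.le_opNorm₂ (v 1) (v 0)
  have h3 := norm_sub_le (R (v 0) (v 1)) (R (v 1) (v 0))
  linarith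

variable (W) in
/-- `toForm` as a continuous linear map. -/
private noncomputable def RootFT : (W →L[ℝ] W →L[ℝ] ℝ) →L[ℝ] W [⋀^Fin 2]→L[ℝ] ℝ :=
  @LinearMap.mkContinuous ℝ ℝ (W →L[ℝ] W →L[ℝ] ℝ) (W [⋀^Fin 2]→L[ℝ] ℝ) _ _ _ _ _ _ _
    (RootFL W) 1 RootFL_bound

private theorem RootF_comp {A B X : Type*} [NormedAddCommGroup A] [NormedSpace ℝ A]
    [NormedAddCommGroup B] [NormedSpace ℝ B] [NormedAddCommGroup X] [NormedSpace ℝ X]
    (T : A →L[ℝ] B) {R : X → A} {s : Set X} (h : ContDiffOn ℝ (⊤ : ℕ∞) R s) :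
    ContDiffOn ℝ (⊤ : ℕ∞) (fun x => T (R x)) s := T.contDiff.comp_contDiffOn h

private theorem RootF_toForm {X : Type*} [NormedAddCommGroup X] [NormedSpace ℝ X]
    {R : X → W →L[ℝ] W →L[ℝ] ℝ} {s : Set X} (h : ContDiffOn ℝ (⊤ : ℕ∞) R s) :
    ContDiffOn ℝ (⊤ : ℕ∞) (fun x => toForm (R x)) s :=
  @RootF_comp (W →L[ℝ] W →L[ℝ] ℝ) (W [⋀^Fin 2]→L[ℝ] ℝ) X _ _ _ _ _ _ (RootFT W) R s h

private theorem RootF_bdd : IsBoundedSMul ℝ ((W →L[ℝ] ℝ) →L[ℝ] W) :=
  @NormedSpace.toIsBoundedSMul ℝ ((W →L[ℝ] ℝ) →L[ℝ] W) _ _ inferInstance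

private theorem RootF_lm (b : Module.Basis (Fin ((p + 1) * 2)) ℝ W)
    {X : Type*} [NormedAddCommGroup X] [NormedSpace ℝ X] {Θ : X → W [⋀^Fin (p * 2)]→L[ℝ] ℝ}
    {s : Set X} (h : ContDiffOn ℝ (⊤ : ℕ∞) Θ s) :
    ContDiffOn ℝ (⊤ : ℕ∞) (fun x => lm b (Θ x)) s := by
  unfold lm
  refine ContDiffOn.sum fun i _ => ContDiffOn.sum fun σ _ => ?_
  have h1 : ContDiffOn ℝ (⊤ : ℕ∞) (fun x => (Θ x) fun l => b (σ (sh p l))) s :=
    contDiffOn_alt_apply h fun i => contDiffOn_const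
  have h2 : ContDiffOn ℝ (⊤ : ℕ∞) (fun x => ((Equiv.Perm.sign σ : ℤ) : ℝ) *
      (b.coord i (b (σ (tup0 p))) * (Θ x) fun l => b (σ (sh p l)))) s :=
    contDiffOn_const.mul (contDiffOn_const.mul h1)
  have h3 := RootF_bdd (W := W)
  exact h2.smul_const _

end RootFReal

/-- `lm b` is linear in `Θ`, the inverse is smooth on invertible maps
(`ContinuousLinearMap.IsInvertible.contDiffAt_map_inverse`), `toForm` is linear, `wpow` is
smooth (`contDiff_wpow`), and real powers of positive smooth functions are smooth. -/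
theorem contDiffOn_root (hV : Module.finrank ℂ V = p + 1)
    (b : Module.Basis (Fin ((p + 1) * 2)) ℝ V) (hb : Oriented b)
    {X : Type*} [NormedAddCommGroup X] [NormedSpace ℝ X] {Θ : X → V [⋀^Fin (p * 2)]→L[ℝ] ℝ}
    {s : Set X} (hΘ : ∀ x ∈ s, PosTop (Θ x)) (h : ContDiffOn ℝ (⊤ : ℕ∞) Θ s) :
    ContDiffOn ℝ (⊤ : ℕ∞) (fun x => root b (Θ x)) s := by
  have h1 : ContDiffOn ℝ (⊤ : ℕ∞) (fun x => ContinuousLinearMap.inverse (lm b (Θ x))) s := by
    intro x hx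
    exact (ContinuousLinearMap.IsInvertible.contDiffAt_map_inverse
      (lm_invertible hV b hb (hΘ x hx))).comp_contDiffWithinAt x (RootF_lm b h x hx)
  have h2 : ContDiffOn ℝ (⊤ : ℕ∞) (fun x => root1 b (Θ x)) s := RootF_toForm h1
  have h3 : ContDiffOn ℝ (⊤ : ℕ∞) (fun x => cp p * wpow (p + 1) (root1 b (Θ x)) b) s := by
    refine contDiffOn_const.mul ?_
    exact contDiffOn_alt_apply ((contDiff_wpow (p + 1)).comp_contDiffOn h2)
      fun i => contDiffOn_const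
  have hne : ∀ x ∈ s, cp p * wpow (p + 1) (root1 b (Θ x)) b ≠ 0 := by
    intro x hx
    obtain ⟨⟨g1, g2⟩, _⟩ := root1_posForm hV b hb (hΘ x hx)
    refine mul_ne_zero ?_ (wpow_ne_zero b (mulI V) ?_ _ g1 g2)
    · unfold cp
      positivity
    · intro v
      change Complex.I • Complex.I • v = -v
      rw [smul_smul, Complex.I_mul_I, neg_one_smul]
  unfold root
  exact (h3.rpow_const_of_ne hne).smul h2

end Pool.Agent.Helper80.TF
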