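import Pool.Agent.Helper80.TF.BaseB0
import Pool.Agent.Helper80.TF.CtrPB
import Pool.Agent.Helper80.TF.CtrPD
import Pool.Agent.Helper80.TF.RootF

/-!
# A balanced metric defines a closed positive form of degree `2 (dim B - 1)` on the base
-/

open Manifold Set Filter Topology MeasureTheory

set_option linter.unusedSectionVars false

namespace Pool.Agent.Helper80.TF.TorusFibration

variable {k p : ℕ} {V W : Type*} [NormedAddCommGroup V] [NormedSpace ℂ V] [FiniteDimensional ℂ V]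
    [NormedAddCommGroup W] [NormedSpace ℂ W] {B M : Type*} [TopologicalSpace B]
    [ChartedSpace V B] [IsManifold 𝓘(ℂ, V) ⊤ B] [TopologicalSpace M] [ChartedSpace (V × W) M]
    [IsManifold 𝓘(ℂ, V × W) ⊤ M] {f : M → B} (T : TorusFibration (k * 2) V W f)

/-- The form of degree `2 p` on the base: the integral over the fibres of `g ^ (k + p)`,
normalised by the volume of the fibre for the polarisation. -/
noncomputable def topOf (p : ℕ) (E : T.ι → V → (Fin (k * 2) → ℝ) [⋀^Fin 2]→L[ℝ] ℝ)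
    (g : M → (V × W) [⋀^Fin 2]→L[ℝ] ℝ) (i : T.ι) (x : V) : V [⋀^Fin (p * 2)]→L[ℝ] ℝ :=
  (T.vol E i x)⁻¹ • ctrP (T.bar i (fun m => wpow (k + p) (g m)) x)

private theorem BalP_apply (i : T.ι) {g : M → (V × W) [⋀^Fin 2]→L[ℝ] ℝ} (hg : IsHermitian g)
    {x : V} (hx : x ∈ T.D i) (v : Fin ((k + p) * 2) → V × (Fin (k * 2) → ℝ)) :
    T.bar i (fun m => wpow (k + p) (g m)) x v =
      avg fun t => wpow (k + p) (T.flat i g (x, t)) v := by
  have h1 := T.continuous_flat i (smoothForm_wpow (k + p) hg.1) hx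
  have h2 := avg_alt_apply h1 v
  simp only [flat_wpow] at h2
  rw [← h2]
  simp only [bar, flat_wpow]

private theorem BalP_continuous (i : T.ι) {g : M → (V × W) [⋀^Fin 2]→L[ℝ] ℝ}
    (hg : IsHermitian g) {x : V} (hx : x ∈ T.D i)
    (v : Fin ((k + p) * 2) → V × (Fin (k * 2) → ℝ)) :
    Continuous fun t => wpow (k + p) (T.flat i g (x, t)) v := by
  have h1 := T.continuous_flat i (smoothForm_wpow (k + p) hg.1) hx
  simp only [flat_wpow] at h1
  exact (ContinuousAlternatingMap.apply ℝ (V × (Fin (k * 2) → ℝ)) ℝ v).continuous.comp h1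

private theorem BalP_vec2 {L : Type*} (v : Fin 2 → L) : v = ![v 0, v 1] := by
  funext j
  fin_cases j <;> rfl

private theorem BalP_inv (i : T.ι) {g : M → (V × W) [⋀^Fin 2]→L[ℝ] ℝ} (hg : IsHermitian g)
    {x : V} (hx : x ∈ T.D i) :
    (T.bar i (fun m => wpow (k + p) (g m)) x).compContinuousLinearMap
      ((mulI V).prodMap (T.J i x)) = T.bar i (fun m => wpow (k + p) (g m)) x := by
  ext v
  rw [ContinuousAlternatingMap.compContinuousLinearMap_apply, BalP_apply T i hg hx,
    BalP_apply T i hg hx]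
  congr 1
  funext t
  have h1 : (T.flat i g (x, t)).compContinuousLinearMap ((mulI V).prodMap (T.J i x)) =
      T.flat i g (x, t) := by
    ext w
    have h2 := T.flat_inv i hg.2 hx t (w 0) (w 1)
    rw [ContinuousAlternatingMap.compContinuousLinearMap_apply, BalP_vec2 w]
    rw [← h2]
    congr 1
    funext j
    fin_cases j <;> rfl
  conv_rhs => rw [← h1, wpow_comp]
  rfl

private theorem BalP_extDeriv (hk : Module.finrank ℂ (V × W) = k + p + 1)
    {g : M → (V × W) [⋀^Fin 2]→L[ℝ] ℝ} (hb : Balanced g) :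
    ∀ e ∈ holCharts (V × W) M, ∀ q ∈ e.target,
      extDeriv (pull e.symm fun m => wpow (k + p) (g m)) q = 0 := by
  intro e he q hq
  have h := hb e he q hq
  have h1 : Module.finrank ℂ (V × W) - 1 = k + p := by omega
  rw [h1] at h
  have h2 : (pull e.symm fun m => wpow (k + p) (g m)) =
      fun x => wpow (k + p) (pull e.symm g x) := by
    funext x
    exact (wpow_comp (k + p) _ _).symm
  rw [h2]
  exact h

/-- `vol` is locally constant; `contDiffOn_bar`, `smoothForm_wpow`, `contDiffOn_ctrP`. -/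
theorem contDiffOn_topOf {E : T.ι → V → (Fin (k * 2) → ℝ) [⋀^Fin 2]→L[ℝ] ℝ} (hE : T.Polar E)
    {g : M → (V × W) [⋀^Fin 2]→L[ℝ] ℝ} (hg : IsHermitian g) (i : T.ι) :
    ContDiffOn ℝ (⊤ : ℕ∞) (T.topOf p E g i) (T.D i) := by
  haveI hfd : FiniteDimensional ℝ V := FiniteDimensional.complexToReal V
  have hw : SmoothForm fun m => wpow (k + p) (g m) := smoothForm_wpow (k + p) hg.1
  have h1 : ContDiffOn ℝ (⊤ : ℕ∞) (fun x => (T.vol E i x)⁻¹) (T.D i) := by
    intro x hx
    refine ContDiffAt.contDiffWithinAt ?_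
    have h2 : (fun y => (T.vol E i y)⁻¹) =ᶠ[𝓝 x] fun _ => (T.vol E i x)⁻¹ := by
      filter_upwards [T.vol_const hE i hx] with y hy
      rw [hy]
    exact contDiffAt_const.congr_of_eventuallyEq h2
  exact h1.smul (contDiffOn_ctrP (T.contDiffOn_bar i hw))

/-- Compare `baseOf_closed`: `extDeriv_flat`, `extDeriv_avg`, `extDeriv_ctrP`. -/
theorem topOf_closed (hk : Module.finrank ℂ (V × W) = k + p + 1)
    {E : T.ι → V → (Fin (k * 2) → ℝ) [⋀^Fin 2]→L[ℝ] ℝ} (hE : T.Polar E)
    {g : M → (V × W) [⋀^Fin 2]→L[ℝ] ℝ} (hg : IsHermitian g) (hb : Balanced g) (i : T.ι) {x : V}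
    (hx : x ∈ T.D i) : extDeriv (T.topOf p E g i) x = 0 := by
  have hw : SmoothForm fun m => wpow (k + p) (g m) := smoothForm_wpow (k + p) hg.1
  have hD := T.isOpen_D i
  have hdiff : DifferentiableAt ℝ (T.bar i (fun m => wpow (k + p) (g m))) x :=
    ((T.contDiffOn_bar i hw).contDiffAt (hD.mem_nhds hx)).differentiableAt (by simp)
  have hc : extDeriv (fun q : V × (Fin (k * 2) → ℝ) =>
      T.bar i (fun m => wpow (k + p) (g m)) q.1) (x, 0) = 0 := by
    ext w
    have h1 := extDeriv_avg hD (T.contDiffOn_flat i hw) (fun x hx => T.flat_per i _ hx) hx 0 w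
    have h2 : (fun q : V × (Fin (k * 2) → ℝ) => T.bar i (fun m => wpow (k + p) (g m)) q.1) =
        fun q : V × (Fin (k * 2) → ℝ) =>
          avg fun t => T.flat i (fun m => wpow (k + p) (g m)) (q.1, t) := rfl
    rw [h2, h1]
    have h3 : (fun t => extDeriv (T.flat i fun m => wpow (k + p) (g m)) (x, t) w) =
        fun _ => (0 : ℝ) := by
      funext t
      rw [T.extDeriv_flat i hw (BalP_extDeriv hk hb) hx t]
      rfl
    rw [h3, avg_const]
    rfl
  have h0 := extDeriv_ctrP hdiff hc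
  have hev : T.topOf p E g i =ᶠ[𝓝 x] fun y =>
      (T.vol E i x)⁻¹ • ctrP (T.bar i (fun m => wpow (k + p) (g m)) y) := by
    filter_upwards [T.vol_const hE i hx] with y hy
    rw [topOf, hy]
  rw [hev.extDeriv_eq]
  have h5 : extDeriv (fun y => (T.vol E i x)⁻¹ •
      ctrP (p := p) (T.bar i (fun m => wpow (k + p) (g m)) y)) x =
      (T.vol E i x)⁻¹ •
        extDeriv (fun y => ctrP (p := p) (T.bar i (fun m => wpow (k + p) (g m)) y)) x :=
    extDeriv_smul _ _
  rw [h5, h0, smul_zero]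

/-- Compare `baseOf_posForm`: `ctrP_comp` with `det_J_eq_one`, and `ctrP_wpow_pos`. -/
theorem topOf_pos {E : T.ι → V → (Fin (k * 2) → ℝ) [⋀^Fin 2]→L[ℝ] ℝ} (hE : T.Polar E)
    {g : M → (V × W) [⋀^Fin 2]→L[ℝ] ℝ} (hg : IsHermitian g) (i : T.ι) {x : V} (hx : x ∈ T.D i) :
    PosTop (T.topOf p E g i x) := by
  have hinv : ctrP (p := p) (T.bar i (fun m => wpow (k + p) (g m)) x) =
      (ctrP (T.bar i (fun m => wpow (k + p) (g m)) x)).compContinuousLinearMap (mulI V) := by
    have h1 := ctrP_comp (p := p) (mulI V) (T.J i x) 0 ((mulI V).prodMap (T.J i x))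
      (fun v s => by
        rw [ContinuousLinearMap.zero_apply, add_zero]
        rfl) (T.bar i (fun m => wpow (k + p) (g m)) x)
    rw [BalP_inv T i hg hx,
      det_J_eq_one (T.J i x) (T.J_J i x) (E i x) (hE.inv i x hx) (hE.pos i x hx), one_smul] at h1
    exact h1
  refine ⟨?_, fun u hu => ?_⟩
  · ext v
    have h2 := congrArg (fun a : V [⋀^Fin (p * 2)]→L[ℝ] ℝ => a v) hinv
    simp only [ContinuousAlternatingMap.compContinuousLinearMap_apply] at h2
    rw [ContinuousAlternatingMap.compContinuousLinearMap_apply]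
    change (T.vol E i x)⁻¹ • (ctrP (p := p) (T.bar i (fun m => wpow (k + p) (g m)) x)
        (mulI V ∘ v)) =
      (T.vol E i x)⁻¹ • (ctrP (p := p) (T.bar i (fun m => wpow (k + p) (g m)) x) v)
    rw [h2]
  · have hpos : 0 < avg fun t => T.vol E i x *
        wpow (k + p) (T.flat i g (x, t)) (tupP fun l => (inter (mulI V) u l, 0)) := by
      refine avg_pos (continuous_const.mul (BalP_continuous T i hg hx _)) fun t => ?_
      exact ctrP_wpow_pos (T.J i x) (T.J_J i x) (E i x) (hE.inv i x hx) (hE.pos i x hx)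
        (T.flat i g (x, t)) (fun ξ η => T.flat_inv i hg.2 hx t ξ η)
        (fun ξ hξ => T.flat_pos i hg.2 hx t hξ) hu
    have h3 : (avg fun t => T.vol E i x *
        wpow (k + p) (T.flat i g (x, t)) (tupP fun l => (inter (mulI V) u l, 0))) =
        T.vol E i x * ctrP (T.bar i (fun m => wpow (k + p) (g m)) x) (inter (mulI V) u) := by
      rw [ctrP_apply, BalP_apply T i hg hx, avg, avg, integral_const_mul]
    rw [h3] at hpos
    change 0 < (T.vol E i x)⁻¹ •
      (ctrP (T.bar i (fun m => wpow (k + p) (g m)) x) (inter (mulI V) u))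
    rw [smul_eq_mul]
    have h4 := T.vol_ne_zero hE i hx
    have h5 : (T.vol E i x)⁻¹ *
          (ctrP (T.bar i (fun m => wpow (k + p) (g m)) x) (inter (mulI V) u)) =
        ((T.vol E i x) ^ 2)⁻¹ * (T.vol E i x *
          ctrP (T.bar i (fun m => wpow (k + p) (g m)) x) (inter (mulI V) u)) := by
      field_simp
    rw [h5]
    exact mul_pos (inv_pos.2 (by positivity)) hpos

/-- `bar_ftrans`, `ctrP_comp`, `vol_trans`. -/
theorem topOf_trans {E : T.ι → V → (Fin (k * 2) → ℝ) [⋀^Fin 2]→L[ℝ] ℝ} (hE : T.Polar E)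
    {g : M → (V × W) [⋀^Fin 2]→L[ℝ] ℝ} (hg : IsHermitian g) {i j : T.ι} (F : T.FTrans i j)
    {x : V} (hx : x ∈ F.O) : T.topOf p E g i x =
      (T.topOf p E g j (F.a x)).compContinuousLinearMap (fderiv ℝ F.a x) := by
  have hw : SmoothForm fun m => wpow (k + p) (g m) := smoothForm_wpow (k + p) hg.1
  have h1 := T.bar_ftrans F hw hx
  have h2 := ctrP_comp (p := p) (fderiv ℝ F.a x) (F.N : (Fin (k * 2) → ℝ) →L[ℝ] (Fin (k * 2) → ℝ))
    (fderiv ℝ F.σ x) (F.lin x) (fun v s => F.lin_apply x v s)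
    (T.bar j (fun m => wpow (k + p) (g m)) (F.a x))
  rw [← h1] at h2
  have h3 := T.vol_trans hE F hx
  have h4 := T.vol_ne_zero hE i (F.sub hx)
  have h5 := T.vol_ne_zero hE j (F.a_mem hx)
  have h6 : (T.vol E i x)⁻¹ * LinearMap.det ((F.N : (Fin (k * 2) → ℝ) →L[ℝ]
      (Fin (k * 2) → ℝ)) : (Fin (k * 2) → ℝ) →ₗ[ℝ] (Fin (k * 2) → ℝ)) =
      (T.vol E j (F.a x))⁻¹ := by
    rw [h3] at h4 ⊢
    have h7 := left_ne_zero_of_mul h4
    field_simp
  rw [topOf, h2, smul_smul, h6]
  rfl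

end Pool.Agent.Helper80.TF.TorusFibration
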