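import Pool.Agent.Helper80.TF.Core

/-!
# Pullbacks of forms and local biholomorphisms
-/

open Manifold Set Filter Topology MeasureTheory

namespace Pool.Agent.Helper80.TF

variable {E : Type*} [NormedAddCommGroup E] [NormedSpace ℂ E]
variable {M : Type*} [TopologicalSpace M] [ChartedSpace E M] [IsManifold 𝓘(ℂ, E) ⊤ M]

/-- A local biholomorphism is locally the inverse of a holomorphic chart.  (Use
`OpenPartialHomeomorph.mem_maximalAtlas_of_contMDiffOn`.) -/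
theorem exists_chart {q : E → M} {p : E} (hq : IsLocalDiffeomorphAt 𝓘(ℂ, E) 𝓘(ℂ, E) ⊤ q p) :
    ∃ e ∈ holCharts E M, p ∈ e.target ∧ ∀ᶠ y in 𝓝 p, q y = e.symm y := by
  obtain ⟨Φ, hp, heq⟩ := hq
  refine ⟨Φ.toOpenPartialHomeomorph.symm, ?_, hp, ?_⟩
  · exact OpenPartialHomeomorph.mem_maximalAtlas_of_contMDiffOn _ Φ.contMDiffOn_invFun
      Φ.contMDiffOn_toFun
  · filter_upwards [Φ.open_source.mem_nhds hp] with y hy
    exact heq hy

/-- The pullback depends only on the value and the derivative of the map. -/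
private theorem Lift_aux {k : ℕ} (g : M → E [⋀^Fin k]→L[ℝ] ℝ) {m m' : M} {A A' : E →L[ℂ] E}
    (hm : m = m') (hA : A = A') :
    (g m).compContinuousLinearMap (A.restrictScalars ℝ) =
      (g m').compContinuousLinearMap (A'.restrictScalars ℝ) := by
  rw [hm, hA]

theorem pull_congr {k : ℕ} {q q' : E → M} {p : E} (h : ∀ᶠ y in 𝓝 p, q y = q' y)
    (g : M → E [⋀^Fin k]→L[ℝ] ℝ) : ∀ᶠ y in 𝓝 p, pull q g y = pull q' g y := by
  filter_upwards [h.eventually_nhds] with y hy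
  have h1 : q =ᶠ[𝓝 y] q' := hy
  exact Lift_aux g h1.self_of_nhds h1.mfderiv_eq

private theorem Lift_eventually {q q' : E → M} {p p' : E}
    (hq' : IsLocalDiffeomorphAt 𝓘(ℂ, E) 𝓘(ℂ, E) ⊤ q' p') {T : E → E} (hT : ContinuousAt T p)
    (hp : T p = p') (h : ∀ᶠ y in 𝓝 p, q y = q' (T y)) :
    T =ᶠ[𝓝 p] fun y => hq'.localInverse (q y) := by
  have h1 : ∀ᶠ z in 𝓝 (T p), hq'.localInverse (q' z) = z := by
    rw [hp]
    exact hq'.localInverse_eventuallyEq_left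
  filter_upwards [hT.eventually h1, h] with y hy1 hy2
  rw [hy2, hy1]

/-- Proof sketch: `T = (local inverse of q') ∘ q` near `p`. -/
theorem lift_differentiableAt {q q' : E → M} {p p' : E}
    (hq : IsLocalDiffeomorphAt 𝓘(ℂ, E) 𝓘(ℂ, E) ⊤ q p)
    (hq' : IsLocalDiffeomorphAt 𝓘(ℂ, E) 𝓘(ℂ, E) ⊤ q' p') {T : E → E} (hT : ContinuousAt T p)
    (hp : T p = p') (h : ∀ᶠ y in 𝓝 p, q y = q' (T y)) : DifferentiableAt ℂ T p := by
  have h1 := Lift_eventually hq' hT hp h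
  have h2 : q p = q' p' := by
    rw [← hp]
    exact h.self_of_nhds
  have hn : (⊤ : WithTop ℕ∞) ≠ 0 := by simp
  have h3 : MDifferentiableAt 𝓘(ℂ, E) 𝓘(ℂ, E) q p := hq.mdifferentiableAt hn
  have h4 : MDifferentiableAt 𝓘(ℂ, E) 𝓘(ℂ, E) hq'.localInverse (q p) := by
    rw [h2]
    exact hq'.localInverse_mdifferentiableAt hn
  have h5 : MDifferentiableAt 𝓘(ℂ, E) 𝓘(ℂ, E) (fun y => hq'.localInverse (q y)) p :=
    h4.comp p h3
  have h6 : MDifferentiableAt 𝓘(ℂ, E) 𝓘(ℂ, E) T p := h5.congr_of_eventuallyEq h1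
  exact h6.differentiableAt

theorem pull_lift {k : ℕ} {q q' : E → M} {p p' : E}
    (hq : IsLocalDiffeomorphAt 𝓘(ℂ, E) 𝓘(ℂ, E) ⊤ q p)
    (hq' : IsLocalDiffeomorphAt 𝓘(ℂ, E) 𝓘(ℂ, E) ⊤ q' p') {T : E → E} (hT : ContinuousAt T p)
    (hp : T p = p') (h : ∀ᶠ y in 𝓝 p, q y = q' (T y)) (g : M → E [⋀^Fin k]→L[ℝ] ℝ) :
    pull q g p = (pull q' g p').compContinuousLinearMap
      ((fderiv ℂ T p).restrictScalars ℝ) := by
  have hT' := lift_differentiableAt hq hq' hT hp h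
  subst hp
  have hn : (⊤ : WithTop ℕ∞) ≠ 0 := by simp
  have h1 : q =ᶠ[𝓝 p] (q' ∘ T) := h
  have h2 : mfderiv 𝓘(ℂ, E) 𝓘(ℂ, E) (q' ∘ T) p =
      (mfderiv 𝓘(ℂ, E) 𝓘(ℂ, E) q' (T p)).comp (mfderiv 𝓘(ℂ, E) 𝓘(ℂ, E) T p) :=
    mfderiv_comp p (hq'.mdifferentiableAt hn) hT'.mdifferentiableAt
  rw [mfderiv_eq_fderiv] at h2
  have h3 : (mfderiv 𝓘(ℂ, E) 𝓘(ℂ, E) q p : E →L[ℂ] E) =
      (mfderiv 𝓘(ℂ, E) 𝓘(ℂ, E) q' (T p) : E →L[ℂ] E).comp (fderiv ℂ T p) :=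
    h1.mfderiv_eq.trans h2
  exact (Lift_aux g h1.self_of_nhds h3)

/-- The derivative of a local biholomorphism is bijective. -/
theorem mfderiv_bijective {q : E → M} {p : E}
    (hq : IsLocalDiffeomorphAt 𝓘(ℂ, E) 𝓘(ℂ, E) ⊤ q p) :
    ∃ A : E ≃L[ℂ] E, ∀ v, (mfderiv 𝓘(ℂ, E) 𝓘(ℂ, E) q p : E →L[ℂ] E) v = A v :=
  ⟨hq.mfderivToContinuousLinearEquiv (by simp), fun _ => rfl⟩

end Pool.Agent.Helper80.TF
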