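import Pool.Agent.Helper80.TF.TransB
import Pool.Agent.Helper80.TF.Lift

/-!
# Forms in flat coordinates: changes of coordinates
-/

open Manifold Set Filter Topology MeasureTheory

namespace Pool.Agent.Helper80.TF.TorusFibration

variable {r : ℕ} {V W : Type*} [NormedAddCommGroup V] [NormedSpace ℂ V] [FiniteDimensional ℂ V]
    [NormedAddCommGroup W] [NormedSpace ℂ W] {B M : Type*} [TopologicalSpace B]
    [ChartedSpace V B] [IsManifold 𝓘(ℂ, V) ⊤ B] [TopologicalSpace M] [ChartedSpace (V × W) M]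
    [IsManifold 𝓘(ℂ, V × W) ⊤ M] {f : M → B} (T : TorusFibration r V W f)

/-- The change of holomorphic coordinates given by a change of flat coordinates. -/
private noncomputable def FlatA_T1 {i j : T.ι} (F : T.FTrans i j) (y : V × W) : V × W :=
  T.Psi j (F.map (T.Phi i y))

private theorem FlatA_diffeo (i : T.ι) {p : V × (Fin r → ℝ)} (hp : p.1 ∈ T.D i) :
    IsLocalDiffeomorphAt 𝓘(ℂ, V × W) 𝓘(ℂ, V × W) ⊤ (T.q i) (T.Psi i p) :=
  T.q_hol i ⟨T.Psi i p, ⟨hp, mem_univ _⟩⟩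

private theorem FlatA_Psi_diff (i : T.ι) {p : V × (Fin r → ℝ)} (hp : p.1 ∈ T.D i) :
    DifferentiableAt ℝ (T.Psi i) p := by
  have h1 : T.D i ×ˢ (univ : Set (Fin r → ℝ)) ∈ 𝓝 p :=
    ((T.isOpen_D i).prod isOpen_univ).mem_nhds ⟨hp, mem_univ _⟩
  exact ((T.contDiffOn_Psi i).contDiffAt h1).differentiableAt (by simp)

private theorem FlatA_Phi_diff (i : T.ι) {p : V × W} (hp : p.1 ∈ T.D i) :
    DifferentiableAt ℝ (T.Phi i) p := by
  have h1 : T.D i ×ˢ (univ : Set W) ∈ 𝓝 p :=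
    ((T.isOpen_D i).prod isOpen_univ).mem_nhds ⟨hp, mem_univ _⟩
  exact ((T.contDiffOn_Phi i).contDiffAt h1).differentiableAt (by simp)

private theorem FlatA_T1_diff {i j : T.ι} (F : T.FTrans i j) {x : V} (hx : x ∈ F.O)
    (t : Fin r → ℝ) : DifferentiableAt ℝ (T.FlatA_T1 F) (T.Psi i (x, t)) := by
  have h1 : T.Phi i (T.Psi i (x, t)) = (x, t) := T.Phi_Psi i (x, t)
  have h2 : DifferentiableAt ℝ (T.Phi i) (T.Psi i (x, t)) := T.FlatA_Phi_diff i (F.sub hx)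
  have h3 : DifferentiableAt ℝ F.map (T.Phi i (T.Psi i (x, t))) := by
    rw [h1]
    exact (F.hasFDerivAt_map hx t).differentiableAt
  have h4 : DifferentiableAt ℝ (T.Psi j) (F.map (T.Phi i (T.Psi i (x, t)))) := by
    rw [h1]
    exact T.FlatA_Psi_diff j (F.a_mem hx)
  have h5 : DifferentiableAt ℝ (fun y => F.map (T.Phi i y)) (T.Psi i (x, t)) := h3.comp _ h2
  exact DifferentiableAt.comp (g := T.Psi j) (f := fun y => F.map (T.Phi i y))
    (T.Psi i (x, t)) h4 h5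

private theorem FlatA_T1_eq {i j : T.ι} (F : T.FTrans i j) (x : V) (t : Fin r → ℝ) :
    T.FlatA_T1 F (T.Psi i (x, t)) = T.Psi j (F.map (x, t)) := by
  rw [FlatA_T1, T.Phi_Psi]

private theorem FlatA_T1_lift {i j : T.ι} (F : T.FTrans i j) {x : V} (hx : x ∈ F.O)
    (t : Fin r → ℝ) : ∀ᶠ y in 𝓝 (T.Psi i (x, t)), T.q i y = T.q j (T.FlatA_T1 F y) := by
  have h1 : F.O ×ˢ (univ : Set W) ∈ 𝓝 (T.Psi i (x, t)) :=
    (F.isOpen.prod isOpen_univ).mem_nhds ⟨hx, mem_univ _⟩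
  filter_upwards [h1] with y hy
  have h2 := F.q_eq y.1 hy.1 (T.Phi i y).2
  have h3 : (y.1, (T.Phi i y).2) = T.Phi i y := rfl
  rw [h3, T.Psi_Phi] at h2
  exact h2

/-- The chain rule. -/
private theorem FlatA_chain {i j : T.ι} (F : T.FTrans i j) {x : V} (hx : x ∈ F.O)
    (t : Fin r → ℝ) :
    (fderiv ℝ (T.FlatA_T1 F) (T.Psi i (x, t))).comp (fderiv ℝ (T.Psi i) (x, t)) =
      (fderiv ℝ (T.Psi j) (F.map (x, t))).comp (F.lin x) := by
  have h1 : T.FlatA_T1 F ∘ T.Psi i = T.Psi j ∘ F.map := by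
    funext p
    exact T.FlatA_T1_eq F p.1 p.2
  have h2 : HasFDerivAt (T.FlatA_T1 F ∘ T.Psi i)
      ((fderiv ℝ (T.FlatA_T1 F) (T.Psi i (x, t))).comp (fderiv ℝ (T.Psi i) (x, t))) (x, t) :=
    (T.FlatA_T1_diff F hx t).hasFDerivAt.comp _
      (T.FlatA_Psi_diff i (p := (x, t)) (F.sub hx)).hasFDerivAt
  have h3 : HasFDerivAt (T.Psi j ∘ F.map)
      ((fderiv ℝ (T.Psi j) (F.map (x, t))).comp (F.lin x)) (x, t) :=
    (T.FlatA_Psi_diff j (p := F.map (x, t)) (F.a_mem hx)).hasFDerivAt.comp _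
      (F.hasFDerivAt_map hx t)
  rw [h1] at h2
  exact h2.unique h3

private theorem FlatA_T1_hol {i j : T.ι} (F : T.FTrans i j) {x : V} (hx : x ∈ F.O)
    (t : Fin r → ℝ) : DifferentiableAt ℂ (T.FlatA_T1 F) (T.Psi i (x, t)) :=
  lift_differentiableAt (T.FlatA_diffeo i (p := (x, t)) (F.sub hx))
    (T.FlatA_diffeo j (p := F.map (x, t)) (F.a_mem hx)) (T.FlatA_T1_diff F hx t).continuousAt
    (T.FlatA_T1_eq F x t) (T.FlatA_T1_lift F hx t)

private theorem FlatA_T1_restrict {i j : T.ι} (F : T.FTrans i j) {x : V} (hx : x ∈ F.O)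
    (t : Fin r → ℝ) : (fderiv ℂ (T.FlatA_T1 F) (T.Psi i (x, t))).restrictScalars ℝ =
      fderiv ℝ (T.FlatA_T1 F) (T.Psi i (x, t)) :=
  (((T.FlatA_T1_hol F hx t).hasFDerivAt.restrictScalars ℝ).fderiv).symm

/-- Proof sketch: `T₁ = Psi j ∘ F.map ∘ Phi i` satisfies `q i = q j ∘ T₁` on `O × W`; apply
`pull_lift` at `Psi i (x, t)`, and the chain rule to `Psi j ∘ F.map = T₁ ∘ Psi i`. -/
theorem flat_ftrans {k : ℕ} {i j : T.ι} (F : T.FTrans i j)
    (g : M → (V × W) [⋀^Fin k]→L[ℝ] ℝ) {x : V} (hx : x ∈ F.O) (t : Fin r → ℝ) :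
    T.flat i g (x, t) =
      (T.flat j g (F.a x, F.N t + F.σ x)).compContinuousLinearMap (F.lin x) := by
  have h1 := pull_lift (T.FlatA_diffeo i (p := (x, t)) (F.sub hx))
    (T.FlatA_diffeo j (p := F.map (x, t)) (F.a_mem hx)) (T.FlatA_T1_diff F hx t).continuousAt
    (T.FlatA_T1_eq F x t) (T.FlatA_T1_lift F hx t) g
  rw [T.FlatA_T1_restrict F hx t] at h1
  have h2 := T.FlatA_chain F hx t
  have h3 : F.map (x, t) = (F.a x, F.N t + F.σ x) := rfl
  rw [flat, flat, h1, ← h3]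
  ext v
  simp only [ContinuousAlternatingMap.compContinuousLinearMap_apply]
  congr 1
  funext l
  exact DFunLike.congr_fun h2 (v l)

/-- Apply `flat_ftrans` to the change of coordinates of `exists_shift`. -/
theorem flat_per {k : ℕ} (i : T.ι) (g : M → (V × W) [⋀^Fin k]→L[ℝ] ℝ) {x : V}
    (hx : x ∈ T.D i) : Per fun t => T.flat i g (x, t) := by
  intro t n
  obtain ⟨F, hO, ha, hN, hσ⟩ := T.exists_shift i n
  have h1 := T.flat_ftrans F g (x := x) (by rw [hO]; exact hx) t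
  have h2 : F.lin x = ContinuousLinearMap.id ℝ (V × (Fin r → ℝ)) := by
    have ha' : F.a = id := funext ha
    have hσ' : F.σ = fun _ => intVec n := funext hσ
    refine ContinuousLinearMap.ext fun p => ?_
    obtain ⟨v, s⟩ := p
    rw [F.lin_apply, ha', hσ', fderiv_id, hN]
    simp
  rw [h2, ha, hN, hσ] at h1
  simp only
  rw [h1]
  ext v
  rfl

/-- The linear part of a change of coordinates is compatible with the complex structures.  Proof
sketch: `T₁ = Psi j ∘ F.map ∘ Phi i` is holomorphic (`lift_differentiableAt`), and its derivative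
in the direction `(0, w)` is `(0, P j (a x) (N ((P i x)⁻¹ w)))`. -/
theorem ftrans_J {i j : T.ι} (F : T.FTrans i j) {x : V} (hx : x ∈ F.O) (s : Fin r → ℝ) :
    F.N (T.J i x s) = T.J j (F.a x) (F.N s) := by
  have h1 : ∀ ξ, fderiv ℝ (T.FlatA_T1 F) (T.Psi i (x, 0)) (fderiv ℝ (T.Psi i) (x, 0) ξ) =
      fderiv ℝ (T.Psi j) (F.map (x, 0)) (F.lin x ξ) := fun ξ =>
    DFunLike.congr_fun (T.FlatA_chain F hx 0) ξ
  have h2 : ∀ w, fderiv ℝ (T.FlatA_T1 F) (T.Psi i (x, 0)) (mulI (V × W) w) =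
      mulI (V × W) (fderiv ℝ (T.FlatA_T1 F) (T.Psi i (x, 0)) w) := by
    intro w
    rw [← T.FlatA_T1_restrict F hx 0]
    exact (fderiv ℂ (T.FlatA_T1 F) (T.Psi i (x, 0))).map_smul Complex.I w
  have h3 := h1 (T.Jt i x (0, s))
  rw [T.fderiv_Psi_Jt i (F.sub hx), h2, h1] at h3
  have h4 : F.map (x, 0) = (F.a x, F.N 0 + F.σ x) := rfl
  rw [h4, ← T.fderiv_Psi_Jt j (F.a_mem hx)] at h3
  have h5 : T.Jt j (F.a x) (F.lin x (0, s)) - F.lin x (T.Jt i x (0, s)) = 0 := by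
    apply T.fderiv_Psi_injective j (F.a_mem hx) (F.N 0 + F.σ x)
    rw [map_sub, h3, sub_self]
  have h6 : T.Jt i x (0, s) = (0, T.J i x s) := by
    rw [Jt]
    simp
  have h7 := congrArg Prod.snd (sub_eq_zero.1 h5)
  rw [h6, F.lin_apply, F.lin_apply, map_zero, map_zero, add_zero, add_zero] at h7
  exact h7.symm

end Pool.Agent.Helper80.TF.TorusFibration
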