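import Pool.Agent.Helper80.TF.Core
import Pool.Agent.Helper80.TF.Smth

/-!
# Wedge powers of 2-forms: naturality and smoothness
-/

open Manifold Set Filter Topology MeasureTheory

namespace Pool.Agent.Helper80.TF

variable {E F : Type*} [NormedAddCommGroup E] [NormedSpace ℝ E] [NormedAddCommGroup F]
  [NormedSpace ℝ F]

theorem wpow_apply (k : ℕ) (a : E [⋀^Fin 2]→L[ℝ] ℝ) (v : Fin (k * 2) → E) :
    wpow k a v = (1 / 2 : ℝ) ^ k * ∑ σ : Equiv.Perm (Fin (k * 2)),
      ((Equiv.Perm.sign σ : ℤ) : ℝ) * ∏ i : Fin k, a fun j => v (σ (finProdFinEquiv (i, j))) := by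
  change (1 / 2 : ℝ) ^ k * ContinuousMultilinearMap.alternatization (prodForm k a) v = _
  rw [ContinuousMultilinearMap.alternatization_apply_apply]
  congr 1
  refine Finset.sum_congr rfl fun σ _ => ?_
  rw [Units.smul_def, zsmul_eq_mul]
  rfl

theorem wpow_comp (k : ℕ) (a : E [⋀^Fin 2]→L[ℝ] ℝ) (A : F →L[ℝ] E) :
    wpow k (a.compContinuousLinearMap A) = (wpow k a).compContinuousLinearMap A := by
  ext v
  change wpow k (a.compContinuousLinearMap A) v = wpow k a fun j => A (v j)
  rw [wpow_apply, wpow_apply]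
  rfl

/-- The multilinear map `(a_1, …, a_k) ↦ (v ↦ ∏ i, a_i (v (2 i), v (2 i + 1)))`. -/
private noncomputable def PowAForm (k : ℕ) :
    MultilinearMap ℝ (fun _ : Fin k => E [⋀^Fin 2]→L[ℝ] ℝ)
      (MultilinearMap ℝ (fun _ : Fin (k * 2) => E) ℝ) where
  toFun a :=
    { toFun := fun v => ∏ i : Fin k, a i fun j => v (finProdFinEquiv (i, j))
      map_update_add' := by
        intro hd v l x y
        obtain rfl : hd = instDecidableEqFin (k * 2) := Subsingleton.elim _ _
        obtain ⟨⟨i₀, j₀⟩, rfl⟩ := finProdFinEquiv.surjective l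
        simp only [update_finProd]
        have h : ∀ z : E, ∏ i : Fin k, a i (if i = i₀ then
            Function.update (fun j => v (finProdFinEquiv (i₀, j))) j₀ z
            else fun j => v (finProdFinEquiv (i, j))) =
            a i₀ (Function.update (fun j => v (finProdFinEquiv (i₀, j))) j₀ z) *
            ∏ i ∈ Finset.univ.erase i₀, a i fun j => v (finProdFinEquiv (i, j)) := by
          intro z
          rw [← Finset.mul_prod_erase _ _ (Finset.mem_univ i₀), if_pos rfl]
          congr 1
          refine Finset.prod_congr rfl fun i hi => ?_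
          rw [if_neg (Finset.ne_of_mem_erase hi)]
        rw [h, h, h, (a i₀).map_update_add, add_mul]
      map_update_smul' := by
        intro hd v l c x
        obtain rfl : hd = instDecidableEqFin (k * 2) := Subsingleton.elim _ _
        obtain ⟨⟨i₀, j₀⟩, rfl⟩ := finProdFinEquiv.surjective l
        simp only [update_finProd]
        have h : ∀ z : E, ∏ i : Fin k, a i (if i = i₀ then
            Function.update (fun j => v (finProdFinEquiv (i₀, j))) j₀ z
            else fun j => v (finProdFinEquiv (i, j))) =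
            a i₀ (Function.update (fun j => v (finProdFinEquiv (i₀, j))) j₀ z) *
            ∏ i ∈ Finset.univ.erase i₀, a i fun j => v (finProdFinEquiv (i, j)) := by
          intro z
          rw [← Finset.mul_prod_erase _ _ (Finset.mem_univ i₀), if_pos rfl]
          congr 1
          refine Finset.prod_congr rfl fun i hi => ?_
          rw [if_neg (Finset.ne_of_mem_erase hi)]
        rw [h, h, (a i₀).map_update_smul, smul_mul_assoc] }
  map_update_add' := by
    intro hd a i₀ x y
    obtain rfl : hd = instDecidableEqFin k := Subsingleton.elim _ _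
    ext v
    have h : ∀ z : E [⋀^Fin 2]→L[ℝ] ℝ,
        ∏ i : Fin k, (Function.update a i₀ z i) (fun j => v (finProdFinEquiv (i, j))) =
        z (fun j => v (finProdFinEquiv (i₀, j))) *
        ∏ i ∈ Finset.univ.erase i₀, a i fun j => v (finProdFinEquiv (i, j)) := by
      intro z
      rw [← Finset.mul_prod_erase _ _ (Finset.mem_univ i₀), Function.update_self]
      congr 1
      refine Finset.prod_congr rfl fun i hi => ?_
      rw [Function.update_of_ne (Finset.ne_of_mem_erase hi)]
    change ∏ i : Fin k, (Function.update a i₀ (x + y) i) (fun j => v (finProdFinEquiv (i, j))) =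
      ∏ i : Fin k, (Function.update a i₀ x i) (fun j => v (finProdFinEquiv (i, j))) +
      ∏ i : Fin k, (Function.update a i₀ y i) (fun j => v (finProdFinEquiv (i, j)))
    rw [h, h, h, ContinuousAlternatingMap.add_apply, add_mul]
  map_update_smul' := by
    intro hd a i₀ c x
    obtain rfl : hd = instDecidableEqFin k := Subsingleton.elim _ _
    ext v
    have h : ∀ z : E [⋀^Fin 2]→L[ℝ] ℝ,
        ∏ i : Fin k, (Function.update a i₀ z i) (fun j => v (finProdFinEquiv (i, j))) =
        z (fun j => v (finProdFinEquiv (i₀, j))) *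
        ∏ i ∈ Finset.univ.erase i₀, a i fun j => v (finProdFinEquiv (i, j)) := by
      intro z
      rw [← Finset.mul_prod_erase _ _ (Finset.mem_univ i₀), Function.update_self]
      congr 1
      refine Finset.prod_congr rfl fun i hi => ?_
      rw [Function.update_of_ne (Finset.ne_of_mem_erase hi)]
    change ∏ i : Fin k, (Function.update a i₀ (c • x) i) (fun j => v (finProdFinEquiv (i, j))) =
      c • ∏ i : Fin k, (Function.update a i₀ x i) (fun j => v (finProdFinEquiv (i, j)))
    rw [h, h, ContinuousAlternatingMap.smul_apply, smul_mul_assoc]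

private theorem PowAForm_apply (k : ℕ) (a : Fin k → E [⋀^Fin 2]→L[ℝ] ℝ) (v : Fin (k * 2) → E) :
    PowAForm k a v = ∏ i : Fin k, a i fun j => v (finProdFinEquiv (i, j)) := rfl

private theorem PowAForm_bound (k : ℕ) (a : Fin k → E [⋀^Fin 2]→L[ℝ] ℝ)
    (v : Fin (k * 2) → E) :
    ‖PowAForm k a v‖ ≤ 1 * (∏ i, ‖a i‖) * ∏ l, ‖v l‖ := by
  rw [PowAForm_apply, one_mul, norm_prod]
  have h : ∏ l, ‖v l‖ = ∏ i : Fin k, ∏ j : Fin 2, ‖v (finProdFinEquiv (i, j))‖ := by
    rw [← Fintype.prod_prod_type', ← Equiv.prod_comp finProdFinEquiv]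
  rw [h, ← Finset.prod_mul_distrib]
  refine Finset.prod_le_prod (fun i _ => norm_nonneg _) fun i _ => ?_
  exact (a i).le_opNorm _

/-- Proof sketch: `(a_1, …, a_k) ↦ (v ↦ ∏ i, a_i (v (2 i), v (2 i + 1)))` is a continuous
multilinear map (`MultilinearMap.mkContinuousMultilinear`), and the alternatization is a finite
sum of continuous linear maps. -/
theorem contDiff_wpow (k : ℕ) :
    ContDiff ℝ (⊤ : ℕ∞) (wpow k : E [⋀^Fin 2]→L[ℝ] ℝ → E [⋀^Fin (k * 2)]→L[ℝ] ℝ) := by
  let Φ : ContinuousMultilinearMap ℝ (fun _ : Fin k => E [⋀^Fin 2]→L[ℝ] ℝ)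
      (ContinuousMultilinearMap ℝ (fun _ : Fin (k * 2) => E) ℝ) :=
    MultilinearMap.mkContinuousMultilinear (PowAForm k) 1 (PowAForm_bound k)
  have h1 : (wpow k : E [⋀^Fin 2]→L[ℝ] ℝ → E [⋀^Fin (k * 2)]→L[ℝ] ℝ) =
      fun a => (1 / 2 : ℝ) ^ k • altCLM E ℝ (k * 2) (Φ fun _ => a) := by
    funext a
    have h2 : Φ (fun _ => a) = prodForm k a := by
      ext v
      rfl
    rw [h2]
    rfl
  rw [h1]
  refine ContDiff.const_smul _ ?_
  refine (altCLM E ℝ (k * 2)).contDiff.comp ?_
  exact Φ.contDiff.comp (contDiff_pi.2 fun _ => contDiff_id)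

end Pool.Agent.Helper80.TF
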