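import Pool.Agent.Helper80.TF.FlatB
import Pool.Agent.Helper80.TF.PowA

/-!
# Forms in flat coordinates: positivity and powers
-/

open Manifold Set Filter Topology MeasureTheory

namespace Pool.Agent.Helper80.TF.TorusFibration

variable {r : ℕ} {V W : Type*} [NormedAddCommGroup V] [NormedSpace ℂ V] [FiniteDimensional ℂ V]
    [NormedAddCommGroup W] [NormedSpace ℂ W] {B M : Type*} [TopologicalSpace B]
    [ChartedSpace V B] [TopologicalSpace M] [ChartedSpace (V × W) M]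
    [IsManifold 𝓘(ℂ, V × W) ⊤ M] {f : M → B} (T : TorusFibration r V W f)

/-- The derivative of the quotient map. -/
private noncomputable def flatC_A (i : T.ι) (p : V × W) : (V × W) →L[ℂ] (V × W) :=
  mfderiv 𝓘(ℂ, V × W) 𝓘(ℂ, V × W) (T.q i) p

omit [FiniteDimensional ℂ V] [IsManifold 𝓘(ℂ, V × W) ⊤ M] in
private theorem flatC_apply (i : T.ι) (g : M → (V × W) [⋀^Fin 2]→L[ℝ] ℝ)
    (p ξ η : V × (Fin r → ℝ)) : T.flat i g p ![ξ, η] =
      g (T.q i (T.Psi i p)) ![flatC_A T i (T.Psi i p) (fderiv ℝ (T.Psi i) p ξ),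
        flatC_A T i (T.Psi i p) (fderiv ℝ (T.Psi i) p η)] := by
  unfold flat pull
  rw [ContinuousAlternatingMap.compContinuousLinearMap_apply,
    ContinuousAlternatingMap.compContinuousLinearMap_apply]
  congr 1
  funext j
  fin_cases j <;> rfl

omit [FiniteDimensional ℂ V] [IsManifold 𝓘(ℂ, V × W) ⊤ M] in
private theorem flatC_mulI (A : (V × W) →L[ℂ] (V × W)) (v : V × W) :
    A (mulI (V × W) v) = mulI (V × W) (A v) := A.map_smul Complex.I v

/-- Use `fderiv_Psi_Jt` and that the derivative of `q i` is complex linear. -/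
theorem flat_inv (i : T.ι) {g : M → (V × W) [⋀^Fin 2]→L[ℝ] ℝ} (hg : ∀ m, PosForm (g m))
    {x : V} (hx : x ∈ T.D i) (t : Fin r → ℝ) (ξ η : V × (Fin r → ℝ)) :
    T.flat i g (x, t) ![T.Jt i x ξ, T.Jt i x η] = T.flat i g (x, t) ![ξ, η] := by
  rw [flatC_apply, flatC_apply, T.fderiv_Psi_Jt i hx, T.fderiv_Psi_Jt i hx, flatC_mulI,
    flatC_mulI]
  exact (hg _).1 _ _

/-- Use moreover `mfderiv_bijective` and `fderiv_Psi_injective`. -/
theorem flat_pos (i : T.ι) {g : M → (V × W) [⋀^Fin 2]→L[ℝ] ℝ} (hg : ∀ m, PosForm (g m))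
    {x : V} (hx : x ∈ T.D i) (t : Fin r → ℝ) {ξ : V × (Fin r → ℝ)} (hξ : ξ ≠ 0) :
    0 < T.flat i g (x, t) ![ξ, T.Jt i x ξ] := by
  rw [flatC_apply, T.fderiv_Psi_Jt i hx, flatC_mulI]
  refine (hg _).2 _ fun h => hξ ?_
  obtain ⟨A, hA⟩ := mfderiv_bijective (T.q_hol i ⟨T.Psi i (x, t), ⟨hx, mem_univ _⟩⟩)
  have h1 : A (fderiv ℝ (T.Psi i) (x, t) ξ) = 0 := (hA _).symm.trans h
  exact T.fderiv_Psi_injective i hx t (A.map_eq_zero_iff.1 h1)

omit [FiniteDimensional ℂ V] [IsManifold 𝓘(ℂ, V × W) ⊤ M] in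
theorem flat_wpow (k : ℕ) (i : T.ι) (g : M → (V × W) [⋀^Fin 2]→L[ℝ] ℝ)
    (p : V × (Fin r → ℝ)) :
    T.flat i (fun m => wpow k (g m)) p = wpow k (T.flat i g p) := by
  unfold flat pull
  rw [wpow_comp, wpow_comp]

omit [FiniteDimensional ℂ V] in
theorem smoothForm_wpow (k : ℕ) {g : M → (V × W) [⋀^Fin 2]→L[ℝ] ℝ} (hg : SmoothForm g) :
    SmoothForm fun m => wpow k (g m) := by
  intro e he
  have h1 : pull e.symm (fun m => wpow k (g m)) = fun p => wpow k (pull e.symm g p) := by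
    funext p
    unfold pull
    rw [wpow_comp]
  rw [h1]
  exact (contDiff_wpow k).comp_contDiffOn (hg e he)

end Pool.Agent.Helper80.TF.TorusFibration
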