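import Pool.Agent.Helper80.TF.AvgD
import Pool.Agent.Helper80.TF.FlatA
import Pool.Agent.Helper80.TF.FlatC
import Pool.Agent.Helper80.TF.Smth

/-!
# Averages over the fibres of forms on `M`
-/

open Manifold Set Filter Topology MeasureTheory

namespace Pool.Agent.Helper80.TF.TorusFibration

variable {r : ℕ} {V W : Type*} [NormedAddCommGroup V] [NormedSpace ℂ V] [FiniteDimensional ℂ V]
    [NormedAddCommGroup W] [NormedSpace ℂ W] {B M : Type*} [TopologicalSpace B]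
    [ChartedSpace V B] [IsManifold 𝓘(ℂ, V) ⊤ B] [TopologicalSpace M] [ChartedSpace (V × W) M]
    [IsManifold 𝓘(ℂ, V × W) ⊤ M] {f : M → B} (T : TorusFibration r V W f)

theorem continuous_flat {k : ℕ} (i : T.ι) {g : M → (V × W) [⋀^Fin k]→L[ℝ] ℝ}
    (hg : SmoothForm g) {x : V} (hx : x ∈ T.D i) : Continuous fun t => T.flat i g (x, t) := by
  have h1 := (T.contDiffOn_flat i hg).continuousOn
  have h2 : Continuous fun t : Fin r → ℝ => (x, t) := by fun_prop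
  exact h1.comp_continuous h2 fun t => ⟨hx, mem_univ _⟩

private theorem Bar_apply {k : ℕ} (i : T.ι) {g : M → (V × W) [⋀^Fin k]→L[ℝ] ℝ}
    (hg : SmoothForm g) {x : V} (hx : x ∈ T.D i) (v : Fin k → V × (Fin r → ℝ)) :
    T.bar i g x v = avg fun t => T.flat i g (x, t) v :=
  avg_alt_apply (T.continuous_flat i hg hx) v

private theorem Bar_cont {k : ℕ} (i : T.ι) {g : M → (V × W) [⋀^Fin k]→L[ℝ] ℝ}
    (hg : SmoothForm g) {x : V} (hx : x ∈ T.D i) (v : Fin k → V × (Fin r → ℝ)) :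
    Continuous fun t => T.flat i g (x, t) v :=
  ((ContinuousMultilinearMap.apply ℝ (fun _ : Fin k => V × (Fin r → ℝ)) ℝ v).comp
    (ContinuousAlternatingMap.toContinuousMultilinearMapCLM ℝ)).continuous.comp
      (T.continuous_flat i hg hx)

theorem bar_ftrans {k : ℕ} {i j : T.ι} (F : T.FTrans i j)
    {g : M → (V × W) [⋀^Fin k]→L[ℝ] ℝ} (hg : SmoothForm g) {x : V} (hx : x ∈ F.O) :
    T.bar i g x = (T.bar j g (F.a x)).compContinuousLinearMap (F.lin x) := by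
  ext v
  rw [ContinuousAlternatingMap.compContinuousLinearMap_apply, Bar_apply T i hg (F.sub hx),
    Bar_apply T j hg (F.a_mem hx)]
  have h1 : (fun t => T.flat i g (x, t) v) =
      fun t => T.flat j g (F.a x, F.N t + F.σ x) (F.lin x ∘ v) := by
    funext t
    rw [T.flat_ftrans F g hx t]
    rfl
  rw [h1]
  have h2 : Per fun t => T.flat j g (F.a x, t) (F.lin x ∘ v) := by
    intro t n
    have := T.flat_per j g (F.a_mem hx) t n
    exact congrArg (fun ω => ω (F.lin x ∘ v)) this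
  exact avg_affine h2 F.int (F.σ x)

theorem contDiffOn_bar {k : ℕ} (i : T.ι) {g : M → (V × W) [⋀^Fin k]→L[ℝ] ℝ}
    (hg : SmoothForm g) : ContDiffOn ℝ (⊤ : ℕ∞) (T.bar i g) (T.D i) :=
  avg_contDiffOn (T.isOpen_D i) (T.contDiffOn_flat i hg)

theorem bar_inv (i : T.ι) {g : M → (V × W) [⋀^Fin 2]→L[ℝ] ℝ} (hg : IsHermitian g)
    {x : V} (hx : x ∈ T.D i) (ξ η : V × (Fin r → ℝ)) :
    T.bar i g x ![T.Jt i x ξ, T.Jt i x η] = T.bar i g x ![ξ, η] := by
  rw [Bar_apply T i hg.1 hx, Bar_apply T i hg.1 hx]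
  congr 1
  funext t
  exact T.flat_inv i hg.2 hx t ξ η

theorem bar_pos (i : T.ι) {g : M → (V × W) [⋀^Fin 2]→L[ℝ] ℝ} (hg : IsHermitian g)
    {x : V} (hx : x ∈ T.D i) {ξ : V × (Fin r → ℝ)} (hξ : ξ ≠ 0) :
    0 < T.bar i g x ![ξ, T.Jt i x ξ] := by
  rw [Bar_apply T i hg.1 hx]
  exact avg_pos (Bar_cont T i hg.1 hx _) fun t => T.flat_pos i hg.2 hx t hξ

private theorem Bar_E (i : T.ι) (g : M → (V × W) [⋀^Fin 2]→L[ℝ] ℝ) (x : V)
    (s s' : Fin r → ℝ) : T.E i g x ![s, s'] = T.bar i g x ![(0, s), (0, s')] := by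
  rw [E, ContinuousAlternatingMap.compContinuousLinearMap_apply]
  congr 1
  funext l
  fin_cases l <;> rfl

theorem E_ftrans {i j : T.ι} (F : T.FTrans i j) {g : M → (V × W) [⋀^Fin 2]→L[ℝ] ℝ}
    (hg : SmoothForm g) {x : V} (hx : x ∈ F.O) (s s' : Fin r → ℝ) :
    T.E i g x ![s, s'] = T.E j g (F.a x) ![F.N s, F.N s'] := by
  rw [Bar_E, Bar_E, T.bar_ftrans F hg hx, ContinuousAlternatingMap.compContinuousLinearMap_apply]
  congr 1
  funext l
  fin_cases l
  · change F.lin x (0, s) = (0, F.N s)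
    rw [F.lin_apply, map_zero, map_zero, add_zero]
  · change F.lin x (0, s') = (0, F.N s')
    rw [F.lin_apply, map_zero, map_zero, add_zero]

theorem contDiffOn_E (i : T.ι) {g : M → (V × W) [⋀^Fin 2]→L[ℝ] ℝ} (hg : SmoothForm g) :
    ContDiffOn ℝ (⊤ : ℕ∞) (T.E i g) (T.D i) :=
  contDiffOn_compAlt (T.contDiffOn_bar i hg) contDiffOn_const

private theorem Bar_Jt (i : T.ι) (x : V) (s : Fin r → ℝ) :
    T.Jt i x (0, s) = (0, T.J i x s) := by
  change (mulI V 0, T.J i x s) = (0, T.J i x s)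
  rw [map_zero]

theorem E_inv (i : T.ι) {g : M → (V × W) [⋀^Fin 2]→L[ℝ] ℝ} (hg : IsHermitian g)
    {x : V} (hx : x ∈ T.D i) (s s' : Fin r → ℝ) :
    T.E i g x ![T.J i x s, T.J i x s'] = T.E i g x ![s, s'] := by
  rw [Bar_E, Bar_E, ← Bar_Jt, ← Bar_Jt]
  exact T.bar_inv i hg hx _ _

theorem E_pos (i : T.ι) {g : M → (V × W) [⋀^Fin 2]→L[ℝ] ℝ} (hg : IsHermitian g)
    {x : V} (hx : x ∈ T.D i) {s : Fin r → ℝ} (hs : s ≠ 0) :
    0 < T.E i g x ![s, T.J i x s] := by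
  rw [Bar_E, ← Bar_Jt]
  refine T.bar_pos i hg hx fun h => hs ?_
  exact congrArg Prod.snd h

end Pool.Agent.Helper80.TF.TorusFibration
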