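import Pool.Agent.Helper80.TF.Bar
import Pool.Agent.Helper80.TF.Smth

/-!
# Kähler forms on the base
-/

open Manifold Set Filter Topology MeasureTheory

namespace Pool.Agent.Helper80.TF

/-- The inverse of a holomorphic chart is a local biholomorphism. -/
private theorem BaseA_local {V : Type*} [NormedAddCommGroup V] [NormedSpace ℂ V] {B : Type*}
    [TopologicalSpace B] [ChartedSpace V B] [IsManifold 𝓘(ℂ, V) ⊤ B]
    {e : OpenPartialHomeomorph B V} (he : e ∈ holCharts V B) {x : V} (hx : x ∈ e.target) :
    IsLocalDiffeomorphAt 𝓘(ℂ, V) 𝓘(ℂ, V) ⊤ e.symm x :=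
  ⟨{ toPartialEquiv := e.symm.toPartialEquiv
     open_source := e.symm.open_source
     open_target := e.symm.open_target
     contMDiffOn_toFun := contMDiffOn_symm_of_mem_maximalAtlas he
     contMDiffOn_invFun := contMDiffOn_of_mem_maximalAtlas he }, hx, fun _ _ => rfl⟩

/-- A `3`-form on a real vector space of dimension `2` vanishes. -/
private theorem BaseA_three {V : Type*} [NormedAddCommGroup V] [NormedSpace ℂ V]
    (hV : Module.finrank ℂ V = 1) (a : V [⋀^Fin 3]→L[ℝ] ℝ) : a = 0 := by
  ext v
  have h1 : Module.finrank ℝ V = 2 := by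
    rw [finrank_real_of_complex, hV]
  have h2 : FiniteDimensional ℝ V := FiniteDimensional.of_finrank_pos (by omega)
  have h3 : ¬ LinearIndependent ℝ v := by
    intro h
    have := h.fintype_card_le_finrank
    rw [h1, Fintype.card_fin] at this
    omega
  exact a.toAlternatingMap.map_linearDependent v h3

namespace TorusFibration

variable {r : ℕ} {V W : Type*} [NormedAddCommGroup V] [NormedSpace ℂ V] [FiniteDimensional ℂ V]
    [NormedAddCommGroup W] [NormedSpace ℂ W] {B M : Type*} [TopologicalSpace B]
    [ChartedSpace V B] [IsManifold 𝓘(ℂ, V) ⊤ B] [TopologicalSpace M] [ChartedSpace (V × W) M]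
    [IsManifold 𝓘(ℂ, V × W) ⊤ M] {f : M → B} (T : TorusFibration r V W f)

/-- If the base is a curve: restrict the average of a Hermitian metric to the horizontal spaces.
`closed`: a `3`-form on a real vector space of dimension `2` vanishes.  `trans`: `F.lin x` maps
`(v, - h i x v)` to `(a' v, - h j (a x) (a' v))`. -/
theorem baseForm_of_flatConn (hV : Module.finrank ℂ V = 1) {h : T.ι → V → V →L[ℝ] (Fin r → ℝ)}
    (hh : T.FlatConn h) {g : M → (V × W) [⋀^Fin 2]→L[ℝ] ℝ} (hg : IsHermitian g) :
    T.BaseForm fun i x => (T.bar i g x).compContinuousLinearMap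
      ((ContinuousLinearMap.id ℝ V).prod (-h i x)) := by
  have key : ∀ i, ∀ x ∈ T.D i, ∀ v,
      (ContinuousLinearMap.id ℝ V).prod (-h i x) (mulI V v) =
        T.Jt i x ((ContinuousLinearMap.id ℝ V).prod (-h i x) v) := by
    intro i x hx v
    refine Prod.ext rfl ?_
    change -(h i x (mulI V v)) = T.J i x (-(h i x v))
    rw [map_neg, hh.hol i x hx v]
  constructor
  · intro i
    refine contDiffOn_compAlt (T.contDiffOn_bar i hg.1) ?_
    have h1 : ContDiffOn ℝ (⊤ : ℕ∞) (fun x => ContinuousLinearMap.inl ℝ V (Fin r → ℝ) -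
        (ContinuousLinearMap.inr ℝ V (Fin r → ℝ)).comp (h i x)) (T.D i) :=
      contDiffOn_const.sub (contDiffOn_const.clm_comp (hh.smooth i))
    refine h1.congr fun x _ => ?_
    ext v
    · simp
    · simp
  · intro i x _
    exact BaseA_three hV _
  · intro i x hx
    refine ⟨fun v w => ?_, fun v hv => ?_⟩
    · have h2 := T.bar_inv i hg hx ((ContinuousLinearMap.id ℝ V).prod (-h i x) v)
        ((ContinuousLinearMap.id ℝ V).prod (-h i x) w)
      rw [← key i x hx, ← key i x hx] at h2
      rw [ContinuousAlternatingMap.compContinuousLinearMap_apply,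
        ContinuousAlternatingMap.compContinuousLinearMap_apply]
      convert h2 using 2
      · funext l
        fin_cases l <;> rfl
      · funext l
        fin_cases l <;> rfl
    · have hv' : (ContinuousLinearMap.id ℝ V).prod (-h i x) v ≠ 0 := by
        intro h0
        exact hv (Prod.ext_iff.mp h0).1
      have h2 := T.bar_pos i hg hx hv'
      rw [← key i x hx] at h2
      rw [ContinuousAlternatingMap.compContinuousLinearMap_apply]
      convert h2 using 2
      funext l
      fin_cases l <;> rfl
  · intro i j F x hx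
    ext v
    rw [T.bar_ftrans F hg.1 hx]
    simp only [ContinuousAlternatingMap.compContinuousLinearMap_apply]
    congr 1
    funext l
    have h1 := hh.trans i j F x hx (v l)
    refine Prod.ext rfl ?_
    change F.N (-h i x (v l)) + fderiv ℝ F.σ x (v l) = -h j (F.a x) (fderiv ℝ F.a x (v l))
    rw [map_neg, h1]
    abel

/-- If `κ` is a Kähler metric on `B`. -/
theorem baseForm_of_kahler {κ : B → V [⋀^Fin 2]→L[ℝ] ℝ} (hκ : IsHermitian κ) (hc : Kahler κ) :
    T.BaseForm fun i x => pull (T.base i).symm κ x := by
  constructor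
  · intro i
    exact hκ.1 _ (T.base_mem i)
  · intro i x hx
    exact hc _ (T.base_mem i) x hx
  · intro i x hx
    obtain ⟨A, hA⟩ := mfderiv_bijective (BaseA_local (T.base_mem i) hx)
    have h0 := hκ.2 ((T.base i).symm x)
    have hp : ∀ v : Fin 2 → V, pull (T.base i).symm κ x v =
        κ ((T.base i).symm x) fun l => A (v l) := by
      intro v
      have h4 : ∀ l, (mfderiv 𝓘(ℂ, V) 𝓘(ℂ, V) (T.base i).symm x : V →L[ℂ] V) (v l) = A (v l) :=
        fun l => hA (v l)
      exact congrArg (κ ((T.base i).symm x)) (funext h4)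
    have h2 : ∀ v w : V, (fun l => A (![v, w] l)) = ![A v, A w] := by
      intro v w
      funext l
      fin_cases l <;> rfl
    have h3 : ∀ v : V, A (mulI V v) = mulI V (A v) := by
      intro v
      change A (Complex.I • v) = Complex.I • A v
      rw [map_smul]
    refine ⟨fun v w => ?_, fun v hv => ?_⟩
    · rw [hp, hp, h2, h2, h3, h3]
      exact h0.1 _ _
    · rw [hp, h2, h3]
      exact h0.2 _ fun h => hv (A.injective (h.trans (map_zero A).symm))
  · intro i j F x hx
    have hxi : x ∈ (T.base i).target := F.sub hx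
    have hn : ∀ᶠ y in 𝓝 x, y ∈ F.O := F.isOpen.mem_nhds hx
    have haj : F.a x ∈ (T.base j).target := by
      rw [F.a_eq x hx]
      exact (T.base j).map_source (F.src x hx)
    have hc1 : ContinuousAt F.a x := (F.a_smooth.continuousOn x hx).continuousAt hn
    have he : ∀ᶠ y in 𝓝 x, (T.base i).symm y = (T.base j).symm (F.a y) := by
      filter_upwards [hn] with y hy
      rw [F.a_eq y hy, (T.base j).left_inv (F.src y hy)]
    have h1 := BaseA_local (T.base_mem i) hxi
    have h2 := BaseA_local (T.base_mem j) haj
    rw [pull_lift h1 h2 hc1 rfl he κ,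
      (lift_differentiableAt h1 h2 hc1 rfl he).fderiv_restrictScalars ℝ]

end TorusFibration

end Pool.Agent.Helper80.TF
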