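import Pool.Agent.Helper80.TF.BaseB0

/-!
# A balanced metric defines a Kähler form on the base, if the base is a surface
-/

open Manifold Set Filter Topology MeasureTheory

set_option linter.unusedSectionVars false

namespace Pool.Agent.Helper80.TF.TorusFibration

variable {k : ℕ} {V W : Type*} [NormedAddCommGroup V] [NormedSpace ℂ V] [FiniteDimensional ℂ V]
    [NormedAddCommGroup W] [NormedSpace ℂ W] {B M : Type*} [TopologicalSpace B]
    [ChartedSpace V B] [IsManifold 𝓘(ℂ, V) ⊤ B] [TopologicalSpace M] [ChartedSpace (V × W) M]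
    [IsManifold 𝓘(ℂ, V × W) ⊤ M] {f : M → B} (T : TorusFibration (k * 2) V W f)

/-- The Kähler form on the base (of dimension `2`): the integral over the fibres of `g ^ (n - 1)`,
normalised by the volume of the fibre for the polarisation. -/
noncomputable def baseOf (E : T.ι → V → (Fin (k * 2) → ℝ) [⋀^Fin 2]→L[ℝ] ℝ)
    (g : M → (V × W) [⋀^Fin 2]→L[ℝ] ℝ) (i : T.ι) (x : V) : V [⋀^Fin 2]→L[ℝ] ℝ :=
  (T.vol E i x)⁻¹ • ctr (T.bar i (fun m => wpow (k + 1) (g m)) x)

private theorem BaseB_apply (i : T.ι) {g : M → (V × W) [⋀^Fin 2]→L[ℝ] ℝ} (hg : IsHermitian g)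
    {x : V} (hx : x ∈ T.D i) (v : Fin ((k + 1) * 2) → V × (Fin (k * 2) → ℝ)) :
    T.bar i (fun m => wpow (k + 1) (g m)) x v =
      avg fun t => wpow (k + 1) (T.flat i g (x, t)) v := by
  have h1 := T.continuous_flat i (smoothForm_wpow (k + 1) hg.1) hx
  have h2 := avg_alt_apply h1 v
  simp only [flat_wpow] at h2
  rw [← h2]
  simp only [bar, flat_wpow]

private theorem BaseB_continuous (i : T.ι) {g : M → (V × W) [⋀^Fin 2]→L[ℝ] ℝ}
    (hg : IsHermitian g) {x : V} (hx : x ∈ T.D i)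
    (v : Fin ((k + 1) * 2) → V × (Fin (k * 2) → ℝ)) :
    Continuous fun t => wpow (k + 1) (T.flat i g (x, t)) v := by
  have h1 := T.continuous_flat i (smoothForm_wpow (k + 1) hg.1) hx
  simp only [flat_wpow] at h1
  exact (ContinuousAlternatingMap.apply ℝ (V × (Fin (k * 2) → ℝ)) ℝ v).continuous.comp h1

private theorem BaseB_vec2 {L : Type*} (v : Fin 2 → L) : v = ![v 0, v 1] := by
  funext j
  fin_cases j <;> rfl

private theorem BaseB_inv (i : T.ι) {g : M → (V × W) [⋀^Fin 2]→L[ℝ] ℝ} (hg : IsHermitian g)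
    {x : V} (hx : x ∈ T.D i) :
    (T.bar i (fun m => wpow (k + 1) (g m)) x).compContinuousLinearMap
      ((mulI V).prodMap (T.J i x)) = T.bar i (fun m => wpow (k + 1) (g m)) x := by
  ext v
  rw [ContinuousAlternatingMap.compContinuousLinearMap_apply, BaseB_apply T i hg hx,
    BaseB_apply T i hg hx]
  congr 1
  funext t
  have h1 : (T.flat i g (x, t)).compContinuousLinearMap ((mulI V).prodMap (T.J i x)) =
      T.flat i g (x, t) := by
    ext w
    have h2 := T.flat_inv i hg.2 hx t (w 0) (w 1)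
    rw [ContinuousAlternatingMap.compContinuousLinearMap_apply, BaseB_vec2 w]
    rw [← h2]
    congr 1
    funext j
    fin_cases j <;> rfl
  conv_rhs => rw [← h1, wpow_comp]
  rfl

private theorem BaseB_extDeriv (hk : Module.finrank ℂ (V × W) = k + 2)
    {g : M → (V × W) [⋀^Fin 2]→L[ℝ] ℝ} (hb : Balanced g) :
    ∀ e ∈ holCharts (V × W) M, ∀ p ∈ e.target,
      extDeriv (pull e.symm fun m => wpow (k + 1) (g m)) p = 0 := by
  intro e he p hp
  have h := hb e he p hp
  have h1 : Module.finrank ℂ (V × W) - 1 = k + 1 := by omega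
  rw [h1] at h
  have h2 : (pull e.symm fun m => wpow (k + 1) (g m)) =
      fun x => wpow (k + 1) (pull e.symm g x) := by
    funext x
    exact (wpow_comp (k + 1) _ _).symm
  rw [h2]
  exact h

theorem baseOf_posForm {E : T.ι → V → (Fin (k * 2) → ℝ) [⋀^Fin 2]→L[ℝ] ℝ} (hE : T.Polar E)
    {g : M → (V × W) [⋀^Fin 2]→L[ℝ] ℝ} (hg : IsHermitian g) (i : T.ι) {x : V} (hx : x ∈ T.D i) :
    PosForm (T.baseOf E g i x) := by
  have hinv : ctr (T.bar i (fun m => wpow (k + 1) (g m)) x) =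
      (ctr (T.bar i (fun m => wpow (k + 1) (g m)) x)).compContinuousLinearMap (mulI V) := by
    have h1 := ctr_comp (mulI V) (T.J i x) 0 ((mulI V).prodMap (T.J i x))
      (fun v s => by
        rw [ContinuousLinearMap.zero_apply, add_zero]
        rfl) (T.bar i (fun m => wpow (k + 1) (g m)) x)
    rw [BaseB_inv T i hg hx,
      det_J_eq_one (T.J i x) (T.J_J i x) (E i x) (hE.inv i x hx) (hE.pos i x hx), one_smul] at h1
    exact h1
  refine ⟨fun v w => ?_, fun v hv => ?_⟩
  · have h2 := congrArg (fun a : V [⋀^Fin 2]→L[ℝ] ℝ => a ![v, w]) hinv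
    simp only [ContinuousAlternatingMap.compContinuousLinearMap_apply] at h2
    change (T.vol E i x)⁻¹ • (ctr (T.bar i (fun m => wpow (k + 1) (g m)) x)
        ![mulI V v, mulI V w]) =
      (T.vol E i x)⁻¹ • (ctr (T.bar i (fun m => wpow (k + 1) (g m)) x) ![v, w])
    rw [h2]
    congr 2
    funext j
    fin_cases j <;> rfl
  · have hpos : 0 < avg fun t => T.vol E i x *
        wpow (k + 1) (T.flat i g (x, t)) (tup (v, 0) (mulI V v, 0)) := by
      refine avg_pos (continuous_const.mul (BaseB_continuous T i hg hx _)) fun t => ?_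
      exact ctr_wpow_pos (T.J i x) (T.J_J i x) (E i x) (hE.inv i x hx) (hE.pos i x hx)
        (T.flat i g (x, t)) (fun ξ η => T.flat_inv i hg.2 hx t ξ η)
        (fun ξ hξ => T.flat_pos i hg.2 hx t hξ) hv
    have h3 : (avg fun t => T.vol E i x *
        wpow (k + 1) (T.flat i g (x, t)) (tup (v, 0) (mulI V v, 0))) =
        T.vol E i x * ctr (T.bar i (fun m => wpow (k + 1) (g m)) x) ![v, mulI V v] := by
      rw [ctr_apply, BaseB_apply T i hg hx, avg, avg, integral_const_mul]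
    rw [h3] at hpos
    change 0 < (T.vol E i x)⁻¹ •
      (ctr (T.bar i (fun m => wpow (k + 1) (g m)) x) ![v, mulI V v])
    rw [smul_eq_mul]
    have h4 := T.vol_ne_zero hE i hx
    have h5 : (T.vol E i x)⁻¹ * (ctr (T.bar i (fun m => wpow (k + 1) (g m)) x) ![v, mulI V v]) =
        ((T.vol E i x) ^ 2)⁻¹ * (T.vol E i x *
          ctr (T.bar i (fun m => wpow (k + 1) (g m)) x) ![v, mulI V v]) := by
      field_simp
    rw [h5]
    exact mul_pos (inv_pos.2 (by positivity)) hpos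

theorem baseOf_closed (hk : Module.finrank ℂ (V × W) = k + 2)
    {E : T.ι → V → (Fin (k * 2) → ℝ) [⋀^Fin 2]→L[ℝ] ℝ} (hE : T.Polar E)
    {g : M → (V × W) [⋀^Fin 2]→L[ℝ] ℝ} (hg : IsHermitian g) (hb : Balanced g) (i : T.ι) {x : V}
    (hx : x ∈ T.D i) : extDeriv (T.baseOf E g i) x = 0 := by
  have hw : SmoothForm fun m => wpow (k + 1) (g m) := smoothForm_wpow (k + 1) hg.1
  have hD := T.isOpen_D i
  have hdiff : DifferentiableAt ℝ (T.bar i (fun m => wpow (k + 1) (g m))) x :=
    ((T.contDiffOn_bar i hw).contDiffAt (hD.mem_nhds hx)).differentiableAt (by simp)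
  have hc : extDeriv (fun p : V × (Fin (k * 2) → ℝ) =>
      T.bar i (fun m => wpow (k + 1) (g m)) p.1) (x, 0) = 0 := by
    ext w
    have h1 := extDeriv_avg hD (T.contDiffOn_flat i hw) (fun x hx => T.flat_per i _ hx) hx 0 w
    have h2 : (fun p : V × (Fin (k * 2) → ℝ) => T.bar i (fun m => wpow (k + 1) (g m)) p.1) =
        fun p : V × (Fin (k * 2) → ℝ) =>
          avg fun t => T.flat i (fun m => wpow (k + 1) (g m)) (p.1, t) := rfl
    rw [h2, h1]
    have h3 : (fun t => extDeriv (T.flat i fun m => wpow (k + 1) (g m)) (x, t) w) =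
        fun _ => (0 : ℝ) := by
      funext t
      rw [T.extDeriv_flat i hw (BaseB_extDeriv hk hb) hx t]
      rfl
    rw [h3, avg_const]
    rfl
  have h0 := extDeriv_ctr hdiff hc
  have hev : T.baseOf E g i =ᶠ[𝓝 x] fun y =>
      (T.vol E i x)⁻¹ • ctr (T.bar i (fun m => wpow (k + 1) (g m)) y) := by
    filter_upwards [T.vol_const hE i hx] with y hy
    rw [baseOf, hy]
  rw [hev.extDeriv_eq]
  have h5 : extDeriv (fun y => (T.vol E i x)⁻¹ • ctr (T.bar i (fun m => wpow (k + 1) (g m)) y)) x =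
      (T.vol E i x)⁻¹ • extDeriv (fun y => ctr (T.bar i (fun m => wpow (k + 1) (g m)) y)) x :=
    extDeriv_smul _ _
  rw [h5, h0, smul_zero]

theorem baseForm_of_balanced (hk : Module.finrank ℂ (V × W) = k + 2)
    {E : T.ι → V → (Fin (k * 2) → ℝ) [⋀^Fin 2]→L[ℝ] ℝ} (hE : T.Polar E)
    {g : M → (V × W) [⋀^Fin 2]→L[ℝ] ℝ} (hg : IsHermitian g) (hb : Balanced g) :
    T.BaseForm (T.baseOf E g) := by
  have hfd : FiniteDimensional ℝ V := FiniteDimensional.complexToReal V
  have hw : SmoothForm fun m => wpow (k + 1) (g m) := smoothForm_wpow (k + 1) hg.1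
  refine ⟨?_, fun i x hx => T.baseOf_closed hk hE hg hb i hx,
    fun i x hx => T.baseOf_posForm hE hg i hx, ?_⟩
  · intro i
    have h1 : ContDiffOn ℝ (⊤ : ℕ∞) (fun x => (T.vol E i x)⁻¹) (T.D i) := by
      intro x hx
      refine ContDiffAt.contDiffWithinAt ?_
      have h2 : (fun y => (T.vol E i y)⁻¹) =ᶠ[𝓝 x] fun _ => (T.vol E i x)⁻¹ := by
        filter_upwards [T.vol_const hE i hx] with y hy
        rw [hy]
      exact contDiffAt_const.congr_of_eventuallyEq h2
    exact h1.smul (contDiffOn_ctr (T.contDiffOn_bar i hw))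
  · intro i j F x hx
    have h1 := T.bar_ftrans F hw hx
    have h2 := ctr_comp (fderiv ℝ F.a x) (F.N : (Fin (k * 2) → ℝ) →L[ℝ] (Fin (k * 2) → ℝ))
      (fderiv ℝ F.σ x) (F.lin x) (fun v s => F.lin_apply x v s)
      (T.bar j (fun m => wpow (k + 1) (g m)) (F.a x))
    rw [← h1] at h2
    have h3 := T.vol_trans hE F hx
    have h4 := T.vol_ne_zero hE i (F.sub hx)
    have h5 := T.vol_ne_zero hE j (F.a_mem hx)
    have h6 : (T.vol E i x)⁻¹ * LinearMap.det ((F.N : (Fin (k * 2) → ℝ) →L[ℝ]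
        (Fin (k * 2) → ℝ)) : (Fin (k * 2) → ℝ) →ₗ[ℝ] (Fin (k * 2) → ℝ)) =
        (T.vol E j (F.a x))⁻¹ := by
      rw [h3] at h4 ⊢
      have h7 := left_ne_zero_of_mul h4
      field_simp
    rw [baseOf, h2, smul_smul, h6]
    rfl

end Pool.Agent.Helper80.TF.TorusFibration
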