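import Pool.Agent.Helper80.TF.Bar
import Pool.Agent.Helper80.TF.CtrC
import Pool.Agent.Helper80.TF.CtrD

/-!
# The volume of the fibres for a polarisation
-/

open Manifold Set Filter Topology MeasureTheory

set_option linter.unusedSectionVars false

namespace Pool.Agent.Helper80.TF.TorusFibration

variable {k : ℕ} {V W : Type*} [NormedAddCommGroup V] [NormedSpace ℂ V] [FiniteDimensional ℂ V]
    [NormedAddCommGroup W] [NormedSpace ℂ W] {B M : Type*} [TopologicalSpace B]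
    [ChartedSpace V B] [IsManifold 𝓘(ℂ, V) ⊤ B] [TopologicalSpace M] [ChartedSpace (V × W) M]
    [IsManifold 𝓘(ℂ, V × W) ⊤ M] {f : M → B} (T : TorusFibration (k * 2) V W f)

/-- The volume of the fibre for the polarisation `E`, with the sign of the orientation. -/
noncomputable def vol (E : T.ι → V → (Fin (k * 2) → ℝ) [⋀^Fin 2]→L[ℝ] ℝ) (i : T.ι) (x : V) : ℝ :=
  wpow k (E i x) (Pi.basisFun ℝ (Fin (k * 2)))

private theorem BaseB0_J (i : T.ι) (x : V) (s : Fin (k * 2) → ℝ) :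
    T.J i x (T.J i x s) = -s := by
  simp only [J, ContinuousLinearMap.comp_apply, ContinuousLinearEquiv.coe_coe,
    ContinuousLinearEquiv.apply_symm_apply, mulI, ContinuousLinearMap.smul_apply,
    ContinuousLinearMap.id_apply, smul_smul, Complex.I_mul_I, neg_smul, one_smul, map_neg,
    ContinuousLinearEquiv.symm_apply_apply]

theorem vol_ne_zero {E : T.ι → V → (Fin (k * 2) → ℝ) [⋀^Fin 2]→L[ℝ] ℝ} (hE : T.Polar E)
    (i : T.ι) {x : V} (hx : x ∈ T.D i) : T.vol E i x ≠ 0 :=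
  wpow_ne_zero (Pi.basisFun ℝ (Fin (k * 2))) (T.J i x) (BaseB0_J T i x) (E i x)
    (hE.inv i x hx) (hE.pos i x hx)

theorem vol_const {E : T.ι → V → (Fin (k * 2) → ℝ) [⋀^Fin 2]→L[ℝ] ℝ} (hE : T.Polar E)
    (i : T.ι) {x : V} (hx : x ∈ T.D i) : ∀ᶠ y in 𝓝 x, T.vol E i y = T.vol E i x := by
  filter_upwards [hE.const i x hx] with y hy
  unfold vol
  rw [hy]

theorem vol_trans {E : T.ι → V → (Fin (k * 2) → ℝ) [⋀^Fin 2]→L[ℝ] ℝ} (hE : T.Polar E)
    {i j : T.ι} (F : T.FTrans i j) {x : V} (hx : x ∈ F.O) : T.vol E i x =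
      LinearMap.det ((F.N : (Fin (k * 2) → ℝ) →L[ℝ] (Fin (k * 2) → ℝ)) :
        (Fin (k * 2) → ℝ) →ₗ[ℝ] (Fin (k * 2) → ℝ)) * T.vol E j (F.a x) := by
  have h1 : E i x = (E j (F.a x)).compContinuousLinearMap
      (F.N : (Fin (k * 2) → ℝ) →L[ℝ] (Fin (k * 2) → ℝ)) := by
    ext v
    have hv : v = ![v 0, v 1] := by
      funext l
      fin_cases l <;> rfl
    rw [hv, hE.trans i j F x hx, ContinuousAlternatingMap.compContinuousLinearMap_apply]
    congr 1
    funext l
    fin_cases l <;> rfl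
  unfold vol
  rw [h1, wpow_comp, top_comp]

end Pool.Agent.Helper80.TF.TorusFibration
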