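import Mathlib

/-!
# A sum over permutations
-/

open Manifold Set Filter Topology MeasureTheory

namespace Pool.Agent.Helper80.TF

private theorem PowB0_two : ∀ x : Fin 2, x = 0 ∨ x = 1 := by decide

/-- A permutation with a non-zero term. -/
private theorem PowB0_decomp {k : ℕ} (σ : Equiv.Perm (Fin k × Fin 2))
    (h1 : ∀ i, (σ (i, 0)).1 = (σ (i, 1)).1) (h2 : ∀ i, (σ (i, 0)).2 ≠ (σ (i, 1)).2) :
    ∃ (π : Equiv.Perm (Fin k)) (ε : Fin k → Equiv.Perm (Fin 2)),
      (∀ i s, σ (i, s) = (π i, ε i s)) ∧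
      Equiv.Perm.sign σ = ∏ i, Equiv.Perm.sign (ε i) := by
  classical
  let ε : Fin k → Equiv.Perm (Fin 2) := fun i =>
    if (σ (i, 0)).2 = 0 then 1 else Equiv.swap 0 1
  have hσ : ∀ i s, σ (i, s) = ((σ (i, 0)).1, ε i s) := by
    intro i s
    have h3 := h2 i
    have h5 := h1 i
    by_cases h4 : (σ (i, 0)).2 = 0
    · have h6 : ε i = 1 := if_pos h4
      have h7 : (σ (i, 1)).2 = 1 := by
        rw [h4] at h3
        rcases PowB0_two (σ (i, 1)).2 with h | h
        · exact absurd h.symm h3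
        · exact h
      fin_cases s
      · change σ (i, 0) = ((σ (i, 0)).1, ε i 0)
        rw [h6]
        exact Prod.ext rfl h4
      · change σ (i, 1) = ((σ (i, 0)).1, ε i 1)
        rw [h6]
        exact Prod.ext h5.symm h7
    · have h6 : ε i = Equiv.swap 0 1 := if_neg h4
      have h8 : (σ (i, 0)).2 = 1 := by
        rcases PowB0_two (σ (i, 0)).2 with h | h
        · exact absurd h h4
        · exact h
      have h7 : (σ (i, 1)).2 = 0 := by
        rw [h8] at h3
        rcases PowB0_two (σ (i, 1)).2 with h | h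
        · exact h
        · exact absurd h.symm h3
      fin_cases s
      · change σ (i, 0) = ((σ (i, 0)).1, ε i 0)
        rw [h6, Equiv.swap_apply_left]
        exact Prod.ext rfl h8
      · change σ (i, 1) = ((σ (i, 0)).1, ε i 1)
        rw [h6, Equiv.swap_apply_right]
        exact Prod.ext h5.symm h7
  have hinj : Function.Injective fun i => (σ (i, 0)).1 := by
    intro i i' h
    have h3 : σ (i', 0) = σ (i, (ε i).symm (ε i' 0)) := by
      rw [hσ i', hσ i ((ε i).symm (ε i' 0)), Equiv.apply_symm_apply]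
      exact Prod.ext h.symm rfl
    exact (congrArg Prod.fst (σ.injective h3)).symm
  let π : Equiv.Perm (Fin k) := Equiv.ofBijective _ (Finite.injective_iff_bijective.1 hinj)
  refine ⟨π, ε, hσ, ?_⟩
  have h3 : σ = (Equiv.prodCongrLeft fun _ : Fin 2 => π) * Equiv.prodCongrRight ε := by
    ext1 ⟨i, s⟩
    rw [Equiv.Perm.mul_apply, Equiv.prodCongrRight_apply, Equiv.prodCongrLeft_apply, hσ i s]
    rfl
  rw [h3, map_mul, Equiv.Perm.sign_prodCongrLeft, Equiv.Perm.sign_prodCongrRight,
    Fin.prod_univ_two, Int.units_mul_self, one_mul]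

/-- Proof sketch: a non-zero term has `{σ (i, 0), σ (i, 1)} = {(π i, 0), (π i, 1)}`, so that
`σ = (prodCongrLeft fun _ => π) * (prodCongrRight ε)` has sign `∏ i, sign (ε i)`
(`Equiv.Perm.sign_prodCongrLeft`, `Equiv.Perm.sign_prodCongrRight`), which is also the product of
the entries; the term of the identity is `1`. -/
theorem sum_perm_pos (k : ℕ) (S : Fin k × Fin 2 → Fin k × Fin 2 → ℝ)
    (hS : ∀ i j : Fin k, ∀ s t : Fin 2, S (i, s) (j, t) =
      if i = j then (if s = 0 ∧ t = 1 then 1 else if s = 1 ∧ t = 0 then -1 else 0) else 0) :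
    0 < ∑ σ : Equiv.Perm (Fin k × Fin 2),
      ((Equiv.Perm.sign σ : ℤ) : ℝ) * ∏ i : Fin k, S (σ (i, 0)) (σ (i, 1)) := by
  classical
  have hsgn : ∀ (j : Fin k) (e : Equiv.Perm (Fin 2)),
      S (j, e 0) (j, e 1) = ((Equiv.Perm.sign e : ℤ) : ℝ) := by
    intro j e
    rw [hS, if_pos rfl]
    have key : ∀ e : Equiv.Perm (Fin 2),
        (e 0 = 0 ∧ e 1 = 1 ∧ Equiv.Perm.sign e = 1) ∨
          (e 0 = 1 ∧ e 1 = 0 ∧ Equiv.Perm.sign e = -1) := by
      decide
    rcases key e with ⟨h0, h1, h2⟩ | ⟨h0, h1, h2⟩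
    · rw [h0, h1, h2]
      simp
    · rw [h0, h1, h2]
      simp
  refine Finset.sum_pos' (fun σ _ => ?_) ⟨1, Finset.mem_univ _, ?_⟩
  · by_cases hne : ∏ i : Fin k, S (σ (i, 0)) (σ (i, 1)) = 0
    · rw [hne, mul_zero]
    · have h3 : ∀ i, S (σ (i, 0)) (σ (i, 1)) ≠ 0 := fun i =>
        Finset.prod_ne_zero_iff.1 hne i (Finset.mem_univ i)
      have h4 : ∀ i, (σ (i, 0)).1 = (σ (i, 1)).1 ∧ (σ (i, 0)).2 ≠ (σ (i, 1)).2 := by
        intro i
        have h5 := h3 i
        have h6 := hS (σ (i, 0)).1 (σ (i, 1)).1 (σ (i, 0)).2 (σ (i, 1)).2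
        rw [Prod.mk.eta, Prod.mk.eta] at h6
        rw [h6] at h5
        constructor
        · by_contra hcon
          rw [if_neg hcon] at h5
          exact h5 rfl
        · intro hcon
          apply h5
          rw [hcon]
          split_ifs with h7 h8 h9
          · exfalso
            rw [h8.1] at h8
            exact absurd h8.2 (by decide)
          · exfalso
            rw [h9.1] at h9
            exact absurd h9.2 (by decide)
          · rfl
          · rfl
      obtain ⟨π, ε, h5, h6⟩ := PowB0_decomp σ (fun i => (h4 i).1) (fun i => (h4 i).2)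
      have h7 : ∏ i : Fin k, S (σ (i, 0)) (σ (i, 1)) =
          ((Equiv.Perm.sign σ : ℤ) : ℝ) := by
        rw [h6, Units.coe_prod, Int.cast_prod]
        refine Finset.prod_congr rfl fun i _ => ?_
        rw [h5, h5, hsgn]
      rw [h7]
      exact mul_self_nonneg _
  · rw [Equiv.Perm.sign_one]
    have h3 : ∀ i : Fin k, S ((1 : Equiv.Perm (Fin k × Fin 2)) (i, 0))
        ((1 : Equiv.Perm (Fin k × Fin 2)) (i, 1)) = 1 := by
      intro i
      rw [Equiv.Perm.one_apply, Equiv.Perm.one_apply, hS]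
      simp
    rw [Finset.prod_congr rfl fun i _ => h3 i]
    simp

end Pool.Agent.Helper80.TF
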