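import Pool.Agent.Helper80.TF.PowA
import Pool.Agent.Helper80.TF.PowB0

/-!
# Wedge powers of positive forms do not vanish
-/

open Manifold Set Filter Topology MeasureTheory

namespace Pool.Agent.Helper80.TF

section

variable {L : Type*} [NormedAddCommGroup L] [NormedSpace ℝ L]

private theorem PowB_add (a : L [⋀^Fin 2]→L[ℝ] ℝ) (x y z : L) :
    a ![x + y, z] = a ![x, z] + a ![y, z] := by
  have h := a.map_update_add ![x, z] 0 x y
  have e : ∀ w : L, Function.update ![x, z] 0 w = ![w, z] := by
    intro w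
    ext i
    fin_cases i <;> simp
  rwa [e, e, e] at h

private theorem PowB_smul (a : L [⋀^Fin 2]→L[ℝ] ℝ) (c : ℝ) (x z : L) :
    a ![c • x, z] = c * a ![x, z] := by
  have h := a.map_update_smul ![x, z] 0 c x
  have e : ∀ w : L, Function.update ![x, z] 0 w = ![w, z] := by
    intro w
    ext i
    fin_cases i <;> simp
  rw [e, e] at h
  rw [h, smul_eq_mul]

private theorem PowB_swap (a : L [⋀^Fin 2]→L[ℝ] ℝ) (x y : L) : a ![x, y] = -a ![y, x] := by
  have h := a.toAlternatingMap.map_swap ![y, x] (i := 0) (j := 1) (by decide)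
  have e : (![y, x] : Fin 2 → L) ∘ (Equiv.swap (0 : Fin 2) 1) = ![x, y] := by
    ext i
    fin_cases i <;> simp
  rw [e] at h
  exact h

private theorem PowB_smul' (a : L [⋀^Fin 2]→L[ℝ] ℝ) (c : ℝ) (x z : L) :
    a ![z, c • x] = c * a ![z, x] := by
  rw [PowB_swap, PowB_smul, PowB_swap a z x]
  ring

private theorem PowB_neg (a : L [⋀^Fin 2]→L[ℝ] ℝ) (x z : L) : a ![-x, z] = -a ![x, z] := by
  have h := PowB_smul a (-1) x z
  rw [neg_one_smul] at h
  rw [h]
  ring

private theorem PowB_self (a : L [⋀^Fin 2]→L[ℝ] ℝ) (x : L) : a ![x, x] = 0 := by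
  have h := PowB_swap a x x
  linarith

/-- The symplectic basis. -/
private theorem PowB_basis (J : L →L[ℝ] L) (hJ : ∀ x, J (J x) = -x)
    (a : L [⋀^Fin 2]→L[ℝ] ℝ) (h1 : ∀ x y, a ![J x, J y] = a ![x, y])
    (h2 : ∀ x, x ≠ 0 → 0 < a ![x, J x]) (k : ℕ) [FiniteDimensional ℝ L]
    (hk : Module.finrank ℝ L = k * 2) (n : ℕ) (hn : n ≤ k) :
    ∃ u : Fin n → L, (∀ i j, a ![u i, u j] = 0) ∧
      ∀ i j, a ![u i, J (u j)] = if i = j then 1 else 0 := by
  induction n with
  | zero => exact ⟨fun i => i.elim0, fun i => i.elim0, fun i => i.elim0⟩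
  | succ n ih =>
    obtain ⟨u, hu1, hu2⟩ := ih (by omega)
    let φ : L →ₗ[ℝ] (Fin n × Fin 2 → ℝ) :=
      { toFun := fun x p => a ![x, if p.2 = 0 then u p.1 else J (u p.1)]
        map_add' := fun x y => by
          funext p
          exact PowB_add a _ _ _
        map_smul' := fun c x => by
          funext p
          exact PowB_smul a _ _ _ }
    have hker : LinearMap.ker φ ≠ ⊥ := by
      apply LinearMap.ker_ne_bot_of_finrank_lt
      rw [Module.finrank_fintype_fun_eq_card, Fintype.card_prod, Fintype.card_fin,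
        Fintype.card_fin, hk]
      omega
    obtain ⟨x, hx, hx0⟩ := Submodule.exists_mem_ne_zero_of_ne_bot hker
    have hx1 : ∀ i, a ![x, u i] = 0 := by
      intro i
      have := congrFun (LinearMap.mem_ker.1 hx) (i, 0)
      exact this
    have hx2 : ∀ i, a ![x, J (u i)] = 0 := by
      intro i
      have := congrFun (LinearMap.mem_ker.1 hx) (i, 1)
      exact this
    have hpos := h2 x hx0
    set c : ℝ := (Real.sqrt (a ![x, J x]))⁻¹ with hc
    have hc2 : c * (c * a ![x, J x]) = 1 := by
      rw [hc, ← mul_assoc, ← mul_inv, Real.mul_self_sqrt hpos.le, inv_mul_cancel₀ hpos.ne']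
    have hx3 : ∀ i, a ![u i, J x] = 0 := by
      intro i
      rw [← h1, hJ, PowB_swap, PowB_neg, hx2]
      simp
    refine ⟨Fin.cons (c • x) u, ?_, ?_⟩
    · intro i j
      refine Fin.cases ?_ (fun i => ?_) i
      · refine Fin.cases ?_ (fun j => ?_) j
        · exact PowB_self a _
        · rw [Fin.cons_zero, Fin.cons_succ, PowB_smul, hx1, mul_zero]
      · refine Fin.cases ?_ (fun j => ?_) j
        · rw [Fin.cons_zero, Fin.cons_succ, PowB_smul', PowB_swap, hx1]
          simp
        · rw [Fin.cons_succ, Fin.cons_succ]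
          exact hu1 i j
    · intro i j
      refine Fin.cases ?_ (fun i => ?_) i
      · refine Fin.cases ?_ (fun j => ?_) j
        · rw [Fin.cons_zero, map_smul, PowB_smul, PowB_smul', hc2, if_pos rfl]
        · rw [Fin.cons_zero, Fin.cons_succ, PowB_smul, hx2, mul_zero,
            if_neg (Fin.succ_ne_zero j).symm]
      · refine Fin.cases ?_ (fun j => ?_) j
        · rw [Fin.cons_zero, Fin.cons_succ, map_smul, PowB_smul', hx3, mul_zero,
            if_neg (Fin.succ_ne_zero i)]
        · rw [Fin.cons_succ, Fin.cons_succ, hu2]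
          simp only [Fin.succ_inj]

end

/-- Proof sketch: the inner product `a (x, J y)` is `J`-invariant; take a basis
`u_0, J u_0, u_1, J u_1, …` which is orthonormal (induction on the dimension).  By
`sum_perm_pos` the value of `wpow k a` on this basis is positive; a non-zero alternating form of
top degree does not vanish on any basis. -/
theorem wpow_ne_zero {k : ℕ} {L : Type*} [NormedAddCommGroup L] [NormedSpace ℝ L]
    (b : Module.Basis (Fin (k * 2)) ℝ L) (J : L →L[ℝ] L) (hJ : ∀ x, J (J x) = -x)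
    (a : L [⋀^Fin 2]→L[ℝ] ℝ) (h1 : ∀ x y, a ![J x, J y] = a ![x, y])
    (h2 : ∀ x, x ≠ 0 → 0 < a ![x, J x]) : wpow k a b ≠ 0 := by
  intro h0
  have hfd : FiniteDimensional ℝ L := Module.Basis.finiteDimensional_of_finite b
  have hfr : Module.finrank ℝ L = k * 2 := by
    rw [Module.finrank_eq_card_basis b, Fintype.card_fin]
  obtain ⟨u, hu1, hu2⟩ := PowB_basis J hJ a h1 h2 k hfr k le_rfl
  set e : Fin k × Fin 2 → L := fun p => if p.2 = 0 then u p.1 else J (u p.1) with he
  have hS : ∀ i j : Fin k, ∀ s t : Fin 2, a ![e (i, s), e (j, t)] =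
      if i = j then (if s = 0 ∧ t = 1 then 1 else if s = 1 ∧ t = 0 then -1 else 0) else 0 := by
    intro i j s t
    fin_cases s <;> fin_cases t
    · simp [he, hu1]
    · simp [he, hu2]
    · simp only [he]
      rw [PowB_swap]
      by_cases hij : i = j
      · subst hij
        simp [hu2]
      · have hji : ¬ j = i := fun h => hij h.symm
        simp [hu2, hij, hji]
    · simp only [he]
      simp [h1, hu1]
  have hpos := sum_perm_pos k (fun p q => a ![e p, e q]) hS
  -- the value on the symplectic basis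
  have hval : wpow k a (fun m => e (finProdFinEquiv.symm m)) = (1 / 2 : ℝ) ^ k *
      ∑ σ : Equiv.Perm (Fin k × Fin 2),
      ((Equiv.Perm.sign σ : ℤ) : ℝ) * ∏ i : Fin k, a ![e (σ (i, 0)), e (σ (i, 1))] := by
    rw [wpow_apply]
    congr 1
    refine (Fintype.sum_equiv (finProdFinEquiv (m := k) (n := 2)).permCongr _ _ ?_).symm
    intro σ
    rw [Equiv.Perm.sign_permCongr]
    congr 1
    refine Finset.prod_congr rfl fun i _ => ?_
    congr 1
    funext j
    fin_cases j <;> simp [Equiv.permCongr_apply]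
  have hzero : wpow k a (fun m => e (finProdFinEquiv.symm m)) = 0 := by
    have h3 := AlternatingMap.eq_smul_basis_det b (wpow k a).toAlternatingMap
    have h4 : (wpow k a).toAlternatingMap (fun m => e (finProdFinEquiv.symm m)) =
        (wpow k a).toAlternatingMap b * b.det (fun m => e (finProdFinEquiv.symm m)) := by
      conv_lhs => rw [h3]
      rfl
    have h5 : (wpow k a).toAlternatingMap b = 0 := h0
    rw [h5, zero_mul] at h4
    exact h4
  rw [hval] at hzero
  have h6 : (0 : ℝ) < (1 / 2 : ℝ) ^ k := by positivity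
  exact (mul_pos h6 hpos).ne' hzero

end Pool.Agent.Helper80.TF
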