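import Pool.Agent.Helper80.TF.Bar
import Pool.Agent.Helper80.TF.PowB
import Pool.Agent.Helper80.TF.BalAvg
import Pool.Agent.Helper80.TF.Alg

/-!
# A balanced metric defines a flat connection, if the base is a curve
-/

open Manifold Set Filter Topology MeasureTheory

namespace Pool.Agent.Helper80.TF.TorusFibration

variable {k : ℕ} {V W : Type*} [NormedAddCommGroup V] [NormedSpace ℂ V] [FiniteDimensional ℂ V]
    [NormedAddCommGroup W] [NormedSpace ℂ W] {B M : Type*} [TopologicalSpace B]
    [ChartedSpace V B] [IsManifold 𝓘(ℂ, V) ⊤ B] [TopologicalSpace M] [ChartedSpace (V × W) M]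
    [IsManifold 𝓘(ℂ, V × W) ⊤ M] {f : M → B} (T : TorusFibration (k * 2) V W f)

/-- The average of `g ^ k` in flat coordinates. -/
noncomputable def barPow (i : T.ι) (g : M → (V × W) [⋀^Fin 2]→L[ℝ] ℝ) (x : V) :
    (V × (Fin (k * 2) → ℝ)) [⋀^Fin (k * 2)]→L[ℝ] ℝ := T.bar i (fun m => wpow k (g m)) x

theorem Conn_apply (i : T.ι) {g : M → (V × W) [⋀^Fin 2]→L[ℝ] ℝ} (hg : IsHermitian g)
    {x : V} (hx : x ∈ T.D i) (v : Fin (k * 2) → V × (Fin (k * 2) → ℝ)) :
    T.barPow i g x v = avg fun t => wpow k (T.flat i g (x, t)) v := by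
  have h1 := T.continuous_flat i (smoothForm_wpow k hg.1) hx
  have h2 := avg_alt_apply h1 v
  simp only [flat_wpow] at h2
  rw [← h2]
  simp only [barPow, bar, flat_wpow]

theorem Conn_continuous (i : T.ι) {g : M → (V × W) [⋀^Fin 2]→L[ℝ] ℝ} (hg : IsHermitian g)
    {x : V} (hx : x ∈ T.D i) (v : Fin (k * 2) → V × (Fin (k * 2) → ℝ)) :
    Continuous fun t => wpow k (T.flat i g (x, t)) v := by
  have h1 := T.continuous_flat i (smoothForm_wpow k hg.1) hx
  simp only [flat_wpow] at h1
  exact (ContinuousAlternatingMap.apply ℝ (V × (Fin (k * 2) → ℝ)) ℝ v).continuous.comp h1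

private theorem Conn_vec2 {L : Type*} (v : Fin 2 → L) : v = ![v 0, v 1] := by
  funext j
  fin_cases j <;> rfl

private theorem Conn_comp2 {L L' : Type*} (A : L → L') (a b : L) : A ∘ ![a, b] = ![A a, A b] := by
  funext j
  fin_cases j <;> rfl

/-- By `wpow_ne_zero` the integrand does not vanish; use `avg_ne_zero`.  (The restriction of the
form to the fibre is positive for the complex structure `J i x`.) -/
theorem barPow_ne_zero (i : T.ι) {g : M → (V × W) [⋀^Fin 2]→L[ℝ] ℝ} (hg : IsHermitian g)
    {x : V} (hx : x ∈ T.D i) : T.barPow i g x (eb V (k * 2)) ≠ 0 := by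
  rw [Conn_apply T i hg hx]
  refine avg_ne_zero (Conn_continuous T i hg hx _) fun t => ?_
  have h1 := wpow_ne_zero (Pi.basisFun ℝ (Fin (k * 2))) (T.J i x) (T.J_J i x)
    ((T.flat i g (x, t)).compContinuousLinearMap
      (ContinuousLinearMap.inr ℝ V (Fin (k * 2) → ℝ))) ?_ ?_
  · rw [wpow_comp, ContinuousAlternatingMap.compContinuousLinearMap_apply] at h1
    convert h1 using 2
    funext l
    simp [eb]
  · intro s s'
    have h2 := T.flat_inv i hg.2 hx t (0, s) (0, s')
    rw [ContinuousAlternatingMap.compContinuousLinearMap_apply,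
      ContinuousAlternatingMap.compContinuousLinearMap_apply, Conn_comp2, Conn_comp2]
    have h3 : ∀ s, T.Jt i x (0, s) = (0, T.J i x s) := by
      intro s
      simp [Jt]
    rw [h3, h3] at h2
    exact h2
  · intro s hs
    have h2 := T.flat_pos i hg.2 hx t (ξ := (0, s)) (by
      intro h
      exact hs (Prod.ext_iff.1 h).2)
    rw [ContinuousAlternatingMap.compContinuousLinearMap_apply, Conn_comp2]
    have h3 : T.Jt i x (0, s) = (0, T.J i x s) := by
      simp [Jt]
    rw [h3] at h2
    exact h2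

/-- The average of a `J`-invariant form is `J`-invariant. -/
theorem barPow_inv (i : T.ι) {g : M → (V × W) [⋀^Fin 2]→L[ℝ] ℝ} (hg : IsHermitian g)
    {x : V} (hx : x ∈ T.D i) :
    (T.barPow i g x).compContinuousLinearMap ((mulI V).prodMap (T.J i x)) = T.barPow i g x := by
  ext v
  rw [ContinuousAlternatingMap.compContinuousLinearMap_apply, Conn_apply T i hg hx,
    Conn_apply T i hg hx]
  congr 1
  funext t
  have h1 : (T.flat i g (x, t)).compContinuousLinearMap ((mulI V).prodMap (T.J i x)) =
      T.flat i g (x, t) := by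
    ext w
    have h2 := T.flat_inv i hg.2 hx t (w 0) (w 1)
    rw [ContinuousAlternatingMap.compContinuousLinearMap_apply, Conn_vec2 w]
    rw [← h2]
    congr 1
    funext j
    fin_cases j <;> rfl
  conv_rhs => rw [← h1, wpow_comp]
  rfl

private theorem Conn_extDeriv (hk : Module.finrank ℂ (V × W) = k + 1)
    {g : M → (V × W) [⋀^Fin 2]→L[ℝ] ℝ} (hb : Balanced g) :
    ∀ e ∈ holCharts (V × W) M, ∀ p ∈ e.target,
      extDeriv (pull e.symm fun m => wpow k (g m)) p = 0 := by
  intro e he p hp
  have h := hb e he p hp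
  have h1 : Module.finrank ℂ (V × W) - 1 = k := by omega
  rw [h1] at h
  have h2 : (pull e.symm fun m => wpow k (g m)) = fun x => wpow k (pull e.symm g x) := by
    funext x
    exact (wpow_comp k _ _).symm
  rw [h2]
  exact h

/-- The connection: `h i x = hvec (barPow i g x)`.  Smoothness from `contDiffOn_bar`; `closed` is
`closed_avg_one` together with `closed_avg_top`; `hol` is `hvec_hol`; `trans` is `hvec_comp`
together with `bar_ftrans`. -/
theorem flatConn_of_balanced (hk : Module.finrank ℂ (V × W) = k + 1)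
    {g : M → (V × W) [⋀^Fin 2]→L[ℝ] ℝ} (hg : IsHermitian g) (hb : Balanced g) :
    T.FlatConn fun i x => hvec (T.barPow i g x) := by
  have hfd : FiniteDimensional ℝ V := FiniteDimensional.complexToReal V
  have hw : SmoothForm fun m => wpow k (g m) := smoothForm_wpow k hg.1
  have hbar : ∀ i, ContDiffOn ℝ (⊤ : ℕ∞) (T.barPow i g) (T.D i) := fun i =>
    T.contDiffOn_bar i hw
  have hval : ∀ i (v : Fin (k * 2) → V × (Fin (k * 2) → ℝ)),
      ContDiffOn ℝ (⊤ : ℕ∞) (fun x => T.barPow i g x v) (T.D i) := fun i v =>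
    (ContinuousAlternatingMap.apply ℝ (V × (Fin (k * 2) → ℝ)) ℝ v).contDiff.comp_contDiffOn
      (hbar i)
  have hcomp : ∀ i (v : V) (l : Fin (k * 2)), ContDiffOn ℝ (⊤ : ℕ∞)
      (fun x => hvec (T.barPow i g x) v l) (T.D i) := by
    intro i v l
    simp only [hvec_apply]
    exact ((hval i _).inv fun x hx => T.barPow_ne_zero i hg hx).mul (hval i _)
  have hsm : ∀ i, ContDiffOn ℝ (⊤ : ℕ∞) (fun x => hvec (T.barPow i g x)) (T.D i) := by
    intro i
    rw [contDiffOn_clm_apply]
    intro v
    rw [contDiffOn_pi]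
    intro l
    exact hcomp i v l
  refine ⟨hsm, ?_, ?_, ?_⟩
  · intro i x hx v w
    have hD := T.isOpen_D i
    have hcl : ∀ x ∈ T.D i, ∀ t, extDeriv (T.flat i fun m => wpow k (g m)) (x, t) = 0 :=
      fun x hx t => T.extDeriv_flat i hw (Conn_extDeriv hk hb) hx t
    have hdiff : ∀ v, DifferentiableAt ℝ (fun x => T.barPow i g x v) x := fun v =>
      ((hval i v).contDiffAt (hD.mem_nhds hx)).differentiableAt (by simp)
    have htop : ∀ v : V, fderiv ℝ (fun y => T.barPow i g y (eb V (k * 2))) x v = 0 := fun v =>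
      closed_avg_top hD (T.contDiffOn_flat i hw) (fun x hx => T.flat_per i _ hx) hcl hx v
    have hone : ∀ (v v' : V) (l : Fin (k * 2)),
        fderiv ℝ (fun y => T.barPow i g y (Function.update (eb V (k * 2)) l (v', 0))) x v =
        fderiv ℝ (fun y => T.barPow i g y (Function.update (eb V (k * 2)) l (v, 0))) x v' :=
      fun v v' l => closed_avg_one hD (T.contDiffOn_flat i hw) (fun x hx => T.flat_per i _ hx)
        hcl hx v v' l
    have hder : ∀ (v v' : V) (l : Fin (k * 2)),
        fderiv ℝ (fun y => hvec (T.barPow i g y) v' l) x v =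
          (T.barPow i g x (eb V (k * 2)))⁻¹ *
          fderiv ℝ (fun y => T.barPow i g y (Function.update (eb V (k * 2)) l (v', 0))) x v := by
      intro v v' l
      have h1 : (fun y => hvec (T.barPow i g y) v' l) = fun y =>
          (T.barPow i g y (eb V (k * 2)))⁻¹ *
            T.barPow i g y (Function.update (eb V (k * 2)) l (v', 0)) := by
        funext y
        rw [hvec_apply]
      have h0 := T.barPow_ne_zero i hg hx
      have h2 : HasFDerivAt (fun y => (T.barPow i g y (eb V (k * 2)))⁻¹) (0 : V →L[ℝ] ℝ) x := by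
        have h5 := (hasDerivAt_inv h0).comp_hasFDerivAt x (hdiff (eb V (k * 2))).hasFDerivAt
        have h6 : fderiv ℝ (fun y => T.barPow i g y (eb V (k * 2))) x = 0 := by
          ext v
          exact htop v
        rw [h6, smul_zero] at h5
        exact h5
      have h3 := h2.mul (hdiff (Function.update (eb V (k * 2)) l (v', 0))).hasFDerivAt
      rw [h1]
      have h4 : fderiv ℝ (fun y => (T.barPow i g y (eb V (k * 2)))⁻¹ *
            T.barPow i g y (Function.update (eb V (k * 2)) l (v', 0))) x v = _ :=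
        congrArg (fun A : V →L[ℝ] ℝ => A v) h3.fderiv
      rw [h4]
      simp
    have hfd2 : DifferentiableAt ℝ (fun y => hvec (T.barPow i g y)) x :=
      ((hsm i).contDiffAt (hD.mem_nhds hx)).differentiableAt (by simp)
    have hev : ∀ (v v' : V) (l : Fin (k * 2)),
        fderiv ℝ (fun y => hvec (T.barPow i g y)) x v v' l =
          fderiv ℝ (fun y => hvec (T.barPow i g y) v' l) x v := by
      intro v v' l
      have h1 : HasFDerivAt (fun y => hvec (T.barPow i g y) v' l)
          ((ContinuousLinearMap.proj (R := ℝ) (φ := fun _ : Fin (k * 2) => ℝ) l ∘L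
            ContinuousLinearMap.apply ℝ (Fin (k * 2) → ℝ) v') ∘L
            (fderiv ℝ (fun y => hvec (T.barPow i g y)) x)) x :=
        (ContinuousLinearMap.proj (R := ℝ) (φ := fun _ : Fin (k * 2) => ℝ) l ∘L
            ContinuousLinearMap.apply ℝ (Fin (k * 2) → ℝ) v').hasFDerivAt.comp x hfd2.hasFDerivAt
      rw [h1.fderiv]
      rfl
    funext l
    rw [hev, hev, hder, hder, hone]
  · intro i x hx v
    exact hvec_hol (mulI V) (T.J i x) (T.J_J i x) (T.barPow_inv i hg hx)
      (T.barPow_ne_zero i hg hx) v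
  · intro i j F x hx v
    have h1 : T.barPow i g x = (T.barPow j g (F.a x)).compContinuousLinearMap (F.lin x) :=
      T.bar_ftrans F hw hx
    have h2 := hvec_comp (η := T.barPow j g (F.a x)) (fderiv ℝ F.a x)
      (F.N.toLinearEquiv) (fderiv ℝ F.σ x) (F.lin x) (fun v s => F.lin_apply x v s)
      (T.barPow_ne_zero j hg (F.a_mem hx))
      (by rw [← h1]; exact T.barPow_ne_zero i hg (F.sub hx)) v
    rw [← h1] at h2
    exact h2

end Pool.Agent.Helper80.TF.TorusFibration
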