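import Pool.Agent.Helper80.TF.Defs

/-!
# Flat coordinates on a torus fibration

Over a chart with image `D ⊆ V` the manifold `M` is the quotient of `D × ℝ ^ r` by `ℤ ^ r`
(coordinates `(x, t)`, with `z = P x t`); the complex structure is `(i, J x)`.
-/

open Manifold Set Filter Topology MeasureTheory

namespace Pool.Agent.Helper80.TF

variable {r : ℕ}

/-- An integer vector, as a real vector. -/
def intVec (n : Fin r → ℤ) : Fin r → ℝ := fun l => (n l : ℝ)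

/-- The unit cube. -/
def cube (r : ℕ) : Set (Fin r → ℝ) := univ.pi fun _ => Ico (0 : ℝ) 1

/-- The average of a periodic function. -/
noncomputable def avg {F : Type*} [NormedAddCommGroup F] [NormedSpace ℝ F]
    (f : (Fin r → ℝ) → F) : F := ∫ t in cube r, f t

/-- `ℤ ^ r`-periodic functions. -/
def Per {F : Type*} (f : (Fin r → ℝ) → F) : Prop := ∀ t n, f (t + intVec n) = f t

/-- The linear automorphism `N` of `ℝ ^ r` preserves `ℤ ^ r`. -/
def Integral (N : (Fin r → ℝ) ≃L[ℝ] (Fin r → ℝ)) : Prop :=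
  (∀ n, ∃ m, N (intVec n) = intVec m) ∧ ∀ n, ∃ m, N.symm (intVec n) = intVec m

/-- Second derivative in the direction `v`. -/
noncomputable def D2 {V : Type*} [NormedAddCommGroup V] [NormedSpace ℝ V] (u : V → ℝ) (x v : V) :
    ℝ := fderiv ℝ (fun y => fderiv ℝ u y v) x v

/-- The standard basis vector, in `V × ℝ ^ r`. -/
def eb (V : Type*) [Zero V] (r : ℕ) (l : Fin r) : V × (Fin r → ℝ) := (0, Pi.single l 1)

namespace TorusFibration

variable {V W : Type*} [NormedAddCommGroup V] [NormedSpace ℂ V]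
    [NormedAddCommGroup W] [NormedSpace ℂ W] {B M : Type*} [TopologicalSpace B]
    [ChartedSpace V B] [TopologicalSpace M] [ChartedSpace (V × W) M] {f : M → B}
    (T : TorusFibration r V W f)

/-- The image of the chart `i`. -/
def D (i : T.ι) : Set V := (T.base i).target

/-- The complex structure of the fibre over `x`, in flat coordinates. -/
noncomputable def J (i : T.ι) (x : V) : (Fin r → ℝ) →L[ℝ] (Fin r → ℝ) :=
  ((T.P i x).symm : W →L[ℝ] (Fin r → ℝ)) ∘L mulI W ∘L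
    ((T.P i x : (Fin r → ℝ) ≃L[ℝ] W) : (Fin r → ℝ) →L[ℝ] W)

/-- The complex structure of `M` in flat coordinates. -/
noncomputable def Jt (i : T.ι) (x : V) : V × (Fin r → ℝ) →L[ℝ] V × (Fin r → ℝ) :=
  (mulI V).prodMap (T.J i x)

/-- From flat coordinates to holomorphic coordinates. -/
noncomputable def Psi (i : T.ι) (p : V × (Fin r → ℝ)) : V × W := (p.1, T.P i p.1 p.2)

/-- From holomorphic coordinates to flat coordinates. -/
noncomputable def Phi (i : T.ι) (p : V × W) : V × (Fin r → ℝ) := (p.1, (T.P i p.1).symm p.2)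

/-- A form on `M` in flat coordinates. -/
noncomputable def flat {k : ℕ} (i : T.ι) (g : M → (V × W) [⋀^Fin k]→L[ℝ] ℝ)
    (p : V × (Fin r → ℝ)) : (V × (Fin r → ℝ)) [⋀^Fin k]→L[ℝ] ℝ :=
  (pull (T.q i) g (T.Psi i p)).compContinuousLinearMap (fderiv ℝ (T.Psi i) p)

/-- The average over the fibres of a form on `M`. -/
noncomputable def bar {k : ℕ} (i : T.ι) (g : M → (V × W) [⋀^Fin k]→L[ℝ] ℝ) (x : V) :
    (V × (Fin r → ℝ)) [⋀^Fin k]→L[ℝ] ℝ := avg fun t => T.flat i g (x, t)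

/-- The restriction of the average to the fibres. -/
noncomputable def E (i : T.ι) (g : M → (V × W) [⋀^Fin 2]→L[ℝ] ℝ) (x : V) :
    (Fin r → ℝ) [⋀^Fin 2]→L[ℝ] ℝ :=
  (T.bar i g x).compContinuousLinearMap (ContinuousLinearMap.inr ℝ V (Fin r → ℝ))

/-- A change of flat coordinates `(x, t) ↦ (a x, N t + σ x)`. -/
structure FTrans (i j : T.ι) where
  /-- domain -/
  O : Set V
  isOpen : IsOpen O
  sub : O ⊆ T.D i
  src : ∀ x ∈ O, (T.base i).symm x ∈ (T.base j).source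
  /-- the change of coordinates in the base -/
  a : V → V
  a_eq : ∀ x ∈ O, a x = T.base j ((T.base i).symm x)
  a_smooth : ContDiffOn ℝ (⊤ : ℕ∞) a O
  /-- the linear part in the fibre -/
  N : (Fin r → ℝ) ≃L[ℝ] (Fin r → ℝ)
  int : Integral N
  /-- the translation in the fibre -/
  σ : V → (Fin r → ℝ)
  σ_smooth : ContDiffOn ℝ (⊤ : ℕ∞) σ O
  q_eq : ∀ x ∈ O, ∀ t, T.q i (T.Psi i (x, t)) = T.q j (T.Psi j (a x, N t + σ x))

variable {T}

/-- The change of coordinates. -/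
def FTrans.map {i j : T.ι} (F : T.FTrans i j) (p : V × (Fin r → ℝ)) : V × (Fin r → ℝ) :=
  (F.a p.1, F.N p.2 + F.σ p.1)

/-- The derivative of the change of coordinates. -/
noncomputable def FTrans.lin {i j : T.ι} (F : T.FTrans i j) (x : V) :
    V × (Fin r → ℝ) →L[ℝ] V × (Fin r → ℝ) :=
  ((fderiv ℝ F.a x).comp (ContinuousLinearMap.fst ℝ V (Fin r → ℝ))).prod
    ((F.N : (Fin r → ℝ) →L[ℝ] (Fin r → ℝ)).comp (ContinuousLinearMap.snd ℝ V (Fin r → ℝ)) +
      (fderiv ℝ F.σ x).comp (ContinuousLinearMap.fst ℝ V (Fin r → ℝ)))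

variable (T)

/-- A parallel polarisation of the fibres. -/
structure Polar (E : T.ι → V → (Fin r → ℝ) [⋀^Fin 2]→L[ℝ] ℝ) : Prop where
  const : ∀ i, ∀ x ∈ T.D i, ∀ᶠ y in 𝓝 x, E i y = E i x
  inv : ∀ i, ∀ x ∈ T.D i, ∀ s s', E i x ![T.J i x s, T.J i x s'] = E i x ![s, s']
  pos : ∀ i, ∀ x ∈ T.D i, ∀ s, s ≠ 0 → 0 < E i x ![s, T.J i x s]
  trans : ∀ i j (F : T.FTrans i j), ∀ x ∈ F.O, ∀ s s',
    E i x ![s, s'] = E j (F.a x) ![F.N s, F.N s']

/-- A flat connection, compatible with the complex structures. -/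
structure FlatConn (h : T.ι → V → V →L[ℝ] (Fin r → ℝ)) : Prop where
  smooth : ∀ i, ContDiffOn ℝ (⊤ : ℕ∞) (h i) (T.D i)
  closed : ∀ i, ∀ x ∈ T.D i, ∀ v w, fderiv ℝ (h i) x v w = fderiv ℝ (h i) x w v
  hol : ∀ i, ∀ x ∈ T.D i, ∀ v, h i x (mulI V v) = T.J i x (h i x v)
  trans : ∀ i j (F : T.FTrans i j), ∀ x ∈ F.O, ∀ v,
    F.N (h i x v) = h j (F.a x) (fderiv ℝ F.a x v) + fderiv ℝ F.σ x v

/-- A Kähler form on `B`, in the charts. -/
structure BaseForm (a : T.ι → V → V [⋀^Fin 2]→L[ℝ] ℝ) : Prop where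
  smooth : ∀ i, ContDiffOn ℝ (⊤ : ℕ∞) (a i) (T.D i)
  closed : ∀ i, ∀ x ∈ T.D i, extDeriv (a i) x = 0
  pos : ∀ i, ∀ x ∈ T.D i, PosForm (a i x)
  trans : ∀ i j (F : T.FTrans i j), ∀ x ∈ F.O,
    a i x = (a j (F.a x)).compContinuousLinearMap (fderiv ℝ F.a x)

/-- A Kähler form on `M` which is invariant under the translations of the fibres, in flat
coordinates. -/
structure FlatKahler (K : T.ι → V → (V × (Fin r → ℝ)) [⋀^Fin 2]→L[ℝ] ℝ) : Prop where
  smooth : ∀ i, ContDiffOn ℝ (⊤ : ℕ∞) (K i) (T.D i)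
  closed : ∀ i, ∀ x ∈ T.D i, ∀ t, extDeriv (fun p : V × (Fin r → ℝ) => K i p.1) (x, t) = 0
  inv : ∀ i, ∀ x ∈ T.D i, ∀ ξ η, K i x ![T.Jt i x ξ, T.Jt i x η] = K i x ![ξ, η]
  pos : ∀ i, ∀ x ∈ T.D i, ∀ ξ, ξ ≠ 0 → 0 < K i x ![ξ, T.Jt i x ξ]
  trans : ∀ i j (F : T.FTrans i j), ∀ x ∈ F.O,
    K i x = (K j (F.a x)).compContinuousLinearMap (F.lin x)

end TorusFibration

end Pool.Agent.Helper80.TF
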