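import Pool.Agent.Helper80.TF.Core
import Pool.Agent.Helper80.TF.Smth

/-!
# Contraction with the basis of the fibre
-/

open Manifold Set Filter Topology MeasureTheory

set_option linter.unusedSectionVars false

namespace Pool.Agent.Helper80.TF

variable {k : ℕ} {V : Type*} [NormedAddCommGroup V] [NormedSpace ℝ V]

theorem tup_cast (k : ℕ) : (k + 1) * 2 = k * 2 + 1 + 1 := by ring

omit [NormedSpace ℝ V] in
/-- The tuple `ξ, η, e_1, …, e_{2k}` in `V × ℝ ^ (2k)`. -/
def tup (ξ η : V × (Fin (k * 2) → ℝ)) (l : Fin ((k + 1) * 2)) : V × (Fin (k * 2) → ℝ) :=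
  (Matrix.vecCons ξ (Matrix.vecCons η (eb V (k * 2)))) (Fin.cast (tup_cast k) l)

/-- The index of the first entry. -/
def tup0 (k : ℕ) : Fin ((k + 1) * 2) := ⟨0, by omega⟩

/-- The index of the second entry. -/
def tup1 (k : ℕ) : Fin ((k + 1) * 2) := ⟨1, by omega⟩

theorem tup_update0 (ξ ξ' η : V × (Fin (k * 2) → ℝ)) :
    tup ξ' η = Function.update (tup ξ η) (tup0 k) ξ' := by
  funext l
  by_cases h : l = tup0 k
  · subst h
    rw [Function.update_self]
    rfl
  · rw [Function.update_of_ne h]
    obtain ⟨l, hl⟩ := l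
    cases l with
    | zero => exact absurd rfl h
    | succ l => rfl

theorem tup_update1 (ξ η η' : V × (Fin (k * 2) → ℝ)) :
    tup ξ η' = Function.update (tup ξ η) (tup1 k) η' := by
  funext l
  by_cases h : l = tup1 k
  · subst h
    rw [Function.update_self]
    rfl
  · rw [Function.update_of_ne h]
    obtain ⟨l, hl⟩ := l
    cases l with
    | zero => rfl
    | succ l =>
      cases l with
      | zero => exact absurd rfl h
      | succ l => rfl

/-- The contraction of a form of degree `2 k + 2` on `V × ℝ ^ (2 k)` with the basis vectors of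
`ℝ ^ (2 k)`: the `2`-form `(v, w) ↦ Ψ ((v, 0), (w, 0), e_1, …, e_{2k})` on `V`. -/
noncomputable def ctr (Ψ : (V × (Fin (k * 2) → ℝ)) [⋀^Fin ((k + 1) * 2)]→L[ℝ] ℝ) :
    V [⋀^Fin 2]→L[ℝ] ℝ where
  toFun v := Ψ (tup (v 0, 0) (v 1, 0))
  map_update_add' := by
    intro hd v l x y
    obtain rfl : hd = instDecidableEqFin 2 := Subsingleton.elim _ _
    fin_cases l
    · simp only [Fin.zero_eta, Function.update_self, ne_eq, one_ne_zero, not_false_eq_true,
        Function.update_of_ne]
      rw [tup_update0 0 (x + y, 0), tup_update0 0 (x, 0), tup_update0 0 (y, 0),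
        ← ContinuousAlternatingMap.map_update_add]
      simp
    · simp only [Fin.mk_one, Function.update_self, ne_eq, zero_ne_one, not_false_eq_true,
        Function.update_of_ne]
      rw [tup_update1 _ 0 (x + y, 0), tup_update1 _ 0 (x, 0), tup_update1 _ 0 (y, 0),
        ← ContinuousAlternatingMap.map_update_add]
      simp
  map_update_smul' := by
    intro hd v l c x
    obtain rfl : hd = instDecidableEqFin 2 := Subsingleton.elim _ _
    fin_cases l
    · simp only [Fin.zero_eta, Function.update_self, ne_eq, one_ne_zero, not_false_eq_true,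
        Function.update_of_ne]
      rw [tup_update0 0 (c • x, 0), tup_update0 0 (x, 0),
        ← ContinuousAlternatingMap.map_update_smul]
      simp
    · simp only [Fin.mk_one, Function.update_self, ne_eq, zero_ne_one, not_false_eq_true,
        Function.update_of_ne]
      rw [tup_update1 _ 0 (c • x, 0), tup_update1 _ 0 (x, 0),
        ← ContinuousAlternatingMap.map_update_smul]
      simp
  cont := by
    refine Ψ.cont.comp (continuous_pi fun l => ?_)
    obtain ⟨l, hl⟩ := l
    rcases l with _ | _ | l
    · change Continuous fun v : Fin 2 → V => ((v 0, 0) : V × (Fin (k * 2) → ℝ))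
      fun_prop
    · change Continuous fun v : Fin 2 → V => ((v 1, 0) : V × (Fin (k * 2) → ℝ))
      fun_prop
    · exact continuous_const
  map_eq_zero_of_eq' := by
    intro v i j h hij
    have h01 : v 0 = v 1 := by
      fin_cases i <;> fin_cases j
      · exact absurd rfl hij
      · exact h
      · exact h.symm
      · exact absurd rfl hij
    refine Ψ.map_eq_zero_of_eq _ (i := tup0 k) (j := tup1 k) ?_ ?_
    · change ((v 0, 0) : V × (Fin (k * 2) → ℝ)) = (v 1, 0)
      rw [h01]
    · intro h
      exact Nat.zero_ne_one (congrArg Fin.val h)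

theorem ctr_apply (Ψ : (V × (Fin (k * 2) → ℝ)) [⋀^Fin ((k + 1) * 2)]→L[ℝ] ℝ) (v w : V) :
    ctr Ψ ![v, w] = Ψ (tup (v, 0) (w, 0)) := rfl

end Pool.Agent.Helper80.TF
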