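import Pool.Agent.Helper80.TF.CtrA

/-!
# Naturality and smoothness of the contraction
-/

open Manifold Set Filter Topology MeasureTheory

set_option linter.unusedSectionVars false

namespace Pool.Agent.Helper80.TF

variable {k : ℕ} {V : Type*} [NormedAddCommGroup V] [NormedSpace ℝ V]

/-- an alternating form of top degree, evaluated on the image of the basis -/
private theorem CtrB_det {m : ℕ} (θ : (Fin m → ℝ) [⋀^Fin m]→ₗ[ℝ] ℝ)
    (N : (Fin m → ℝ) →ₗ[ℝ] (Fin m → ℝ)) :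
    θ (fun l => N (Pi.single l 1)) = LinearMap.det N * θ (fun l => Pi.single l 1) := by
  have h1 := θ.eq_smul_basis_det (Pi.basisFun ℝ (Fin m))
  have h2 : (fun l => N (Pi.single l 1)) = N ∘ (Pi.basisFun ℝ (Fin m)) := by
    funext l
    simp
  have h3 : (fun l => Pi.single l 1 : Fin m → Fin m → ℝ) = (Pi.basisFun ℝ (Fin m)) := by
    funext l
    simp
  rw [h2, h3]
  conv_lhs => rw [h1]
  rw [AlternatingMap.smul_apply, Module.Basis.det_comp, Module.Basis.det_self, smul_eq_mul,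
    mul_one, mul_comm]

/-- the form with the casted index type -/
private noncomputable def CtrB_al (Ψ : (V × (Fin (k * 2) → ℝ)) [⋀^Fin ((k + 1) * 2)]→L[ℝ] ℝ) :
    (V × (Fin (k * 2) → ℝ)) [⋀^Fin (k * 2 + 1 + 1)]→ₗ[ℝ] ℝ :=
  Ψ.toAlternatingMap.domDomCongr (finCongr (tup_cast k))

private theorem CtrB_al_apply (Ψ : (V × (Fin (k * 2) → ℝ)) [⋀^Fin ((k + 1) * 2)]→L[ℝ] ℝ)
    (u : Fin (k * 2 + 1 + 1) → V × (Fin (k * 2) → ℝ)) :
    CtrB_al Ψ u = Ψ (fun l => u (Fin.cast (tup_cast k) l)) := rfl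

private theorem CtrB_sum (s : Fin (k * 2) → ℝ) :
    ((0, s) : V × (Fin (k * 2) → ℝ)) = ∑ l, s l • eb V (k * 2) l := by
  refine Prod.ext ?_ ?_
  · rw [Prod.fst_sum]
    simp [eb]
  · rw [Prod.snd_sum]
    funext i
    simp [eb, Pi.single_apply]

private theorem CtrB_lin (φ : V × (Fin (k * 2) → ℝ) →ₗ[ℝ] ℝ)
    (h : ∀ l, φ (eb V (k * 2) l) = 0) (x : V) (s : Fin (k * 2) → ℝ) : φ (x, s) = φ (x, 0) := by
  have h2 : ((x, s) : V × (Fin (k * 2) → ℝ)) = (x, 0) + ∑ l, s l • eb V (k * 2) l := by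
    rw [← CtrB_sum]; simp
  rw [h2, map_add, map_sum, Finset.sum_eq_zero, add_zero]
  intro l _
  rw [map_smul, h, smul_zero]

private theorem CtrB_first (Ψ : (V × (Fin (k * 2) → ℝ)) [⋀^Fin ((k + 1) * 2)]→L[ℝ] ℝ)
    (x : V) (s : Fin (k * 2) → ℝ) (η : V × (Fin (k * 2) → ℝ)) :
    CtrB_al Ψ (Matrix.vecCons (x, s) (Matrix.vecCons η (eb V (k * 2)))) =
      CtrB_al Ψ (Matrix.vecCons (x, 0) (Matrix.vecCons η (eb V (k * 2)))) := by
  let φ : V × (Fin (k * 2) → ℝ) →ₗ[ℝ] ℝ :=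
    { toFun := fun ξ => (CtrB_al Ψ).curryLeft ξ (Matrix.vecCons η (eb V (k * 2)))
      map_add' := fun a b => by rw [map_add]; rfl
      map_smul' := fun c a => by rw [map_smul]; rfl }
  refine CtrB_lin φ (fun l => ?_) x s
  exact (CtrB_al Ψ).map_eq_zero_of_eq _ (i := 0) (j := l.succ.succ) rfl
    (fun h => absurd (congrArg Fin.val h) (by simp))

private theorem CtrB_second (Ψ : (V × (Fin (k * 2) → ℝ)) [⋀^Fin ((k + 1) * 2)]→L[ℝ] ℝ)
    (x : V) (s : Fin (k * 2) → ℝ) (ξ : V × (Fin (k * 2) → ℝ)) :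
    CtrB_al Ψ (Matrix.vecCons ξ (Matrix.vecCons (x, s) (eb V (k * 2)))) =
      CtrB_al Ψ (Matrix.vecCons ξ (Matrix.vecCons (x, 0) (eb V (k * 2)))) := by
  let φ : V × (Fin (k * 2) → ℝ) →ₗ[ℝ] ℝ :=
    { toFun := fun η => ((CtrB_al Ψ).curryLeft ξ).curryLeft η (eb V (k * 2))
      map_add' := fun a b => by rw [map_add]; rfl
      map_smul' := fun c a => by rw [map_smul]; rfl }
  refine CtrB_lin φ (fun l => ?_) x s
  exact (CtrB_al Ψ).map_eq_zero_of_eq _ (i := 1) (j := l.succ.succ) rfl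
    (fun h => absurd (congrArg Fin.val h) (by simp))

private theorem CtrB_tup (Ψ : (V × (Fin (k * 2) → ℝ)) [⋀^Fin ((k + 1) * 2)]→L[ℝ] ℝ)
    (ξ η : V × (Fin (k * 2) → ℝ)) :
    Ψ (tup ξ η) = CtrB_al Ψ (Matrix.vecCons ξ (Matrix.vecCons η (eb V (k * 2)))) := rfl

/-- Naturality.  Adding fibre vectors to the first two entries does not change the value, because
the other entries are a basis of the fibre; replacing `e_1, …, e_{2k}` by `N e_1, …, N e_{2k}`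
multiplies by `det N`. -/
theorem ctr_comp {V' : Type*} [NormedAddCommGroup V'] [NormedSpace ℝ V'] (a : V' →L[ℝ] V)
    (N : (Fin (k * 2) → ℝ) →L[ℝ] (Fin (k * 2) → ℝ)) (σ : V' →L[ℝ] (Fin (k * 2) → ℝ))
    (A : V' × (Fin (k * 2) → ℝ) →L[ℝ] V × (Fin (k * 2) → ℝ))
    (hA : ∀ v s, A (v, s) = (a v, N s + σ v))
    (Ψ : (V × (Fin (k * 2) → ℝ)) [⋀^Fin ((k + 1) * 2)]→L[ℝ] ℝ) :
    ctr (Ψ.compContinuousLinearMap A) =
      LinearMap.det (N : (Fin (k * 2) → ℝ) →ₗ[ℝ] (Fin (k * 2) → ℝ)) •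
        (ctr Ψ).compContinuousLinearMap a := by
  ext v
  rw [ContinuousAlternatingMap.smul_apply]
  change Ψ (fun l => A (tup (v 0, 0) (v 1, 0) l)) = _ • Ψ (tup (a (v 0), 0) (a (v 1), 0))
  let θ : (Fin (k * 2) → ℝ) [⋀^Fin (k * 2)]→ₗ[ℝ] ℝ :=
    (((CtrB_al Ψ).curryLeft (a (v 0), σ (v 0))).curryLeft (a (v 1), σ (v 1))).compLinearMap
      (LinearMap.inr ℝ V (Fin (k * 2) → ℝ))
  have h1 : Ψ (fun l => A (tup (v 0, 0) (v 1, 0) l)) = θ (fun l => N (Pi.single l 1)) := by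
    change _ = CtrB_al Ψ (Matrix.vecCons (a (v 0), σ (v 0)) (Matrix.vecCons (a (v 1), σ (v 1))
      (fun l => ((0, N (Pi.single l 1)) : V × (Fin (k * 2) → ℝ)))))
    rw [CtrB_al_apply]
    congr 1
    funext l
    obtain ⟨l, hl⟩ := l
    rcases l with _ | _ | l
    · change A (v 0, 0) = (a (v 0), σ (v 0))
      rw [hA, map_zero, zero_add]
    · change A (v 1, 0) = (a (v 1), σ (v 1))
      rw [hA, map_zero, zero_add]
    · change A (0, Pi.single _ 1) = (0, N (Pi.single _ 1))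
      rw [hA, map_zero, map_zero, add_zero]
  have h2 : θ (fun l => Pi.single l 1) = Ψ (tup (a (v 0), 0) (a (v 1), 0)) := by
    change CtrB_al Ψ (Matrix.vecCons (a (v 0), σ (v 0)) (Matrix.vecCons (a (v 1), σ (v 1))
      (eb V (k * 2)))) = _
    rw [CtrB_first, CtrB_second, CtrB_tup]
  rw [h1, ← h2, smul_eq_mul]
  exact CtrB_det θ (N : (Fin (k * 2) → ℝ) →ₗ[ℝ] (Fin (k * 2) → ℝ))

private theorem CtrB_bound (Ψ : (V × (Fin (k * 2) → ℝ)) [⋀^Fin ((k + 1) * 2)]→L[ℝ] ℝ) :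
    ‖ctr Ψ‖ ≤ 1 * ‖Ψ‖ := by
  refine ContinuousAlternatingMap.opNorm_le_bound _ (by positivity) fun v => ?_
  change ‖Ψ (tup (v 0, 0) (v 1, 0))‖ ≤ _
  refine (Ψ.le_opNorm _).trans ?_
  rw [one_mul]
  refine mul_le_mul_of_nonneg_left ?_ (norm_nonneg _)
  have h1 : ∏ l, ‖tup ((v 0, 0) : V × (Fin (k * 2) → ℝ)) (v 1, 0) l‖ =
      ∏ l : Fin (k * 2 + 1 + 1), ‖(Matrix.vecCons ((v 0, 0) : V × (Fin (k * 2) → ℝ))
        (Matrix.vecCons (v 1, 0) (eb V (k * 2)))) l‖ :=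
    Fin.prod_congr' (fun l : Fin (k * 2 + 1 + 1) =>
      ‖(Matrix.vecCons ((v 0, 0) : V × (Fin (k * 2) → ℝ))
        (Matrix.vecCons (v 1, 0) (eb V (k * 2)))) l‖) (tup_cast k)
  rw [h1, Fin.prod_univ_succ, Fin.prod_univ_succ, Fin.prod_univ_two]
  have h2 : ∏ l : Fin (k * 2), ‖(Matrix.vecCons ((v 0, 0) : V × (Fin (k * 2) → ℝ))
      (Matrix.vecCons (v 1, 0) (eb V (k * 2)))) l.succ.succ‖ ≤ 1 := by
    refine Finset.prod_le_one (fun _ _ => norm_nonneg _) fun l _ => ?_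
    change ‖((0, Pi.single l 1) : V × (Fin (k * 2) → ℝ))‖ ≤ 1
    rw [Prod.norm_def]
    refine max_le (by simp) ((pi_norm_le_iff_of_nonneg zero_le_one).2 fun i => ?_)
    by_cases h : i = l
    · subst h
      simp
    · simp [Pi.single_eq_of_ne h]
  have h3 : ‖(Matrix.vecCons ((v 0, 0) : V × (Fin (k * 2) → ℝ))
      (Matrix.vecCons (v 1, 0) (eb V (k * 2)))) 0‖ = ‖v 0‖ := by
    change ‖((v 0, 0) : V × (Fin (k * 2) → ℝ))‖ = _
    rw [Prod.norm_def]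
    simp
  have h4 : ‖(Matrix.vecCons ((v 0, 0) : V × (Fin (k * 2) → ℝ))
      (Matrix.vecCons (v 1, 0) (eb V (k * 2)))) (Fin.succ 0)‖ = ‖v 1‖ := by
    change ‖((v 1, 0) : V × (Fin (k * 2) → ℝ))‖ = _
    rw [Prod.norm_def]
    simp
  rw [h3, h4, ← mul_assoc]
  exact mul_le_of_le_one_right (by positivity) h2

/-- The contraction, as a continuous linear map. -/
private noncomputable def CtrB_clm :
    ((V × (Fin (k * 2) → ℝ)) [⋀^Fin ((k + 1) * 2)]→L[ℝ] ℝ) →L[ℝ] V [⋀^Fin 2]→L[ℝ] ℝ :=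
  LinearMap.mkContinuous
    { toFun := ctr
      map_add' := fun f g => by ext v; rfl
      map_smul' := fun c f => by ext v; rfl } 1 CtrB_bound

/-- The contraction of a smooth family of forms is smooth. -/
theorem contDiffOn_ctr {X : Type*} [NormedAddCommGroup X] [NormedSpace ℝ X]
    [FiniteDimensional ℝ V]
    {Ψ : X → (V × (Fin (k * 2) → ℝ)) [⋀^Fin ((k + 1) * 2)]→L[ℝ] ℝ} {s : Set X}
    (h : ContDiffOn ℝ (⊤ : ℕ∞) Ψ s) : ContDiffOn ℝ (⊤ : ℕ∞) (fun x => ctr (Ψ x)) s :=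
  (CtrB_clm (k := k) (V := V)).contDiff.comp_contDiffOn h

/-- For forms of the degree of the fibre. -/
theorem top_comp (N : (Fin (k * 2) → ℝ) →L[ℝ] (Fin (k * 2) → ℝ))
    (η : (Fin (k * 2) → ℝ) [⋀^Fin (k * 2)]→L[ℝ] ℝ) :
    (η.compContinuousLinearMap N) (Pi.basisFun ℝ (Fin (k * 2))) =
      LinearMap.det (N : (Fin (k * 2) → ℝ) →ₗ[ℝ] (Fin (k * 2) → ℝ)) *
        η (Pi.basisFun ℝ (Fin (k * 2))) := by
  have h3 : (Pi.basisFun ℝ (Fin (k * 2)) : Fin (k * 2) → Fin (k * 2) → ℝ) =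
      (fun l => Pi.single l 1) := by
    funext l
    simp
  rw [h3]
  exact CtrB_det η.toAlternatingMap (N : (Fin (k * 2) → ℝ) →ₗ[ℝ] (Fin (k * 2) → ℝ))

end Pool.Agent.Helper80.TF
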