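import Pool.Agent.Helper80.TF.CtrB
import Pool.Agent.Helper80.TF.PowB

/-!
# The top power of a positive form is positive
-/

open Manifold Set Filter Topology MeasureTheory

set_option linter.unusedSectionVars false

namespace Pool.Agent.Helper80.TF

/-- `u_0, J u_0, u_1, J u_1, …`. -/
def inter {L : Type*} {k : ℕ} (J : L → L) (u : Fin k → L) (l : Fin (k * 2)) : L :=
  if (finProdFinEquiv.symm l).2 = 0 then u (finProdFinEquiv.symm l).1
  else J (u (finProdFinEquiv.symm l).1)

section CtrD0aux

variable {k : ℕ} {L : Type*} [NormedAddCommGroup L] [NormedSpace ℝ L] [FiniteDimensional ℝ L]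

/-- The form `∑ ξ_i ∧ η_i` of a basis. -/
private noncomputable def CtrD0_form (b : Module.Basis (Fin (k * 2)) ℝ L) :
    L [⋀^Fin 2]→L[ℝ] ℝ where
  toFun v := ∑ i : Fin k, (b.coord (finProdFinEquiv (i, 0)) (v 0) *
      b.coord (finProdFinEquiv (i, 1)) (v 1) -
    b.coord (finProdFinEquiv (i, 0)) (v 1) * b.coord (finProdFinEquiv (i, 1)) (v 0))
  map_update_add' := by
    intro hd v l x y
    obtain rfl : hd = instDecidableEqFin 2 := Subsingleton.elim _ _
    rw [← Finset.sum_add_distrib]
    refine Finset.sum_congr rfl fun i _ => ?_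
    fin_cases l
    · simp only [Fin.zero_eta, Function.update_self, ne_eq, one_ne_zero, not_false_eq_true,
        Function.update_of_ne, map_add]
      ring
    · simp only [Fin.mk_one, Function.update_self, ne_eq, zero_ne_one, not_false_eq_true,
        Function.update_of_ne, map_add]
      ring
  map_update_smul' := by
    intro hd v l c x
    obtain rfl : hd = instDecidableEqFin 2 := Subsingleton.elim _ _
    rw [smul_eq_mul, Finset.mul_sum]
    refine Finset.sum_congr rfl fun i _ => ?_
    fin_cases l
    · simp only [Fin.zero_eta, Function.update_self, ne_eq, one_ne_zero, not_false_eq_true,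
        Function.update_of_ne, map_smul, smul_eq_mul]
      ring
    · simp only [Fin.mk_one, Function.update_self, ne_eq, zero_ne_one, not_false_eq_true,
        Function.update_of_ne, map_smul, smul_eq_mul]
      ring
  cont := by
    have hc : ∀ l, Continuous (b.coord l) := fun l => (b.coord l).continuous_of_finiteDimensional
    refine continuous_finsetSum _ fun i _ => ?_
    exact (((hc _).comp (continuous_apply 0)).mul ((hc _).comp (continuous_apply 1))).sub
      (((hc _).comp (continuous_apply 1)).mul ((hc _).comp (continuous_apply 0)))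
  map_eq_zero_of_eq' := by
    intro v i j h hij
    have h01 : v 0 = v 1 := by
      fin_cases i <;> fin_cases j
      · exact absurd rfl hij
      · exact h
      · exact h.symm
      · exact absurd rfl hij
    refine Finset.sum_eq_zero fun m _ => ?_
    rw [h01]
    ring

private theorem CtrD0_form_apply (b : Module.Basis (Fin (k * 2)) ℝ L) (x y : L) :
    CtrD0_form b ![x, y] = ∑ i : Fin k, (b.coord (finProdFinEquiv (i, 0)) x *
      b.coord (finProdFinEquiv (i, 1)) y -
    b.coord (finProdFinEquiv (i, 0)) y * b.coord (finProdFinEquiv (i, 1)) x) := rfl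

end CtrD0aux

/-- The top power of a positive `(1,1)`-form is positive on `u_0, J u_0, u_1, J u_1, …`.
Let `a₀` be the positive `(1,1)`-form for which this basis is orthonormal
(`a₀ (u_i, J u_j) = δ`, `a₀ (u_i, u_j) = 0`).  By `sum_perm_pos` its top power is positive on
the basis; by `wpow_ne_zero` the value of the top power of `(1 - s) a₀ + s a` at the basis is not
zero for `s ∈ [0, 1]`. -/
theorem wpow_pos_inter {k : ℕ} {L : Type*} [NormedAddCommGroup L] [NormedSpace ℝ L]
    [FiniteDimensional ℝ L] (hk : Module.finrank ℝ L = k * 2) (J : L →L[ℝ] L)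
    (hJ : ∀ x, J (J x) = -x) (a : L [⋀^Fin 2]→L[ℝ] ℝ) (h1 : ∀ x y, a ![J x, J y] = a ![x, y])
    (h2 : ∀ x, x ≠ 0 → 0 < a ![x, J x]) (u : Fin k → L)
    (hu : LinearIndependent ℝ (inter J u)) : 0 < wpow k a (inter J u) := by
  classical
  set b : Module.Basis (Fin (k * 2)) ℝ L := Module.Basis.mk hu
    (hu.span_eq_top_of_card_eq_finrank' (by rw [Fintype.card_fin, hk])).ge with hb
  have hbu : ∀ l, b l = inter J u l := fun l => by
    rw [hb, Module.Basis.mk_apply]
  have hb0 : ∀ i : Fin k, b (finProdFinEquiv (i, 0)) = u i := fun i => by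
    rw [hbu, inter, Equiv.symm_apply_apply, if_pos rfl]
  have hb1 : ∀ i : Fin k, b (finProdFinEquiv (i, 1)) = J (u i) := fun i => by
    rw [hbu, inter, Equiv.symm_apply_apply, if_neg (show ¬ ((1 : Fin 2) = 0) by decide)]
  -- the coordinates
  have hco : ∀ (i j : Fin k) (s t : Fin 2),
      b.coord (finProdFinEquiv (i, s)) (b (finProdFinEquiv (j, t))) =
      if i = j ∧ s = t then 1 else 0 := by
    intro i j s t
    rw [Module.Basis.coord_apply, Module.Basis.repr_self, Finsupp.single_apply]
    by_cases h : i = j ∧ s = t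
    · rw [if_pos h, if_pos (by rw [h.1, h.2])]
    · rw [if_neg h, if_neg]
      intro h'
      have := finProdFinEquiv.injective h'
      exact h ⟨(Prod.ext_iff.1 this).1.symm, (Prod.ext_iff.1 this).2.symm⟩
  have hxi : ∀ (i : Fin k) (x : L), b.coord (finProdFinEquiv (i, 0)) (J x) =
      -b.coord (finProdFinEquiv (i, 1)) x := by
    intro i x
    have : (b.coord (finProdFinEquiv (i, 0))) ∘ₗ (J : L →ₗ[ℝ] L) =
        -b.coord (finProdFinEquiv (i, 1)) := by
      refine b.ext fun l => ?_
      obtain ⟨⟨j, t⟩, rfl⟩ := finProdFinEquiv.surjective l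
      fin_cases t
      · change b.coord (finProdFinEquiv (i, 0)) (J (b (finProdFinEquiv (j, 0)))) =
          -b.coord (finProdFinEquiv (i, 1)) (b (finProdFinEquiv (j, 0)))
        rw [hb0, ← hb1, hco, ← hb0, hco]
        simp
      · change b.coord (finProdFinEquiv (i, 0)) (J (b (finProdFinEquiv (j, 1)))) =
          -b.coord (finProdFinEquiv (i, 1)) (b (finProdFinEquiv (j, 1)))
        rw [hco, hb1, hJ, map_neg, ← hb0, hco]
        simp
    exact LinearMap.congr_fun this x
  have heta : ∀ (i : Fin k) (x : L), b.coord (finProdFinEquiv (i, 1)) (J x) =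
      b.coord (finProdFinEquiv (i, 0)) x := by
    intro i x
    have h := hxi i (J x)
    rw [hJ, map_neg] at h
    linarith
  set a₀ : L [⋀^Fin 2]→L[ℝ] ℝ := CtrD0_form b with ha₀
  have h10 : ∀ x y, a₀ ![J x, J y] = a₀ ![x, y] := by
    intro x y
    rw [ha₀, CtrD0_form_apply, CtrD0_form_apply]
    refine Finset.sum_congr rfl fun i _ => ?_
    rw [hxi, hxi, heta, heta]
    ring
  have h20 : ∀ x, x ≠ 0 → 0 < a₀ ![x, J x] := by
    intro x hx
    rw [ha₀, CtrD0_form_apply]
    have hne : ∃ l, b.coord l x ≠ 0 := by
      by_contra hcon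
      push Not at hcon
      exact hx (b.ext_elem fun l => by simpa using hcon l)
    obtain ⟨l, hl⟩ := hne
    obtain ⟨⟨j, t⟩, rfl⟩ := finProdFinEquiv.surjective l
    refine Finset.sum_pos' (fun i _ => ?_) ⟨j, Finset.mem_univ _, ?_⟩
    · rw [hxi, heta]
      nlinarith [mul_self_nonneg (b.coord (finProdFinEquiv (i, 0)) x),
        mul_self_nonneg (b.coord (finProdFinEquiv (i, 1)) x)]
    · rw [hxi, heta]
      fin_cases t
      · have h3 : 0 < b.coord (finProdFinEquiv (j, 0)) x * b.coord (finProdFinEquiv (j, 0)) x :=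
          mul_self_pos.2 hl
        nlinarith [mul_self_nonneg (b.coord (finProdFinEquiv (j, 1)) x)]
      · have h3 : 0 < b.coord (finProdFinEquiv (j, 1)) x * b.coord (finProdFinEquiv (j, 1)) x :=
          mul_self_pos.2 hl
        nlinarith [mul_self_nonneg (b.coord (finProdFinEquiv (j, 0)) x)]
  -- the value at `a₀`
  have hpos0 : 0 < wpow k a₀ (inter J u) := by
    have hS : ∀ i j : Fin k, ∀ s t : Fin 2,
        (fun p q => a₀ ![b (finProdFinEquiv p), b (finProdFinEquiv q)]) (i, s) (j, t) =
        if i = j then (if s = 0 ∧ t = 1 then 1 else if s = 1 ∧ t = 0 then -1 else 0) else 0 := by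
      intro i j s t
      change a₀ ![b (finProdFinEquiv (i, s)), b (finProdFinEquiv (j, t))] = _
      rw [ha₀, CtrD0_form_apply]
      simp only [hco]
      by_cases hij : i = j
      · subst hij
        rw [if_pos rfl, Finset.sum_eq_single i]
        · fin_cases s <;> fin_cases t <;> simp
        · intro m _ hm
          simp [hm]
        · intro h
          exact absurd (Finset.mem_univ _) h
      · rw [if_neg hij]
        refine Finset.sum_eq_zero fun m _ => ?_
        by_cases hm : m = i
        · subst hm
          simp [hij]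
        · simp [hm]
    have hp := sum_perm_pos k
      (fun p q => a₀ ![b (finProdFinEquiv p), b (finProdFinEquiv q)]) hS
    have hval : wpow k a₀ (inter J u) = (1 / 2 : ℝ) ^ k *
        ∑ σ : Equiv.Perm (Fin k × Fin 2), ((Equiv.Perm.sign σ : ℤ) : ℝ) *
          ∏ i : Fin k, a₀ ![b (finProdFinEquiv (σ (i, 0))), b (finProdFinEquiv (σ (i, 1)))] := by
      rw [wpow_apply]
      congr 1
      refine (Fintype.sum_equiv (finProdFinEquiv (m := k) (n := 2)).permCongr _ _ ?_).symm
      intro σ
      rw [Equiv.Perm.sign_permCongr]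
      congr 1
      refine Finset.prod_congr rfl fun i _ => ?_
      congr 1
      funext j
      fin_cases j <;> simp [Equiv.permCongr_apply, hbu]
    rw [hval]
    exact mul_pos (by positivity) hp
  -- the path
  set φ : ℝ → ℝ := fun s => wpow k ((1 - s) • a₀ + s • a) (inter J u) with hφ
  have hcont : Continuous φ := by
    rw [hφ]
    simp only [wpow_apply, ContinuousAlternatingMap.add_apply,
      ContinuousAlternatingMap.smul_apply]
    fun_prop
  have hφ0 : ∀ s ∈ Icc (0 : ℝ) 1, φ s ≠ 0 := by
    intro s hs
    have h := wpow_ne_zero b J hJ ((1 - s) • a₀ + s • a) ?_ ?_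
    · have hbb : (b : Fin (k * 2) → L) = inter J u := funext hbu
      rw [hbb] at h
      exact h
    · intro x y
      rw [ContinuousAlternatingMap.add_apply, ContinuousAlternatingMap.smul_apply,
        ContinuousAlternatingMap.smul_apply, ContinuousAlternatingMap.add_apply,
        ContinuousAlternatingMap.smul_apply, ContinuousAlternatingMap.smul_apply, h1, h10]
    · intro x hx
      rw [ContinuousAlternatingMap.add_apply, ContinuousAlternatingMap.smul_apply,
        ContinuousAlternatingMap.smul_apply, smul_eq_mul, smul_eq_mul]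
      rcases eq_or_lt_of_le hs.1 with h0 | h0
      · rw [← h0]
        simpa using h20 x hx
      · have h3 : 0 < s * a ![x, J x] := mul_pos h0 (h2 x hx)
        have h4 : 0 ≤ (1 - s) * a₀ ![x, J x] := mul_nonneg (by linarith [hs.2]) (h20 x hx).le
        linarith
  have he0 : φ 0 = wpow k a₀ (inter J u) := by
    rw [hφ]
    simp
  have he1 : φ 1 = wpow k a (inter J u) := by
    rw [hφ]
    simp
  rw [← he1]
  by_contra hcon
  push Not at hcon
  have hmem : (0 : ℝ) ∈ Icc (φ 1) (φ 0) := ⟨hcon, by rw [he0]; exact hpos0.le⟩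
  obtain ⟨s, hs, hs0⟩ := intermediate_value_Icc' zero_le_one hcont.continuousOn hmem
  exact hφ0 s hs hs0

end Pool.Agent.Helper80.TF
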