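import Pool.Agent.Helper80.TF.CtrA
import Pool.Agent.Helper80.TF.CtrD0

/-!
# Contraction with the basis of the fibre, general degree
-/

open Manifold Set Filter Topology MeasureTheory

set_option linter.unusedSectionVars false

namespace Pool.Agent.Helper80.TF

variable {k p : ℕ} {V : Type*} [NormedAddCommGroup V] [NormedSpace ℝ V]

theorem tupP_cast (k p : ℕ) : (k + p) * 2 = p * 2 + k * 2 := by ring

/-- The tuple `(u_0, 0), …, (u_{2p-1}, 0), e_1, …, e_{2k}` in `V × ℝ ^ (2k)`. -/
def tupP (u : Fin (p * 2) → V × (Fin (k * 2) → ℝ)) (l : Fin ((k + p) * 2)) :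
    V × (Fin (k * 2) → ℝ) :=
  Fin.append u (eb V (k * 2)) (Fin.cast (tupP_cast k p) l)

/-- The index of the entry `i` among the first entries. -/
def tupPi (k : ℕ) {p : ℕ} (i : Fin (p * 2)) : Fin ((k + p) * 2) :=
  Fin.cast (tupP_cast k p).symm (Fin.castAdd (k * 2) i)

theorem tupP_update (u : Fin (p * 2) → V × (Fin (k * 2) → ℝ)) (i : Fin (p * 2))
    (x : V × (Fin (k * 2) → ℝ)) :
    tupP (Function.update u i x) = Function.update (tupP u) (tupPi k i) x := by
  funext l
  obtain ⟨l', rfl⟩ : ∃ l', l = Fin.cast (tupP_cast k p).symm l' := ⟨Fin.cast (tupP_cast k p) l, by simp⟩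
  induction l' using Fin.addCases with
  | left j =>
    by_cases h : j = i
    · subst h
      simp [tupP, tupPi]
    · have h' : (Fin.cast (tupP_cast k p).symm (Fin.castAdd (k * 2) j)) ≠ tupPi k i := by
        intro h2
        apply h
        have := congrArg Fin.val h2
        simp [tupPi] at this
        exact Fin.ext this
      rw [Function.update_of_ne h']
      simp [tupP, Function.update_of_ne h]
  | right j =>
    have h' : (Fin.cast (tupP_cast k p).symm (Fin.natAdd (p * 2) j)) ≠ tupPi k i := by
      intro h2
      have := congrArg Fin.val h2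
      simp [tupPi] at this
      omega
    rw [Function.update_of_ne h']
    simp [tupP]

theorem tupP_at (u : Fin (p * 2) → V × (Fin (k * 2) → ℝ)) (i : Fin (p * 2)) :
    tupP u (tupPi k i) = u i := by
  simp [tupP, tupPi]

/-- The contraction of a form of degree `2 k + 2 p` on `V × ℝ ^ (2 k)` with the basis vectors of
`ℝ ^ (2 k)`: the form `u ↦ Ψ ((u_0, 0), …, (u_{2p-1}, 0), e_1, …, e_{2k})` on `V`. -/
noncomputable def ctrP (Ψ : (V × (Fin (k * 2) → ℝ)) [⋀^Fin ((k + p) * 2)]→L[ℝ] ℝ) :
    V [⋀^Fin (p * 2)]→L[ℝ] ℝ where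
  toFun u := Ψ (tupP fun i => (u i, 0))
  map_update_add' := by
    intro hd u l x y
    obtain rfl : hd = instDecidableEqFin (p * 2) := Subsingleton.elim _ _
    have h : ∀ z : V, (fun i => ((Function.update u l z i, 0) : V × (Fin (k * 2) → ℝ))) =
        Function.update (fun i => (u i, 0)) l (z, 0) := by
      intro z
      funext i
      by_cases h : i = l
      · subst h
        simp
      · simp [Function.update_of_ne h]
    rw [h, h, h, tupP_update, tupP_update, tupP_update,
      ← ContinuousAlternatingMap.map_update_add]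
    simp
  map_update_smul' := by
    intro hd u l c x
    obtain rfl : hd = instDecidableEqFin (p * 2) := Subsingleton.elim _ _
    have h : ∀ z : V, (fun i => ((Function.update u l z i, 0) : V × (Fin (k * 2) → ℝ))) =
        Function.update (fun i => (u i, 0)) l (z, 0) := by
      intro z
      funext i
      by_cases h : i = l
      · subst h
        simp
      · simp [Function.update_of_ne h]
    rw [h, h, tupP_update, tupP_update, ← ContinuousAlternatingMap.map_update_smul]
    simp
  cont := by
    refine Ψ.cont.comp (continuous_pi fun l => ?_)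
    obtain ⟨l', rfl⟩ : ∃ l', l = Fin.cast (tupP_cast k p).symm l' :=
      ⟨Fin.cast (tupP_cast k p) l, by simp⟩
    induction l' using Fin.addCases with
    | left j =>
      simp only [tupP, Fin.cast_cast, Fin.cast_eq_self, Fin.append_left]
      fun_prop
    | right j =>
      simp only [tupP, Fin.cast_cast, Fin.cast_eq_self, Fin.append_right]
      fun_prop
  map_eq_zero_of_eq' := by
    intro u i j h hij
    refine Ψ.map_eq_zero_of_eq _ (i := tupPi k i) (j := tupPi k j) ?_ ?_
    · rw [tupP_at, tupP_at]
      exact congrArg (fun z : V => (z, (0 : Fin (k * 2) → ℝ))) h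
    · intro h2
      apply hij
      have := congrArg Fin.val h2
      simp [tupPi] at this
      exact Fin.ext this

theorem ctrP_apply (Ψ : (V × (Fin (k * 2) → ℝ)) [⋀^Fin ((k + p) * 2)]→L[ℝ] ℝ)
    (u : Fin (p * 2) → V) : ctrP Ψ u = Ψ (tupP fun i => (u i, 0)) := rfl

end Pool.Agent.Helper80.TF
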