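import Mathlib

/-!
# Hermitian metrics on holomorphic torus fibrations

A complex manifold `M` is modelled on a complex normed space `E`, and its tangent spaces are, by
definition, equal to `E`.  A real `k`-form on `M` is a function `M → E [⋀^Fin k]→L[ℝ] ℝ`; its
expression in a holomorphic chart is its pullback under the inverse of the chart.
-/

open Manifold Set Filter Topology

namespace Pool.Agent.Helper80.TF

section Forms

variable {E : Type*} [NormedAddCommGroup E]

omit [NormedAddCommGroup E] in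
theorem update_finProd {k : ℕ} (v : Fin (k * 2) → E) (i₀ i : Fin k) (j₀ : Fin 2) (x : E) :
    (fun j => Function.update v (finProdFinEquiv (i₀, j₀)) x (finProdFinEquiv (i, j))) =
      if i = i₀ then Function.update (fun j => v (finProdFinEquiv (i₀, j))) j₀ x
      else fun j => v (finProdFinEquiv (i, j)) := by
  funext j
  by_cases hi : i = i₀
  · subst hi
    rw [if_pos rfl]
    by_cases hj : j = j₀
    · subst hj
      simp
    · rw [Function.update_of_ne hj, Function.update_of_ne]
      intro h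
      exact hj (by simpa using finProdFinEquiv.injective h)
  · rw [if_neg hi, Function.update_of_ne]
    intro h
    have := finProdFinEquiv.injective h
    exact hi (Prod.ext_iff.mp this).1

/-- The continuous multilinear map `v ↦ ∏ i, a (v (2 i), v (2 i + 1))`. -/
noncomputable def prodForm [NormedSpace ℝ E] (k : ℕ) (a : E [⋀^Fin 2]→L[ℝ] ℝ) :
    ContinuousMultilinearMap ℝ (fun _ : Fin (k * 2) => E) ℝ where
  toFun v := ∏ i : Fin k, a fun j => v (finProdFinEquiv (i, j))
  map_update_add' := by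
    intro hd v l x y
    obtain rfl : hd = instDecidableEqFin (k * 2) := Subsingleton.elim _ _
    obtain ⟨⟨i₀, j₀⟩, rfl⟩ := finProdFinEquiv.surjective l
    simp only [update_finProd]
    have h : ∀ z : E, ∏ i : Fin k, a (if i = i₀ then
        Function.update (fun j => v (finProdFinEquiv (i₀, j))) j₀ z
        else fun j => v (finProdFinEquiv (i, j))) =
        a (Function.update (fun j => v (finProdFinEquiv (i₀, j))) j₀ z) *
        ∏ i ∈ Finset.univ.erase i₀, a fun j => v (finProdFinEquiv (i, j)) := by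
      intro z
      rw [← Finset.mul_prod_erase _ _ (Finset.mem_univ i₀), if_pos rfl]
      congr 1
      refine Finset.prod_congr rfl fun i hi => ?_
      rw [if_neg (Finset.ne_of_mem_erase hi)]
    rw [h, h, h, a.map_update_add, add_mul]
  map_update_smul' := by
    intro hd v l c x
    obtain rfl : hd = instDecidableEqFin (k * 2) := Subsingleton.elim _ _
    obtain ⟨⟨i₀, j₀⟩, rfl⟩ := finProdFinEquiv.surjective l
    simp only [update_finProd]
    have h : ∀ z : E, ∏ i : Fin k, a (if i = i₀ then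
        Function.update (fun j => v (finProdFinEquiv (i₀, j))) j₀ z
        else fun j => v (finProdFinEquiv (i, j))) =
        a (Function.update (fun j => v (finProdFinEquiv (i₀, j))) j₀ z) *
        ∏ i ∈ Finset.univ.erase i₀, a fun j => v (finProdFinEquiv (i, j)) := by
      intro z
      rw [← Finset.mul_prod_erase _ _ (Finset.mem_univ i₀), if_pos rfl]
      congr 1
      refine Finset.prod_congr rfl fun i hi => ?_
      rw [if_neg (Finset.ne_of_mem_erase hi)]
    rw [h, h, a.map_update_smul, smul_mul_assoc]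
  cont := by
    refine continuous_finsetProd _ fun i _ => ?_
    exact a.cont.comp (by fun_prop)

/-- The `k`-th wedge power `a ∧ ⋯ ∧ a` of a `2`-form: its value at `v` is
`2 ^ (-k) ∑ σ, sign σ ∏ i, a (v (σ (2 i)), v (σ (2 i + 1)))`. -/
noncomputable def wpow [NormedSpace ℝ E] (k : ℕ) (a : E [⋀^Fin 2]→L[ℝ] ℝ) :
    E [⋀^Fin (k * 2)]→L[ℝ] ℝ :=
  (1 / 2 : ℝ) ^ k • ContinuousMultilinearMap.alternatization (prodForm k a)

variable [NormedSpace ℂ E]

variable (E) in
/-- Multiplication by `i`, as a real linear map. -/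
noncomputable def mulI : E →L[ℝ] E := Complex.I • ContinuousLinearMap.id ℝ E

/-- `a` is a positive `(1,1)`-form: `a (i v, i w) = a (v, w)`, and `a (v, i v) > 0` for `v ≠ 0`.
(These are the fundamental forms of the Hermitian inner products on `E`; the inner product is
`g (v, w) = a (v, i w)`.) -/
def PosForm (a : E [⋀^Fin 2]→L[ℝ] ℝ) : Prop :=
  (∀ v w, a ![mulI E v, mulI E w] = a ![v, w]) ∧ ∀ v, v ≠ 0 → 0 < a ![v, mulI E v]

/-- The form `d (J^* d g)`, which is `d d^c g` up to a sign. -/
noncomputable def ddc (g : E → E [⋀^Fin 2]→L[ℝ] ℝ) : E → E [⋀^Fin 4]→L[ℝ] ℝ :=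
  extDeriv fun p => (extDeriv g p).compContinuousLinearMap (mulI E)

end Forms

section Manifolds

variable {E : Type*} [NormedAddCommGroup E] [NormedSpace ℂ E]
variable {E' : Type*} [NormedAddCommGroup E'] [NormedSpace ℂ E']
variable {M : Type*} [TopologicalSpace M] [ChartedSpace E M]

/-- The pullback of a `k`-form on `M` under a holomorphic map `q : E' → M`. -/
noncomputable def pull {k : ℕ} (q : E' → M) (g : M → E [⋀^Fin k]→L[ℝ] ℝ) (p : E') :
    E' [⋀^Fin k]→L[ℝ] ℝ :=
  (g (q p)).compContinuousLinearMap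
    ((mfderiv 𝓘(ℂ, E') 𝓘(ℂ, E) q p : E' →L[ℂ] E).restrictScalars ℝ)

variable (E M) in
/-- The holomorphic charts of `M`. -/
def holCharts : Set (OpenPartialHomeomorph M E) := IsManifold.maximalAtlas 𝓘(ℂ, E) ⊤ M

/-- A real differential form on `M` is smooth. -/
def SmoothForm {k : ℕ} (g : M → E [⋀^Fin k]→L[ℝ] ℝ) : Prop :=
  ∀ e ∈ holCharts E M, ContDiffOn ℝ (⊤ : ℕ∞) (pull e.symm g) e.target

/-- `g` is the fundamental form of a (smooth) Hermitian metric on `M`. -/
def IsHermitian (g : M → E [⋀^Fin 2]→L[ℝ] ℝ) : Prop :=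
  SmoothForm g ∧ ∀ m, PosForm (g m)

/-- `d g = 0`. -/
def Kahler (g : M → E [⋀^Fin 2]→L[ℝ] ℝ) : Prop :=
  ∀ e ∈ holCharts E M, ∀ p ∈ e.target, extDeriv (pull e.symm g) p = 0

/-- `d d^c g = 0`. -/
def Pluriclosed (g : M → E [⋀^Fin 2]→L[ℝ] ℝ) : Prop :=
  ∀ e ∈ holCharts E M, ∀ p ∈ e.target, ddc (pull e.symm g) p = 0

/-- `d (g ^ (n - 1)) = 0`, where `n` is the complex dimension of `M`. -/
def Balanced (g : M → E [⋀^Fin 2]→L[ℝ] ℝ) : Prop :=
  ∀ e ∈ holCharts E M, ∀ p ∈ e.target,
    extDeriv (fun x => wpow (Module.finrank ℂ E - 1) (pull e.symm g x)) p = 0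

end Manifolds

section Fibrations

/-- A holomorphic fibration `f : M → B` with fibres complex tori: `B` is covered by holomorphic
charts `base i`, with image `D ⊆ V`, over which `M` is the quotient of `D × W` by the translations
`(x, z) ↦ (x, z + P i x n)`, `n ∈ ℤ ^ r`; here `P i x : ℝ ^ r → W` is an isomorphism (so that
`P i x (ℤ ^ r)` is a lattice) which depends holomorphically on `x`.  The quotient map is `q i`.
On the intersections the quotient maps differ by a map `(x, z) ↦ (x', A x z + τ x)` which is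
affine on the fibres. -/
structure TorusFibration (r : ℕ) (V W : Type*) [NormedAddCommGroup V] [NormedSpace ℂ V]
    [NormedAddCommGroup W] [NormedSpace ℂ W] {B M : Type*} [TopologicalSpace B]
    [ChartedSpace V B] [TopologicalSpace M] [ChartedSpace (V × W) M] (f : M → B) where
  /-- the indices of the charts -/
  ι : Type*
  /-- the charts of `B` -/
  base : ι → OpenPartialHomeomorph B V
  base_mem : ∀ i, base i ∈ holCharts V B
  cover : ∀ b, ∃ i, b ∈ (base i).source
  /-- the periods -/
  P : ι → V → (Fin r → ℝ) ≃L[ℝ] W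
  P_hol : ∀ i t, ContDiffOn ℂ ⊤ (fun x => P i x t) (base i).target
  /-- the quotient maps -/
  q : ι → V × W → M
  q_hol : ∀ i, IsLocalDiffeomorphOn 𝓘(ℂ, V × W) 𝓘(ℂ, V × W) ⊤ (q i) ((base i).target ×ˢ univ)
  q_fib : ∀ i, ∀ x ∈ (base i).target, ∀ z, f (q i (x, z)) = (base i).symm x
  q_surj : ∀ i m, f m ∈ (base i).source → ∃ z, q i (base i (f m), z) = m
  q_ker : ∀ i, ∀ x ∈ (base i).target, ∀ z z',
    q i (x, z) = q i (x, z') ↔ ∃ n : Fin r → ℤ, z' = z + P i x fun l => (n l : ℝ)
  q_trans : ∀ i j, ∀ x₀ ∈ (base i).target, (base i).symm x₀ ∈ (base j).source →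
    ∃ O : Set V, IsOpen O ∧ x₀ ∈ O ∧ O ⊆ (base i).target ∧
      (∀ x ∈ O, (base i).symm x ∈ (base j).source) ∧
      ∃ (A : V → W →L[ℂ] W) (τ : V → W), ContDiffOn ℂ ⊤ A O ∧ ContDiffOn ℂ ⊤ τ O ∧
        ∀ x ∈ O, ∀ z, q i (x, z) = q j (base j ((base i).symm x), A x z + τ x)

end Fibrations

end Pool.Agent.Helper80.TF
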