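import Pool.Agent.Helper80.TF.TransB
import Pool.Agent.Helper80.TF.Smth

/-!
# From flat coordinates to holomorphic coordinates
-/

open Manifold Set Filter Topology MeasureTheory

namespace Pool.Agent.Helper80.TF.TorusFibration

variable {r : ℕ} {V W : Type*} [NormedAddCommGroup V] [NormedSpace ℂ V] [FiniteDimensional ℂ V]
    [NormedAddCommGroup W] [NormedSpace ℂ W] {B M : Type*} [TopologicalSpace B]
    [ChartedSpace V B] [IsManifold 𝓘(ℂ, V) ⊤ B] [TopologicalSpace M] [ChartedSpace (V × W) M]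
    {f : M → B} (T : TorusFibration r V W f)

/-- The form `K` in holomorphic coordinates. -/
noncomputable def unflat (i : T.ι) (K : V → (V × (Fin r → ℝ)) [⋀^Fin 2]→L[ℝ] ℝ) (p : V × W) :
    (V × W) [⋀^Fin 2]→L[ℝ] ℝ :=
  (K p.1).compContinuousLinearMap (fderiv ℝ (T.Phi i) p)

private theorem DescA_open (i : T.ι) : IsOpen (T.D i ×ˢ (univ : Set W)) :=
  (T.base i).open_target.prod isOpen_univ

theorem contDiffOn_unflat {K : T.ι → V → (V × (Fin r → ℝ)) [⋀^Fin 2]→L[ℝ] ℝ}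
    (hK : T.FlatKahler K) (i : T.ι) :
    ContDiffOn ℝ (⊤ : ℕ∞) (T.unflat i (K i)) (T.D i ×ˢ univ) := by
  have h1 : ContDiffOn ℝ (⊤ : ℕ∞) (fun p : V × W => K i p.1) (T.D i ×ˢ univ) :=
    (hK.smooth i).comp contDiff_fst.contDiffOn fun p hp => hp.1
  have h2 : ContDiffOn ℝ (⊤ : ℕ∞) (fun p : V × W => fderiv ℝ (T.Phi i) p) (T.D i ×ˢ univ) :=
    (T.contDiffOn_Phi i).fderiv_of_isOpen (T.DescA_open i) (by exact_mod_cast le_top)
  exact contDiffOn_compAlt h1 h2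

/-- Use `extDeriv_pullback`. -/
theorem extDeriv_unflat {K : T.ι → V → (V × (Fin r → ℝ)) [⋀^Fin 2]→L[ℝ] ℝ}
    (hK : T.FlatKahler K) (i : T.ι) {p : V × W} (hp : p.1 ∈ T.D i) :
    extDeriv (T.unflat i (K i)) p = 0 := by
  have hmem : p ∈ T.D i ×ˢ (univ : Set W) := ⟨hp, mem_univ _⟩
  have hPhi : ContDiffAt ℝ (⊤ : ℕ∞) (T.Phi i) p :=
    (T.contDiffOn_Phi i).contDiffAt ((T.DescA_open i).mem_nhds hmem)
  have hKd : DifferentiableAt ℝ (K i) p.1 :=
    ((hK.smooth i).contDiffAt ((T.base i).open_target.mem_nhds hp)).differentiableAt (by simp)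
  have hω : DifferentiableAt ℝ (fun q : V × (Fin r → ℝ) => K i q.1) (T.Phi i p) := by
    have hKd' : DifferentiableAt ℝ (K i) ((T.Phi i p).1) := hKd
    exact hKd'.comp (T.Phi i p) differentiableAt_fst
  have h := extDeriv_pullback (ω := fun q : V × (Fin r → ℝ) => K i q.1) (f := T.Phi i) (x := p)
    hω hPhi (by
      rw [minSmoothness_of_isRCLikeNormedField]
      exact WithTop.coe_le_coe.2 (le_top : (2 : ℕ∞) ≤ ⊤))
  have h2 : extDeriv (fun q : V × (Fin r → ℝ) => K i q.1) (T.Phi i p) = 0 :=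
    hK.closed i p.1 hp _
  rw [h2] at h
  have h3 : T.unflat i (K i) = fun x => (K i (T.Phi i x).1).compContinuousLinearMap
      (fderiv ℝ (T.Phi i) x) := rfl
  rw [h3, h]
  ext v
  rfl

private theorem DescA_Phi_diff (i : T.ι) {p : V × W} (hp : p.1 ∈ T.D i) :
    DifferentiableAt ℝ (T.Phi i) p :=
  ((T.contDiffOn_Phi i).contDiffAt ((T.DescA_open i).mem_nhds ⟨hp, mem_univ _⟩)).differentiableAt
    (by simp)

private theorem DescA_Psi_diff (i : T.ι) {p : V × (Fin r → ℝ)} (hp : p.1 ∈ T.D i) :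
    DifferentiableAt ℝ (T.Psi i) p :=
  ((T.contDiffOn_Psi i).contDiffAt (((T.base i).open_target.prod isOpen_univ).mem_nhds
    ⟨hp, mem_univ _⟩)).differentiableAt (by simp)

private theorem DescA_BA (i : T.ι) {p : V × W} (hp : p.1 ∈ T.D i) (v : V × W) :
    fderiv ℝ (T.Psi i) (T.Phi i p) (fderiv ℝ (T.Phi i) p v) = v := by
  have h1 : fderiv ℝ (T.Psi i ∘ T.Phi i) p =
      (fderiv ℝ (T.Psi i) (T.Phi i p)).comp (fderiv ℝ (T.Phi i) p) :=
    fderiv_comp p (T.DescA_Psi_diff i (p := T.Phi i p) hp) (T.DescA_Phi_diff i hp)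
  have h2 : T.Psi i ∘ T.Phi i = id := funext fun y => T.Psi_Phi i y
  rw [h2, fderiv_id] at h1
  have := congrArg (fun L : V × W →L[ℝ] V × W => L v) h1
  exact this.symm

private theorem DescA_AB (i : T.ι) {p : V × W} (hp : p.1 ∈ T.D i) (ξ : V × (Fin r → ℝ)) :
    fderiv ℝ (T.Phi i) p (fderiv ℝ (T.Psi i) (T.Phi i p) ξ) = ξ := by
  have hd : DifferentiableAt ℝ (T.Phi i) (T.Psi i (T.Phi i p)) := by
    rw [T.Psi_Phi]; exact T.DescA_Phi_diff i hp
  have h1 : fderiv ℝ (T.Phi i ∘ T.Psi i) (T.Phi i p) =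
      (fderiv ℝ (T.Phi i) (T.Psi i (T.Phi i p))).comp (fderiv ℝ (T.Psi i) (T.Phi i p)) :=
    fderiv_comp (T.Phi i p) hd (T.DescA_Psi_diff i (p := T.Phi i p) hp)
  have h2 : T.Phi i ∘ T.Psi i = id := funext fun y => T.Phi_Psi i y
  rw [h2, fderiv_id, T.Psi_Phi] at h1
  have := congrArg (fun L : V × (Fin r → ℝ) →L[ℝ] V × (Fin r → ℝ) => L ξ) h1
  exact this.symm

private theorem DescA_mulI (i : T.ι) {p : V × W} (hp : p.1 ∈ T.D i) (v : V × W) :
    fderiv ℝ (T.Phi i) p (mulI (V × W) v) = T.Jt i p.1 (fderiv ℝ (T.Phi i) p v) := by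
  have h1 := T.fderiv_Psi_Jt i hp (T.Phi i p).2 (fderiv ℝ (T.Phi i) p v)
  have h2 : ((p.1, (T.Phi i p).2) : V × (Fin r → ℝ)) = T.Phi i p := rfl
  rw [h2, T.DescA_BA i hp] at h1
  rw [← h1, T.DescA_AB i hp]

private theorem DescA_apply (i : T.ι) (K : V → (V × (Fin r → ℝ)) [⋀^Fin 2]→L[ℝ] ℝ) (p v w : V × W) :
    T.unflat i K p ![v, w] = K p.1 ![fderiv ℝ (T.Phi i) p v, fderiv ℝ (T.Phi i) p w] := by
  change K p.1 (fun k => fderiv ℝ (T.Phi i) p (![v, w] k)) = _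
  congr 1
  funext k
  fin_cases k <;> rfl

/-- `D Phi` is the inverse of `D Psi`; use `fderiv_Psi_Jt`. -/
theorem posForm_unflat {K : T.ι → V → (V × (Fin r → ℝ)) [⋀^Fin 2]→L[ℝ] ℝ}
    (hK : T.FlatKahler K) (i : T.ι) {p : V × W} (hp : p.1 ∈ T.D i) :
    PosForm (T.unflat i (K i) p) := by
  constructor
  · intro v w
    rw [DescA_apply, DescA_apply, T.DescA_mulI i hp, T.DescA_mulI i hp, hK.inv i p.1 hp]
  · intro v hv
    rw [DescA_apply, T.DescA_mulI i hp]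
    refine hK.pos i p.1 hp _ fun h0 => hv ?_
    rw [← T.DescA_BA i hp v, h0, map_zero]

private theorem DescA_map {i j : T.ι} (F : T.FTrans i j) {x : V} (hx : x ∈ F.O)
    (t : Fin r → ℝ) : HasFDerivAt F.map (F.lin x) (x, t) := by
  have ha : HasFDerivAt F.a (fderiv ℝ F.a x) x :=
    ((F.a_smooth.contDiffAt (F.isOpen.mem_nhds hx)).differentiableAt (by simp)).hasFDerivAt
  have hσ : HasFDerivAt F.σ (fderiv ℝ F.σ x) x :=
    ((F.σ_smooth.contDiffAt (F.isOpen.mem_nhds hx)).differentiableAt (by simp)).hasFDerivAt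
  have h1 : HasFDerivAt (fun p : V × (Fin r → ℝ) => F.a p.1)
      ((fderiv ℝ F.a x).comp (ContinuousLinearMap.fst ℝ V (Fin r → ℝ))) (x, t) :=
    HasFDerivAt.comp (x, t) (f := fun p : V × (Fin r → ℝ) => p.1) (g := F.a) ha hasFDerivAt_fst
  have h2 : HasFDerivAt (fun p : V × (Fin r → ℝ) => F.σ p.1)
      ((fderiv ℝ F.σ x).comp (ContinuousLinearMap.fst ℝ V (Fin r → ℝ))) (x, t) :=
    HasFDerivAt.comp (x, t) (f := fun p : V × (Fin r → ℝ) => p.1) (g := F.σ) hσ hasFDerivAt_fst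
  have h3 : HasFDerivAt (fun p : V × (Fin r → ℝ) => F.N p.2)
      ((F.N : (Fin r → ℝ) →L[ℝ] (Fin r → ℝ)).comp (ContinuousLinearMap.snd ℝ V (Fin r → ℝ)))
      (x, t) :=
    HasFDerivAt.comp (x, t) (f := fun p : V × (Fin r → ℝ) => p.2)
      (g := fun s => (F.N : (Fin r → ℝ) →L[ℝ] (Fin r → ℝ)) s)
      (F.N : (Fin r → ℝ) →L[ℝ] (Fin r → ℝ)).hasFDerivAt hasFDerivAt_snd
  exact h1.prodMk (h3.add h2)

/-- Proof sketch: take `F` as in `exists_ftrans'` for `Phi i p` and `Phi j p'`, and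
`T₁ = Psi j ∘ F.map ∘ Phi i`. -/
theorem unflat_compat {K : T.ι → V → (V × (Fin r → ℝ)) [⋀^Fin 2]→L[ℝ] ℝ}
    (hK : T.FlatKahler K) (i j : T.ι) {p p' : V × W} (hp : p.1 ∈ T.D i) (hp' : p'.1 ∈ T.D j)
    (h : T.q i p = T.q j p') :
    ∃ T₁ : V × W → V × W, DifferentiableAt ℝ T₁ p ∧ T₁ p = p' ∧
      (∀ᶠ y in 𝓝 p, T.q i y = T.q j (T₁ y)) ∧
      T.unflat i (K i) p = (T.unflat j (K j) p').compContinuousLinearMap (fderiv ℝ T₁ p) := by
  obtain ⟨F, hO, hmap⟩ := T.exists_ftrans' i j (p := T.Phi i p) (p' := T.Phi j p') hp hp'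
    (by rw [T.Psi_Phi, T.Psi_Phi]; exact h)
  have hO' : p.1 ∈ F.O := hO
  have hPhi := T.DescA_Phi_diff i hp
  have hm : HasFDerivAt F.map (F.lin p.1) (T.Phi i p) := T.DescA_map F hO' (T.Phi i p).2
  have hPsi : DifferentiableAt ℝ (T.Psi j) (F.map (T.Phi i p)) := by
    rw [hmap]
    exact T.DescA_Psi_diff j (p := T.Phi j p') hp'
  have hFP : DifferentiableAt ℝ (F.map ∘ T.Phi i) p := hm.differentiableAt.comp p hPhi
  have hT : DifferentiableAt ℝ (T.Psi j ∘ (F.map ∘ T.Phi i)) p := by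
    refine DifferentiableAt.comp p ?_ hFP
    exact hPsi
  have hTp : (T.Psi j ∘ (F.map ∘ T.Phi i)) p = p' := by
    change T.Psi j (F.map (T.Phi i p)) = p'
    rw [hmap, T.Psi_Phi]
  refine ⟨T.Psi j ∘ (F.map ∘ T.Phi i), hT, hTp, ?_, ?_⟩
  · have hnh : ∀ᶠ y : V × W in 𝓝 p, y.1 ∈ F.O :=
      continuous_fst.continuousAt.eventually (F.isOpen.mem_nhds hO')
    filter_upwards [hnh] with y hy
    have h1 := F.q_eq y.1 hy (T.Phi i y).2
    have h2 : ((y.1, (T.Phi i y).2) : V × (Fin r → ℝ)) = T.Phi i y := rfl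
    rw [h2, T.Psi_Phi] at h1
    rw [h1]
    rfl
  · have h1 : F.a p.1 = p'.1 := congrArg Prod.fst hmap
    have h2 : fderiv ℝ (T.Phi j ∘ (T.Psi j ∘ (F.map ∘ T.Phi i))) p =
        (fderiv ℝ (T.Phi j) ((T.Psi j ∘ (F.map ∘ T.Phi i)) p)).comp
          (fderiv ℝ (T.Psi j ∘ (F.map ∘ T.Phi i)) p) :=
      fderiv_comp p (by rw [hTp]; exact T.DescA_Phi_diff j hp') hT
    have h3 : T.Phi j ∘ (T.Psi j ∘ (F.map ∘ T.Phi i)) = F.map ∘ T.Phi i :=
      funext fun y => T.Phi_Psi j _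
    have h4 : fderiv ℝ (F.map ∘ T.Phi i) p = (F.lin p.1).comp (fderiv ℝ (T.Phi i) p) := by
      rw [fderiv_comp p hm.differentiableAt hPhi, hm.fderiv]
    rw [h3, h4, hTp] at h2
    ext v
    change K i p.1 (fun k => fderiv ℝ (T.Phi i) p (v k)) =
      K j p'.1 (fun k => fderiv ℝ (T.Phi j) p' (fderiv ℝ (T.Psi j ∘ (F.map ∘ T.Phi i)) p (v k)))
    rw [hK.trans i j F p.1 hO', h1]
    change K j p'.1 (fun k => F.lin p.1 (fderiv ℝ (T.Phi i) p (v k))) = _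
    congr 1
    funext k
    have := congrArg (fun L : V × W →L[ℝ] V × (Fin r → ℝ) => L (v k)) h2
    exact this

end Pool.Agent.Helper80.TF.TorusFibration
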