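import Pool.Agent.Helper80.TF.Lift

/-!
# Forms on `M` from forms in holomorphic coordinates
-/

open Manifold Set Filter Topology MeasureTheory

namespace Pool.Agent.Helper80.TF.TorusFibration

variable {r : ℕ} {V W : Type*} [NormedAddCommGroup V] [NormedSpace ℂ V] [FiniteDimensional ℂ V]
    [NormedAddCommGroup W] [NormedSpace ℂ W] {B M : Type*} [TopologicalSpace B]
    [ChartedSpace V B] [IsManifold 𝓘(ℂ, V) ⊤ B] [TopologicalSpace M] [ChartedSpace (V × W) M]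
    [IsManifold 𝓘(ℂ, V × W) ⊤ M] {f : M → B} (T : TorusFibration r V W f)

omit [FiniteDimensional ℂ V] [IsManifold 𝓘(ℂ, V) ⊤ B] [IsManifold 𝓘(ℂ, V × W) ⊤ M] in
private theorem DescB1_pt (m : M) : ∃ (i : T.ι) (p : V × W), p.1 ∈ T.D i ∧ T.q i p = m := by
  obtain ⟨i, hi⟩ := T.cover (f m)
  obtain ⟨z, hz⟩ := T.q_surj i m hi
  exact ⟨i, (T.base i (f m), z), (T.base i).map_source hi, hz⟩

omit [FiniteDimensional ℂ V] [IsManifold 𝓘(ℂ, V) ⊤ B] [IsManifold 𝓘(ℂ, V × W) ⊤ M] in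
private theorem DescB1_loc (i : T.ι) (p : V × W) (hp : p.1 ∈ T.D i) :
    IsLocalDiffeomorphAt 𝓘(ℂ, V × W) 𝓘(ℂ, V × W) ⊤ (T.q i) p :=
  T.q_hol i ⟨p, ⟨hp, mem_univ _⟩⟩

/-- Proof sketch: for `m : M` choose a chart `i` and `p` with `q i p = m`, and transport `k i p`
with the inverse of the derivative of `q i` at `p` (`mfderiv_bijective`).  That
`pull (q j) g p' = k j p'` for every other choice follows from `pull_lift` (the real derivative of
`T₁` is its complex derivative, by `lift_differentiableAt`). -/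
theorem exists_form {k : T.ι → V × W → (V × W) [⋀^Fin 2]→L[ℝ] ℝ}
    (hk : ∀ i j, ∀ p p' : V × W, p.1 ∈ T.D i → p'.1 ∈ T.D j → T.q i p = T.q j p' →
      ∃ T₁ : V × W → V × W, DifferentiableAt ℝ T₁ p ∧ T₁ p = p' ∧
        (∀ᶠ y in 𝓝 p, T.q i y = T.q j (T₁ y)) ∧
        k i p = (k j p').compContinuousLinearMap (fderiv ℝ T₁ p)) :
    ∃ g : M → (V × W) [⋀^Fin 2]→L[ℝ] ℝ, ∀ i, ∀ p : V × W, p.1 ∈ T.D i →
      pull (T.q i) g p = k i p := by
  classical
  choose I P hP hPm using fun m => DescB1_pt T m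
  have hA := fun m => mfderiv_bijective (DescB1_loc T (I m) (P m) (hP m))
  choose A hA using hA
  let g : M → (V × W) [⋀^Fin 2]→L[ℝ] ℝ := fun m =>
    (k (I m) (P m)).compContinuousLinearMap
      (((A m).symm : (V × W) →L[ℂ] (V × W)).restrictScalars ℝ)
  refine ⟨g, fun i p hp => ?_⟩
  have hm := hPm (T.q i p)
  set m : M := T.q i p with hmdef
  obtain ⟨T₁, hd, hT₁, hev, hki⟩ := hk i (I m) p (P m) hp (hP m) hm.symm
  have hq := DescB1_loc T i p hp
  have hq' := DescB1_loc T (I m) (P m) (hP m)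
  have hdc : DifferentiableAt ℂ T₁ p := lift_differentiableAt hq hq' hd.continuousAt hT₁ hev
  rw [pull_lift hq hq' hd.continuousAt hT₁ hev g, hki, hdc.fderiv_restrictScalars ℝ]
  congr 1
  have h1 : pull (T.q (I m)) g (P m) = (g m).compContinuousLinearMap
      ((mfderiv 𝓘(ℂ, V × W) 𝓘(ℂ, V × W) (T.q (I m)) (P m) :
        (V × W) →L[ℂ] (V × W)).restrictScalars ℝ) := by
    unfold pull
    exact congrArg (fun x => (g x).compContinuousLinearMap
      ((mfderiv 𝓘(ℂ, V × W) 𝓘(ℂ, V × W) (T.q (I m)) (P m) :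
        (V × W) →L[ℂ] (V × W)).restrictScalars ℝ)) hm
  rw [h1]
  ext v
  change k (I m) (P m) (fun l => (A m).symm
    ((mfderiv 𝓘(ℂ, V × W) 𝓘(ℂ, V × W) (T.q (I m)) (P m) : (V × W) →L[ℂ] (V × W)) (v l))) = _
  congr 1
  funext l
  rw [hA m (v l)]
  exact (A m).symm_apply_apply (v l)

end Pool.Agent.Helper80.TF.TorusFibration
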