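import Pool.Agent.Helper80.TF.Lift
import Pool.Agent.Helper80.TF.Smth

/-!
# Forms on `M` from forms in holomorphic coordinates
-/

open Manifold Set Filter Topology MeasureTheory

namespace Pool.Agent.Helper80.TF.TorusFibration

/-- Positivity is invariant under complex linear isomorphisms. -/
private theorem DescB2_posForm {E : Type*} [NormedAddCommGroup E] [NormedSpace ℂ E]
    {a : E [⋀^Fin 2]→L[ℝ] ℝ} {L : E →L[ℂ] E} (A : E ≃L[ℂ] E) (hL : ∀ v, L v = A v)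
    (h : PosForm (a.compContinuousLinearMap (L.restrictScalars ℝ))) : PosForm a := by
  have h1 : ∀ v w : E, a.compContinuousLinearMap (L.restrictScalars ℝ) ![A.symm v, A.symm w] =
      a ![v, w] := by
    intro v w
    rw [ContinuousAlternatingMap.compContinuousLinearMap_apply]
    congr 1
    funext j
    fin_cases j
    · exact (hL _).trans (A.apply_symm_apply v)
    · exact (hL _).trans (A.apply_symm_apply w)
  have h2 : ∀ v : E, mulI E (A.symm v) = A.symm (mulI E v) := by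
    intro v
    change Complex.I • A.symm v = A.symm (Complex.I • v)
    rw [map_smul]
  refine ⟨fun v w => ?_, fun v hv => ?_⟩
  · have h3 := h.1 (A.symm v) (A.symm w)
    rwa [h2, h2, h1, h1] at h3
  · have h3 := h.2 (A.symm v) (by simpa using hv)
    rwa [h2, h1] at h3

private theorem DescB2_aux {E : Type*} [NormedAddCommGroup E] [NormedSpace ℂ E] {M : Type*}
    {k : ℕ} (g : M → E [⋀^Fin k]→L[ℝ] ℝ) {m m' : M} {A A' : E →L[ℂ] E}
    (hm : m = m') (hA : A = A') :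
    (g m).compContinuousLinearMap (A.restrictScalars ℝ) =
      (g m').compContinuousLinearMap (A'.restrictScalars ℝ) := by
  rw [hm, hA]

/-- The pullback of a form depends smoothly on the form and on the linear map. -/
private theorem DescB2_contDiffAt {X E F G : Type*} [NormedAddCommGroup E] [NormedSpace ℝ E]
    [NormedAddCommGroup F] [NormedSpace ℝ F] [NormedAddCommGroup G] [NormedSpace ℝ G]
    [NormedAddCommGroup X] [NormedSpace ℝ X] {k : ℕ}
    {n : WithTop ℕ∞} {g : X → F [⋀^Fin k]→L[ℝ] G} {A : X → E →L[ℝ] F} {p : X}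
    (hg : ContDiffAt ℝ n g p) (hA : ContDiffAt ℝ n A p) :
    ContDiffAt ℝ n (fun x => (g x).compContinuousLinearMap (A x)) p := by
  have h1 : (fun x => (g x).compContinuousLinearMap (A x)) = fun x => (Nat.factorial k : ℝ)⁻¹ •
      altCLM E G k (ContinuousMultilinearMap.compContinuousLinearMapContinuousMultilinear ℝ
        (fun _ : Fin k => E) (fun _ : Fin k => F) G (fun _ => A x)
          (ContinuousAlternatingMap.toContinuousMultilinearMapCLM ℝ (g x))) := by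
    funext x
    have h2 := altCLM_toCM ((g x).compContinuousLinearMap (A x))
    have h3 : (g x).compContinuousLinearMap (A x) = (Nat.factorial k : ℝ)⁻¹ •
        altCLM E G k ((g x).compContinuousLinearMap (A x)).toContinuousMultilinearMap := by
      rw [h2, smul_smul, inv_mul_cancel₀ (by positivity), one_smul]
    exact h3
  rw [h1]
  refine ContDiffAt.const_smul _ ?_
  refine (altCLM E G k).contDiff.contDiffAt.comp p ?_
  refine ContDiffAt.clm_apply ?_ ?_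
  · refine (ContinuousMultilinearMap.contDiff _).contDiffAt.comp p ?_
    exact contDiffAt_pi.2 fun _ => hA
  · exact (ContinuousAlternatingMap.toContinuousMultilinearMapCLM ℝ :
      (F [⋀^Fin k]→L[ℝ] G) →L[ℝ] _).contDiff.contDiffAt.comp p hg

/-- The pullback under a composite map. -/
private theorem DescB2_comp {E : Type*} [NormedAddCommGroup E] [NormedSpace ℂ E] {M : Type*}
    [TopologicalSpace M] [ChartedSpace E M] {k : ℕ} (g : M → E [⋀^Fin k]→L[ℝ] ℝ) {q q' : E → M}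
    {S : E → E} {y : E} (h : ∀ᶠ z in 𝓝 y, q z = q' (S z))
    (hq' : MDifferentiableAt 𝓘(ℂ, E) 𝓘(ℂ, E) q' (S y)) (hS : DifferentiableAt ℂ S y) :
    pull q g y = (pull q' g (S y)).compContinuousLinearMap (fderiv ℝ S y) := by
  have h1 : q =ᶠ[𝓝 y] (q' ∘ S) := h
  have h2 : mfderiv 𝓘(ℂ, E) 𝓘(ℂ, E) (q' ∘ S) y =
      (mfderiv 𝓘(ℂ, E) 𝓘(ℂ, E) q' (S y)).comp (mfderiv 𝓘(ℂ, E) 𝓘(ℂ, E) S y) :=
    mfderiv_comp y hq' hS.mdifferentiableAt
  rw [mfderiv_eq_fderiv] at h2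
  have h3 : (mfderiv 𝓘(ℂ, E) 𝓘(ℂ, E) q y : E →L[ℂ] E) =
      (mfderiv 𝓘(ℂ, E) 𝓘(ℂ, E) q' (S y) : E →L[ℂ] E).comp (fderiv ℂ S y) :=
    h1.mfderiv_eq.trans h2
  rw [hS.fderiv_restrictScalars ℝ]
  exact DescB2_aux g h1.self_of_nhds h3

variable {r : ℕ} {V W : Type*} [NormedAddCommGroup V] [NormedSpace ℂ V] [FiniteDimensional ℂ V]
    [NormedAddCommGroup W] [NormedSpace ℂ W] {B M : Type*} [TopologicalSpace B]
    [ChartedSpace V B] [IsManifold 𝓘(ℂ, V) ⊤ B] [TopologicalSpace M] [ChartedSpace (V × W) M]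
    [IsManifold 𝓘(ℂ, V × W) ⊤ M] {f : M → B} (T : TorusFibration r V W f)

omit [FiniteDimensional ℂ V] [IsManifold 𝓘(ℂ, V) ⊤ B] [IsManifold 𝓘(ℂ, V × W) ⊤ M] in
private theorem DescB2_point (m : M) : ∃ (i : T.ι) (p : V × W), p.1 ∈ T.D i ∧ T.q i p = m := by
  obtain ⟨i, hi⟩ := T.cover (f m)
  obtain ⟨z, hz⟩ := T.q_surj i m hi
  exact ⟨i, (T.base i (f m), z), (T.base i).map_source hi, hz⟩

omit [FiniteDimensional ℂ V] [IsManifold 𝓘(ℂ, V) ⊤ B] in
/-- The pullback under the inverse of a chart, near a point. -/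
private theorem DescB2_local {k : T.ι → V × W → (V × W) [⋀^Fin 2]→L[ℝ] ℝ}
    {g : M → (V × W) [⋀^Fin 2]→L[ℝ] ℝ}
    (hg : ∀ i, ∀ p : V × W, p.1 ∈ T.D i → pull (T.q i) g p = k i p)
    {e : OpenPartialHomeomorph M (V × W)} (he : e ∈ holCharts (V × W) M) {p : V × W}
    (hp : p ∈ e.target) : ∃ (i : T.ι) (S : V × W → V × W), ContDiffAt ℝ (⊤ : ℕ∞) S p ∧
      (S p).1 ∈ T.D i ∧
      pull e.symm g =ᶠ[𝓝 p] fun y => (k i (S y)).compContinuousLinearMap (fderiv ℝ S y) := by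
  obtain ⟨i, p₀, hp₀, hm⟩ := T.DescB2_point (e.symm p)
  have hloc : ∀ y : V × W, y.1 ∈ T.D i →
      IsLocalDiffeomorphAt 𝓘(ℂ, V × W) 𝓘(ℂ, V × W) ⊤ (T.q i) y := fun y hy =>
    T.q_hol i ⟨y, ⟨hy, mem_univ _⟩⟩
  obtain ⟨e₀, he₀, hpe₀, hq⟩ := exists_chart (hloc p₀ hp₀)
  have h1 : e₀.symm p₀ = e.symm p := hq.self_of_nhds.symm.trans hm
  have h2 : e.symm p ∈ e₀.source := by
    rw [← h1]
    exact e₀.map_target hpe₀
  have hSp : e₀ (e.symm p) = p₀ := by
    rw [← h1]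
    exact e₀.right_inv hpe₀
  have hce : ContinuousAt e.symm p := e.continuousAt_symm hp
  have hcS : ContinuousAt (fun y => e₀ (e.symm y)) p :=
    ContinuousAt.comp (g := e₀) (e₀.continuousAt h2) hce
  have h3 : ∀ᶠ y in 𝓝 p, e.symm y ∈ e₀.source := hce.eventually (e₀.open_source.mem_nhds h2)
  have h4 : ∀ᶠ y in 𝓝 p, (e₀ (e.symm y)).1 ∈ T.D i := by
    have h5 : ∀ᶠ w in 𝓝 (e₀ (e.symm p)), w.1 ∈ T.D i := by
      rw [hSp]
      exact continuous_fst.continuousAt.eventually ((T.base i).open_target.mem_nhds hp₀)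
    exact hcS.eventually h5
  have h5 : ∀ᶠ y in 𝓝 p, T.q i (e₀ (e.symm y)) = e₀.symm (e₀ (e.symm y)) := by
    have h6 : ∀ᶠ w in 𝓝 (e₀ (e.symm p)), T.q i w = e₀.symm w := by
      rw [hSp]
      exact hq
    exact hcS.eventually h6
  have h6 : ∀ᶠ y in 𝓝 p, e.symm y = T.q i (e₀ (e.symm y)) := by
    filter_upwards [h3, h5] with y hy3 hy5
    rw [hy5, e₀.left_inv hy3]
  have hsm : ∀ y, y ∈ e.target → e.symm y ∈ e₀.source →
      ContDiffAt ℂ ⊤ (fun y => e₀ (e.symm y)) y := by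
    intro y hy hy'
    have h7 : ContMDiffAt 𝓘(ℂ, V × W) 𝓘(ℂ, V × W) ⊤ (fun y => e₀ (e.symm y)) y :=
      ContMDiffAt.comp (g := e₀) y (contMDiffAt_of_mem_maximalAtlas he₀ hy')
        (contMDiffAt_symm_of_mem_maximalAtlas he hy)
    exact contMDiffAt_iff_contDiffAt.mp h7
  refine ⟨i, fun y => e₀ (e.symm y), ((hsm p hp h2).restrict_scalars ℝ).of_le le_top, ?_, ?_⟩
  · change (e₀ (e.symm p)).1 ∈ T.D i
    rw [hSp]
    exact hp₀
  · filter_upwards [h3, h4, h6.eventually_nhds, e.open_target.mem_nhds hp] with y hy3 hy4 hy6 hy7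
    have hn : (⊤ : WithTop ℕ∞) ≠ 0 := by simp
    rw [DescB2_comp g hy6 ((hloc _ hy4).mdifferentiableAt hn)
      ((hsm y hy7 hy3).differentiableAt hn), hg i _ hy4]

/-- Proof sketch: given a chart `e` and `p ∈ e.target`, choose `i, p₀` with `q i p₀ = e.symm p`
and a chart `e₀` with `q i = e₀.symm` near `p₀` (`exists_chart`).  Near `p` one has
`e.symm = q i ∘ S` where `S = e₀ ∘ e.symm` is holomorphic, so that `pull e.symm g` is the pullback
of `k i` under `S`; use `extDeriv_pullback`. -/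
theorem kahler_of_local {k : T.ι → V × W → (V × W) [⋀^Fin 2]→L[ℝ] ℝ}
    (h1 : ∀ i, ContDiffOn ℝ (⊤ : ℕ∞) (k i) (T.D i ×ˢ univ))
    (h2 : ∀ i, ∀ p : V × W, p.1 ∈ T.D i → extDeriv (k i) p = 0)
    (h3 : ∀ i, ∀ p : V × W, p.1 ∈ T.D i → PosForm (k i p))
    {g : M → (V × W) [⋀^Fin 2]→L[ℝ] ℝ}
    (hg : ∀ i, ∀ p : V × W, p.1 ∈ T.D i → pull (T.q i) g p = k i p) :
    IsHermitian g ∧ Kahler g := by
  have hk : ∀ i, ∀ p : V × W, p.1 ∈ T.D i → ContDiffAt ℝ (⊤ : ℕ∞) (k i) p := fun i p hp =>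
    (h1 i).contDiffAt (((T.base i).open_target.prod isOpen_univ).mem_nhds ⟨hp, mem_univ _⟩)
  have hcomp : ∀ (i : T.ι) (S : V × W → V × W) (p : V × W), ContDiffAt ℝ (⊤ : ℕ∞) S p →
      (S p).1 ∈ T.D i → ContDiffAt ℝ (⊤ : ℕ∞)
        (fun y => (k i (S y)).compContinuousLinearMap (fderiv ℝ S y)) p := by
    intro i S p hS hSp
    have h4 : ContDiffAt ℝ (⊤ : ℕ∞) (fun y => k i (S y)) p := (hk i _ hSp).comp p hS
    exact DescB2_contDiffAt h4 (hS.fderiv_right (by simp))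
  refine ⟨⟨?_, ?_⟩, ?_⟩
  · intro e he p hp
    obtain ⟨i, S, hS, hSp, hev⟩ := T.DescB2_local hg he hp
    exact ((hcomp i S p hS hSp).congr_of_eventuallyEq hev).contDiffWithinAt
  · intro m
    obtain ⟨i, p, hp, rfl⟩ := T.DescB2_point m
    obtain ⟨A, hA⟩ := mfderiv_bijective (T.q_hol i ⟨p, ⟨hp, mem_univ _⟩⟩)
    refine DescB2_posForm A hA ?_
    have h4 := h3 i p hp
    rw [← hg i p hp] at h4
    exact h4
  · intro e he p hp
    obtain ⟨i, S, hS, hSp, hev⟩ := T.DescB2_local hg he hp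
    have hmin : minSmoothness ℝ 2 ≤ ((⊤ : ℕ∞) : WithTop ℕ∞) := by
      rw [minSmoothness_of_isRCLikeNormedField]
      exact WithTop.coe_le_coe.2 (le_top : (2 : ℕ∞) ≤ ⊤)
    rw [hev.extDeriv_eq, extDeriv_pullback ((hk i _ hSp).differentiableAt (by simp)) hS hmin,
      h2 i _ hSp]
    ext v
    rfl

end Pool.Agent.Helper80.TF.TorusFibration
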