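import Pool.Agent.Helper80.TF.DescA
import Pool.Agent.Helper80.TF.DescB1
import Pool.Agent.Helper80.TF.DescB2

/-!
# Forms on `M` from forms in holomorphic coordinates
-/

open Manifold Set Filter Topology MeasureTheory

namespace Pool.Agent.Helper80.TF.TorusFibration

variable {r : ℕ} {V W : Type*} [NormedAddCommGroup V] [NormedSpace ℂ V] [FiniteDimensional ℂ V]
    [NormedAddCommGroup W] [NormedSpace ℂ W] {B M : Type*} [TopologicalSpace B]
    [ChartedSpace V B] [IsManifold 𝓘(ℂ, V) ⊤ B] [TopologicalSpace M] [ChartedSpace (V × W) M]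
    [IsManifold 𝓘(ℂ, V × W) ⊤ M] {f : M → B} (T : TorusFibration r V W f)

/-- A Kähler form in flat coordinates gives a Kähler metric on `M`. -/
theorem exists_kahler {K : T.ι → V → (V × (Fin r → ℝ)) [⋀^Fin 2]→L[ℝ] ℝ}
    (hK : T.FlatKahler K) :
    ∃ g : M → (V × W) [⋀^Fin 2]→L[ℝ] ℝ, IsHermitian g ∧ Kahler g := by
  obtain ⟨g, hg⟩ := T.exists_form (k := fun i => T.unflat i (K i))
    fun i j p p' hp hp' h => T.unflat_compat hK i j hp hp' h
  exact ⟨g, T.kahler_of_local (fun i => T.contDiffOn_unflat hK i)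
    (fun i p hp => T.extDeriv_unflat hK i hp) (fun i p hp => T.posForm_unflat hK i hp) hg⟩

end Pool.Agent.Helper80.TF.TorusFibration
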