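import Pool.Agent.Helper80.TF.Core

/-!
# The strong minimum principle on a disc
-/

open Manifold Set Filter Topology MeasureTheory Metric

namespace Pool.Agent.Helper80.TF

/-- The exponential map `(t, θ) ↦ exp (t + i θ)`. -/
private noncomputable def disc_w (p : ℝ × ℝ) : ℂ := Complex.exp (p.1 + p.2 * Complex.I)

/-- The linear map `h ↦ c (h.1 + h.2 i)`. -/
private noncomputable def disc_A (c : ℂ) : ℝ × ℝ →L[ℝ] ℂ :=
  (ContinuousLinearMap.fst ℝ ℝ ℝ).smulRight c + (ContinuousLinearMap.snd ℝ ℝ ℝ).smulRight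
    (Complex.I * c)

private theorem disc_A_apply (c : ℂ) (h : ℝ × ℝ) :
    disc_A c h = h.1 * c + h.2 * (Complex.I * c) := by
  simp [disc_A]

private theorem disc_w_hasFDerivAt (p : ℝ × ℝ) : HasFDerivAt disc_w (disc_A (disc_w p)) p := by
  have h1 : HasFDerivAt (fun p : ℝ × ℝ => (p.1 : ℂ) + p.2 * Complex.I) (disc_A 1) p := by
    have h2 : (fun p : ℝ × ℝ => (p.1 : ℂ) + p.2 * Complex.I) = fun p => disc_A 1 p := by
      funext p
      rw [disc_A_apply]
      ring
    rw [h2]
    exact (disc_A 1).hasFDerivAt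
  have h3 := h1.cexp
  refine h3.congr_fderiv ?_
  ext
  · simp [disc_A, disc_w]
  · simp [disc_A, disc_w, mul_comm]

private theorem disc_norm_w (p : ℝ × ℝ) : ‖disc_w p‖ = Real.exp p.1 := by
  rw [disc_w, Complex.norm_exp]
  simp

private theorem disc_w_per (t : ℝ) : disc_w (t, 2 * Real.pi) = disc_w (t, 0) := by
  simp only [disc_w]
  rw [Complex.exp_add]
  push_cast
  rw [Complex.exp_two_pi_mul_I]
  simp

/-- Proof sketch: `m ρ = ∫ θ in 0..2 π, u (ρ exp (i θ))` satisfies
`ρ (ρ m')' = ρ ^ 2 ∫ Δ u ≤ 0` and `ρ m' → 0` for `ρ → 0`, so that `m` is decreasing; but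
`m ρ ≥ m 0` as `u ≥ u 0`.  So `u = u 0` on all circles.  (Or Hopf's argument with barriers.) -/
theorem disc_min {u : ℂ → ℝ} {R : ℝ} (hR : 1 < R) (hu : ContDiffOn ℝ 2 u (ball 0 R))
    (hΔ : ∀ z ∈ ball (0 : ℂ) R, D2 u z 1 + D2 u z Complex.I ≤ 0)
    (hmin : ∀ z ∈ ball (0 : ℂ) R, u 0 ≤ u z) : u 1 = u 0 := by
  have hR0 : 0 < R := by linarith
  set L : ℝ := Real.log R with hL
  have hL0 : 0 < L := Real.log_pos hR
  have hmem : ∀ p : ℝ × ℝ, p.1 < L → disc_w p ∈ ball (0 : ℂ) R := by
    intro p hp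
    rw [mem_ball_zero_iff, disc_norm_w]
    calc Real.exp p.1 < Real.exp L := Real.exp_lt_exp.2 hp
      _ = R := Real.exp_log hR0
  -- derivatives of `u`
  have hd1 : ∀ z ∈ ball (0 : ℂ) R, HasFDerivAt u (fderiv ℝ u z) z := fun z hz =>
    ((hu.contDiffAt (isOpen_ball.mem_nhds hz)).differentiableAt (by norm_num)).hasFDerivAt
  have hc1 : ∀ z ∈ ball (0 : ℂ) R, ContDiffAt ℝ 1 (fderiv ℝ u) z := fun z hz =>
    (hu.contDiffAt (isOpen_ball.mem_nhds hz)).fderiv_right (by norm_num)
  have hd2 : ∀ z ∈ ball (0 : ℂ) R, HasFDerivAt (fderiv ℝ u) (fderiv ℝ (fderiv ℝ u) z) z :=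
    fun z hz => ((hc1 z hz).differentiableAt (by norm_num)).hasFDerivAt
  have hc2 : ∀ z ∈ ball (0 : ℂ) R, ContinuousAt (fderiv ℝ (fderiv ℝ u)) z := fun z hz =>
    ((hc1 z hz).fderiv_right (m := 0) (by norm_num)).continuousAt
  have hD2 : ∀ z ∈ ball (0 : ℂ) R, ∀ v, D2 u z v = fderiv ℝ (fderiv ℝ u) z v v := by
    intro z hz v
    have h1 : HasFDerivAt (fun y => fderiv ℝ u y v)
        ((fderiv ℝ u z).comp (0 : ℂ →L[ℝ] ℂ) + (fderiv ℝ (fderiv ℝ u) z).flip v) z :=
      (hd2 z hz).clm_apply (hasFDerivAt_const v z)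
    unfold D2
    rw [h1.fderiv]
    simp
  -- the Laplacian is nonpositive in all frames
  have hS : ∀ z ∈ ball (0 : ℂ) R, ∀ c : ℂ, fderiv ℝ (fderiv ℝ u) z c c +
      fderiv ℝ (fderiv ℝ u) z (Complex.I * c) (Complex.I * c) ≤ 0 := by
    intro z hz c
    have h1 := hΔ z hz
    rw [hD2 z hz, hD2 z hz] at h1
    set B := fderiv ℝ (fderiv ℝ u) z with hB
    obtain ⟨a, b, rfl⟩ : ∃ a b : ℝ, c = a • (1 : ℂ) + b • Complex.I :=
      ⟨c.re, c.im, by apply Complex.ext <;> simp⟩
    have e2 : Complex.I * (a • (1 : ℂ) + b • Complex.I) = (-b) • (1 : ℂ) + a • Complex.I := by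
      apply Complex.ext <;> simp
    have e3 : B (a • (1 : ℂ) + b • Complex.I) (a • (1 : ℂ) + b • Complex.I) +
        B (Complex.I * (a • (1 : ℂ) + b • Complex.I)) (Complex.I * (a • (1 : ℂ) + b • Complex.I)) =
        (a ^ 2 + b ^ 2) * (B 1 1 + B Complex.I Complex.I) := by
      rw [e2]
      simp only [map_add, map_smul, add_apply, smul_apply, smul_eq_mul]
      ring
    rw [e3]
    exact mul_nonpos_of_nonneg_of_nonpos (by positivity) h1
  -- the two first derivatives in polar coordinates, and their derivatives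
  have hcw : Continuous disc_w := by
    unfold disc_w
    fun_prop
  have hf : ∀ p : ℝ × ℝ, p.1 < L → HasFDerivAt (fun p => fderiv ℝ u (disc_w p) (disc_w p))
      ((fderiv ℝ u (disc_w p)).comp (disc_A (disc_w p)) +
        ((fderiv ℝ (fderiv ℝ u) (disc_w p)).comp (disc_A (disc_w p))).flip (disc_w p)) p := by
    intro p hp
    have h1 : HasFDerivAt (fun p => fderiv ℝ u (disc_w p))
        ((fderiv ℝ (fderiv ℝ u) (disc_w p)).comp (disc_A (disc_w p))) p :=
      HasFDerivAt.comp (g := fderiv ℝ u) (f := disc_w) p (hd2 _ (hmem p hp))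
        (disc_w_hasFDerivAt p)
    exact h1.clm_apply (disc_w_hasFDerivAt p)
  have hg : ∀ p : ℝ × ℝ, p.1 < L →
      HasFDerivAt (fun p => fderiv ℝ u (disc_w p) (Complex.I * disc_w p))
      ((fderiv ℝ u (disc_w p)).comp (Complex.I • disc_A (disc_w p)) +
        ((fderiv ℝ (fderiv ℝ u) (disc_w p)).comp (disc_A (disc_w p))).flip
          (Complex.I * disc_w p)) p := by
    intro p hp
    have h1 : HasFDerivAt (fun p => fderiv ℝ u (disc_w p))
        ((fderiv ℝ (fderiv ℝ u) (disc_w p)).comp (disc_A (disc_w p))) p :=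
      HasFDerivAt.comp (g := fderiv ℝ u) (f := disc_w) p (hd2 _ (hmem p hp))
        (disc_w_hasFDerivAt p)
    exact h1.clm_apply ((disc_w_hasFDerivAt p).const_mul Complex.I)
  have hU : ∀ p : ℝ × ℝ, p.1 < L → HasFDerivAt (fun p => u (disc_w p))
      ((fderiv ℝ u (disc_w p)).comp (disc_A (disc_w p))) p := fun p hp =>
    HasFDerivAt.comp (g := u) (f := disc_w) p (hd1 _ (hmem p hp)) (disc_w_hasFDerivAt p)
  set G : ℝ → ℝ := fun t => ∫ y in (0 : ℝ)..(2 * Real.pi),
    fderiv ℝ u (disc_w (t, y)) (disc_w (t, y)) with hG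
  set φ : ℝ → ℝ := fun t => ∫ y in (0 : ℝ)..(2 * Real.pi), u (disc_w (t, y)) with hφ
  have hpi : (0 : ℝ) ≤ 2 * Real.pi := by positivity
  have hrect : ∀ a b : ℝ, a ≤ b → b < L → ∀ p ∈ uIcc a b ×ˢ uIcc 0 (2 * Real.pi), p.1 < L := by
    intro a b hab hb p hp
    have := hp.1
    rw [uIcc_of_le hab] at this
    exact this.2.trans_lt hb
  have hrect' : ∀ a b : ℝ, a ≤ b → b < L → ∀ p ∈ Ioo (min a b) (max a b) ×ˢ
      Ioo (min 0 (2 * Real.pi)) (max 0 (2 * Real.pi)) \ ∅, p.1 < L := by
    intro a b hab hb p hp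
    have := hp.1.1
    rw [max_eq_right hab] at this
    exact this.2.trans hb
  have hval : ∀ p : ℝ × ℝ, ((fderiv ℝ u (disc_w p)).comp (disc_A (disc_w p)) +
        ((fderiv ℝ (fderiv ℝ u) (disc_w p)).comp (disc_A (disc_w p))).flip (disc_w p)) (1, 0) +
      ((fderiv ℝ u (disc_w p)).comp (Complex.I • disc_A (disc_w p)) +
        ((fderiv ℝ (fderiv ℝ u) (disc_w p)).comp (disc_A (disc_w p))).flip
          (Complex.I * disc_w p)) (0, 1) =
      fderiv ℝ (fderiv ℝ u) (disc_w p) (disc_w p) (disc_w p) +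
      fderiv ℝ (fderiv ℝ u) (disc_w p) (Complex.I * disc_w p) (Complex.I * disc_w p) := by
    intro p
    have e1 : disc_A (disc_w p) (1, 0) = disc_w p := by simp [disc_A_apply]
    have e2 : disc_A (disc_w p) (0, 1) = Complex.I * disc_w p := by simp [disc_A_apply]
    have e3 : Complex.I • (Complex.I * disc_w p) = -disc_w p := by
      rw [smul_eq_mul, ← mul_assoc, Complex.I_mul_I, neg_one_mul]
    simp only [add_apply, ContinuousLinearMap.comp_apply, ContinuousLinearMap.flip_apply,
      smul_apply, e1, e2, e3, map_neg]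
    ring
  have hval2 : ∀ p : ℝ × ℝ, ((fderiv ℝ u (disc_w p)).comp (disc_A (disc_w p))) (1, 0) +
      (0 : ℝ × ℝ →L[ℝ] ℝ) (0, 1) = fderiv ℝ u (disc_w p) (disc_w p) := by
    intro p
    have e1 : disc_A (disc_w p) (1, 0) = disc_w p := by simp [disc_A_apply]
    simp [e1]
  -- first application of the divergence theorem
  have hanti : ∀ a b : ℝ, a ≤ b → b < L → G b ≤ G a := by
    intro a b hab hb
    have key := MeasureTheory.integral2_divergence_prod_of_hasFDerivAt_off_countable
      (fun p => fderiv ℝ u (disc_w p) (disc_w p))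
      (fun p => fderiv ℝ u (disc_w p) (Complex.I * disc_w p))
      (fun p => (fderiv ℝ u (disc_w p)).comp (disc_A (disc_w p)) +
        ((fderiv ℝ (fderiv ℝ u) (disc_w p)).comp (disc_A (disc_w p))).flip (disc_w p))
      (fun p => (fderiv ℝ u (disc_w p)).comp (Complex.I • disc_A (disc_w p)) +
        ((fderiv ℝ (fderiv ℝ u) (disc_w p)).comp (disc_A (disc_w p))).flip
          (Complex.I * disc_w p))
      a 0 b (2 * Real.pi) ∅ countable_empty
      (fun p hp => (hf p (hrect a b hab hb p hp)).continuousAt.continuousWithinAt)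
      (fun p hp => (hg p (hrect a b hab hb p hp)).continuousAt.continuousWithinAt)
      (fun p hp => hf p (hrect' a b hab hb p hp))
      (fun p hp => hg p (hrect' a b hab hb p hp)) ?_
    · simp only [hval, disc_w_per, sub_self, zero_add] at key
      have h1 : (∫ x in a..b, ∫ y in (0 : ℝ)..(2 * Real.pi),
          (fderiv ℝ (fderiv ℝ u) (disc_w (x, y)) (disc_w (x, y)) (disc_w (x, y)) +
          fderiv ℝ (fderiv ℝ u) (disc_w (x, y)) (Complex.I * disc_w (x, y))
            (Complex.I * disc_w (x, y)))) ≤ 0 := by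
        rw [← neg_nonneg, ← intervalIntegral.integral_neg]
        refine intervalIntegral.integral_nonneg hab fun x hx => ?_
        rw [← intervalIntegral.integral_neg]
        refine intervalIntegral.integral_nonneg hpi fun y _ => ?_
        rw [neg_nonneg]
        exact hS _ (hmem (x, y) (hx.2.trans_lt hb)) _
      rw [key] at h1
      simp only [hG]
      linarith
    · simp only [hval]
      refine ContinuousOn.integrableOn_compact (isCompact_uIcc.prod isCompact_uIcc) ?_
      intro p hp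
      have hpL := hrect a b hab hb p hp
      have hB : ContinuousAt (fun p => fderiv ℝ (fderiv ℝ u) (disc_w p)) p :=
        ContinuousAt.comp (g := fderiv ℝ (fderiv ℝ u)) (f := disc_w) (hc2 _ (hmem p hpL))
          hcw.continuousAt
      have hw : ContinuousAt disc_w p := hcw.continuousAt
      have hiw : ContinuousAt (fun p => Complex.I * disc_w p) p := continuousAt_const.mul hw
      exact (((hB.clm_apply hw).clm_apply hw).add
        ((hB.clm_apply hiw).clm_apply hiw)).continuousWithinAt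
  -- second application
  have hint : ∀ a b : ℝ, a ≤ b → b < L → φ b - φ a = ∫ t in a..b, G t := by
    intro a b hab hb
    have key := MeasureTheory.integral2_divergence_prod_of_hasFDerivAt_off_countable
      (fun p => u (disc_w p)) (fun _ : ℝ × ℝ => (0 : ℝ))
      (fun p => (fderiv ℝ u (disc_w p)).comp (disc_A (disc_w p)))
      (fun _ => (0 : ℝ × ℝ →L[ℝ] ℝ))
      a 0 b (2 * Real.pi) ∅ countable_empty
      (fun p hp => (hU p (hrect a b hab hb p hp)).continuousAt.continuousWithinAt)
      continuousOn_const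
      (fun p hp => hU p (hrect' a b hab hb p hp))
      (fun p _ => hasFDerivAt_const _ _) ?_
    · simp only [hval2, intervalIntegral.integral_zero, sub_self, zero_add] at key
      simp only [hG, hφ]
      exact key.symm
    · simp only [hval2]
      refine ContinuousOn.integrableOn_compact (isCompact_uIcc.prod isCompact_uIcc) ?_
      intro p hp
      exact (hf p (hrect a b hab hb p hp)).continuousAt.continuousWithinAt
  -- `u` is bounded on the closed unit disc
  have hsub : closedBall (0 : ℂ) 1 ⊆ ball 0 R := closedBall_subset_ball hR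
  have hucont : ContinuousOn u (ball 0 R) := hu.continuousOn
  obtain ⟨K, hK⟩ := (isCompact_closedBall (0 : ℂ) 1).exists_bound_of_continuousOn
    (hucont.mono hsub)
  have hK0 : 0 ≤ K := (norm_nonneg _).trans (hK 0 (mem_closedBall_self zero_le_one))
  have hline : ∀ t : ℝ, Continuous fun y : ℝ => disc_w (t, y) := fun t =>
    hcw.comp (by fun_prop)
  have hucirc : ∀ t : ℝ, t < L → Continuous fun y : ℝ => u (disc_w (t, y)) := by
    intro t ht
    rw [continuous_iff_continuousAt]
    intro y
    exact ContinuousAt.comp (g := u) (f := fun y : ℝ => disc_w (t, y))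
      (hucont.continuousAt (isOpen_ball.mem_nhds (hmem (t, y) ht))) (hline t).continuousAt
  have hφK : ∀ t : ℝ, t ≤ 0 → |φ t| ≤ K * (2 * Real.pi) := by
    intro t ht
    have h1 := intervalIntegral.norm_integral_le_of_norm_le_const (a := (0 : ℝ))
      (b := 2 * Real.pi) (f := fun y => u (disc_w (t, y))) (C := K) (fun y _ => by
        refine hK _ ?_
        rw [mem_closedBall_zero_iff, disc_norm_w]
        exact Real.exp_le_one_iff.2 ht)
    rw [sub_zero, abs_of_nonneg hpi, Real.norm_eq_abs] at h1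
    exact h1
  have hGint : ∀ a b : ℝ, a ≤ b → b < L → IntervalIntegrable G volume a b := by
    intro a b hab hb
    refine AntitoneOn.intervalIntegrable ?_
    rw [uIcc_of_le hab]
    intro x hx y hy hxy
    exact hanti x y hxy (hy.2.trans_lt hb)
  -- `G` is nonpositive
  have hG0 : ∀ t : ℝ, t ≤ 0 → G t ≤ 0 := by
    intro t ht
    by_contra hcon
    rw [not_le] at hcon
    have htL : t < L := ht.trans_lt hL0
    set a : ℝ := t - (2 * (K * (2 * Real.pi)) + 1) / G t with ha
    have hC : 0 ≤ K * (2 * Real.pi) := by positivity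
    have hat : a ≤ t := by
      rw [ha]
      have : 0 ≤ (2 * (K * (2 * Real.pi)) + 1) / G t := by positivity
      linarith
    have h1 : G t * (t - a) ≤ ∫ x in a..t, G x := by
      have h2 : ∫ x in a..t, G t ≤ ∫ x in a..t, G x :=
        intervalIntegral.integral_mono_on hat intervalIntegrable_const (hGint a t hat htL)
          fun x hx => hanti x t hx.2 htL
      rw [intervalIntegral.integral_const, smul_eq_mul] at h2
      linarith
    rw [← hint a t hat htL] at h1
    have h3 : G t * (t - a) = 2 * (K * (2 * Real.pi)) + 1 := by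
      rw [ha]
      field_simp
      ring
    have h4 := abs_le.1 (hφK t ht)
    have h5 := abs_le.1 (hφK a (hat.trans ht))
    linarith [h4.2, h5.1]
  have hφ0 : ∀ a : ℝ, a ≤ 0 → φ 0 ≤ φ a := by
    intro a ha
    have h1 := hint a 0 ha hL0
    have h2 : ∫ t in a..(0 : ℝ), G t ≤ 0 := by
      rw [← neg_nonneg, ← intervalIntegral.integral_neg]
      exact intervalIntegral.integral_nonneg ha fun x hx => neg_nonneg.2 (hG0 x hx.2)
    linarith
  -- the limit at the centre
  have hlim : φ 0 ≤ u 0 * (2 * Real.pi) := by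
    refine le_of_forall_pos_le_add fun ε hε => ?_
    have hcont0 : ContinuousAt u 0 :=
      hucont.continuousAt (isOpen_ball.mem_nhds (mem_ball_self hR0))
    obtain ⟨δ, hδ, hδ'⟩ := Metric.continuousAt_iff.1 hcont0 (ε / (2 * Real.pi)) (by positivity)
    set a : ℝ := min 0 (Real.log (δ / 2)) with ha
    have ha0 : a ≤ 0 := min_le_left _ _
    have hexp : Real.exp a < δ := by
      calc Real.exp a ≤ Real.exp (Real.log (δ / 2)) := Real.exp_le_exp.2 (min_le_right _ _)
        _ = δ / 2 := Real.exp_log (by positivity)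
        _ < δ := by linarith
    have h1 : φ a ≤ ∫ _ in (0 : ℝ)..(2 * Real.pi), (u 0 + ε / (2 * Real.pi)) := by
      refine intervalIntegral.integral_mono_on hpi
        ((hucirc a (ha0.trans_lt hL0)).intervalIntegrable _ _) intervalIntegrable_const
        fun y _ => ?_
      have h2 : dist (disc_w (a, y)) 0 < δ := by
        rw [dist_zero_right, disc_norm_w]
        exact hexp
      have h3 := hδ' h2
      rw [Real.dist_eq] at h3
      linarith [(abs_lt.1 h3).2]
    rw [intervalIntegral.integral_const, smul_eq_mul, sub_zero] at h1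
    have h4 : 2 * Real.pi * (u 0 + ε / (2 * Real.pi)) = u 0 * (2 * Real.pi) + ε := by
      field_simp
    linarith [hφ0 a ha0]
  -- conclusion
  by_contra hne
  have h1mem : (1 : ℂ) ∈ ball (0 : ℂ) R := by
    rw [mem_ball_zero_iff]
    simpa using hR
  have hw1 : disc_w (0, 0) = 1 := by simp [disc_w]
  have hlt : u 0 < u 1 := lt_of_le_of_ne (hmin 1 h1mem) (Ne.symm hne)
  have hpos : 0 < ∫ y in (0 : ℝ)..(2 * Real.pi), (u (disc_w (0, y)) - u 0) := by
    refine intervalIntegral.integral_pos (by positivity)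
      ((hucirc 0 hL0).sub continuous_const).continuousOn
      (fun y _ => sub_nonneg.2 (hmin _ (hmem (0, y) hL0))) ⟨0, ⟨le_rfl, hpi⟩, ?_⟩
    rw [hw1]
    exact sub_pos.2 hlt
  rw [intervalIntegral.integral_sub ((hucirc 0 hL0).intervalIntegrable _ _)
    intervalIntegrable_const, intervalIntegral.integral_const, smul_eq_mul, sub_zero] at hpos
  have : φ 0 = ∫ y in (0 : ℝ)..(2 * Real.pi), u (disc_w (0, y)) := rfl
  linarith

end Pool.Agent.Helper80.TF
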