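import Pool.Agent.Helper80.TF.Main

/-!
# The statement on parallel polarisations
-/

open Manifold Set Filter Topology MeasureTheory

set_option linter.unusedSectionVars false

namespace Pool.Agent.Helper80.TF.TorusFibration

variable {r : ℕ} {V W : Type*} [NormedAddCommGroup V] [NormedSpace ℂ V] [FiniteDimensional ℂ V]
    [NormedAddCommGroup W] [NormedSpace ℂ W] {B M : Type*} [TopologicalSpace B]
    [ChartedSpace V B] [IsManifold 𝓘(ℂ, V) ⊤ B] [TopologicalSpace M] [ChartedSpace (V × W) M]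
    [IsManifold 𝓘(ℂ, V × W) ⊤ M] {f : M → B} (T : TorusFibration r V W f)

theorem posForm_polar {E : T.ι → V → (Fin r → ℝ) [⋀^Fin 2]→L[ℝ] ℝ} (hE : T.Polar E)
    (i : T.ι) {x : V} (hx : x ∈ T.D i) : PosForm ((E i x).compContinuousLinearMap
      ((T.P i x).symm : W →L[ℝ] (Fin r → ℝ))) := by
  have hJ : ∀ w : W, (T.P i x).symm (mulI W w) = T.J i x ((T.P i x).symm w) := by
    intro w
    change _ = (T.P i x).symm (mulI W (T.P i x ((T.P i x).symm w)))
    rw [ContinuousLinearEquiv.apply_symm_apply]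
  have hc : ∀ v w : W, ((E i x).compContinuousLinearMap
      ((T.P i x).symm : W →L[ℝ] (Fin r → ℝ))) ![v, w] =
      E i x ![(T.P i x).symm v, (T.P i x).symm w] := by
    intro v w
    change E i x (_ ∘ ![v, w]) = _
    congr 1
    funext m
    fin_cases m <;> rfl
  refine ⟨fun v w => ?_, fun v hv => ?_⟩
  · rw [hc, hc, hJ, hJ, hE.inv i x hx]
  · rw [hc, hJ]
    refine hE.pos i x hx _ ?_
    intro h
    exact hv ((T.P i x).symm.map_eq_zero_iff.mp h)

/-- Two affine maps which induce the same identification of the tori have the same linear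
part. -/
theorem linear_part_unique {i j : T.ι} (F : T.FTrans i j) {x : V} (hx : x ∈ F.O)
    (N : (Fin r → ℝ) →L[ℝ] (Fin r → ℝ)) (c : Fin r → ℝ)
    (h : ∀ t, T.q i (x, T.P i x t) = T.q j (F.a x, T.P j (F.a x) (N t + c)))
    (s : Fin r → ℝ) : N s = F.N s := by
  have ha := F.a_mem hx
  -- the difference takes integer values
  have h1 : ∀ t, ∃ n : Fin r → ℤ, N t + c = F.N t + F.σ x + intVec n := by
    intro t
    have h2 : T.q j (F.a x, T.P j (F.a x) (F.N t + F.σ x)) =
        T.q j (F.a x, T.P j (F.a x) (N t + c)) := (F.q_eq x hx t).symm.trans (h t)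
    obtain ⟨n, hn⟩ := (T.q_ker j (F.a x) ha _ _).1 h2
    refine ⟨n, ?_⟩
    have h3 : T.P j (F.a x) (N t + c) = T.P j (F.a x) (F.N t + F.σ x + intVec n) := by
      rw [hn, map_add (T.P j (F.a x)) (F.N t + F.σ x)]
      rfl
    exact (T.P j (F.a x)).injective h3
  set G : (Fin r → ℝ) →L[ℝ] (Fin r → ℝ) := N - (F.N : (Fin r → ℝ) →L[ℝ] (Fin r → ℝ)) with hG
  have h2 : ∀ t, ∃ n : Fin r → ℤ, G t = intVec n := by
    intro t
    obtain ⟨n, hn⟩ := h1 t
    obtain ⟨m, hm⟩ := h1 0
    refine ⟨n - m, ?_⟩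
    have h3 : c = F.σ x + intVec m := by simpa using hm
    have h4 : intVec (n - m) = intVec n - intVec m := by
      funext l
      simp [intVec]
    have h5 : G t = N t - F.N t := rfl
    rw [h4, h5]
    have h6 : N t = F.N t + F.σ x + intVec n - c := by rw [← hn]; abel
    rw [h6, h3]
    abel
  have h3 : ∀ l, G s l = 0 := by
    intro l
    by_contra hne
    obtain ⟨n, hn⟩ := h2 ((1 / (2 * G s l)) • s)
    have h4 := congrFun hn l
    rw [map_smul, Pi.smul_apply, smul_eq_mul, intVec] at h4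
    have h5 : (1 : ℝ) / (2 * G s l) * G s l = 1 / 2 := by
      field_simp
    rw [h5] at h4
    have h6 : (2 * (n l : ℝ)) = 1 := by linarith
    have h7 : (2 * n l : ℤ) = 1 := by exact_mod_cast h6
    omega
  have h4 : G s = 0 := funext h3
  have h5 : N s - F.N s = 0 := h4
  exact sub_eq_zero.mp h5

theorem polar_trans {E : T.ι → V → (Fin r → ℝ) [⋀^Fin 2]→L[ℝ] ℝ} (hE : T.Polar E)
    (i j : T.ι) {x : V} (hx : x ∈ T.D i) (hs : (T.base i).symm x ∈ (T.base j).source)
    (N : (Fin r → ℝ) →L[ℝ] (Fin r → ℝ)) (c : Fin r → ℝ) (h : ∀ t, T.q i (x, T.P i x t) =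
      T.q j (T.base j ((T.base i).symm x), T.P j (T.base j ((T.base i).symm x)) (N t + c))) :
    E i x = (E j (T.base j ((T.base i).symm x))).compContinuousLinearMap N := by
  obtain ⟨F, hF⟩ := T.exists_ftrans i j hx hs
  have ha := F.a_eq x hF
  rw [← ha] at h ⊢
  have hN := T.linear_part_unique F hF N c h
  ext v
  have e1 : v = ![v 0, v 1] := by
    funext m
    fin_cases m <;> rfl
  rw [e1, hE.trans i j F x hF]
  change _ = E j (F.a x) (N ∘ ![v 0, v 1])
  congr 1
  funext m
  fin_cases m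
  · exact (hN _).symm
  · exact (hN _).symm

end Pool.Agent.Helper80.TF.TorusFibration
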