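import Pool.Agent.Helper80.TF.TransA
import Pool.Agent.Helper80.TF.Lift

/-!
# Forms in flat coordinates: smoothness and exterior derivatives
-/

open Manifold Set Filter Topology MeasureTheory

namespace Pool.Agent.Helper80.TF.TorusFibration

private noncomputable def flatB_alt (E : Type*) [NormedAddCommGroup E] [NormedSpace ℝ E] (k : ℕ) :
    ContinuousMultilinearMap ℝ (fun _ : Fin k => E) ℝ →L[ℝ] E [⋀^Fin k]→L[ℝ] ℝ :=
  LinearMap.mkContinuous
    { toFun := fun g => ContinuousMultilinearMap.alternatization g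
      map_add' := fun g h => map_add _ g h
      map_smul' := fun c g => by
        ext v
        simp only [ContinuousMultilinearMap.alternatization_apply_apply, RingHom.id_apply,
          ContinuousAlternatingMap.smul_apply, smul_apply,
          Finset.smul_sum]
        refine Finset.sum_congr rfl fun σ _ => ?_
        rw [smul_comm] }
    (Nat.factorial k) (by
      intro g
      refine ContinuousAlternatingMap.opNorm_le_bound _ (by positivity) fun v => ?_
      rw [LinearMap.coe_mk, AddHom.coe_mk, ContinuousMultilinearMap.alternatization_apply_apply]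
      refine (norm_sum_le _ _).trans ?_
      have h : ∀ σ ∈ (Finset.univ : Finset (Equiv.Perm (Fin k))),
          ‖Equiv.Perm.sign σ • g (v ∘ σ)‖ ≤ ‖g‖ * ∏ i, ‖v i‖ := by
        intro σ _
        have h1 : ‖Equiv.Perm.sign σ • g (v ∘ σ)‖ = ‖g (v ∘ σ)‖ := by
          rcases Int.units_eq_one_or (Equiv.Perm.sign σ) with h | h
          · rw [h, one_smul]
          · rw [h, Units.neg_smul, one_smul, norm_neg]
        rw [h1]
        refine (g.le_opNorm _).trans (le_of_eq ?_)
        congr 1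
        exact Equiv.prod_comp σ fun i => ‖v i‖
      refine (Finset.sum_le_sum h).trans (le_of_eq ?_)
      rw [Finset.sum_const, Finset.card_univ, Fintype.card_perm, Fintype.card_fin, nsmul_eq_mul,
        mul_assoc])

private theorem flatB_alt_coe {E : Type*} [NormedAddCommGroup E] [NormedSpace ℝ E] {k : ℕ}
    (g : E [⋀^Fin k]→L[ℝ] ℝ) :
    ((Nat.factorial k : ℝ)⁻¹) • flatB_alt E k g.toContinuousMultilinearMap = g := by
  ext v
  have h1 : flatB_alt E k g.toContinuousMultilinearMap v = (Nat.factorial k : ℝ) * g v := by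
    change ContinuousMultilinearMap.alternatization g.toContinuousMultilinearMap v = _
    rw [ContinuousMultilinearMap.alternatization_apply_apply]
    have h : ∀ σ ∈ (Finset.univ : Finset (Equiv.Perm (Fin k))),
        Equiv.Perm.sign σ • g.toContinuousMultilinearMap (v ∘ σ) = g v := by
      intro σ _
      have h2 : g.toContinuousMultilinearMap (v ∘ σ) = Equiv.Perm.sign σ • g v :=
        g.toAlternatingMap.map_perm v σ
      rw [h2, smul_smul, Int.units_mul_self, one_smul]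
    rw [Finset.sum_congr rfl h, Finset.sum_const, Finset.card_univ, Fintype.card_perm,
      Fintype.card_fin, nsmul_eq_mul]
  rw [ContinuousAlternatingMap.smul_apply, h1, smul_eq_mul, ← mul_assoc,
    inv_mul_cancel₀ (by positivity), one_mul]

/-- Pullbacks of smooth forms under smooth families of linear maps are smooth. -/
theorem FlatB_contDiffAt_comp {X E E' : Type*} [NormedAddCommGroup X] [NormedSpace ℝ X]
    [NormedAddCommGroup E] [NormedSpace ℝ E] [NormedAddCommGroup E'] [NormedSpace ℝ E'] {k : ℕ}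
    {n : WithTop ℕ∞} {ω : X → E [⋀^Fin k]→L[ℝ] ℝ} {A : X → E' →L[ℝ] E} {p : X}
    (hω : ContDiffAt ℝ n ω p) (hA : ContDiffAt ℝ n A p) :
    ContDiffAt ℝ n (fun x => (ω x).compContinuousLinearMap (A x)) p := by
  have h1 : (fun x => (ω x).compContinuousLinearMap (A x)) = fun x =>
      ((Nat.factorial k : ℝ)⁻¹) • flatB_alt E' k
        (ContinuousMultilinearMap.compContinuousLinearMapContinuousMultilinear ℝ
          (fun _ : Fin k => E') (fun _ => E) ℝ (fun _ => A x)
          (ContinuousAlternatingMap.toContinuousMultilinearMapCLM ℝ (ω x))) := by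
    funext x
    conv_lhs => rw [← flatB_alt_coe ((ω x).compContinuousLinearMap (A x))]
    rfl
  rw [h1]
  refine ContDiffAt.const_smul _ ?_
  refine (flatB_alt E' k).contDiff.contDiffAt.comp p ?_
  refine ContDiffAt.clm_apply ?_ ?_
  · refine (ContinuousMultilinearMap.contDiff _).contDiffAt.comp p ?_
    exact contDiffAt_pi.2 fun _ => hA
  · exact (ContinuousAlternatingMap.toContinuousMultilinearMapCLM ℝ).contDiff.contDiffAt.comp p hω

private theorem flatB_min : minSmoothness ℝ 2 ≤ ((⊤ : ℕ∞) : WithTop ℕ∞) := by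
  rw [minSmoothness_of_isRCLikeNormedField]
  exact WithTop.coe_le_coe.2 (le_top : (2 : ℕ∞) ≤ ⊤)

/-- The exterior derivative of a smooth form is smooth. -/
private theorem flatB_extDeriv {E : Type*} [NormedAddCommGroup E] [NormedSpace ℝ E] {k : ℕ}
    {ω : E → E [⋀^Fin k]→L[ℝ] ℝ} {p : E} (h : ContDiffAt ℝ (⊤ : ℕ∞) ω p) :
    ContDiffAt ℝ (⊤ : ℕ∞) (extDeriv ω) p := by
  have h1 : ContDiffAt ℝ (⊤ : ℕ∞) (fderiv ℝ ω) p := h.fderiv_right (by simp)
  exact (ContinuousAlternatingMap.alternatizeUncurryFinCLM ℝ E ℝ).contDiff.contDiffAt.comp p h1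

variable {r : ℕ} {V W : Type*} [NormedAddCommGroup V] [NormedSpace ℂ V] [FiniteDimensional ℂ V]
    [NormedAddCommGroup W] [NormedSpace ℂ W] {B M : Type*} [TopologicalSpace B]
    [ChartedSpace V B] [TopologicalSpace M] [ChartedSpace (V × W) M]
    [IsManifold 𝓘(ℂ, V × W) ⊤ M] {f : M → B} (T : TorusFibration r V W f)

private theorem flatB_chart {k : ℕ} (i : T.ι) (g : M → (V × W) [⋀^Fin k]→L[ℝ] ℝ) {p : V × W}
    (hp : p.1 ∈ T.D i) : ∃ e ∈ holCharts (V × W) M, p ∈ e.target ∧
      pull (T.q i) g =ᶠ[𝓝 p] pull e.symm g := by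
  obtain ⟨e, he, hpe, hq⟩ := exists_chart (T.q_hol i ⟨p, ⟨hp, mem_univ _⟩⟩)
  exact ⟨e, he, hpe, pull_congr hq g⟩

private theorem flatB_q {k : ℕ} (i : T.ι) {g : M → (V × W) [⋀^Fin k]→L[ℝ] ℝ}
    (hg : SmoothForm g) {p : V × W} (hp : p.1 ∈ T.D i) :
    ContDiffAt ℝ (⊤ : ℕ∞) (pull (T.q i) g) p := by
  obtain ⟨e, he, hpe, h⟩ := flatB_chart T i g hp
  exact ((hg e he).contDiffAt (e.open_target.mem_nhds hpe)).congr_of_eventuallyEq h

/-- Proof sketch: near a point of `D × W` the map `q i` is the inverse of a chart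
(`exists_chart`, `pull_congr`). -/
theorem contDiffOn_pull_q {k : ℕ} (i : T.ι) {g : M → (V × W) [⋀^Fin k]→L[ℝ] ℝ}
    (hg : SmoothForm g) : ContDiffOn ℝ (⊤ : ℕ∞) (pull (T.q i) g) (T.D i ×ˢ univ) := by
  intro p hp
  exact (flatB_q T i hg hp.1).contDiffWithinAt

private theorem flatB_Psi (i : T.ι) {p : V × (Fin r → ℝ)} (hp : p.1 ∈ T.D i) :
    ContDiffAt ℝ (⊤ : ℕ∞) (T.Psi i) p :=
  (T.contDiffOn_Psi i).contDiffAt
    (((T.isOpen_D i).prod isOpen_univ).mem_nhds ⟨hp, mem_univ _⟩)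

theorem contDiffOn_flat {k : ℕ} (i : T.ι) {g : M → (V × W) [⋀^Fin k]→L[ℝ] ℝ}
    (hg : SmoothForm g) : ContDiffOn ℝ (⊤ : ℕ∞) (T.flat i g) (T.D i ×ˢ univ) := by
  intro p hp
  have h1 := flatB_Psi T i hp.1
  have h2 : ContDiffAt ℝ (⊤ : ℕ∞) (fun p => pull (T.q i) g (T.Psi i p)) p :=
    (flatB_q T i hg (p := T.Psi i p) hp.1).comp p h1
  have h3 : ContDiffAt ℝ (⊤ : ℕ∞) (fderiv ℝ (T.Psi i)) p := h1.fderiv_right (by simp)
  exact (FlatB_contDiffAt_comp h2 h3).contDiffWithinAt

/-- Near the points of `D × ℝ ^ r`, the exterior derivative of the form in flat coordinates. -/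
private theorem flatB_ext {k : ℕ} (i : T.ι) {g : M → (V × W) [⋀^Fin k]→L[ℝ] ℝ}
    (hg : SmoothForm g) {p : V × (Fin r → ℝ)} (hp : p.1 ∈ T.D i) :
    extDeriv (T.flat i g) p = (extDeriv (pull (T.q i) g) (T.Psi i p)).compContinuousLinearMap
      (fderiv ℝ (T.Psi i) p) :=
  extDeriv_pullback ((flatB_q T i hg (p := T.Psi i p) hp).differentiableAt (by simp))
    (flatB_Psi T i hp) flatB_min

/-- Use `extDeriv_pullback` for `Psi i`, `exists_chart` and `Filter.EventuallyEq.extDeriv_eq`. -/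
theorem extDeriv_flat {k : ℕ} (i : T.ι) {g : M → (V × W) [⋀^Fin k]→L[ℝ] ℝ}
    (hg : SmoothForm g) (hc : ∀ e ∈ holCharts (V × W) M, ∀ p ∈ e.target,
      extDeriv (pull e.symm g) p = 0) {x : V} (hx : x ∈ T.D i) (t : Fin r → ℝ) :
    extDeriv (T.flat i g) (x, t) = 0 := by
  rw [flatB_ext T i hg (p := (x, t)) hx]
  obtain ⟨e, he, hpe, h⟩ := flatB_chart T i g (p := T.Psi i (x, t)) hx
  rw [h.extDeriv_eq, hc e he _ hpe]
  ext v
  rfl

/-- Use `extDeriv_pullback` twice, and `fderiv_Psi_Jt`: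
`(extDeriv (flat g) p) ∘ Jt = (Psi ^* (J ^* d g)) p` on the open set `D × ℝ ^ r`. -/
theorem ddc_flat (i : T.ι) {g : M → (V × W) [⋀^Fin 2]→L[ℝ] ℝ} (hg : SmoothForm g)
    (hp : Pluriclosed g) {x : V} (hx : x ∈ T.D i) (t : Fin r → ℝ) :
    extDeriv (fun p : V × (Fin r → ℝ) =>
      (extDeriv (T.flat i g) p).compContinuousLinearMap (T.Jt i p.1)) (x, t) = 0 := by
  set β : V × W → (V × W) [⋀^Fin 3]→L[ℝ] ℝ := fun p =>
    (extDeriv (pull (T.q i) g) p).compContinuousLinearMap (mulI (V × W)) with hβ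
  have h1 : (fun p : V × (Fin r → ℝ) =>
      (extDeriv (T.flat i g) p).compContinuousLinearMap (T.Jt i p.1)) =ᶠ[𝓝 (x, t)]
      fun p => (β (T.Psi i p)).compContinuousLinearMap (fderiv ℝ (T.Psi i) p) := by
    filter_upwards [((T.isOpen_D i).prod isOpen_univ).mem_nhds
      (show (x, t) ∈ T.D i ×ˢ (univ : Set (Fin r → ℝ)) from ⟨hx, mem_univ _⟩)] with p hp'
    rw [flatB_ext T i hg hp'.1]
    ext v
    simp only [hβ, ContinuousAlternatingMap.compContinuousLinearMap_apply]
    congr 1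
    funext j
    exact T.fderiv_Psi_Jt i hp'.1 p.2 (v j)
  have h2 : ContDiffAt ℝ (⊤ : ℕ∞) β (T.Psi i (x, t)) :=
    FlatB_contDiffAt_comp (flatB_extDeriv (flatB_q T i hg (p := T.Psi i (x, t)) hx))
      contDiffAt_const
  rw [h1.extDeriv_eq, extDeriv_pullback (h2.differentiableAt (by simp))
    (flatB_Psi T i (p := (x, t)) hx) flatB_min]
  obtain ⟨e, he, hpe, h⟩ := flatB_chart T i g (p := T.Psi i (x, t)) hx
  have h3 : β =ᶠ[𝓝 (T.Psi i (x, t))] fun p =>
      (extDeriv (pull e.symm g) p).compContinuousLinearMap (mulI (V × W)) := by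
    filter_upwards [h.extDeriv] with p hp'
    rw [hβ]
    simp only
    rw [hp']
  have h4 : extDeriv β (T.Psi i (x, t)) = 0 := by
    rw [h3.extDeriv_eq]
    exact hp e he _ hpe
  rw [h4]
  ext v
  rfl

end Pool.Agent.Helper80.TF.TorusFibration
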