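import Pool.Agent.Helper80.TF.TransB0

/-!
# Existence of changes of flat coordinates
-/

open Manifold Set Filter Topology MeasureTheory

namespace Pool.Agent.Helper80.TF.TorusFibration

variable {r : ℕ} {V W : Type*} [NormedAddCommGroup V] [NormedSpace ℂ V] [FiniteDimensional ℂ V]
    [NormedAddCommGroup W] [NormedSpace ℂ W] {B M : Type*} [TopologicalSpace B]
    [ChartedSpace V B] [IsManifold 𝓘(ℂ, V) ⊤ B] [TopologicalSpace M] [ChartedSpace (V × W) M]
    {f : M → B} (T : TorusFibration r V W f)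

/-- A linear map `N` such that `N t` is an integer vector if and only if `t` is one is an
automorphism. -/
private theorem TransB_equiv (N : (Fin r → ℝ) →L[ℝ] (Fin r → ℝ))
    (h1 : ∀ n : Fin r → ℤ, ∃ m, N (intVec n) = intVec m)
    (h2 : ∀ t, (∃ m : Fin r → ℤ, N t = intVec m) → ∃ n, t = intVec n) :
    ∃ N' : (Fin r → ℝ) ≃L[ℝ] (Fin r → ℝ), (∀ t, N' t = N t) ∧ Integral N' := by
  have hinj : Function.Injective N := by
    rw [injective_iff_map_eq_zero]
    intro t ht
    by_contra hne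
    obtain ⟨l, hl⟩ : ∃ l, t l ≠ 0 := by
      by_contra hall
      push Not at hall
      exact hne (funext hall)
    have h3 : N ((1 / (2 * t l)) • t) = intVec 0 := by
      rw [map_smul, ht, smul_zero]
      funext k
      simp [intVec]
    obtain ⟨n, hn⟩ := h2 _ ⟨0, h3⟩
    have h4 := congrFun hn l
    have h5 : (1 / (2 * t l)) * t l = 1 / 2 := by
      field_simp
    have h6 : ((n l : ℤ) : ℝ) = 1 / 2 := by
      rw [← h5]
      exact h4.symm
    have h7 : ((2 * n l : ℤ) : ℝ) = ((1 : ℤ) : ℝ) := by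
      push_cast
      rw [h6]
      norm_num
    have h8 : 2 * n l = 1 := by exact_mod_cast h7
    omega
  let e : (Fin r → ℝ) ≃L[ℝ] (Fin r → ℝ) :=
    (LinearEquiv.ofInjectiveEndo (N : (Fin r → ℝ) →ₗ[ℝ] (Fin r → ℝ)) hinj).toContinuousLinearEquiv
  have he : ∀ t, e t = N t := fun t => rfl
  refine ⟨e, he, fun n => ?_, fun n => ?_⟩
  · rw [he]
    exact h1 n
  · have h3 : N (e.symm (intVec n)) = intVec n := by
      rw [← he, e.apply_symm_apply]
    exact h2 _ ⟨n, h3⟩

/-- Two close integer matrices are equal. -/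
private theorem TransB_close {N N' : (Fin r → ℝ) →L[ℝ] (Fin r → ℝ)} (hN : ‖N - N'‖ < 1)
    (h1 : ∀ n : Fin r → ℤ, ∃ m, N (intVec n) = intVec m)
    (h2 : ∀ n : Fin r → ℤ, ∃ m, N' (intVec n) = intVec m) : N = N' := by
  refine ContinuousLinearMap.coe_injective ?_
  refine LinearMap.pi_ext' fun k => LinearMap.ext_ring ?_
  change N (Pi.single k (1 : ℝ)) = N' (Pi.single k (1 : ℝ))
  have h3 : (Pi.single k (1 : ℝ) : Fin r → ℝ) = intVec (Pi.single k 1) := by
    funext l
    unfold intVec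
    by_cases hl : l = k
    · subst hl
      simp
    · simp [hl]
  obtain ⟨m, hm⟩ := h1 (Pi.single k 1)
  obtain ⟨m', hm'⟩ := h2 (Pi.single k 1)
  rw [h3, hm, hm']
  have h4 : ‖(N - N') (Pi.single k (1 : ℝ))‖ < 1 := by
    calc ‖(N - N') (Pi.single k (1 : ℝ))‖ ≤ ‖N - N'‖ * ‖(Pi.single k (1 : ℝ) : Fin r → ℝ)‖ :=
          (N - N').le_opNorm _
      _ = ‖N - N'‖ := by
          rw [Pi.norm_single, norm_one, mul_one]
      _ < 1 := hN
  have h5 : (N - N') (Pi.single k (1 : ℝ)) = intVec m - intVec m' := by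
    rw [ContinuousLinearMap.sub_apply, h3, hm, hm']
  rw [h5] at h4
  funext l
  have h6 : |((m l : ℤ) : ℝ) - ((m' l : ℤ) : ℝ)| < 1 := by
    have h7 := norm_le_pi_norm (intVec m - intVec m') l
    rw [Real.norm_eq_abs] at h7
    exact lt_of_le_of_lt h7 h4
  have h7 : |m l - m' l| < 1 := by exact_mod_cast h6
  have h8 : m l = m' l := by
    have := Int.abs_lt_one_iff.1 h7
    omega
  simp only [intVec, h8]

/-- Proof sketch: let `O, A, τ` be as in `q_trans`, and put
`N x = (P j (a x))⁻¹ ∘ A x ∘ P i x`.  By `q_ker` both `N x` and its inverse map integer vectors to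
integer vectors (in particular `N x` is injective, hence an isomorphism of `ℝ ^ r`); `N x n`
is a continuous function of `x` with integer values, so it is constant on a ball around `x₀`.
Put `σ x = (P j (a x))⁻¹ (τ x)`.  Smoothness of `a`: the charts of `B` are in the maximal
atlas. -/
theorem exists_ftrans (i j : T.ι) {x₀ : V} (hx : x₀ ∈ T.D i)
    (hs : (T.base i).symm x₀ ∈ (T.base j).source) : ∃ F : T.FTrans i j, x₀ ∈ F.O := by
  obtain ⟨O, hO, hx₀, hOi, hOj, A, τ, hA, hτ, hq⟩ := T.q_trans i j x₀ hx hs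
  set a : V → V := fun x => T.base j ((T.base i).symm x) with ha
  have haD : ∀ x ∈ O, a x ∈ T.D j := fun x hx => (T.base j).map_source (hOj x hx)
  -- smoothness of `a`
  have hasm : ContDiffOn ℝ (⊤ : ℕ∞) a O := by
    have h1 : (T.base i).symm ≫ₕ (T.base j) ∈ contDiffGroupoid ⊤ 𝓘(ℂ, V) :=
      StructureGroupoid.compatible_of_mem_maximalAtlas (T.base_mem i) (T.base_mem j)
    rw [contDiffGroupoid, mem_groupoid_of_pregroupoid] at h1
    have h2 : ContDiffOn ℂ ⊤ ((T.base i).symm ≫ₕ (T.base j))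
        ((T.base i).symm ≫ₕ (T.base j)).source := by
      have h3 := h1.1
      simp only [contDiffPregroupoid, modelWithCornersSelf_coe, modelWithCornersSelf_coe_symm,
        Function.id_comp, Function.comp_id, range_id, preimage_id, inter_univ] at h3
      exact h3
    have h3 : O ⊆ ((T.base i).symm ≫ₕ (T.base j)).source := by
      intro x hx
      rw [OpenPartialHomeomorph.trans_source]
      exact ⟨hOi hx, hOj x hx⟩
    exact ((h2.mono h3).restrict_scalars ℝ).of_le le_top
  -- the linear part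
  set N : V → (Fin r → ℝ) →L[ℝ] (Fin r → ℝ) := fun x =>
    ((T.P j (a x)).symm : W →L[ℝ] (Fin r → ℝ)) ∘L ((A x).restrictScalars ℝ) ∘L
      ((T.P i x : (Fin r → ℝ) ≃L[ℝ] W) : (Fin r → ℝ) →L[ℝ] W) with hN
  have hPN : ∀ x t, T.P j (a x) (N x t) = A x (T.P i x t) := by
    intro x t
    simp only [hN, ContinuousLinearMap.comp_apply, ContinuousLinearEquiv.coe_coe,
      ContinuousLinearMap.coe_restrictScalars', ContinuousLinearEquiv.apply_symm_apply]
  have hNc : ContDiffOn ℝ (⊤ : ℕ∞) N O := by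
    have h1 : ContDiffOn ℝ (⊤ : ℕ∞) (fun x => ((T.P j (a x)).symm : W →L[ℝ] (Fin r → ℝ))) O :=
      (T.contDiffOn_P_symm j).comp hasm haD
    have h2 : ContDiffOn ℝ (⊤ : ℕ∞) (fun x => (A x).restrictScalars ℝ) O :=
      (ContinuousLinearMap.restrictScalarsL ℂ W W ℝ ℝ).contDiff.comp_contDiffOn
        ((hA.restrict_scalars ℝ).of_le le_top)
    exact h1.clm_comp (h2.clm_comp ((T.contDiffOn_P i).mono hOi))
  have hN1 : ∀ x ∈ O, ∀ n : Fin r → ℤ, ∃ m, N x (intVec n) = intVec m := by
    intro x hx n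
    have h1 : T.q i (x, 0) = T.q i (x, T.P i x (intVec n)) :=
      (T.q_ker i x (hOi hx) _ _).2 ⟨n, by rw [zero_add]; rfl⟩
    rw [hq x hx, hq x hx, map_zero, zero_add] at h1
    obtain ⟨m, hm⟩ := (T.q_ker j _ (haD x hx) _ _).1 h1
    refine ⟨m, (T.P j (a x)).injective ?_⟩
    rw [hPN]
    have h2 : A x (T.P i x (intVec n)) + τ x = τ x + T.P j (a x) (intVec m) := hm
    rw [add_comm] at h2
    exact add_left_cancel h2
  have hN2 : ∀ x ∈ O, ∀ t, (∃ m : Fin r → ℤ, N x t = intVec m) → ∃ n, t = intVec n := by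
    rintro x hx t ⟨m, hm⟩
    have h1 : T.q i (x, 0) = T.q i (x, T.P i x t) := by
      rw [hq x hx, hq x hx, map_zero, zero_add]
      refine (T.q_ker j _ (haD x hx) _ _).2 ⟨m, ?_⟩
      rw [← hPN, hm, add_comm]
      rfl
    obtain ⟨n, hn⟩ := (T.q_ker i x (hOi hx) _ _).1 h1
    rw [zero_add] at hn
    exact ⟨n, (T.P i x).injective hn⟩
  obtain ⟨N₀, hN₀, hint⟩ := TransB_equiv (N x₀) (hN1 x₀ hx₀) (hN2 x₀ hx₀)
  -- the domain
  have hopen : IsOpen (O ∩ N ⁻¹' Metric.ball (N x₀) 1) :=
    hNc.continuousOn.isOpen_inter_preimage hO Metric.isOpen_ball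
  have hconst : ∀ x ∈ O ∩ N ⁻¹' Metric.ball (N x₀) 1, N x = N x₀ := by
    rintro x ⟨hx, hx'⟩
    refine TransB_close ?_ (hN1 x hx) (hN1 x₀ hx₀)
    rw [← dist_eq_norm]
    exact hx'
  refine ⟨{ O := O ∩ N ⁻¹' Metric.ball (N x₀) 1
            isOpen := hopen
            sub := fun x hx => hOi hx.1
            src := fun x hx => hOj x hx.1
            a := a
            a_eq := fun x _ => rfl
            a_smooth := hasm.mono inter_subset_left
            N := N₀
            int := hint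
            σ := fun x => (T.P j (a x)).symm (τ x)
            σ_smooth := ?_
            q_eq := ?_ }, hx₀, Metric.mem_ball_self one_pos⟩
  · have h1 : ContDiffOn ℝ (⊤ : ℕ∞) (fun x => ((T.P j (a x)).symm : W →L[ℝ] (Fin r → ℝ))) O :=
      (T.contDiffOn_P_symm j).comp hasm haD
    have h2 : ContDiffOn ℝ (⊤ : ℕ∞) τ O := (hτ.restrict_scalars ℝ).of_le le_top
    exact (h1.clm_apply h2).mono inter_subset_left
  · intro x hx t
    change T.q i (x, T.P i x t) = T.q j (a x, T.P j (a x) (N₀ t + (T.P j (a x)).symm (τ x)))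
    rw [hq x hx.1, map_add, ContinuousLinearEquiv.apply_symm_apply, hN₀, ← hconst x hx, hPN]

/-- Proof sketch: apply `f` and `q_fib` to see that `(base i).symm x = (base j).symm x'`; take
`exists_ftrans` and correct `σ` by the integer vector given by `q_ker`. -/
theorem exists_ftrans' (i j : T.ι) {p p' : V × (Fin r → ℝ)} (hp : p.1 ∈ T.D i)
    (hp' : p'.1 ∈ T.D j) (h : T.q i (T.Psi i p) = T.q j (T.Psi j p')) :
    ∃ F : T.FTrans i j, p.1 ∈ F.O ∧ F.map p = p' := by
  have h1 : (T.base i).symm p.1 = (T.base j).symm p'.1 := by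
    have h2 := congrArg f h
    rw [Psi, Psi, T.q_fib i _ hp, T.q_fib j _ hp'] at h2
    exact h2
  have h2 : (T.base i).symm p.1 ∈ (T.base j).source := by
    rw [h1]
    exact (T.base j).map_target hp'
  obtain ⟨F, hF⟩ := T.exists_ftrans i j hp h2
  have h3 : F.a p.1 = p'.1 := by
    rw [F.a_eq _ hF, h1]
    exact (T.base j).right_inv hp'
  have h4 : T.q j (p'.1, T.P j p'.1 (F.N p.2 + F.σ p.1)) = T.q j (p'.1, T.P j p'.1 p'.2) := by
    have h5 := F.q_eq p.1 hF p.2
    have h6 : T.q j (T.Psi j p') = T.q j (T.Psi j (F.a p.1, F.N p.2 + F.σ p.1)) := by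
      rw [← h, ← h5]
    rw [Psi, Psi, h3] at h6
    exact h6.symm
  obtain ⟨n, hn⟩ := (T.q_ker j _ hp' _ _).1 h4
  have h5 : p'.2 = F.N p.2 + F.σ p.1 + intVec n := by
    apply (T.P j p'.1).injective
    rw [hn, map_add (T.P j p'.1) (F.N p.2 + F.σ p.1)]
    rfl
  refine ⟨{ O := F.O
            isOpen := F.isOpen
            sub := F.sub
            src := F.src
            a := F.a
            a_eq := F.a_eq
            a_smooth := F.a_smooth
            N := F.N
            int := F.int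
            σ := fun x => F.σ x + intVec n
            σ_smooth := F.σ_smooth.add contDiffOn_const
            q_eq := ?_ }, hF, ?_⟩
  · intro x hx t
    rw [F.q_eq x hx t]
    refine (T.q_ker j _ (F.a_mem hx) _ _).2 ⟨n, ?_⟩
    change T.P j (F.a x) (F.N t + (F.σ x + intVec n)) = T.P j (F.a x) (F.N t + F.σ x) +
      T.P j (F.a x) (intVec n)
    rw [← map_add, add_assoc]
  · change (F.a p.1, F.N p.2 + (F.σ p.1 + intVec n)) = p'
    rw [h3, ← add_assoc, ← h5]

end Pool.Agent.Helper80.TF.TorusFibration
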