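import Pool.Agent.Helper80.TF.BaseA
import Pool.Agent.Helper80.TF.TransB

/-!
# Hermitian metrics on the base from compatible forms in the charts
-/

open Manifold Set Filter Topology MeasureTheory

set_option linter.unusedSectionVars false

namespace Pool.Agent.Helper80.TF.TorusFibration

/-- The inverse of a holomorphic chart is a local biholomorphism. -/
private theorem GlueB_loc {V : Type*} [NormedAddCommGroup V] [NormedSpace ℂ V] {B : Type*}
    [TopologicalSpace B] [ChartedSpace V B] [IsManifold 𝓘(ℂ, V) ⊤ B]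
    {e : OpenPartialHomeomorph B V} (he : e ∈ holCharts V B) {x : V} (hx : x ∈ e.target) :
    IsLocalDiffeomorphAt 𝓘(ℂ, V) 𝓘(ℂ, V) ⊤ e.symm x :=
  ⟨{ toPartialEquiv := e.symm.toPartialEquiv
     open_source := e.symm.open_source
     open_target := e.symm.open_target
     contMDiffOn_toFun := contMDiffOn_symm_of_mem_maximalAtlas he
     contMDiffOn_invFun := contMDiffOn_of_mem_maximalAtlas he }, hx, fun _ _ => rfl⟩

/-- Positivity is invariant under complex linear isomorphisms. -/
private theorem GlueB_posForm {E : Type*} [NormedAddCommGroup E] [NormedSpace ℂ E]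
    {a : E [⋀^Fin 2]→L[ℝ] ℝ} {L : E →L[ℂ] E} (A : E ≃L[ℂ] E) (hL : ∀ v, L v = A v)
    (h : PosForm (a.compContinuousLinearMap (L.restrictScalars ℝ))) : PosForm a := by
  have h1 : ∀ v w : E, a.compContinuousLinearMap (L.restrictScalars ℝ) ![A.symm v, A.symm w] =
      a ![v, w] := by
    intro v w
    rw [ContinuousAlternatingMap.compContinuousLinearMap_apply]
    congr 1
    funext j
    fin_cases j
    · exact (hL _).trans (A.apply_symm_apply v)
    · exact (hL _).trans (A.apply_symm_apply w)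
  have h2 : ∀ v : E, mulI E (A.symm v) = A.symm (mulI E v) := by
    intro v
    change Complex.I • A.symm v = A.symm (Complex.I • v)
    rw [map_smul]
  refine ⟨fun v w => ?_, fun v hv => ?_⟩
  · have h3 := h.1 (A.symm v) (A.symm w)
    rwa [h2, h2, h1, h1] at h3
  · have h3 := h.2 (A.symm v) (by simpa using hv)
    rwa [h2, h1] at h3

/-- The change from the chart `e` to the chart `c`. -/
private theorem GlueB_trans {V : Type*} [NormedAddCommGroup V] [NormedSpace ℂ V] {B : Type*}
    [TopologicalSpace B] [ChartedSpace V B] [IsManifold 𝓘(ℂ, V) ⊤ B]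
    {e c : OpenPartialHomeomorph B V} (he : e ∈ holCharts V B) (hc : c ∈ holCharts V B)
    (κ : B → V [⋀^Fin 2]→L[ℝ] ℝ) :
    IsOpen (e.target ∩ e.symm ⁻¹' c.source) ∧
      ContDiffOn ℝ (⊤ : ℕ∞) (fun y => c (e.symm y)) (e.target ∩ e.symm ⁻¹' c.source) ∧
      ∀ y ∈ e.target ∩ e.symm ⁻¹' c.source, pull e.symm κ y =
        (pull c.symm κ (c (e.symm y))).compContinuousLinearMap
          (fderiv ℝ (fun y => c (e.symm y)) y) := by
  have hO : IsOpen (e.target ∩ e.symm ⁻¹' c.source) :=
    e.continuousOn_symm.isOpen_inter_preimage e.open_target c.open_source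
  refine ⟨hO, ?_, ?_⟩
  · have h1 : e.symm.trans c ∈ contDiffGroupoid ⊤ 𝓘(ℂ, V) :=
      IsManifold.compatible_of_mem_maximalAtlas he hc
    have h2 := contMDiffOn_of_mem_contDiffGroupoid h1
    rw [contMDiffOn_iff_contDiffOn] at h2
    have h3 : e.target ∩ e.symm ⁻¹' c.source ⊆ (e.symm.trans c).source := by
      intro y hy
      rw [OpenPartialHomeomorph.trans_source]
      exact hy
    exact ((h2.mono h3).restrict_scalars ℝ).of_le le_top
  · intro y hy
    have hce : ContinuousAt e.symm y := e.continuousAt_symm hy.1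
    have hcS : ContinuousAt (fun y => c (e.symm y)) y :=
      ContinuousAt.comp (g := c) (c.continuousAt hy.2) hce
    have hev : ∀ᶠ z in 𝓝 y, e.symm z = c.symm (c (e.symm z)) := by
      filter_upwards [hO.mem_nhds hy] with z hz
      exact (c.left_inv hz.2).symm
    have h1 := GlueB_loc he hy.1
    have h2 := GlueB_loc hc (c.map_source hy.2)
    rw [pull_lift h1 h2 hcS rfl hev κ,
      (lift_differentiableAt h1 h2 hcS rfl hev).fderiv_restrictScalars ℝ]

variable {r : ℕ} {V W : Type*} [NormedAddCommGroup V] [NormedSpace ℂ V] [FiniteDimensional ℂ V]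
    [NormedAddCommGroup W] [NormedSpace ℂ W] {B M : Type*} [TopologicalSpace B]
    [ChartedSpace V B] [IsManifold 𝓘(ℂ, V) ⊤ B] [TopologicalSpace M] [ChartedSpace (V × W) M]
    [IsManifold 𝓘(ℂ, V × W) ⊤ M] {f : M → B} (T : TorusFibration r V W f)

/-- For `b : B` choose a chart `base i` at `b` and transport `a i` to `b` with the derivative of
the chart.  Independence of the choice: `exists_ftrans`, `trans`, and `pull_lift` as in
`baseForm_of_kahler`.  Compare `exists_form` in DescB1 and DescB2. -/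
theorem exists_hermitian_base {a : T.ι → V → V [⋀^Fin 2]→L[ℝ] ℝ}
    (h1 : ∀ i, ContDiffOn ℝ (⊤ : ℕ∞) (a i) (T.D i)) (h2 : ∀ i, ∀ x ∈ T.D i, PosForm (a i x))
    (h3 : ∀ i j (F : T.FTrans i j), ∀ x ∈ F.O,
      a i x = (a j (F.a x)).compContinuousLinearMap (fderiv ℝ F.a x)) :
    ∃ κ : B → V [⋀^Fin 2]→L[ℝ] ℝ, IsHermitian κ ∧
      ∀ i, ∀ x ∈ T.D i, pull (T.base i).symm κ x = a i x := by
  classical
  choose I hI using T.cover
  have hA := fun b => mfderiv_bijective
    (GlueB_loc (T.base_mem (I b)) ((T.base (I b)).map_source (hI b)))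
  choose A hA using hA
  let κ : B → V [⋀^Fin 2]→L[ℝ] ℝ := fun b =>
    (a (I b) (T.base (I b) b)).compContinuousLinearMap
      (((A b).symm : V →L[ℂ] V).restrictScalars ℝ)
  have hκ : ∀ i, ∀ x ∈ T.D i, pull (T.base i).symm κ x = a i x := by
    intro i x hx
    have hxt : x ∈ (T.base i).target := hx
    set b : B := (T.base i).symm x with hb
    obtain ⟨F, hF⟩ := T.exists_ftrans i (I b) hx (hI b)
    have hFx : F.a x = T.base (I b) b := F.a_eq x hF
    have hn : ∀ᶠ y in 𝓝 x, y ∈ F.O := F.isOpen.mem_nhds hF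
    have hj : T.base (I b) b ∈ (T.base (I b)).target := (T.base (I b)).map_source (hI b)
    have hc1 : ContinuousAt F.a x := (F.a_smooth.continuousOn x hF).continuousAt hn
    have he : ∀ᶠ y in 𝓝 x, (T.base i).symm y = (T.base (I b)).symm (F.a y) := by
      filter_upwards [hn] with y hy
      rw [F.a_eq y hy, (T.base (I b)).left_inv (F.src y hy)]
    have q1 := GlueB_loc (T.base_mem i) hxt
    have q2 := GlueB_loc (T.base_mem (I b)) hj
    rw [pull_lift q1 q2 hc1 hFx he κ, h3 i (I b) F x hF,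
      (lift_differentiableAt q1 q2 hc1 hFx he).fderiv_restrictScalars ℝ, hFx]
    congr 1
    have h4 : pull (T.base (I b)).symm κ (T.base (I b) b) = (κ b).compContinuousLinearMap
        ((mfderiv 𝓘(ℂ, V) 𝓘(ℂ, V) (T.base (I b)).symm (T.base (I b) b) :
          V →L[ℂ] V).restrictScalars ℝ) := by
      unfold pull
      exact congrArg (fun x => (κ x).compContinuousLinearMap
        ((mfderiv 𝓘(ℂ, V) 𝓘(ℂ, V) (T.base (I b)).symm (T.base (I b) b) :
          V →L[ℂ] V).restrictScalars ℝ)) ((T.base (I b)).left_inv (hI b))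
    rw [h4]
    ext v
    change a (I b) (T.base (I b) b) (fun l => (A b).symm
      ((mfderiv 𝓘(ℂ, V) 𝓘(ℂ, V) (T.base (I b)).symm (T.base (I b) b) : V →L[ℂ] V) (v l))) = _
    congr 1
    funext l
    rw [hA b (v l)]
    exact (A b).symm_apply_apply (v l)
  refine ⟨κ, ⟨?_, ?_⟩, hκ⟩
  · intro e he p hp
    obtain ⟨i, hi⟩ := T.cover (e.symm p)
    obtain ⟨hO, hS, hpl⟩ := GlueB_trans he (T.base_mem i) κ
    set O : Set V := e.target ∩ e.symm ⁻¹' (T.base i).source with hOdef
    have hpO : p ∈ O := ⟨hp, hi⟩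
    have hSD : MapsTo (fun y => T.base i (e.symm y)) O (T.D i) := fun y hy =>
      (T.base i).map_source hy.2
    have hsm : ContDiffOn ℝ (⊤ : ℕ∞) (fun y => (a i (T.base i (e.symm y))).compContinuousLinearMap
        (fderiv ℝ (fun y => T.base i (e.symm y)) y)) O :=
      contDiffOn_compAlt ((h1 i).comp hS hSD) (hS.fderiv_of_isOpen hO (by simp))
    have hsm2 : ContDiffOn ℝ (⊤ : ℕ∞) (pull e.symm κ) O := by
      refine hsm.congr fun y hy => ?_
      rw [hpl y hy, hκ i _ (hSD hy)]
    exact (hsm2.contDiffAt (hO.mem_nhds hpO)).contDiffWithinAt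
  · intro b
    obtain ⟨i, hi⟩ := T.cover b
    have hx : T.base i b ∈ (T.base i).target := (T.base i).map_source hi
    obtain ⟨A', hA'⟩ := mfderiv_bijective (GlueB_loc (T.base_mem i) hx)
    have h5 := h2 i _ hx
    rw [← hκ i _ hx] at h5
    have h6 : PosForm (κ ((T.base i).symm (T.base i b))) := GlueB_posForm A' hA' h5
    rwa [(T.base i).left_inv hi] at h6

include T in
/-- Closedness of the powers may be checked in the charts `base i`: near a point of another chart
`e`, `pull e.symm κ` is the pullback of `pull (base i).symm κ` under the change of charts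
(`pull_lift`), and `wpow_comp`, `extDeriv_pullback` apply. -/
theorem balanced_of_charts {κ : B → V [⋀^Fin 2]→L[ℝ] ℝ} (hκ : SmoothForm κ)
    (h : ∀ i, ∀ x ∈ T.D i, extDeriv (fun y => wpow (Module.finrank ℂ V - 1)
      (pull (T.base i).symm κ y)) x = 0) : Balanced κ := by
  intro e he p hp
  obtain ⟨i, hi⟩ := T.cover (e.symm p)
  obtain ⟨hO, hS, hpl⟩ := GlueB_trans he (T.base_mem i) κ
  set O : Set V := e.target ∩ e.symm ⁻¹' (T.base i).source with hOdef
  have hpO : p ∈ O := ⟨hp, hi⟩
  have hSp : T.base i (e.symm p) ∈ T.D i := (T.base i).map_source hi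
  have h1 : (fun x => wpow (Module.finrank ℂ V - 1) (pull e.symm κ x)) =ᶠ[𝓝 p]
      fun y => (wpow (Module.finrank ℂ V - 1)
        (pull (T.base i).symm κ (T.base i (e.symm y)))).compContinuousLinearMap
          (fderiv ℝ (fun y => T.base i (e.symm y)) y) := by
    filter_upwards [hO.mem_nhds hpO] with y hy
    rw [hpl y hy, wpow_comp]
  have hmin : minSmoothness ℝ 2 ≤ ((⊤ : ℕ∞) : WithTop ℕ∞) := by
    rw [minSmoothness_of_isRCLikeNormedField]
    exact WithTop.coe_le_coe.2 (le_top : (2 : ℕ∞) ≤ ⊤)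
  have h2 : ContDiffAt ℝ (⊤ : ℕ∞) (fun x => wpow (Module.finrank ℂ V - 1)
      (pull (T.base i).symm κ x)) (T.base i (e.symm p)) :=
    ((contDiff_wpow (Module.finrank ℂ V - 1)).contDiffAt).comp _
      ((hκ _ (T.base_mem i)).contDiffAt ((T.base i).open_target.mem_nhds hSp))
  rw [h1.extDeriv_eq]
  have h3 := extDeriv_pullback (ω := fun x => wpow (Module.finrank ℂ V - 1)
    (pull (T.base i).symm κ x)) (f := fun y => T.base i (e.symm y)) (x := p)
    (h2.differentiableAt (by simp)) (hS.contDiffAt (hO.mem_nhds hpO)) hmin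
  rw [h3, h i _ hSp]
  ext v
  rfl

end Pool.Agent.Helper80.TF.TorusFibration
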