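import Pool.Agent.Helper80.TF.TransB
import Pool.Agent.Helper80.TF.ExtD
import Pool.Agent.Helper80.TF.Smth

/-!
# The Kähler form in flat coordinates
-/

open Manifold Set Filter Topology MeasureTheory

namespace Pool.Agent.Helper80.TF.TorusFibration

variable {r : ℕ} {V W : Type*} [NormedAddCommGroup V] [NormedSpace ℂ V] [FiniteDimensional ℂ V]
    [NormedAddCommGroup W] [NormedSpace ℂ W] {B M : Type*} [TopologicalSpace B]
    [ChartedSpace V B] [IsManifold 𝓘(ℂ, V) ⊤ B] [TopologicalSpace M] [ChartedSpace (V × W) M]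
    {f : M → B} (T : TorusFibration r V W f)

/-- The projection `(v, s) ↦ s + h v` to the fibre. -/
noncomputable def vert (h : V →L[ℝ] (Fin r → ℝ)) : V × (Fin r → ℝ) →L[ℝ] (Fin r → ℝ) :=
  ContinuousLinearMap.snd ℝ V (Fin r → ℝ) + h.comp (ContinuousLinearMap.fst ℝ V (Fin r → ℝ))

/-- `a + E (ϑ, ϑ)`, `ϑ = vert h`. -/
noncomputable def kform (a : V [⋀^Fin 2]→L[ℝ] ℝ) (E : (Fin r → ℝ) [⋀^Fin 2]→L[ℝ] ℝ)
    (h : V →L[ℝ] (Fin r → ℝ)) : (V × (Fin r → ℝ)) [⋀^Fin 2]→L[ℝ] ℝ :=
  a.compContinuousLinearMap (ContinuousLinearMap.fst ℝ V (Fin r → ℝ)) +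
    E.compContinuousLinearMap (vert h)

omit [FiniteDimensional ℂ V] in
private theorem KahF_vert (h : V →L[ℝ] (Fin r → ℝ)) (p : V × (Fin r → ℝ)) :
    vert h p = p.2 + h p.1 := rfl

omit [FiniteDimensional ℂ V] in
private theorem KahF_kform (a : V [⋀^Fin 2]→L[ℝ] ℝ) (E : (Fin r → ℝ) [⋀^Fin 2]→L[ℝ] ℝ)
    (h : V →L[ℝ] (Fin r → ℝ)) (p q : V × (Fin r → ℝ)) :
    kform a E h ![p, q] = a ![p.1, q.1] + E ![p.2 + h p.1, q.2 + h q.1] := by
  have e1 : (ContinuousLinearMap.fst ℝ V (Fin r → ℝ)) ∘ ![p, q] = ![p.1, q.1] := by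
    funext i; fin_cases i <;> rfl
  have e2 : (vert h) ∘ ![p, q] = ![p.2 + h p.1, q.2 + h q.1] := by
    funext i; fin_cases i <;> rfl
  change a ((ContinuousLinearMap.fst ℝ V (Fin r → ℝ)) ∘ ![p, q]) + E ((vert h) ∘ ![p, q]) = _
  rw [e1, e2]

omit [FiniteDimensional ℂ V] in
private theorem KahF_ext {X : Type*} [NormedAddCommGroup X] [NormedSpace ℝ X]
    {a b : X [⋀^Fin 2]→L[ℝ] ℝ} (h : ∀ p q, a ![p, q] = b ![p, q]) : a = b := by
  ext v
  have e : v = ![v 0, v 1] := by
    funext i; fin_cases i <;> rfl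
  rw [e]
  exact h _ _

private theorem KahF_deriv {X Y : Type*} [NormedAddCommGroup X] [NormedSpace ℝ X]
    [NormedAddCommGroup Y] [NormedSpace ℝ Y] (E0 : Y [⋀^Fin 2]→L[ℝ] ℝ) {g₀ g₁ : X → Y}
    {g₀' g₁' : X →L[ℝ] Y} {x : X} (h₀ : HasFDerivAt g₀ g₀' x) (h₁ : HasFDerivAt g₁ g₁' x) (u : X) :
    DifferentiableAt ℝ (fun y => E0 ![g₀ y, g₁ y]) x ∧
    fderiv ℝ (fun y => E0 ![g₀ y, g₁ y]) x u = E0 ![g₀' u, g₁ x] + E0 ![g₀ x, g₁' u] := by
  have hg : ∀ i : Fin 2, HasFDerivAt ((![g₀, g₁] : Fin 2 → X → Y) i)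
      ((![g₀', g₁'] : Fin 2 → X →L[ℝ] Y) i) x := by
    intro i
    fin_cases i
    · exact h₀
    · exact h₁
  have h := HasFDerivAt.multilinear_comp (f := E0.toContinuousMultilinearMap) hg
  have e : (fun y => E0.toContinuousMultilinearMap
      (fun i => (![g₀, g₁] : Fin 2 → X → Y) i y)) = fun y => E0 ![g₀ y, g₁ y] := by
    funext y
    change E0 _ = E0 _
    congr 1
    funext i
    fin_cases i <;> rfl
  rw [e] at h
  refine ⟨h.differentiableAt, ?_⟩
  rw [h.fderiv]
  simp only [Fin.sum_univ_two, add_apply, ContinuousLinearMap.comp_apply,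
    ContinuousMultilinearMap.toContinuousLinearMap_apply]
  congr 1
  · change E0 _ = E0 _
    congr 1
    funext i
    fin_cases i <;> rfl
  · change E0 _ = E0 _
    congr 1
    funext i
    fin_cases i <;> rfl

private theorem KahF_swap {X : Type*} [NormedAddCommGroup X] [NormedSpace ℝ X]
    (a : X [⋀^Fin 2]→L[ℝ] ℝ) (p q : X) : a ![p, q] = -a ![q, p] := by
  have h := a.toAlternatingMap.map_swap ![q, p] (i := 0) (j := 1) (by decide)
  have e : (![q, p] ∘ Equiv.swap (0 : Fin 2) 1) = ![p, q] := by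
    funext i
    fin_cases i <;> rfl
  rw [e] at h
  exact h

/-- Proof sketch for `closed`: near `x` the form `E` is constant; by `extDeriv_two` the terms
with `E` are `∑ E (D_v h (v'), ϑ'') + …`, which cancel because `D_v h (v')` is symmetric. -/
theorem flatKahler {E : T.ι → V → (Fin r → ℝ) [⋀^Fin 2]→L[ℝ] ℝ} (hE : T.Polar E)
    {h : T.ι → V → V →L[ℝ] (Fin r → ℝ)} (hh : T.FlatConn h)
    {a : T.ι → V → V [⋀^Fin 2]→L[ℝ] ℝ} (ha : T.BaseForm a) :
    T.FlatKahler fun i x => kform (a i x) (E i x) (h i x) := by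
  have hopen : ∀ i, IsOpen (T.D i) := fun i => (T.base i).open_target
  refine ⟨fun i => ?_, fun i x hx t => ?_, fun i x hx ξ η => ?_, fun i x hx ξ hξ => ?_,
    fun i j F x hx => ?_⟩
  · have hEs : ContDiffOn ℝ (⊤ : ℕ∞) (E i) (T.D i) := by
      intro x hx
      exact (contDiffAt_const.congr_of_eventuallyEq (hE.const i x hx)).contDiffWithinAt
    have hv : ContDiffOn ℝ (⊤ : ℕ∞) (fun x => vert (h i x)) (T.D i) :=
      contDiffOn_const.add ((hh.smooth i).clm_comp contDiffOn_const)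
    exact (contDiffOn_compAlt (ha.smooth i) contDiffOn_const).add (contDiffOn_compAlt hEs hv)
  · have hev : (fun p : V × (Fin r → ℝ) => kform (a i p.1) (E i p.1) (h i p.1)) =ᶠ[𝓝 (x, t)]
        fun p => kform (a i p.1) (E i x) (h i p.1) := by
      have h1 : ∀ᶠ p : V × (Fin r → ℝ) in 𝓝 (x, t), E i p.1 = E i x :=
        (continuous_fst.tendsto (x, t)).eventually (hE.const i x hx)
      filter_upwards [h1] with p hp
      rw [hp]
    rw [hev.extDeriv_eq]
    have hda : DifferentiableAt ℝ (a i) x :=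
      ((ha.smooth i).differentiableOn (by simp)).differentiableAt ((hopen i).mem_nhds hx)
    have hdh : DifferentiableAt ℝ (h i) x :=
      ((hh.smooth i).differentiableOn (by simp)).differentiableAt ((hopen i).mem_nhds hx)
    have hfst : HasFDerivAt (fun p : V × (Fin r → ℝ) => p.1)
        (ContinuousLinearMap.fst ℝ V (Fin r → ℝ)) (x, t) := hasFDerivAt_fst
    have hda' : HasFDerivAt (fun p : V × (Fin r → ℝ) => a i p.1)
        ((fderiv ℝ (a i) x).comp (ContinuousLinearMap.fst ℝ V (Fin r → ℝ))) (x, t) :=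
      HasFDerivAt.comp (x, t) (f := fun p : V × (Fin r → ℝ) => p.1) (g := a i)
        hda.hasFDerivAt hfst
    have hdh' : ∀ b : V, HasFDerivAt (fun p : V × (Fin r → ℝ) => h i p.1 b)
        (((ContinuousLinearMap.apply ℝ (Fin r → ℝ) b).comp (fderiv ℝ (h i) x)).comp
          (ContinuousLinearMap.fst ℝ V (Fin r → ℝ))) (x, t) := by
      intro b
      have h1 : HasFDerivAt (fun y => h i y b)
          ((ContinuousLinearMap.apply ℝ (Fin r → ℝ) b).comp (fderiv ℝ (h i) x)) x :=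
        (ContinuousLinearMap.apply ℝ (Fin r → ℝ) b).hasFDerivAt.comp x hdh.hasFDerivAt
      exact HasFDerivAt.comp (x, t) (f := fun p : V × (Fin r → ℝ) => p.1) h1 hfst
    have hdiff : DifferentiableAt ℝ
        (fun p : V × (Fin r → ℝ) => kform (a i p.1) (E i x) (h i p.1)) (x, t) := by
      have hs : ContDiffOn ℝ (⊤ : ℕ∞) (fun y => kform (a i y) (E i x) (h i y)) (T.D i) :=
        (contDiffOn_compAlt (ha.smooth i) contDiffOn_const).add
          (contDiffOn_compAlt contDiffOn_const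
            (contDiffOn_const.add ((hh.smooth i).clm_comp contDiffOn_const)))
      have h1 : DifferentiableAt ℝ (fun y => kform (a i y) (E i x) (h i y)) x :=
        (hs.differentiableOn (by simp)).differentiableAt ((hopen i).mem_nhds hx)
      exact DifferentiableAt.comp (x, t) (f := fun p : V × (Fin r → ℝ) => p.1) h1
        hfst.differentiableAt
    have key : ∀ u b c : V × (Fin r → ℝ),
        fderiv ℝ (fun p : V × (Fin r → ℝ) => kform (a i p.1) (E i x) (h i p.1)) (x, t) u ![b, c] =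
          fderiv ℝ (a i) x u.1 ![b.1, c.1] +
          (E i x ![fderiv ℝ (h i) x u.1 b.1, c.2 + h i x c.1] +
           E i x ![b.2 + h i x b.1, fderiv ℝ (h i) x u.1 c.1]) := by
      intro u b c
      rw [← fderiv_alt_apply hdiff]
      simp only [KahF_kform]
      have h1 : HasFDerivAt (fun p : V × (Fin r → ℝ) => a i p.1 ![b.1, c.1])
          ((ContinuousAlternatingMap.apply ℝ V ℝ ![b.1, c.1]).comp
            ((fderiv ℝ (a i) x).comp (ContinuousLinearMap.fst ℝ V (Fin r → ℝ)))) (x, t) :=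
        (ContinuousAlternatingMap.apply ℝ V ℝ ![b.1, c.1]).hasFDerivAt.comp (x, t) hda'
      have hb := (hdh' b.1).const_add b.2
      have hc := (hdh' c.1).const_add c.2
      obtain ⟨hd2, h2⟩ := KahF_deriv (E i x) hb hc u
      rw [fderiv_fun_add h1.differentiableAt hd2, add_apply, h1.fderiv, h2]
      rfl
    ext v
    have e : v = ![v 0, v 1, v 2] := by
      funext i; fin_cases i <;> rfl
    rw [e, extDeriv_two, key, key, key]
    have hcl := ha.closed i x hx
    have hcl' : extDeriv (a i) x ![(v 0).1, (v 1).1, (v 2).1] = 0 := by rw [hcl]; rfl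
    rw [extDeriv_two] at hcl'
    rw [hh.closed i x hx (v 1).1 (v 0).1, hh.closed i x hx (v 2).1 (v 0).1,
      hh.closed i x hx (v 2).1 (v 1).1,
      KahF_swap (E i x) ((v 1).2 + h i x (v 1).1) (fderiv ℝ (h i) x (v 0).1 (v 2).1)]
    change _ = (0 : ℝ)
    linarith
  · have hJ : ∀ ζ : V × (Fin r → ℝ), (T.Jt i x ζ).2 + h i x (T.Jt i x ζ).1 =
        T.J i x (ζ.2 + h i x ζ.1) := by
      intro ζ
      change T.J i x ζ.2 + h i x (mulI V ζ.1) = _
      rw [hh.hol i x hx, map_add]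
    rw [KahF_kform, KahF_kform, hJ, hJ, hE.inv i x hx]
    congr 1
    exact (ha.pos i x hx).1 _ _
  · have hJ : (T.Jt i x ξ).2 + h i x (T.Jt i x ξ).1 = T.J i x (ξ.2 + h i x ξ.1) := by
      change T.J i x ξ.2 + h i x (mulI V ξ.1) = _
      rw [hh.hol i x hx, map_add]
    rw [KahF_kform, hJ]
    change 0 < a i x ![ξ.1, mulI V ξ.1] + _
    by_cases h1 : ξ.1 = 0
    · have h2 : ξ.2 ≠ 0 := fun h2 => hξ (Prod.ext h1 h2)
      rw [h1, map_zero, map_zero, add_zero]
      have h3 : a i x ![0, 0] = 0 := (a i x).map_coord_zero (m := ![0, 0]) 0 rfl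
      rw [h3, zero_add]
      exact hE.pos i x hx _ h2
    · have h3 := (ha.pos i x hx).2 _ h1
      have h4 : 0 ≤ E i x ![ξ.2 + h i x ξ.1, T.J i x (ξ.2 + h i x ξ.1)] := by
        by_cases h5 : ξ.2 + h i x ξ.1 = 0
        · rw [h5, map_zero]
          exact ((E i x).map_coord_zero (m := ![0, 0]) 0 rfl).ge
        · exact (hE.pos i x hx _ h5).le
      linarith
  · refine KahF_ext fun p q => ?_
    have hv : ∀ ζ : V × (Fin r → ℝ), (F.lin x ζ).2 + h j (F.a x) (F.lin x ζ).1 =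
        F.N (ζ.2 + h i x ζ.1) := by
      intro ζ
      change F.N ζ.2 + fderiv ℝ F.σ x ζ.1 + h j (F.a x) (fderiv ℝ F.a x ζ.1) = _
      rw [map_add, hh.trans i j F x hx]
      abel
    have e1 : ((kform (a j (F.a x)) (E j (F.a x)) (h j (F.a x))).compContinuousLinearMap
        (F.lin x)) ![p, q] = (kform (a j (F.a x)) (E j (F.a x)) (h j (F.a x)))
          ![F.lin x p, F.lin x q] := by
      change (kform (a j (F.a x)) (E j (F.a x)) (h j (F.a x))) ((F.lin x) ∘ ![p, q]) = _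
      congr 1
      funext i
      fin_cases i <;> rfl
    rw [e1, KahF_kform, KahF_kform, hv, hv, ← hE.trans i j F x hx, ha.trans i j F x hx]
    congr 1
    change (a j (F.a x)) ((fderiv ℝ F.a x) ∘ ![p.1, q.1]) = _
    congr 1
    funext i
    fin_cases i <;> rfl

end Pool.Agent.Helper80.TF.TorusFibration
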