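import Pool.Agent.Helper80.TF.Core
import Pool.Agent.Helper20.VF.MatDet

/-!
# Second derivatives of the logarithm of a determinant
-/

open Manifold Set Filter Topology Matrix

namespace Pool.Agent.Helper80.TF

variable {r : ℕ} {V : Type*} [NormedAddCommGroup V] [NormedSpace ℝ V]

private theorem LogDet_contDiffOn_det {D : Set V} {A : V → Matrix (Fin r) (Fin r) ℝ}
    (hA : ∀ i j, ContDiffOn ℝ (⊤ : ℕ∞) (fun x => A x i j) D) :
    ContDiffOn ℝ (⊤ : ℕ∞) (fun x => (A x).det) D := by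
  have e1 : (fun x => (A x).det)
      = fun x => ∑ σ : Equiv.Perm (Fin r), ((Equiv.Perm.sign σ : ℤ) : ℝ) * ∏ i, A x (σ i) i := by
    funext x
    rw [det_apply']
  rw [e1]
  refine ContDiffOn.sum fun σ _ => ContDiffOn.mul contDiffOn_const ?_
  exact contDiffOn_prod fun i _ => hA (σ i) i

theorem contDiffOn_log_det {D : Set V} {A : V → Matrix (Fin r) (Fin r) ℝ}
    (hA : ∀ i j, ContDiffOn ℝ (⊤ : ℕ∞) (fun x => A x i j) D) (h0 : ∀ x ∈ D, (A x).det ≠ 0) :
    ContDiffOn ℝ (⊤ : ℕ∞) (fun x => Real.log (A x).det) D :=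
  (LogDet_contDiffOn_det hA).log h0

/-- The derivative along a line. -/
private theorem LogDet_line {u : V → ℝ} {y : V} (hu : DifferentiableAt ℝ u y) (v : V) :
    HasDerivAt (fun s : ℝ => u (y + s • v)) (fderiv ℝ u y v) 0 := by
  have h1 : HasDerivAt (fun s : ℝ => y + s • v) v 0 := by
    have := ((hasDerivAt_id (0 : ℝ)).smul_const v).const_add y
    simpa using this
  have h2 : HasFDerivAt u (fderiv ℝ u y) (y + (0 : ℝ) • v) := by
    rw [zero_smul, add_zero]
    exact hu.hasFDerivAt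
  exact h2.comp_hasDerivAt 0 h1

/-- The first derivative. -/
private theorem LogDet_first {D : Set V} (hD : IsOpen D) {A : V → Matrix (Fin r) (Fin r) ℝ}
    (hA : ∀ i j, ContDiffOn ℝ (⊤ : ℕ∞) (fun x => A x i j) D) (h0 : ∀ x ∈ D, (A x).det ≠ 0)
    {x : V} (hx : x ∈ D) (v : V) :
    fderiv ℝ (fun x => Real.log (A x).det) x v =
      trace ((A x)⁻¹ * Matrix.of fun i j => fderiv ℝ (fun y => A y i j) x v) := by
  have hd : ∀ i j, DifferentiableAt ℝ (fun y => A y i j) x := fun i j =>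
    ((hA i j).contDiffAt (hD.mem_nhds hx)).differentiableAt (by simp)
  have hl := LogDet_line (((contDiffOn_log_det hA h0).contDiffAt
    (hD.mem_nhds hx)).differentiableAt (by simp)) v
  have h1 := Pool.Agent.Helper20.VF.hasDerivAt_det (fun s : ℝ => A (x + s • v))
    (Matrix.of fun i j => fderiv ℝ (fun y => A y i j) x v) 0 fun i j => LogDet_line (hd i j) v
  have h2 : (A (x + (0 : ℝ) • v)).det ≠ 0 := by
    rw [zero_smul, add_zero]
    exact h0 x hx
  have h3 := hl.unique (h1.log h2)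
  rw [h3, zero_smul, add_zero, Matrix.inv_def, smul_mul, trace_smul, smul_eq_mul,
    Ring.inverse_eq_inv', div_eq_inv_mul]

/-- The derivative of the inverse along a curve. -/
private theorem LogDet_inv {A : ℝ → Matrix (Fin r) (Fin r) ℝ} {A' : Matrix (Fin r) (Fin r) ℝ}
    (h : ∀ i j, HasDerivAt (fun s => A s i j) (A' i j) 0)
    (h0 : ∀ᶠ s in 𝓝 (0 : ℝ), (A s).det ≠ 0) (i j : Fin r) :
    HasDerivAt (fun s => (A s)⁻¹ i j) (-((A 0)⁻¹ * A' * (A 0)⁻¹) i j) 0 := by
  have hdet : ∀ {C : ℝ → Matrix (Fin r) (Fin r) ℝ},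
      (∀ i j, DifferentiableAt ℝ (fun s => C s i j) 0) →
      DifferentiableAt ℝ (fun s => (C s).det) 0 := by
    intro C hC
    exact (Pool.Agent.Helper20.VF.hasDerivAt_det C
      (Matrix.of fun i j => deriv (fun s => C s i j) 0) 0 fun i j =>
        (hC i j).hasDerivAt).differentiableAt
  have hd0 : (A 0).det ≠ 0 := h0.self_of_nhds
  have hdiff : ∀ i j, DifferentiableAt ℝ (fun s => (A s)⁻¹ i j) 0 := by
    intro i j
    have e : (fun s => (A s)⁻¹ i j) =
        fun s => ((A s).det)⁻¹ * ((A s).updateRow j (Pi.single i 1)).det := by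
      funext s
      rw [Matrix.inv_def, Matrix.smul_apply, smul_eq_mul, Ring.inverse_eq_inv',
        Matrix.adjugate_apply]
    rw [e]
    refine ((hdet fun i j => (h i j).differentiableAt).inv hd0).mul (hdet fun k l => ?_)
    by_cases hk : k = j
    · subst hk
      simp only [updateRow_self]
      exact differentiableAt_const _
    · simp only [updateRow_ne hk]
      exact (h k l).differentiableAt
  set Bd : Matrix (Fin r) (Fin r) ℝ := Matrix.of fun i j => deriv (fun s => (A s)⁻¹ i j) 0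
    with hBd
  have hB : ∀ i j, HasDerivAt (fun s => (A s)⁻¹ i j) (Bd i j) 0 := fun i j =>
    (hdiff i j).hasDerivAt
  have hmul : A' * (A 0)⁻¹ + A 0 * Bd = 0 := by
    ext i j
    have h1 : HasDerivAt (fun s => ∑ k, A s i k * (A s)⁻¹ k j)
        (∑ k, (A' i k * (A 0)⁻¹ k j + A 0 i k * Bd k j)) 0 :=
      HasDerivAt.fun_sum fun k _ => (h i k).mul (hB k j)
    have h2 : (fun s => ∑ k, A s i k * (A s)⁻¹ k j) =ᶠ[𝓝 0]
        fun _ => (1 : Matrix (Fin r) (Fin r) ℝ) i j := by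
      filter_upwards [h0] with s hs
      rw [← Matrix.mul_apply, Matrix.mul_nonsing_inv _ (isUnit_iff_ne_zero.2 hs)]
    have h3 := (h1.congr_of_eventuallyEq h2.symm).unique (hasDerivAt_const _ _)
    rw [Matrix.add_apply, Matrix.mul_apply, Matrix.mul_apply, ← Finset.sum_add_distrib, h3]
    rfl
  have hBd2 : Bd = -((A 0)⁻¹ * A' * (A 0)⁻¹) := by
    have h1 : A 0 * Bd = -(A' * (A 0)⁻¹) := by
      rw [eq_neg_iff_add_eq_zero, add_comm]
      exact hmul
    have h2 : (A 0)⁻¹ * (A 0 * Bd) = Bd :=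
      Matrix.nonsing_inv_mul_cancel_left _ _ (isUnit_iff_ne_zero.2 hd0)
    rw [← h2, h1, mul_neg, mul_assoc]
  have := hB i j
  rwa [hBd2] at this

/-- Proof sketch: Jacobi's formula (`Pool.Agent.Helper20.VF.hasDerivAt_det`) gives
`D_v log det A = tr (A⁻¹ A_v)`; differentiate once more along the line `x + c v`. -/
theorem D2_log_det {D : Set V} (hD : IsOpen D) {A : V → Matrix (Fin r) (Fin r) ℝ}
    (hA : ∀ i j, ContDiffOn ℝ (⊤ : ℕ∞) (fun x => A x i j) D) (h0 : ∀ x ∈ D, (A x).det ≠ 0)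
    {x : V} (hx : x ∈ D) (v : V) (A' A'' : Matrix (Fin r) (Fin r) ℝ)
    (h' : ∀ i j, A' i j = fderiv ℝ (fun y => A y i j) x v)
    (h'' : ∀ i j, A'' i j = fderiv ℝ (fun y => fderiv ℝ (fun z => A z i j) y v) x v) :
    D2 (fun x => Real.log (A x).det) x v =
      trace ((A x)⁻¹ * A'') - trace ((A x)⁻¹ * A' * ((A x)⁻¹ * A')) := by
  have hu : ContDiffAt ℝ (⊤ : ℕ∞) (fun x => Real.log (A x).det) x :=
    (contDiffOn_log_det hA h0).contDiffAt (hD.mem_nhds hx)
  have hfd : ∀ {u : V → ℝ}, ContDiffAt ℝ (⊤ : ℕ∞) u x →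
      DifferentiableAt ℝ (fun y => fderiv ℝ u y v) x := by
    intro u hu
    have h12 : ((1 + 1 : ℕ∞) : WithTop ℕ∞) ≤ ((⊤ : ℕ∞) : WithTop ℕ∞) :=
      WithTop.coe_le_coe.2 le_top
    have h1 : ContDiffAt ℝ 1 (fderiv ℝ u) x := hu.fderiv_right h12
    exact (h1.differentiableAt (by simp)).clm_apply (differentiableAt_const v)
  have hcont : Tendsto (fun s : ℝ => x + s • v) (𝓝 0) (𝓝 x) := by
    have : Continuous fun s : ℝ => x + s • v := by fun_prop
    have h1 := this.tendsto 0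
    rwa [zero_smul, add_zero] at h1
  have hev : ∀ᶠ s in 𝓝 (0 : ℝ), x + s • v ∈ D := hcont (hD.mem_nhds hx)
  have hd : ∀ i j, DifferentiableAt ℝ (fun y => A y i j) x := fun i j =>
    ((hA i j).contDiffAt (hD.mem_nhds hx)).differentiableAt (by simp)
  have hA1 : ∀ i j, HasDerivAt (fun s : ℝ => A (x + s • v) i j) (A' i j) 0 := by
    intro i j
    rw [h']
    exact LogDet_line (hd i j) v
  have hA2 : ∀ i j, HasDerivAt
      (fun s : ℝ => fderiv ℝ (fun y => A y i j) (x + s • v) v) (A'' i j) 0 := by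
    intro i j
    rw [h'']
    exact LogDet_line (hfd ((hA i j).contDiffAt (hD.mem_nhds hx))) v
  have hB := LogDet_inv (A := fun s : ℝ => A (x + s • v)) hA1 (by
    filter_upwards [hev] with s hs
    exact h0 _ hs)
  have hx0 : x + (0 : ℝ) • v = x := by rw [zero_smul, add_zero]
  simp only [hx0] at hB
  have hl := LogDet_line (hfd hu) v
  have hsum : HasDerivAt (fun s : ℝ => ∑ i, ∑ k, (A (x + s • v))⁻¹ i k *
      fderiv ℝ (fun y => A y k i) (x + s • v) v)
      (∑ i, ∑ k, (-((A x)⁻¹ * A' * (A x)⁻¹) i k *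
        fderiv ℝ (fun y => A y k i) (x + (0 : ℝ) • v) v +
        (A (x + (0 : ℝ) • v))⁻¹ i k * A'' k i)) 0 :=
    HasDerivAt.fun_sum fun i _ => HasDerivAt.fun_sum fun k _ => (hB i k).mul (hA2 k i)
  have heq : (fun s : ℝ => fderiv ℝ (fun x => Real.log (A x).det) (x + s • v) v) =ᶠ[𝓝 0]
      fun s : ℝ => ∑ i, ∑ k, (A (x + s • v))⁻¹ i k *
        fderiv ℝ (fun y => A y k i) (x + s • v) v := by
    filter_upwards [hev] with s hs
    rw [LogDet_first hD hA h0 hs v, trace]
    refine Finset.sum_congr rfl fun i _ => ?_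
    rw [diag_apply, Matrix.mul_apply]
    rfl
  have hfin := hl.unique (hsum.congr_of_eventuallyEq heq)
  rw [D2, hfin, hx0]
  have e1 : trace ((A x)⁻¹ * A'') = ∑ i, ∑ k, (A x)⁻¹ i k * A'' k i := by
    rw [trace]
    exact Finset.sum_congr rfl fun i _ => by rw [diag_apply, Matrix.mul_apply]
  have e2 : trace ((A x)⁻¹ * A' * ((A x)⁻¹ * A')) =
      ∑ i, ∑ k, ((A x)⁻¹ * A' * (A x)⁻¹) i k * A' k i := by
    rw [← mul_assoc, trace]
    exact Finset.sum_congr rfl fun i _ => by rw [diag_apply, Matrix.mul_apply]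
  rw [e1, e2, ← Finset.sum_sub_distrib]
  refine Finset.sum_congr rfl fun i _ => ?_
  rw [← Finset.sum_sub_distrib]
  refine Finset.sum_congr rfl fun k _ => ?_
  rw [← h']
  ring

end Pool.Agent.Helper80.TF
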