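import Pool.Agent.Helper80.TF.FlatA

/-!
# Local lifts of sections
-/

open Manifold Set Filter Topology MeasureTheory

namespace Pool.Agent.Helper80.TF.TorusFibration

variable {r : ℕ} {V W : Type*} [NormedAddCommGroup V] [NormedSpace ℂ V] [FiniteDimensional ℂ V]
    [NormedAddCommGroup W] [NormedSpace ℂ W] {B M : Type*} [TopologicalSpace B]
    [ChartedSpace V B] [IsManifold 𝓘(ℂ, V) ⊤ B] [TopologicalSpace M] [ChartedSpace (V × W) M]
    [IsManifold 𝓘(ℂ, V × W) ⊤ M] {f : M → B} (T : TorusFibration r V W f)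

/-- A section can be lifted locally: near `x₀` there is a holomorphic `w` with
`q i (x, w x) = s ((base i).symm x)`. -/
theorem exists_lift (i : T.ι) {s : B → M} (hs : ContMDiff 𝓘(ℂ, V) 𝓘(ℂ, V × W) ⊤ s)
    (hf : ∀ b, f (s b) = b) {x₀ : V} (hx : x₀ ∈ T.D i) :
    ∃ O : Set V, IsOpen O ∧ x₀ ∈ O ∧ O ⊆ T.D i ∧ ∃ w : V → W, ContDiffOn ℂ ⊤ w O ∧
      ∀ x ∈ O, T.q i (x, w x) = s ((T.base i).symm x) := by
  have hx' : x₀ ∈ (T.base i).target := hx
  have hb0 : (T.base i).symm x₀ ∈ (T.base i).source := (T.base i).map_target hx'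
  obtain ⟨z₀, hz₀⟩ := T.q_surj i (s ((T.base i).symm x₀)) (by rw [hf]; exact hb0)
  rw [hf, (T.base i).right_inv hx'] at hz₀
  obtain ⟨Φ, hΦ, hΦq⟩ := T.q_hol i ⟨(x₀, z₀), ⟨hx', mem_univ _⟩⟩
  -- the lift
  set u : V → V × W := fun x => Φ.symm (s ((T.base i).symm x)) with hu
  have hsymm : ContMDiffOn 𝓘(ℂ, V) 𝓘(ℂ, V) ⊤ (T.base i).symm (T.base i).target :=
    contMDiffOn_symm_of_mem_maximalAtlas (T.base_mem i)
  have hss : ContMDiffOn 𝓘(ℂ, V) 𝓘(ℂ, V × W) ⊤ (fun x => s ((T.base i).symm x))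
      (T.base i).target := hs.comp_contMDiffOn hsymm
  set O₁ : Set V := (T.base i).target ∩ (fun x => s ((T.base i).symm x)) ⁻¹' Φ.target with hO₁
  have hO₁open : IsOpen O₁ :=
    hss.continuousOn.isOpen_inter_preimage (T.base i).open_target Φ.open_target
  have hu₁ : ContMDiffOn 𝓘(ℂ, V) 𝓘(ℂ, V × W) ⊤ u O₁ := by
    have h1 := Φ.contMDiffOn_invFun
    exact h1.comp (hss.mono inter_subset_left) inter_subset_right
  have hu₂ : ContDiffOn ℂ ⊤ u O₁ := contMDiffOn_iff_contDiffOn.1 hu₁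
  have hq0 : T.q i (x₀, z₀) = Φ (x₀, z₀) := hΦq hΦ
  have hmem0 : x₀ ∈ O₁ := by
    refine ⟨hx', ?_⟩
    change s ((T.base i).symm x₀) ∈ Φ.target
    rw [← hz₀, hq0]
    exact Φ.map_source hΦ
  have hu0 : u x₀ = (x₀, z₀) := by
    change Φ.symm (s ((T.base i).symm x₀)) = (x₀, z₀)
    rw [← hz₀, hq0]
    exact Φ.left_inv hΦ
  set O : Set V := O₁ ∩ u ⁻¹' ((T.base i).target ×ˢ univ) with hO
  have hOopen : IsOpen O :=
    hu₂.continuousOn.isOpen_inter_preimage hO₁open ((T.base i).open_target.prod isOpen_univ)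
  refine ⟨O, hOopen, ⟨hmem0, ?_⟩, fun x hx => hx.1.1, fun x => (u x).2, ?_, ?_⟩
  · change u x₀ ∈ (T.base i).target ×ˢ (univ : Set W)
    rw [hu0]
    exact ⟨hx', mem_univ _⟩
  · exact contDiff_snd.comp_contDiffOn (hu₂.mono inter_subset_left)
  · intro x hx
    have h1 : s ((T.base i).symm x) ∈ Φ.target := hx.1.2
    have h2 : u x ∈ Φ.source := Φ.map_target h1
    have h3 : T.q i (u x) = s ((T.base i).symm x) := by
      rw [hΦq h2]
      exact Φ.right_inv h1
    have h4 : (u x).1 ∈ (T.base i).target := hx.2.1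
    have h5 : (T.base i).symm (u x).1 = (T.base i).symm x := by
      rw [← T.q_fib i (u x).1 h4 (u x).2, Prod.mk.eta, h3, hf]
    have h6 : (u x).1 = x := by
      have := congrArg (T.base i) h5
      rwa [(T.base i).right_inv h4, (T.base i).right_inv hx.1.1] at this
    have h7 : (x, (u x).2) = u x := Prod.ext h6.symm rfl
    change T.q i (x, (u x).2) = s ((T.base i).symm x)
    rw [h7, h3]

end Pool.Agent.Helper80.TF.TorusFibration
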