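import Pool.Agent.Helper80.TF.FlatA
import Pool.Agent.Helper80.TF.SecA

/-!
# A holomorphic section defines a flat connection
-/

open Manifold Set Filter Topology MeasureTheory

namespace Pool.Agent.Helper80.TF.TorusFibration

variable {r : ℕ} {V W : Type*} [NormedAddCommGroup V] [NormedSpace ℂ V] [FiniteDimensional ℂ V]
    [NormedAddCommGroup W] [NormedSpace ℂ W] {B M : Type*} [TopologicalSpace B]
    [ChartedSpace V B] [IsManifold 𝓘(ℂ, V) ⊤ B] [TopologicalSpace M] [ChartedSpace (V × W) M]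
    [IsManifold 𝓘(ℂ, V × W) ⊤ M] {f : M → B} (T : TorusFibration r V W f)

/-- Two functions with the same image in `M` differ by a locally constant integer vector. -/
private theorem Sec_const (j : T.ι) {b : V → V} {g₁ g₂ : V → (Fin r → ℝ)} {x : V}
    (h1 : ContinuousAt g₁ x) (h2 : ContinuousAt g₂ x) (hb : ∀ᶠ y in 𝓝 x, b y ∈ T.D j)
    (hq : ∀ᶠ y in 𝓝 x, T.q j (T.Psi j (b y, g₁ y)) = T.q j (T.Psi j (b y, g₂ y))) :
    ∀ᶠ y in 𝓝 x, g₂ y - g₁ y = g₂ x - g₁ x := by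
  have hint : ∀ᶠ y in 𝓝 x, ∃ n : Fin r → ℤ, g₂ y - g₁ y = intVec n := by
    filter_upwards [hb, hq] with y hy1 hy2
    obtain ⟨n, hn⟩ := (T.q_ker j (b y) hy1 _ _).1 hy2
    refine ⟨n, ?_⟩
    have h3 : T.P j (b y) (g₂ y) = T.P j (b y) (g₁ y + intVec n) := by
      rw [map_add]
      exact hn
    have h4 := (T.P j (b y)).injective h3
    rw [h4, add_sub_cancel_left]
  obtain ⟨m, hm⟩ := hint.self_of_nhds
  have hc : ContinuousAt (fun y => g₂ y - g₁ y) x := h2.sub h1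
  have hclose := Metric.continuousAt_iff'.1 hc 1 one_pos
  filter_upwards [hint, hclose] with y hy hd
  obtain ⟨n, hn⟩ := hy
  rw [hn, hm] at hd
  rw [hn, hm]
  funext l
  have h3 := (dist_pi_lt_iff one_pos).1 hd l
  rw [intVec, intVec, Real.dist_eq, ← Int.cast_sub, ← Int.cast_abs] at h3
  have h4 : |n l - m l| < 1 := by exact_mod_cast h3
  have h5 : n l = m l := by
    rw [Int.abs_lt_one_iff] at h4
    omega
  rw [intVec, intVec, h5]

private theorem Sec_fderiv (j : T.ι) {b : V → V} {g₁ g₂ : V → (Fin r → ℝ)} {x : V}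
    (h1 : DifferentiableAt ℝ g₁ x) (h2 : DifferentiableAt ℝ g₂ x)
    (hb : ∀ᶠ y in 𝓝 x, b y ∈ T.D j)
    (hq : ∀ᶠ y in 𝓝 x, T.q j (T.Psi j (b y, g₁ y)) = T.q j (T.Psi j (b y, g₂ y))) :
    fderiv ℝ g₁ x = fderiv ℝ g₂ x := by
  have h3 := T.Sec_const j h1.continuousAt h2.continuousAt hb hq
  have h4 : fderiv ℝ (g₂ - g₁) x = 0 := by
    have h5 : (g₂ - g₁) =ᶠ[𝓝 x] fun _ => g₂ x - g₁ x := h3
    rw [h5.fderiv_eq]
    exact fderiv_const_apply _
  rw [fderiv_sub h2 h1, sub_eq_zero] at h4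
  exact h4.symm

/-- A local lift of a section, in flat coordinates. -/
private structure SecLift (s : B → M) (i : T.ι) (O : Set V) (u : V → (Fin r → ℝ)) : Prop where
  op : IsOpen O
  sub : O ⊆ T.D i
  sm : ContDiffOn ℝ (⊤ : ℕ∞) u O
  hol : ∀ x ∈ O, DifferentiableAt ℂ (fun y => T.P i y (u y)) x
  eq : ∀ x ∈ O, T.q i (T.Psi i (x, u x)) = s ((T.base i).symm x)

private theorem Sec_exists (i : T.ι) {s : B → M} (hs : ContMDiff 𝓘(ℂ, V) 𝓘(ℂ, V × W) ⊤ s)
    (hf : ∀ b, f (s b) = b) {x₀ : V} (hx : x₀ ∈ T.D i) :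
    ∃ u : V → (Fin r → ℝ), ∃ O : Set V, x₀ ∈ O ∧ T.SecLift s i O u := by
  obtain ⟨O, hO, hxO, hOD, w, hw, hwq⟩ := T.exists_lift i hs hf hx
  have hPw : ∀ y, T.P i y ((T.P i y).symm (w y)) = w y := fun y =>
    (T.P i y).apply_symm_apply _
  refine ⟨fun y => (T.P i y).symm (w y), O, hxO, hO, hOD, ?_, ?_, ?_⟩
  · have h1 : ContDiffOn ℝ (⊤ : ℕ∞) w O := (hw.restrict_scalars ℝ).of_le le_top
    exact ((T.contDiffOn_P_symm i).mono hOD).clm_apply h1
  · intro x hx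
    have h1 : (fun y => T.P i y ((T.P i y).symm (w y))) = w := funext hPw
    rw [h1]
    exact ((hw x hx).contDiffAt (hO.mem_nhds hx)).differentiableAt (by simp)
  · intro x hx
    rw [← hwq x hx, Psi, hPw]

variable {T}

private theorem SecLift.diff {s : B → M} {i : T.ι} {O : Set V} {u : V → (Fin r → ℝ)}
    (h : T.SecLift s i O u) {x : V} (hx : x ∈ O) : DifferentiableAt ℝ u x :=
  ((h.sm x hx).contDiffAt (h.op.mem_nhds hx)).differentiableAt (by simp)

private theorem SecLift.unique {s : B → M} {i : T.ι} {O O' : Set V} {u u' : V → (Fin r → ℝ)}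
    (h : T.SecLift s i O u) (h' : T.SecLift s i O' u') {x : V} (hx : x ∈ O) (hx' : x ∈ O') :
    fderiv ℝ u x = fderiv ℝ u' x := by
  refine T.Sec_fderiv i (b := fun y => y) (h.diff hx) (h'.diff hx') ?_ ?_
  · filter_upwards [h.op.mem_nhds hx] with y hy
    exact h.sub hy
  · filter_upwards [h.op.mem_nhds hx, h'.op.mem_nhds hx'] with y hy hy'
    rw [h.eq y hy, h'.eq y hy']

private theorem SecLift.J_fderiv {s : B → M} {i : T.ι} {O : Set V} {u : V → (Fin r → ℝ)}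
    (h : T.SecLift s i O u) {x : V} (hx : x ∈ O) (v : V) :
    fderiv ℝ u x (mulI V v) = T.J i x (fderiv ℝ u x v) := by
  have hu := (h.diff hx).hasFDerivAt
  have hin : HasFDerivAt (𝕜 := ℝ) (fun y => (y, u y))
      ((ContinuousLinearMap.id ℝ V).prod (fderiv ℝ u x)) x :=
    (hasFDerivAt_id (𝕜 := ℝ) x).prodMk hu
  have hPsi : HasFDerivAt (𝕜 := ℝ) (T.Psi i) (fderiv ℝ (T.Psi i) (x, u x)) (x, u x) := by
    have h1 : (x, u x) ∈ T.D i ×ˢ (univ : Set (Fin r → ℝ)) := ⟨h.sub hx, mem_univ _⟩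
    have h2 : IsOpen (T.D i ×ˢ (univ : Set (Fin r → ℝ))) := (T.isOpen_D i).prod isOpen_univ
    exact (((T.contDiffOn_Psi i _ h1).contDiffAt (h2.mem_nhds h1)).differentiableAt
      (by simp)).hasFDerivAt
  have hcomp := hPsi.comp x hin
  have hC : DifferentiableAt ℂ (fun y => T.Psi i (y, u y)) x :=
    differentiableAt_id.prodMk (h.hol x hx)
  have hR : HasFDerivAt (𝕜 := ℝ) (fun y => T.Psi i (y, u y))
      ((fderiv ℂ (fun y => T.Psi i (y, u y)) x).restrictScalars ℝ) x :=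
    hC.hasFDerivAt.restrictScalars ℝ
  have heq := hcomp.unique hR
  have h1 : ∀ z : V, fderiv ℝ (T.Psi i) (x, u x) (z, fderiv ℝ u x z) =
      fderiv ℂ (fun y => T.Psi i (y, u y)) x z := by
    intro z
    exact congrArg (fun A : V →L[ℝ] V × W => A z) heq
  have h2 : fderiv ℝ (T.Psi i) (x, u x) (mulI V v, fderiv ℝ u x (mulI V v)) =
      fderiv ℝ (T.Psi i) (x, u x) (mulI V v, T.J i x (fderiv ℝ u x v)) := by
    have h3 := T.fderiv_Psi_Jt i (h.sub hx) (u x) (v, fderiv ℝ u x v)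
    have h4 : T.Jt i x (v, fderiv ℝ u x v) = (mulI V v, T.J i x (fderiv ℝ u x v)) := rfl
    rw [h4] at h3
    rw [h3, h1, h1]
    have h5 : mulI V v = Complex.I • v := rfl
    rw [h5, map_smul]
    rfl
  have h3 : (mulI V v, fderiv ℝ u x (mulI V v)) -
      (mulI V v, T.J i x (fderiv ℝ u x v)) = (0 : V × (Fin r → ℝ)) := by
    refine T.fderiv_Psi_injective i (h.sub hx) (u x) ?_
    rw [map_sub, h2, sub_self]
  exact (Prod.ext_iff.1 (sub_eq_zero.1 h3)).2

private theorem SecLift.trans {s : B → M} {i j : T.ι} {O O' : Set V} {u u' : V → (Fin r → ℝ)}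
    (h : T.SecLift s i O u) (h' : T.SecLift s j O' u') (F : T.FTrans i j) {x : V} (hx : x ∈ O)
    (hxF : x ∈ F.O) (hx' : F.a x ∈ O') (v : V) :
    F.N (fderiv ℝ u x v) + fderiv ℝ F.σ x v = fderiv ℝ u' (F.a x) (fderiv ℝ F.a x v) := by
  have ha : DifferentiableAt ℝ F.a x :=
    ((F.a_smooth x hxF).contDiffAt (F.isOpen.mem_nhds hxF)).differentiableAt (by simp)
  have hσ : DifferentiableAt ℝ F.σ x :=
    ((F.σ_smooth x hxF).contDiffAt (F.isOpen.mem_nhds hxF)).differentiableAt (by simp)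
  have hu := h.diff hx
  have hu' := h'.diff hx'
  have d1 : HasFDerivAt (𝕜 := ℝ) (fun y => F.N (u y) + F.σ y)
      ((F.N : (Fin r → ℝ) →L[ℝ] (Fin r → ℝ)).comp (fderiv ℝ u x) + fderiv ℝ F.σ x) x :=
    ((F.N : (Fin r → ℝ) →L[ℝ] (Fin r → ℝ)).hasFDerivAt.comp x hu.hasFDerivAt).add hσ.hasFDerivAt
  have d2 : HasFDerivAt (𝕜 := ℝ) (fun y => u' (F.a y))
      ((fderiv ℝ u' (F.a x)).comp (fderiv ℝ F.a x)) x :=
    hu'.hasFDerivAt.comp x ha.hasFDerivAt
  have hmem : ∀ᶠ y in 𝓝 x, F.a y ∈ O' := ha.continuousAt.eventually (h'.op.mem_nhds hx')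
  have key : fderiv ℝ (fun y => F.N (u y) + F.σ y) x = fderiv ℝ (fun y => u' (F.a y)) x := by
    refine T.Sec_fderiv j (b := F.a) d1.differentiableAt d2.differentiableAt ?_ ?_
    · filter_upwards [hmem] with y hy
      exact h'.sub hy
    · filter_upwards [hmem, h.op.mem_nhds hx, F.isOpen.mem_nhds hxF] with y hy hyO hyF
      rw [← F.q_eq y hyF (u y), h.eq y hyO, h'.eq _ hy, F.a_eq y hyF,
        (T.base j).left_inv (F.src y hyF)]
  rw [d1.fderiv, d2.fderiv] at key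
  exact congrArg (fun A : V →L[ℝ] (Fin r → ℝ) => A v) key

variable (T)

/-- Proof sketch: put `h i x = - D ((P i ·)⁻¹ w) (x)` for a local lift `w` as above near `x`; two
lifts differ by an integer vector (`q_ker`), so this does not depend on the choice.  `hol`: the
map `x ↦ (x, w x)` is holomorphic, and `fderiv_Psi_Jt`.  `trans`: `(a x, N t + σ x)` maps the lift
to a lift. -/
theorem exists_flatConn_of_section {s : B → M} (hs : ContMDiff 𝓘(ℂ, V) 𝓘(ℂ, V × W) ⊤ s)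
    (hf : ∀ b, f (s b) = b) : ∃ h : T.ι → V → V →L[ℝ] (Fin r → ℝ), T.FlatConn h := by
  classical
  have hex : ∀ (i : T.ι) (x : V), ∃ u : V → (Fin r → ℝ), x ∈ T.D i →
      ∃ O : Set V, x ∈ O ∧ T.SecLift s i O u := by
    intro i x
    by_cases hx : x ∈ T.D i
    · obtain ⟨u, hu⟩ := T.Sec_exists i hs hf hx
      exact ⟨u, fun _ => hu⟩
    · exact ⟨0, fun h => absurd h hx⟩
  choose u hu using hex
  have key : ∀ (i : T.ι) (O : Set V) (w : V → (Fin r → ℝ)), T.SecLift s i O w → ∀ x ∈ O,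
      -fderiv ℝ (u i x) x = -fderiv ℝ w x := by
    intro i O w hw x hx
    obtain ⟨O', hxO', hO'⟩ := hu i x (hw.sub hx)
    rw [hO'.unique hw hxO' hx]
  have hev : ∀ (i : T.ι) (O : Set V) (w : V → (Fin r → ℝ)), T.SecLift s i O w → ∀ x ∈ O,
      (fun x => -fderiv ℝ (u i x) x) =ᶠ[𝓝 x] fun x => -fderiv ℝ w x := by
    intro i O w hw x hx
    filter_upwards [hw.op.mem_nhds hx] with y hy
    exact key i O w hw y hy
  have hsm : ∀ (i : T.ι) (O : Set V) (w : V → (Fin r → ℝ)), T.SecLift s i O w → ∀ x ∈ O,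
      ContDiffAt ℝ (⊤ : ℕ∞) (fun x => fderiv ℝ w x) x := by
    intro i O w hw x hx
    exact ((hw.sm x hx).contDiffAt (hw.op.mem_nhds hx)).fderiv_right (by norm_cast)
  refine ⟨fun i x => -fderiv ℝ (u i x) x, ?_, ?_, ?_, ?_⟩
  · intro i x hx
    obtain ⟨O, hxO, hO⟩ := hu i x hx
    refine ContDiffAt.contDiffWithinAt ?_
    exact (hsm i O _ hO x hxO).neg.congr_of_eventuallyEq (hev i O _ hO x hxO)
  · intro i x hx v w
    obtain ⟨O, hxO, hO⟩ := hu i x hx
    rw [(hev i O _ hO x hxO).fderiv_eq, fderiv_fun_neg]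
    have hsymm : IsSymmSndFDerivAt ℝ (u i x) x :=
      ((hO.sm x hxO).contDiffAt (hO.op.mem_nhds hxO)).isSymmSndFDerivAt (by
        rw [minSmoothness_of_isRCLikeNormedField]
        exact WithTop.coe_le_coe.2 (le_top : (2 : ℕ∞) ≤ ⊤))
    have h1 := hsymm v w
    simp only [_root_.neg_apply]
    rw [h1]
  · intro i x hx v
    obtain ⟨O, hxO, hO⟩ := hu i x hx
    rw [_root_.neg_apply, _root_.neg_apply, map_neg,
      hO.J_fderiv hxO]
  · intro i j F x hx v
    obtain ⟨O, hxO, hO⟩ := hu i x (F.sub hx)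
    obtain ⟨O', hxO', hO'⟩ := hu j (F.a x) (F.a_mem hx)
    have h1 := hO.trans hO' F hxO hx hxO' v
    rw [_root_.neg_apply, _root_.neg_apply, map_neg, ← h1]
    abel

end Pool.Agent.Helper80.TF.TorusFibration
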