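import Pool.Agent.Helper80.TF.Par
import Pool.Agent.Helper80.TF.Conn
import Pool.Agent.Helper80.TF.BaseA
import Pool.Agent.Helper80.TF.KahF
import Pool.Agent.Helper80.TF.DescB
import Pool.Agent.Helper80.TF.Sec

/-!
# The main theorems
-/

open Manifold Set Filter Topology MeasureTheory

namespace Pool.Agent.Helper80.TF.TorusFibration

variable {r : ℕ} {V W : Type*} [NormedAddCommGroup V] [NormedSpace ℂ V]
    [NormedAddCommGroup W] [NormedSpace ℂ W] {B M : Type*} [TopologicalSpace B]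
    [ChartedSpace V B] [IsManifold 𝓘(ℂ, V) ⊤ B] [TopologicalSpace M] [ChartedSpace (V × W) M]
    [IsManifold 𝓘(ℂ, V × W) ⊤ M] {f : M → B} (T : TorusFibration r V W f)

/-- The dimension of the fibres. -/
theorem exists_finrank [Nonempty B] (T : TorusFibration r V W f) :
    FiniteDimensional ℂ W ∧ r = Module.finrank ℂ W * 2 := by
  obtain ⟨b⟩ := ‹Nonempty B›
  obtain ⟨i, hi⟩ := T.cover b
  have e : (Fin r → ℝ) ≃ₗ[ℝ] W := (T.P i (T.base i b)).toLinearEquiv
  haveI : Module.Finite ℝ W := Module.Finite.equiv e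
  haveI : Module.Finite ℂ W := Module.Finite.of_restrictScalars_finite ℝ ℂ W
  refine ⟨inferInstance, ?_⟩
  have h1 := e.finrank_eq
  rw [Module.finrank_fin_fun, finrank_real_of_complex] at h1
  omega

include T in
/-- The Fino–Vezzoni conjecture for torus fibrations over compact Riemann surfaces. -/
theorem kahler_of_curve [CompactSpace B] [ConnectedSpace B] (hV : Module.finrank ℂ V = 1)
    {g₁ g₂ : M → (V × W) [⋀^Fin 2]→L[ℝ] ℝ} (h₁ : IsHermitian g₁) (hb : Balanced g₁)
    (h₂ : IsHermitian g₂) (hp : Pluriclosed g₂) :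
    ∃ g₃ : M → (V × W) [⋀^Fin 2]→L[ℝ] ℝ, IsHermitian g₃ ∧ Kahler g₃ := by
  haveI : FiniteDimensional ℂ V := Module.finite_of_finrank_eq_succ hV
  obtain ⟨hW, hr⟩ := exists_finrank T
  obtain ⟨k, rfl⟩ : ∃ k, r = k * 2 := ⟨_, hr⟩
  have hk : Module.finrank ℂ (V × W) = k + 1 := by
    rw [Module.finrank_prod, hV]
    omega
  have hE := T.polar_of_pluriclosed h₂ hp
  have hh := T.flatConn_of_balanced hk h₁ hb
  exact T.exists_kahler (T.flatKahler hE hh (T.baseForm_of_flatConn hV hh h₂))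

include T in
/-- Pluriclosed implies Kähler for families of complex tori with a section over a compact Kähler
manifold. -/
theorem kahler_of_section [FiniteDimensional ℂ V] [CompactSpace B] [ConnectedSpace B]
    {g : M → (V × W) [⋀^Fin 2]→L[ℝ] ℝ} (hg : IsHermitian g) (hp : Pluriclosed g)
    {s : B → M} (hs : ContMDiff 𝓘(ℂ, V) 𝓘(ℂ, V × W) ⊤ s) (hf : ∀ b, f (s b) = b)
    {κ : B → V [⋀^Fin 2]→L[ℝ] ℝ} (hκ : IsHermitian κ) (hc : Kahler κ) :
    ∃ g₃ : M → (V × W) [⋀^Fin 2]→L[ℝ] ℝ, IsHermitian g₃ ∧ Kahler g₃ := by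
  obtain ⟨h, hh⟩ := T.exists_flatConn_of_section hs hf
  exact T.exists_kahler (T.flatKahler (T.polar_of_pluriclosed hg hp) hh
    (T.baseForm_of_kahler hκ hc))

end Pool.Agent.Helper80.TF.TorusFibration
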