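import Pool.Agent.Helper80.TF.Main
import Pool.Agent.Helper80.TF.BaseB

/-!
# Torus fibrations with a section
-/

open Manifold Set Filter Topology MeasureTheory

set_option linter.unusedSectionVars false

namespace Pool.Agent.Helper80.TF.TorusFibration

variable {r : ℕ} {V W : Type*} [NormedAddCommGroup V] [NormedSpace ℂ V]
    [NormedAddCommGroup W] [NormedSpace ℂ W] {B M : Type*} [TopologicalSpace B]
    [ChartedSpace V B] [IsManifold 𝓘(ℂ, V) ⊤ B] [TopologicalSpace M] [ChartedSpace (V × W) M]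
    [IsManifold 𝓘(ℂ, V × W) ⊤ M] {f : M → B} (T : TorusFibration r V W f)

/-- The base is a point. -/
theorem baseForm_zero (hV : Module.finrank ℂ V = 0) [FiniteDimensional ℂ V] :
    T.BaseForm fun _ _ => 0 := by
  have hs : Subsingleton V := Module.finrank_zero_iff.mp hV
  refine ⟨fun i => contDiffOn_const, fun i x _ => ?_, fun i x _ => ⟨fun v w => rfl, fun v hv => ?_⟩,
    fun i j F x _ => ?_⟩
  · ext v
    have hv : v = fun _ => 0 := Subsingleton.elim _ _
    rw [hv]
    exact ContinuousAlternatingMap.map_coord_zero _ (i := 0) rfl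
  · exact absurd (Subsingleton.elim v 0) hv
  · ext v
    rfl

include T in
/-- Torus fibrations with a section over a compact base which is Kähler or of dimension at
most `2`. -/
theorem kahler_of_section_small [FiniteDimensional ℂ V] [CompactSpace B] [ConnectedSpace B]
    {g₁ g₂ : M → (V × W) [⋀^Fin 2]→L[ℝ] ℝ} (h₁ : IsHermitian g₁) (hb : Balanced g₁)
    (h₂ : IsHermitian g₂) (hp : Pluriclosed g₂)
    {s : B → M} (hs : ContMDiff 𝓘(ℂ, V) 𝓘(ℂ, V × W) ⊤ s) (hf : ∀ b, f (s b) = b)
    (hB : Module.finrank ℂ V ≤ 2 ∨ ∃ κ : B → V [⋀^Fin 2]→L[ℝ] ℝ, IsHermitian κ ∧ Kahler κ) :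
    ∃ g₃ : M → (V × W) [⋀^Fin 2]→L[ℝ] ℝ, IsHermitian g₃ ∧ Kahler g₃ := by
  obtain hB | ⟨κ, hκ, hc⟩ := hB
  · obtain ⟨h, hh⟩ := T.exists_flatConn_of_section hs hf
    have hE := T.polar_of_pluriclosed h₂ hp
    obtain ⟨hW, hr⟩ := exists_finrank T
    obtain ⟨k, rfl⟩ : ∃ k, r = k * 2 := ⟨_, hr⟩
    obtain h0 | h0 | h0 : Module.finrank ℂ V = 0 ∨ Module.finrank ℂ V = 1 ∨
        Module.finrank ℂ V = 2 := by omega
    · exact T.exists_kahler (T.flatKahler hE hh (T.baseForm_zero h0))
    · exact T.exists_kahler (T.flatKahler hE hh (T.baseForm_of_flatConn h0 hh h₂))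
    · have hk : Module.finrank ℂ (V × W) = k + 2 := by
        rw [Module.finrank_prod, h0]
        omega
      exact T.exists_kahler (T.flatKahler hE hh (T.baseForm_of_balanced hk hE h₁ hb))
  · exact T.kahler_of_section h₂ hp hs hf hκ hc

end Pool.Agent.Helper80.TF.TorusFibration
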