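import Pool.Agent.Helper80.TF.SecA
import Pool.Agent.Helper80.TF.Smth
import Pool.Agent.Helper80.TF.ExtD

/-!
# The restriction of a pluriclosed metric to a section
-/

open Manifold Set Filter Topology MeasureTheory

set_option linter.unusedSectionVars false

namespace Pool.Agent.Helper80.TF

variable {V V' : Type*} [NormedAddCommGroup V] [NormedSpace ℂ V] [FiniteDimensional ℂ V]
    [NormedAddCommGroup V'] [NormedSpace ℂ V'] [FiniteDimensional ℂ V']
    {B M : Type*} [TopologicalSpace B] [ChartedSpace V B]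
    [IsManifold 𝓘(ℂ, V) ⊤ B] [TopologicalSpace M] [ChartedSpace V' M]
    [IsManifold 𝓘(ℂ, V') ⊤ M]

private theorem SecP_min : minSmoothness ℝ 2 ≤ (2 : WithTop ℕ∞) := by
  rw [minSmoothness_of_isRCLikeNormedField]

/-- The derivative of a holomorphic map commutes with `i`. -/
private theorem SecP_mulI {S : V → V'} {x : V} (hS : DifferentiableAt ℂ S x) (v : V) :
    fderiv ℝ S x (mulI V v) = mulI V' (fderiv ℝ S x v) := by
  rw [hS.fderiv_restrictScalars ℝ]
  change (fderiv ℂ S x) (Complex.I • v) = Complex.I • (fderiv ℂ S x) v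
  rw [map_smul]

/-- `J^* d G` is smooth. -/
private theorem SecP_smooth {E : Type*} [NormedAddCommGroup E] [NormedSpace ℝ E] {k : ℕ}
    {G : E → E [⋀^Fin k]→L[ℝ] ℝ} {z : E} (hG : ∀ᶠ y in 𝓝 z, ContDiffAt ℝ (⊤ : ℕ∞) G y)
    (A : E →L[ℝ] E) :
    ContDiffAt ℝ (⊤ : ℕ∞) (fun p => (extDeriv G p).compContinuousLinearMap A) z := by
  obtain ⟨U, hU, hUo, hzU⟩ := eventually_nhds_iff.1 hG
  have h1 : ContDiffOn ℝ (⊤ : ℕ∞) G U := fun y hy => (hU y hy).contDiffWithinAt
  exact (contDiffOn_compAlt (contDiffOn_extDeriv hUo h1) contDiffOn_const).contDiffAt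
    (hUo.mem_nhds hzU)

/-- `ddc` commutes with pullback under holomorphic maps (`extDeriv_pullback` twice; the derivative
of `S` commutes with `i`). -/
theorem ddc_pullback {G : V' → V' [⋀^Fin 2]→L[ℝ] ℝ} {S : V → V'} {x : V}
    (hS : ∀ᶠ y in 𝓝 x, DifferentiableAt ℂ S y) (hS' : ContDiffAt ℝ (⊤ : ℕ∞) S x)
    (hG : ∀ᶠ z in 𝓝 (S x), ContDiffAt ℝ (⊤ : ℕ∞) G z) :
    ddc (fun y => (G (S y)).compContinuousLinearMap (fderiv ℝ S y)) x =
      (ddc G (S x)).compContinuousLinearMap (fderiv ℝ S x) := by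
  have hS2 : ContDiffAt ℝ 2 S x := hS'.of_le (WithTop.coe_le_coe.2 (le_top : (2 : ℕ∞) ≤ ⊤))
  have h1 : (fun y => (extDeriv (fun y => (G (S y)).compContinuousLinearMap (fderiv ℝ S y))
      y).compContinuousLinearMap (mulI V)) =ᶠ[𝓝 x]
      fun y => ((extDeriv G (S y)).compContinuousLinearMap
        (mulI V')).compContinuousLinearMap (fderiv ℝ S y) := by
    filter_upwards [hS, hS2.eventually (by simp), hS'.continuousAt.eventually hG]
      with y hy1 hy2 hy3
    rw [extDeriv_pullback (hy3.differentiableAt (by simp)) hy2 SecP_min]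
    ext v
    simp only [ContinuousAlternatingMap.compContinuousLinearMap_apply]
    congr 1
    funext j
    exact SecP_mulI hy1 (v j)
  unfold ddc
  rw [h1.extDeriv_eq]
  exact extDeriv_pullback (ω := fun z => (extDeriv G z).compContinuousLinearMap (mulI V'))
    ((SecP_smooth hG (mulI V')).differentiableAt (by simp)) hS2 SecP_min

/-- The pullback of a form under a map of manifolds. -/
private noncomputable def SecP_form (s : B → M) (g : M → V' [⋀^Fin 2]→L[ℝ] ℝ) (b : B) :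
    V [⋀^Fin 2]→L[ℝ] ℝ :=
  (g (s b)).compContinuousLinearMap
    ((mfderiv 𝓘(ℂ, V) 𝓘(ℂ, V') s b : V →L[ℂ] V').restrictScalars ℝ)

private theorem SecP_aux (g : M → V' [⋀^Fin 2]→L[ℝ] ℝ) {m m' : M} {A A' : V →L[ℂ] V'}
    (hm : m = m') (hA : A = A') :
    (g m).compContinuousLinearMap (A.restrictScalars ℝ) =
      (g m').compContinuousLinearMap (A'.restrictScalars ℝ) := by
  rw [hm, hA]

/-- In charts, the pullback is the pullback under the coordinate expression of the map. -/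
private theorem SecP_eq {s : B → M} (hs : ContMDiff 𝓘(ℂ, V) 𝓘(ℂ, V') ⊤ s)
    (g : M → V' [⋀^Fin 2]→L[ℝ] ℝ) {e : OpenPartialHomeomorph B V} (he : e ∈ holCharts V B)
    {p : V} (hp : p ∈ e.target) :
    ∃ c ∈ holCharts V' M, ∃ S : V → V', ∃ O : Set V, IsOpen O ∧ p ∈ O ∧ ContDiffOn ℂ ⊤ S O ∧
      (∀ y ∈ O, S y ∈ c.target) ∧
      ∀ y ∈ O, pull e.symm (SecP_form (V := V) s g) y =
        (pull c.symm g (S y)).compContinuousLinearMap (fderiv ℝ S y) := by
  have hn : (⊤ : WithTop ℕ∞) ≠ 0 := by simp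
  set m := s (e.symm p) with hm
  set c := chartAt V' m with hc
  have hcm : c ∈ holCharts V' M := IsManifold.chart_mem_maximalAtlas m
  have hsymm : ContMDiffOn 𝓘(ℂ, V) 𝓘(ℂ, V) ⊤ e.symm e.target :=
    contMDiffOn_symm_of_mem_maximalAtlas he
  have hss : ContMDiffOn 𝓘(ℂ, V) 𝓘(ℂ, V') ⊤ (fun y => s (e.symm y)) e.target :=
    hs.comp_contMDiffOn hsymm
  set O : Set V := e.target ∩ (fun y => s (e.symm y)) ⁻¹' c.source with hO
  have hOo : IsOpen O :=
    hss.continuousOn.isOpen_inter_preimage e.open_target c.open_source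
  have hS : ContMDiffOn 𝓘(ℂ, V) 𝓘(ℂ, V') ⊤ (fun y => c (s (e.symm y))) O :=
    (contMDiffOn_of_mem_maximalAtlas hcm).comp (hss.mono inter_subset_left) inter_subset_right
  refine ⟨c, hcm, fun y => c (s (e.symm y)), O, hOo, ⟨hp, mem_chart_source V' m⟩,
    contMDiffOn_iff_contDiffOn.1 hS, fun y hy => c.map_source hy.2, ?_⟩
  intro y hy
  have hSd : DifferentiableAt ℂ (fun y => c (s (e.symm y))) y :=
    ((contMDiffOn_iff_contDiffOn.1 hS).contDiffAt (hOo.mem_nhds hy)).differentiableAt hn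
  have h1 : MDifferentiableAt 𝓘(ℂ, V) 𝓘(ℂ, V) e.symm y :=
    ((hsymm y hy.1).contMDiffAt (e.open_target.mem_nhds hy.1)).mdifferentiableAt hn
  have h2 : MDifferentiableAt 𝓘(ℂ, V) 𝓘(ℂ, V') s (e.symm y) := hs.mdifferentiableAt hn
  have hcy : c (s (e.symm y)) ∈ c.target := c.map_source hy.2
  have h3 : MDifferentiableAt 𝓘(ℂ, V') 𝓘(ℂ, V') c.symm (c (s (e.symm y))) :=
    ((contMDiffOn_symm_of_mem_maximalAtlas hcm _ hcy).contMDiffAt
      (c.open_target.mem_nhds hcy)).mdifferentiableAt hn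
  have h4 : mfderiv 𝓘(ℂ, V) 𝓘(ℂ, V') (s ∘ e.symm) y =
      (mfderiv 𝓘(ℂ, V) 𝓘(ℂ, V') s (e.symm y)).comp (mfderiv 𝓘(ℂ, V) 𝓘(ℂ, V) e.symm y) :=
    mfderiv_comp y h2 h1
  have h5 : mfderiv 𝓘(ℂ, V) 𝓘(ℂ, V') (c.symm ∘ fun y => c (s (e.symm y))) y =
      (mfderiv 𝓘(ℂ, V') 𝓘(ℂ, V') c.symm (c (s (e.symm y)))).comp
        (mfderiv 𝓘(ℂ, V) 𝓘(ℂ, V') (fun y => c (s (e.symm y))) y) :=
    mfderiv_comp y h3 hSd.mdifferentiableAt
  have h6 : (s ∘ e.symm) =ᶠ[𝓝 y] (c.symm ∘ fun y => c (s (e.symm y))) := by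
    filter_upwards [hOo.mem_nhds hy] with z hz
    exact (c.left_inv hz.2).symm
  have h7 := h6.mfderiv_eq (I := 𝓘(ℂ, V)) (I' := 𝓘(ℂ, V'))
  rw [mfderiv_eq_fderiv] at h5
  have h8 : ((mfderiv 𝓘(ℂ, V) 𝓘(ℂ, V') s (e.symm y) : V →L[ℂ] V').comp
      (mfderiv 𝓘(ℂ, V) 𝓘(ℂ, V) e.symm y : V →L[ℂ] V)) =
      (mfderiv 𝓘(ℂ, V') 𝓘(ℂ, V') c.symm (c (s (e.symm y))) : V' →L[ℂ] V').comp
        (fderiv ℂ (fun y => c (s (e.symm y))) y) :=
    h4.symm.trans (h7.trans h5)
  have h9 : fderiv ℝ (fun y => c (s (e.symm y))) y =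
      (fderiv ℂ (fun y => c (s (e.symm y))) y).restrictScalars ℝ :=
    hSd.fderiv_restrictScalars ℝ
  rw [h9]
  exact SecP_aux (V := V) (V' := V') g (c.left_inv hy.2).symm h8

/-- The pullback of a pluriclosed Hermitian metric under a holomorphic immersion is a pluriclosed
Hermitian metric. -/
theorem exists_pluriclosed_pullback {s : B → M} (hs : ContMDiff 𝓘(ℂ, V) 𝓘(ℂ, V') ⊤ s)
    (hi : ∀ b, Function.Injective (mfderiv 𝓘(ℂ, V) 𝓘(ℂ, V') s b))
    {g : M → V' [⋀^Fin 2]→L[ℝ] ℝ} (hg : IsHermitian g) (hp : Pluriclosed g) :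
    ∃ κ : B → V [⋀^Fin 2]→L[ℝ] ℝ, IsHermitian κ ∧ Pluriclosed κ := by
  refine ⟨SecP_form (V := V) s g, ⟨?_, ?_⟩, ?_⟩
  · intro e he p hpe
    obtain ⟨c, hc, S, O, hO, hpO, hS, hSc, heq⟩ := SecP_eq hs g he hpe
    have hSR : ContDiffOn ℝ (⊤ : ℕ∞) S O := (hS.restrict_scalars ℝ).of_le le_top
    have h1 : ContDiffOn ℝ (⊤ : ℕ∞) (fun y => pull c.symm g (S y)) O :=
      (hg.1 c hc).comp hSR hSc
    have h2 : ContDiffOn ℝ (⊤ : ℕ∞) (fun y => fderiv ℝ S y) O :=
      hSR.fderiv_of_isOpen hO (by simp)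
    have h3 : ContDiffOn ℝ (⊤ : ℕ∞) (pull e.symm (SecP_form (V := V) s g)) O :=
      (contDiffOn_compAlt h1 h2).congr heq
    exact (h3.contDiffAt (hO.mem_nhds hpO)).contDiffWithinAt
  · intro b
    set A : V →L[ℂ] V' := mfderiv 𝓘(ℂ, V) 𝓘(ℂ, V') s b with hA
    have hκ : ∀ v w, SecP_form (V := V) s g b ![v, w] = g (s b) ![A v, A w] := by
      intro v w
      change g (s b) (_ ∘ ![v, w]) = _
      congr 1
      funext j
      fin_cases j <;> rfl
    have hAI : ∀ v, A (mulI V v) = mulI V' (A v) := by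
      intro v
      change A (Complex.I • v) = Complex.I • A v
      rw [map_smul]
    refine ⟨fun v w => ?_, fun v hv => ?_⟩
    · rw [hκ, hκ, hAI, hAI, (hg.2 (s b)).1]
    · rw [hκ, hAI]
      refine (hg.2 (s b)).2 _ fun h => hv ?_
      exact hi b (h.trans (map_zero A).symm)
  · intro e he p hpe
    obtain ⟨c, hc, S, O, hO, hpO, hS, hSc, heq⟩ := SecP_eq hs g he hpe
    have hSR : ContDiffOn ℝ (⊤ : ℕ∞) S O := (hS.restrict_scalars ℝ).of_le le_top
    have h1 : pull e.symm (SecP_form (V := V) s g) =ᶠ[𝓝 p]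
        fun y => (pull c.symm g (S y)).compContinuousLinearMap (fderiv ℝ S y) := by
      filter_upwards [hO.mem_nhds hpO] with y hy
      exact heq y hy
    have h2 : ddc (pull e.symm (SecP_form (V := V) s g)) p =
        ddc (fun y => (pull c.symm g (S y)).compContinuousLinearMap (fderiv ℝ S y)) p := by
      unfold ddc
      have h3 : (fun q => (extDeriv (pull e.symm (SecP_form (V := V) s g)) q).compContinuousLinearMap
          (mulI V)) =ᶠ[𝓝 p] fun q => (extDeriv (fun y =>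
            (pull c.symm g (S y)).compContinuousLinearMap
              (fderiv ℝ S y)) q).compContinuousLinearMap (mulI V) := by
        filter_upwards [h1.extDeriv] with q hq
        rw [hq]
      exact h3.extDeriv_eq
    rw [h2, ddc_pullback]
    · rw [hp c hc _ (hSc p hpO)]
      ext v
      rfl
    · filter_upwards [hO.mem_nhds hpO] with y hy
      exact (hS.contDiffAt (hO.mem_nhds hy)).differentiableAt (by simp)
    · exact hSR.contDiffAt (hO.mem_nhds hpO)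
    · filter_upwards [c.open_target.mem_nhds (hSc p hpO)] with z hz
      exact (hg.1 c hc).contDiffAt (c.open_target.mem_nhds hz)

end Pool.Agent.Helper80.TF
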