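import Pool.Agent.Helper80.TF.MainB
import Pool.Agent.Helper80.TF.BalP
import Pool.Agent.Helper80.TF.GlueB
import Pool.Agent.Helper80.TF.SecP

/-!
# Torus fibrations with a section: reduction to the base
-/

open Manifold Set Filter Topology MeasureTheory

set_option linter.unusedSectionVars false

namespace Pool.Agent.Helper80.TF.TorusFibration

variable {r : ℕ} {V W : Type*} [NormedAddCommGroup V] [NormedSpace ℂ V]
    [NormedAddCommGroup W] [NormedSpace ℂ W] {B M : Type*} [TopologicalSpace B]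
    [ChartedSpace V B] [IsManifold 𝓘(ℂ, V) ⊤ B] [TopologicalSpace M] [ChartedSpace (V × W) M]
    [IsManifold 𝓘(ℂ, V × W) ⊤ M] {f : M → B} (T : TorusFibration r V W f)

private theorem MainP_local {V : Type*} [NormedAddCommGroup V] [NormedSpace ℂ V] {B : Type*}
    [TopologicalSpace B] [ChartedSpace V B] [IsManifold 𝓘(ℂ, V) ⊤ B]
    {e : OpenPartialHomeomorph B V} (he : e ∈ holCharts V B) {x : V} (hx : x ∈ e.target) :
    IsLocalDiffeomorphAt 𝓘(ℂ, V) 𝓘(ℂ, V) ⊤ e.symm x :=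
  ⟨{ toPartialEquiv := e.symm.toPartialEquiv
     open_source := e.symm.open_source
     open_target := e.symm.open_target
     contMDiffOn_toFun := contMDiffOn_symm_of_mem_maximalAtlas he
     contMDiffOn_invFun := contMDiffOn_of_mem_maximalAtlas he }, hx, fun _ _ => rfl⟩

/-- The derivative of a change of charts is injective. -/
private theorem MainP_inj {i j : T.ι} (F : T.FTrans i j) {x : V} (hx : x ∈ F.O) :
    Function.Injective (fderiv ℝ F.a x) := by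
  set e := (T.base i).symm.trans (T.base j) with he
  have h1 : e ∈ contDiffGroupoid ⊤ 𝓘(ℂ, V) :=
    IsManifold.compatible_of_mem_maximalAtlas (T.base_mem i) (T.base_mem j)
  have h1' : e.symm ∈ contDiffGroupoid ⊤ 𝓘(ℂ, V) := (contDiffGroupoid ⊤ 𝓘(ℂ, V)).symm h1
  have h2 := contMDiffOn_of_mem_contDiffGroupoid h1
  have h2' := contMDiffOn_of_mem_contDiffGroupoid h1'
  rw [contMDiffOn_iff_contDiffOn] at h2 h2'
  have h3 : x ∈ e.source := by
    rw [he, OpenPartialHomeomorph.trans_source]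
    exact ⟨F.sub hx, F.src x hx⟩
  have h3' : e x ∈ e.symm.source := e.map_source h3
  have h4 : DifferentiableAt ℝ e x :=
    ((h2.contDiffAt (e.open_source.mem_nhds h3)).differentiableAt (by simp)).restrictScalars ℝ
  have h4' : DifferentiableAt ℝ e.symm (e x) :=
    ((h2'.contDiffAt (e.symm.open_source.mem_nhds h3')).differentiableAt
      (by simp)).restrictScalars ℝ
  have h5 : F.a =ᶠ[𝓝 x] e := by
    filter_upwards [F.isOpen.mem_nhds hx] with y hy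
    rw [F.a_eq y hy]
    rfl
  have h6 : (e.symm ∘ e) =ᶠ[𝓝 x] id := by
    filter_upwards [e.open_source.mem_nhds h3] with y hy
    exact e.left_inv hy
  have h7 : (fderiv ℝ e.symm (e x)).comp (fderiv ℝ e x) = ContinuousLinearMap.id ℝ V := by
    rw [← fderiv_comp x h4' h4, h6.fderiv_eq, fderiv_id]
  rw [h5.fderiv_eq]
  intro u v huv
  have h8 : ∀ z, fderiv ℝ e.symm (e x) (fderiv ℝ e x z) = z := fun z =>
    congrArg (fun A : V →L[ℝ] V => A z) h7
  rw [← h8 u, ← h8 v, huv]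

include T in
/-- The derivative of a section is injective, because `f ∘ s = id`: locally
`s (base i).symm x = q i (x, w x)` by `exists_lift`. -/
theorem mfderiv_section_injective [FiniteDimensional ℂ V] {s : B → M}
    (hs : ContMDiff 𝓘(ℂ, V) 𝓘(ℂ, V × W) ⊤ s)
    (hf : ∀ b, f (s b) = b) (b : B) :
    Function.Injective (mfderiv 𝓘(ℂ, V) 𝓘(ℂ, V × W) s b) := by
  obtain ⟨i, hi⟩ := T.cover b
  obtain ⟨x₀, hx₀, rfl⟩ : ∃ x₀ ∈ (T.base i).target, (T.base i).symm x₀ = b :=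
    ⟨T.base i b, (T.base i).map_source hi, (T.base i).left_inv hi⟩
  obtain ⟨O, hO, hxO, hOD, w, hw, hwq⟩ := T.exists_lift i hs hf hx₀
  have hn : (⊤ : WithTop ℕ∞) ≠ 0 := by simp
  have hq := T.q_hol i ⟨(x₀, w x₀), ⟨hx₀, mem_univ _⟩⟩
  have hw' : DifferentiableAt ℂ w x₀ :=
    (hw.contDiffAt (hO.mem_nhds hxO)).differentiableAt (by simp)
  have hg : HasFDerivAt (fun x => (x, w x))
      ((ContinuousLinearMap.id ℂ V).prod (fderiv ℂ w x₀)) x₀ :=
    (hasFDerivAt_id x₀).prodMk hw'.hasFDerivAt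
  have hgm : MDifferentiableAt 𝓘(ℂ, V) 𝓘(ℂ, V × W) (fun x => (x, w x)) x₀ :=
    hg.differentiableAt.mdifferentiableAt
  have h1 : (T.q i ∘ fun x => (x, w x)) =ᶠ[𝓝 x₀] (s ∘ (T.base i).symm) := by
    filter_upwards [hO.mem_nhds hxO] with x hx
    exact hwq x hx
  have hloc := MainP_local (T.base_mem i) hx₀
  have h2 : mfderiv 𝓘(ℂ, V) 𝓘(ℂ, V × W) (T.q i ∘ fun x => (x, w x)) x₀ =
      (mfderiv 𝓘(ℂ, V × W) 𝓘(ℂ, V × W) (T.q i) (x₀, w x₀)).comp
        (mfderiv 𝓘(ℂ, V) 𝓘(ℂ, V × W) (fun x => (x, w x)) x₀) :=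
    mfderiv_comp x₀ (hq.mdifferentiableAt hn) hgm
  have h3 : mfderiv 𝓘(ℂ, V) 𝓘(ℂ, V × W) (s ∘ (T.base i).symm) x₀ =
      (mfderiv 𝓘(ℂ, V) 𝓘(ℂ, V × W) s ((T.base i).symm x₀)).comp
        (mfderiv 𝓘(ℂ, V) 𝓘(ℂ, V) (T.base i).symm x₀) :=
    mfderiv_comp x₀ (hs.mdifferentiableAt hn) (hloc.mdifferentiableAt hn)
  obtain ⟨A, hA⟩ := mfderiv_bijective hloc
  obtain ⟨A', hA'⟩ := mfderiv_bijective hq
  rw [mfderiv_eq_fderiv, hg.fderiv] at h2
  -- the value of both sides at a vector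
  have h4 : ∀ u : V, (mfderiv 𝓘(ℂ, V) 𝓘(ℂ, V × W) s ((T.base i).symm x₀) : V →L[ℂ] V × W)
      (A u) = A' (u, fderiv ℂ w x₀ u) := by
    intro u
    have h5 : (mfderiv 𝓘(ℂ, V) 𝓘(ℂ, V × W) (s ∘ (T.base i).symm) x₀ : V →L[ℂ] V × W) u =
        (mfderiv 𝓘(ℂ, V) 𝓘(ℂ, V × W) (T.q i ∘ fun x => (x, w x)) x₀ : V →L[ℂ] V × W) u :=
      congrArg (fun L : V →L[ℂ] V × W => L u) h1.mfderiv_eq.symm
    rw [← hA, ← hA']
    have h6 : (mfderiv 𝓘(ℂ, V) 𝓘(ℂ, V × W) (s ∘ (T.base i).symm) x₀ : V →L[ℂ] V × W) u =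
        (mfderiv 𝓘(ℂ, V) 𝓘(ℂ, V × W) s ((T.base i).symm x₀) : V →L[ℂ] V × W)
        ((mfderiv 𝓘(ℂ, V) 𝓘(ℂ, V) (T.base i).symm x₀ : V →L[ℂ] V) u) :=
      congrArg (fun L : V →L[ℂ] V × W => L u) h3
    have h7 : (mfderiv 𝓘(ℂ, V) 𝓘(ℂ, V × W) (T.q i ∘ fun x => (x, w x)) x₀ : V →L[ℂ] V × W) u =
        (mfderiv 𝓘(ℂ, V × W) 𝓘(ℂ, V × W) (T.q i) (x₀, w x₀) : V × W →L[ℂ] V × W)
        (u, fderiv ℂ w x₀ u) :=
      congrArg (fun L : V →L[ℂ] V × W => L u) h2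
    exact h6.symm.trans (h5.trans h7)
  intro v v' hvv
  have h5 := h4 (A.symm v)
  have h6 := h4 (A.symm v')
  rw [A.apply_symm_apply] at h5 h6
  have h7 : A' (A.symm v, fderiv ℂ w x₀ (A.symm v)) =
      A' (A.symm v', fderiv ℂ w x₀ (A.symm v')) := h5.symm.trans (hvv.trans h6)
  exact A.symm.injective (congrArg Prod.fst (A'.injective h7))

/-- In dimension at most `1` every Hermitian metric is balanced: `wpow 0 a` does not depend
on `a`. -/
theorem balanced_of_dim_le_one {V : Type*} [NormedAddCommGroup V] [NormedSpace ℂ V]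
    {B : Type*} [TopologicalSpace B] [ChartedSpace V B] (hV : Module.finrank ℂ V ≤ 1)
    (κ : B → V [⋀^Fin 2]→L[ℝ] ℝ) : Balanced κ := by
  intro e _ p _
  have h0 : Module.finrank ℂ V - 1 = 0 := by omega
  rw [h0]
  have h1 : (fun x => wpow 0 (pull e.symm κ x)) = fun _ : V => wpow 0 (pull e.symm κ p) := by
    funext x
    unfold wpow
    congr 2
  rw [h1]
  unfold extDeriv
  rw [fderiv_fun_const]
  exact (ContinuousAlternatingMap.alternatizeUncurryFinCLM ℝ V ℝ).map_zero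

include T in
/-- If `M` is balanced and the fibres have a parallel polarisation then `B` is balanced. -/
theorem exists_balanced_base [FiniteDimensional ℂ V] [CompactSpace B] [ConnectedSpace B]
    (hV : 2 ≤ Module.finrank ℂ V) {g₁ g₂ : M → (V × W) [⋀^Fin 2]→L[ℝ] ℝ} (h₁ : IsHermitian g₁)
    (hb : Balanced g₁) (h₂ : IsHermitian g₂) (hp : Pluriclosed g₂) :
    ∃ κ : B → V [⋀^Fin 2]→L[ℝ] ℝ, IsHermitian κ ∧ Balanced κ := by
  haveI : FiniteDimensional ℝ V := FiniteDimensional.complexToReal V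
  obtain ⟨hW, hr⟩ := exists_finrank T
  obtain ⟨k, rfl⟩ : ∃ k, r = k * 2 := ⟨_, hr⟩
  obtain ⟨p, hp1⟩ : ∃ p, Module.finrank ℂ V = p + 1 := ⟨_, (Nat.sub_add_cancel (by omega)).symm⟩
  have hp0 : p ≠ 0 := by omega
  have hk : Module.finrank ℂ (V × W) = k + p + 1 := by
    rw [Module.finrank_prod, hp1]
    omega
  have hE := T.polar_of_pluriclosed h₂ hp
  obtain ⟨b, hbo⟩ := exists_oriented hp1
  have hpos := fun i x (hx : x ∈ T.D i) => T.topOf_pos (p := p) hE h₁ i hx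
  obtain ⟨κ, hκ, hκi⟩ := T.exists_hermitian_base
    (a := fun i x => root b (T.topOf p (fun i x => T.E i g₂ x) g₁ i x))
    (fun i => contDiffOn_root hp1 b hbo (hpos i) (T.contDiffOn_topOf hE h₁ i))
    (fun i x hx => (root_spec hp0 hp1 b hbo (hpos i x hx)).1)
    (by
      intro i j F x hx
      have ha : F.a x ∈ T.D j := F.a_mem hx
      have h3 := T.topOf_trans (p := p) hE h₁ F hx
      change root b _ = _
      rw [h3]
      refine root_comp hp0 hp1 b hbo (hpos j _ ha) _ (fun v => F.fderiv_a_mulI hx v)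
        (MainP_inj T F hx))
  refine ⟨κ, hκ, T.balanced_of_charts hκ.1 ?_⟩
  intro i x hx
  have h1 : Module.finrank ℂ V - 1 = p := by omega
  rw [h1]
  have h4 : (fun y => wpow p (pull (T.base i).symm κ y)) =ᶠ[𝓝 x]
      T.topOf p (fun i x => T.E i g₂ x) g₁ i := by
    filter_upwards [(T.isOpen_D i).mem_nhds hx] with y hy
    rw [hκi i y hy]
    exact (root_spec hp0 hp1 b hbo (hpos i y hy)).2
  rw [h4.extDeriv_eq]
  exact T.topOf_closed hk hE h₁ hb i hx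

include T in
/-- The reduction theorem. -/
theorem reduction [FiniteDimensional ℂ V] [CompactSpace B] [ConnectedSpace B]
    {g₁ g₂ : M → (V × W) [⋀^Fin 2]→L[ℝ] ℝ} (h₁ : IsHermitian g₁) (hb : Balanced g₁)
    (h₂ : IsHermitian g₂) (hp : Pluriclosed g₂)
    {s : B → M} (hs : ContMDiff 𝓘(ℂ, V) 𝓘(ℂ, V × W) ⊤ s) (hf : ∀ b, f (s b) = b) :
    (∃ κ : B → V [⋀^Fin 2]→L[ℝ] ℝ, IsHermitian κ ∧ Balanced κ) ∧
    (∃ κ : B → V [⋀^Fin 2]→L[ℝ] ℝ, IsHermitian κ ∧ Pluriclosed κ) ∧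
    ((Module.finrank ℂ V ≤ 2 ∨ ∃ κ : B → V [⋀^Fin 2]→L[ℝ] ℝ, IsHermitian κ ∧ Kahler κ) →
      ∃ g₃ : M → (V × W) [⋀^Fin 2]→L[ℝ] ℝ, IsHermitian g₃ ∧ Kahler g₃) := by
  obtain ⟨hW, hr⟩ := exists_finrank T
  obtain ⟨κ, hκ, hκp⟩ := exists_pluriclosed_pullback hs (T.mfderiv_section_injective hs hf) h₂ hp
  refine ⟨?_, ⟨κ, hκ, hκp⟩, T.kahler_of_section_small h₁ hb h₂ hp hs hf⟩
  by_cases hV : 2 ≤ Module.finrank ℂ V
  · exact T.exists_balanced_base hV h₁ hb h₂ hp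
  · exact ⟨κ, hκ, balanced_of_dim_le_one (by omega) κ⟩

end Pool.Agent.Helper80.TF.TorusFibration
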