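import Mathlib

/-!
# The matrix identity behind the superharmonicity of the logarithm of the volume
-/

open Matrix

namespace Pool.Agent.Helper80.TF

variable {n : Type*} [Fintype n] [DecidableEq n]

theorem isUnit_det_of_pos {J E : Matrix n n ℝ}
    (hpos : ∀ x : n → ℝ, x ≠ 0 → 0 < x ⬝ᵥ (E * J) *ᵥ x) : IsUnit E.det := by
  have h : IsUnit (E * J).det := by
    rw [isUnit_iff_ne_zero]
    intro h0
    obtain ⟨x, hx, hx0⟩ := Matrix.exists_mulVec_eq_zero_iff.mpr h0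
    have := hpos x hx
    rw [hx0, dotProduct_zero] at this
    exact lt_irrefl _ this
  rw [Matrix.det_mul] at h
  exact isUnit_of_mul_isUnit_left h

open scoped MatrixOrder in
/-- `J⁻¹ P J` is the adjoint of `P = E⁻¹ * X` with respect to the inner product `G = E * J`
(here `Xᵀ = - X`), hence the trace is the square of the norm of `P`. -/
theorem trace_nonneg {J E X : Matrix n n ℝ} (hJ : J * J = -1) (hE : Eᵀ = -E)
    (hJE : Jᵀ * E * J = E) (hpos : ∀ x : n → ℝ, x ≠ 0 → 0 < x ⬝ᵥ (E * J) *ᵥ x)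
    (hX : Xᵀ = -X) :
    0 ≤ trace (J⁻¹ * (E⁻¹ * X) * J * (E⁻¹ * X)) ∧
      (trace (J⁻¹ * (E⁻¹ * X) * J * (E⁻¹ * X)) = 0 → X = 0) := by
  have hdet := isUnit_det_of_pos hpos
  have hEi : (E⁻¹)ᵀ = -E⁻¹ := by
    rw [Matrix.transpose_nonsing_inv, hE]
    exact Matrix.inv_eq_left_inv (by rw [neg_mul_neg, Matrix.nonsing_inv_mul _ hdet])
  -- the inner product
  have h1 : Jᵀ * E = -(E * J) := by
    have h2 : Jᵀ * E * J * J = E * J := by rw [hJE]
    rw [Matrix.mul_assoc (Jᵀ * E), hJ, mul_neg, mul_one] at h2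
    rw [← h2, neg_neg]
  have hG : (E * J).PosDef := by
    refine Matrix.PosDef.of_dotProduct_mulVec_pos ?_ fun x hx => ?_
    · rw [Matrix.IsHermitian, Matrix.conjTranspose_eq_transpose_of_trivial, Matrix.transpose_mul,
        hE, mul_neg, h1, neg_neg]
    · rw [star_trivial]
      exact hpos x hx
  obtain ⟨B, hB, hGB⟩ := CStarAlgebra.isStrictlyPositive_iff_eq_star_mul_self.mp
    hG.isStrictlyPositive
  have hBdet : IsUnit B.det := (Matrix.isUnit_iff_isUnit_det _).mp hB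
  have hGB' : E * J = Bᵀ * B := by
    rw [hGB, Matrix.star_eq_conjTranspose, Matrix.conjTranspose_eq_transpose_of_trivial]
  -- the adjoint
  have hPT : (E⁻¹ * X)ᵀ = X * E⁻¹ := by
    rw [Matrix.transpose_mul, hX, hEi, neg_mul_neg]
  have hadj : J⁻¹ * (E⁻¹ * X) * J = B⁻¹ * (Bᵀ)⁻¹ * ((E⁻¹ * X)ᵀ * (Bᵀ * B)) := by
    rw [← Matrix.mul_inv_rev, ← hGB', hPT, Matrix.mul_inv_rev, Matrix.mul_assoc X,
      ← Matrix.mul_assoc E⁻¹ E, Matrix.nonsing_inv_mul _ hdet, one_mul]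
    simp only [Matrix.mul_assoc]
  have hkey : trace (J⁻¹ * (E⁻¹ * X) * J * (E⁻¹ * X)) =
      trace ((B * (E⁻¹ * X) * B⁻¹)ᴴ * (B * (E⁻¹ * X) * B⁻¹)) := by
    rw [hadj, Matrix.conjTranspose_eq_transpose_of_trivial, Matrix.transpose_mul _ B⁻¹,
      Matrix.transpose_mul B, Matrix.transpose_nonsing_inv]
    have e1 : B⁻¹ * (Bᵀ)⁻¹ * ((E⁻¹ * X)ᵀ * (Bᵀ * B)) * (E⁻¹ * X) =
        B⁻¹ * ((Bᵀ)⁻¹ * ((E⁻¹ * X)ᵀ * Bᵀ) * (B * (E⁻¹ * X))) := by
      simp only [Matrix.mul_assoc]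
    rw [e1, Matrix.trace_mul_comm]
    simp only [Matrix.mul_assoc]
  rw [hkey]
  refine ⟨(Matrix.posSemidef_conjTranspose_mul_self _).trace_nonneg, fun h => ?_⟩
  rw [Matrix.trace_conjTranspose_mul_self_eq_zero_iff] at h
  have h3 : B⁻¹ * (B * (E⁻¹ * X) * B⁻¹) * B = E⁻¹ * X := by
    have : B⁻¹ * (B * (E⁻¹ * X) * B⁻¹) * B = B⁻¹ * B * (E⁻¹ * X) * (B⁻¹ * B) := by
      simp only [Matrix.mul_assoc]
    rw [this, Matrix.nonsing_inv_mul _ hBdet, one_mul, mul_one]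
  rw [h, mul_zero, zero_mul] at h3
  have h4 : E * (E⁻¹ * X) = X := by
    rw [← Matrix.mul_assoc, Matrix.mul_nonsing_inv _ hdet, one_mul]
  rw [← h4, ← h3, mul_zero]

end Pool.Agent.Helper80.TF
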