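import Pool.Agent.Helper80.TF.MatA
import Pool.Agent.Helper80.TF.MatB

/-!
# The matrix identity behind the superharmonicity of the logarithm of the volume
-/

open Matrix

namespace Pool.Agent.Helper80.TF

variable {n : Type*} [Fintype n] [DecidableEq n]

/-- Consequence of the three preceding statements. -/
theorem mat_key {J E : Matrix n n ℝ} (hJ : J * J = -1) (hE : Eᵀ = -E)
    (hJE : Jᵀ * E * J = E) (hpos : ∀ x : n → ℝ, x ≠ 0 → 0 < x ⬝ᵥ (E * J) *ᵥ x)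
    (J' E' E'' : Fin 2 → Matrix n n ℝ)
    (h1 : ∀ r, J * J' r + J' r * J = 0) (h2 : ∀ r, (E' r)ᵀ = -E' r)
    (h3 : ∀ r, E' r = (J' r)ᵀ * E * J + Jᵀ * E' r * J + Jᵀ * E * J' r)
    (h4 : ∑ r, ((J' r)ᵀ * E' r * J + Jᵀ * E'' r * J + Jᵀ * E' r * J' r) = 0) :
    ∑ r, (trace (E⁻¹ * E'' r) - trace (E⁻¹ * E' r * (E⁻¹ * E' r))) ≤ 0 ∧
      (∑ r, (trace (E⁻¹ * E'' r) - trace (E⁻¹ * E' r * (E⁻¹ * E' r))) = 0 →
        ∀ r, E' r = 0) := by
  have hnn := fun r => trace_nonneg hJ hE hJE hpos (h2 r)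
  rw [mat_identity hJ hE (isUnit_det_of_pos hpos) hJE J' E' E'' h1 h2 h3 h4]
  refine ⟨neg_nonpos.mpr (Finset.sum_nonneg fun r _ => (hnn r).1), fun h r => ?_⟩
  rw [neg_eq_zero] at h
  exact (hnn r).2 ((Finset.sum_eq_zero_iff_of_nonneg fun r _ => (hnn r).1).mp h r
    (Finset.mem_univ r))

end Pool.Agent.Helper80.TF
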