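import Mathlib

/-!
# The matrix identity behind the superharmonicity of the logarithm of the volume
-/

open Matrix

namespace Pool.Agent.Helper80.TF

variable {n : Type*} [Fintype n] [DecidableEq n]

private theorem matA_inv {J : Matrix n n ℝ} (hJ : J * J = -1) : J⁻¹ = -J :=
  Matrix.inv_eq_left_inv (by rw [neg_mul, hJ, neg_neg])

private theorem matA_invT {E : Matrix n n ℝ} (hE : Eᵀ = -E) (hdet : IsUnit E.det) :
    (E⁻¹)ᵀ = -E⁻¹ := by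
  rw [Matrix.transpose_nonsing_inv, hE]
  exact Matrix.inv_eq_left_inv (by rw [neg_mul_neg, Matrix.nonsing_inv_mul _ hdet])

private theorem matA_comm {J E : Matrix n n ℝ} (hJ : J * J = -1) (hdet : IsUnit E.det)
    (hJE : Jᵀ * E * J = E) : E⁻¹ * Jᵀ = -(J * E⁻¹) := by
  have h1 : Jᵀ * E = -(E * J) := by
    have h2 : Jᵀ * E * J * J = E * J := by rw [hJE]
    rw [Matrix.mul_assoc (Jᵀ * E), hJ, mul_neg, mul_one] at h2
    rw [← h2, neg_neg]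
  have h3 : E⁻¹ * (Jᵀ * E) * E⁻¹ = -(E⁻¹ * (E * J) * E⁻¹) := by
    rw [h1, mul_neg, neg_mul]
  rw [← Matrix.mul_assoc, Matrix.mul_assoc (E⁻¹ * Jᵀ), Matrix.mul_nonsing_inv _ hdet, mul_one,
    ← Matrix.mul_assoc E⁻¹ E, Matrix.nonsing_inv_mul _ hdet, one_mul] at h3
  exact h3

/-- The identity for one direction. -/
private theorem matA_one {J E A D : Matrix n n ℝ} (hJ : J * J = -1) (hE : Eᵀ = -E)
    (hdet : IsUnit E.det) (hJE : Jᵀ * E * J = E) (h1 : J * D + D * J = 0) (h2 : Aᵀ = -A)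
    (h3 : A = Dᵀ * E * J + Jᵀ * A * J + Jᵀ * E * D) :
    trace (E⁻¹ * A * (E⁻¹ * A)) + trace (J * (E⁻¹ * A) * J * (E⁻¹ * A)) =
      2 * trace (E⁻¹ * A * (D * J)) := by
  have hEi := matA_invT hE hdet
  have hc := matA_comm hJ hdet hJE
  have hDJ : D * J = -(J * D) := by
    rw [eq_neg_iff_add_eq_zero, add_comm]
    exact h1
  have hP : E⁻¹ * A + J * (E⁻¹ * A) * J = E⁻¹ * Dᵀ * E * J + D * J := by
    have h4 : E⁻¹ * A = E⁻¹ * (Dᵀ * E * J + Jᵀ * A * J + Jᵀ * E * D) := by rw [← h3]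
    have h5 : E⁻¹ * (Dᵀ * E * J + Jᵀ * A * J + Jᵀ * E * D) =
        E⁻¹ * Dᵀ * E * J + (E⁻¹ * Jᵀ) * A * J + (E⁻¹ * Jᵀ) * E * D := by
      simp only [Matrix.mul_add, Matrix.mul_assoc]
    rw [h5, hc] at h4
    have h6 : -(J * E⁻¹) * A * J = -(J * (E⁻¹ * A) * J) := by
      simp only [neg_mul, Matrix.mul_assoc]
    have h7 : -(J * E⁻¹) * E * D = D * J := by
      rw [hDJ, neg_mul, neg_mul, Matrix.mul_assoc J, Matrix.nonsing_inv_mul _ hdet, mul_one]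
    rw [h6, h7] at h4
    nth_rewrite 1 [h4]
    abel
  have hT : trace (E⁻¹ * A * (E⁻¹ * Dᵀ * E * J)) = trace (E⁻¹ * A * (D * J)) := by
    rw [← Matrix.trace_transpose]
    simp only [Matrix.transpose_mul, Matrix.transpose_transpose, hEi, h2, hE]
    have h8 : Jᵀ * (-E * (D * -E⁻¹)) * (-A * -E⁻¹) = Jᵀ * E * D * E⁻¹ * A * E⁻¹ := by
      simp only [mul_neg, neg_mul, neg_neg, Matrix.mul_assoc]
    rw [h8, Matrix.trace_mul_comm]
    have h9 : E⁻¹ * (Jᵀ * E * D * E⁻¹ * A) = (E⁻¹ * Jᵀ) * E * (D * (E⁻¹ * A)) := by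
      simp only [Matrix.mul_assoc]
    rw [h9, hc, neg_mul, neg_mul, Matrix.mul_assoc J E⁻¹ E, Matrix.nonsing_inv_mul _ hdet, mul_one,
      ← Matrix.mul_assoc J D, ← neg_mul, ← hDJ, Matrix.trace_mul_comm]
  calc trace (E⁻¹ * A * (E⁻¹ * A)) + trace (J * (E⁻¹ * A) * J * (E⁻¹ * A))
      = trace (E⁻¹ * A * (E⁻¹ * A + J * (E⁻¹ * A) * J)) := by
        rw [Matrix.mul_add, Matrix.trace_add,
          Matrix.trace_mul_comm (E⁻¹ * A) (J * (E⁻¹ * A) * J)]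
    _ = trace (E⁻¹ * A * (E⁻¹ * Dᵀ * E * J)) + trace (E⁻¹ * A * (D * J)) := by
        rw [hP, Matrix.mul_add, Matrix.trace_add]
    _ = 2 * trace (E⁻¹ * A * (D * J)) := by
        rw [hT]
        ring

/-- Let `P = E⁻¹ * E' r`.  The claim is
`tr (E⁻¹ E'' 0 + E⁻¹ E'' 1) - ∑ tr (P r * P r) = - ∑ r, tr (J⁻¹ * P r * J * P r)`.
Proof.  `h4` gives `∑ E'' r = - ∑ ((J J' r)ᵀ E' r + E' r J J' r)` (multiply by `J⁻¹ = - J`, and
`J' J = - J J'`), hence `tr (E⁻¹ ∑ E'' r) = - 2 ∑ tr (P r * K r)`, `K r = J * J' r`.  By `h3`,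
`P r - J⁻¹ * P r * J = - (K r + K* r)` where `X* = E⁻¹ Xᵀ E`, and `P* = P`, so that
`2 tr (P K) = tr (P (K + K*)) = - tr (P (P - J⁻¹ P J))`. -/
theorem mat_identity {J E : Matrix n n ℝ} (hJ : J * J = -1) (hE : Eᵀ = -E)
    (hdet : IsUnit E.det) (hJE : Jᵀ * E * J = E) (J' E' E'' : Fin 2 → Matrix n n ℝ)
    (h1 : ∀ r, J * J' r + J' r * J = 0) (h2 : ∀ r, (E' r)ᵀ = -E' r)
    (h3 : ∀ r, E' r = (J' r)ᵀ * E * J + Jᵀ * E' r * J + Jᵀ * E * J' r)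
    (h4 : ∑ r, ((J' r)ᵀ * E' r * J + Jᵀ * E'' r * J + Jᵀ * E' r * J' r) = 0) :
    ∑ r, (trace (E⁻¹ * E'' r) - trace (E⁻¹ * E' r * (E⁻¹ * E' r))) =
      -∑ r, trace (J⁻¹ * (E⁻¹ * E' r) * J * (E⁻¹ * E' r)) := by
  have hEi := matA_invT hE hdet
  have hJT : Jᵀ * Jᵀ = -1 := by
    rw [← Matrix.transpose_mul, hJ, Matrix.transpose_neg, Matrix.transpose_one]
  -- the sum of the second derivatives
  have h5 : ∑ r, E'' r = ∑ r, (Jᵀ * (J' r)ᵀ * E' r + E' r * (J' r * J)) := by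
    have h6 : Jᵀ * (∑ r, ((J' r)ᵀ * E' r * J + Jᵀ * E'' r * J + Jᵀ * E' r * J' r)) * J = 0 := by
      rw [h4, mul_zero, zero_mul]
    rw [Finset.mul_sum, Finset.sum_mul] at h6
    have h7 : ∀ r, Jᵀ * ((J' r)ᵀ * E' r * J + Jᵀ * E'' r * J + Jᵀ * E' r * J' r) * J =
        E'' r - (Jᵀ * (J' r)ᵀ * E' r + E' r * (J' r * J)) := by
      intro r
      have e1 : Jᵀ * ((J' r)ᵀ * E' r * J + Jᵀ * E'' r * J + Jᵀ * E' r * J' r) * J =
          Jᵀ * (J' r)ᵀ * E' r * (J * J) + (Jᵀ * Jᵀ) * E'' r * (J * J) +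
            (Jᵀ * Jᵀ) * E' r * (J' r * J) := by
        simp only [Matrix.mul_add, Matrix.add_mul, Matrix.mul_assoc]
      rw [e1, hJ, hJT]
      simp only [mul_neg, mul_one, neg_mul, one_mul, neg_neg]
      abel
    rw [Finset.sum_congr rfl fun r _ => h7 r, Finset.sum_sub_distrib, sub_eq_zero] at h6
    exact h6
  have h8 : ∀ r, trace (E⁻¹ * (Jᵀ * (J' r)ᵀ * E' r + E' r * (J' r * J))) =
      2 * trace (E⁻¹ * E' r * (J' r * J)) := by
    intro r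
    have e1 : trace (E⁻¹ * (Jᵀ * (J' r)ᵀ * E' r)) = trace (E⁻¹ * E' r * (J' r * J)) := by
      rw [← Matrix.trace_transpose]
      simp only [Matrix.transpose_mul, Matrix.transpose_transpose, hEi, h2]
      have e2 : -E' r * (J' r * J) * -E⁻¹ = E' r * (J' r * J) * E⁻¹ := by
        simp only [mul_neg, neg_mul, neg_neg]
      rw [e2, Matrix.trace_mul_comm, ← Matrix.mul_assoc]
    have e3 : E⁻¹ * (E' r * (J' r * J)) = E⁻¹ * E' r * (J' r * J) :=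
      (Matrix.mul_assoc _ _ _).symm
    rw [Matrix.mul_add, Matrix.trace_add, e1, e3]
    ring
  have h9 : ∑ r, trace (E⁻¹ * E'' r) = ∑ r, 2 * trace (E⁻¹ * E' r * (J' r * J)) := by
    rw [← Matrix.trace_sum, ← Finset.mul_sum, h5, Finset.mul_sum, Matrix.trace_sum]
    exact Finset.sum_congr rfl fun r _ => h8 r
  rw [Finset.sum_sub_distrib, h9, matA_inv hJ, ← Finset.sum_neg_distrib, ← Finset.sum_sub_distrib]
  refine Finset.sum_congr rfl fun r _ => ?_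
  rw [← matA_one hJ hE hdet hJE (h1 r) (h2 r) (h3 r)]
  simp only [neg_mul, Matrix.trace_neg]
  ring

end Pool.Agent.Helper80.TF
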