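import Pool.Agent.Helper80.TF.Disc

/-!
# The minimum principle on a compact complex manifold
-/

open Manifold Set Filter Topology MeasureTheory Metric

namespace Pool.Agent.Helper80.TF

variable {V : Type*} [NormedAddCommGroup V] [NormedSpace ℂ V]

/-- The real linear map `ζ ↦ ζ • w`. -/
private noncomputable def maxP_lin (w : V) : ℂ →L[ℝ] V :=
  (ContinuousLinearMap.toSpanSingleton ℂ w).restrictScalars ℝ

private theorem maxP_lin_apply (w : V) (z : ℂ) : maxP_lin w z = z • w := by
  simp [maxP_lin]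

private theorem maxP_hasFDerivAt (x w : V) (z : ℂ) :
    HasFDerivAt (fun ζ : ℂ => x + ζ • w) (maxP_lin w) z := by
  have h : HasFDerivAt (fun ζ : ℂ => x + maxP_lin w ζ) (maxP_lin w) z :=
    (maxP_lin w).hasFDerivAt.const_add x
  simpa only [maxP_lin_apply] using h

private theorem maxP_D2 {u : V → ℝ} {s : Set V} (hs : IsOpen s) (hu : ContDiffOn ℝ 2 u s)
    (x w : V) (z v : ℂ) (hz : x + z • w ∈ s) :
    D2 (fun ζ : ℂ => u (x + ζ • w)) z v = D2 u (x + z • w) (v • w) := by
  have hcont : Continuous fun ζ : ℂ => x + ζ • w := by fun_prop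
  have hev : ∀ᶠ ζ in 𝓝 z, x + ζ • w ∈ s := hcont.continuousAt.preimage_mem_nhds (hs.mem_nhds hz)
  have h1 : (fun ζ => fderiv ℝ (fun ζ : ℂ => u (x + ζ • w)) ζ v) =ᶠ[𝓝 z]
      fun ζ => fderiv ℝ u (x + ζ • w) (v • w) := by
    filter_upwards [hev] with ζ hζ
    have hd : DifferentiableAt ℝ u (x + ζ • w) :=
      (hu.contDiffAt (hs.mem_nhds hζ)).differentiableAt (by norm_num)
    have h2 : HasFDerivAt (fun ζ : ℂ => u (x + ζ • w))
        ((fderiv ℝ u (x + ζ • w)).comp (maxP_lin w)) ζ :=
      HasFDerivAt.comp ζ hd.hasFDerivAt (maxP_hasFDerivAt x w ζ)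
    rw [h2.fderiv, ContinuousLinearMap.comp_apply, maxP_lin_apply]
  have hcd : ContDiffAt ℝ 1 (fderiv ℝ u) (x + z • w) :=
    (hu.contDiffAt (hs.mem_nhds hz)).fderiv_right (by norm_num)
  have hdiff : DifferentiableAt ℝ (fun y => fderiv ℝ u y (v • w)) (x + z • w) :=
    (hcd.differentiableAt (by norm_num)).clm_apply (differentiableAt_const _)
  have h3 : HasFDerivAt (fun ζ : ℂ => fderiv ℝ u (x + ζ • w) (v • w))
      ((fderiv ℝ (fun y => fderiv ℝ u y (v • w)) (x + z • w)).comp (maxP_lin w)) z :=
    HasFDerivAt.comp (g := fun y => fderiv ℝ u y (v • w)) (f := fun ζ : ℂ => x + ζ • w) z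
      hdiff.hasFDerivAt (maxP_hasFDerivAt x w z)
  unfold D2
  rw [h1.fderiv_eq, h3.fderiv, ContinuousLinearMap.comp_apply, maxP_lin_apply]

/-- Proof sketch: apply `disc_min` to `ζ ↦ u (x + ζ • (y - x))`, whose second derivatives in the
directions `1` and `i` are the second derivatives of `u` in the directions `y - x` and
`i (y - x)`. -/
theorem ball_min {u : V → ℝ} {x : V} {R : ℝ} (hu : ContDiffOn ℝ 2 u (ball x R))
    (hΔ : ∀ y ∈ ball x R, ∀ v, D2 u y v + D2 u y (mulI V v) ≤ 0)
    (hmin : ∀ y ∈ ball x R, u x ≤ u y) {y : V} (hy : y ∈ ball x R) : u y = u x := by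
  by_cases hyx : y = x
  · rw [hyx]
  set w : V := y - x with hw
  have hw0 : 0 < ‖w‖ := norm_pos_iff.2 (sub_ne_zero.2 hyx)
  have hwR : ‖w‖ < R := by rwa [mem_ball, dist_eq_norm] at hy
  have hR : 1 < R / ‖w‖ := by rwa [one_lt_div hw0]
  have hmem : ∀ z ∈ ball (0 : ℂ) (R / ‖w‖), x + z • w ∈ ball x R := by
    intro z hz
    rw [mem_ball_zero_iff, lt_div_iff₀ hw0] at hz
    rw [mem_ball, dist_eq_norm, add_sub_cancel_left, norm_smul]
    exact hz
  have hφ : ContDiffOn ℝ 2 (fun ζ : ℂ => u (x + ζ • w)) (ball 0 (R / ‖w‖)) := by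
    refine hu.comp ?_ hmem
    have hc : ContDiff ℝ 2 fun ζ : ℂ => x + maxP_lin w ζ :=
      contDiff_const.add (maxP_lin w).contDiff
    simp only [maxP_lin_apply] at hc
    exact hc.contDiffOn
  have key := disc_min (u := fun ζ : ℂ => u (x + ζ • w)) hR hφ ?_ ?_
  · simp only [one_smul, zero_smul, add_zero] at key
    rw [← key]
    congr 1
    rw [hw]
    abel
  · intro z hz
    rw [maxP_D2 isOpen_ball hu x w z 1 (hmem z hz),
      maxP_D2 isOpen_ball hu x w z Complex.I (hmem z hz), one_smul]
    have := hΔ _ (hmem z hz) w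
    simpa [mulI] using this
  · intro z hz
    simp only [zero_smul, add_zero]
    exact hmin _ (hmem z hz)

/-- Proof sketch: `u` is continuous and attains its minimum; the set of points where it is
attained is closed, and open by `ball_min`. -/
theorem const_of_superharmonic {B : Type*} [TopologicalSpace B] [CompactSpace B]
    [ConnectedSpace B] {ι : Type*} (base : ι → OpenPartialHomeomorph B V)
    (cover : ∀ b, ∃ i, b ∈ (base i).source) (u : B → ℝ)
    (hu : ∀ i, ContDiffOn ℝ 2 (fun x => u ((base i).symm x)) (base i).target)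
    (hΔ : ∀ i, ∀ x ∈ (base i).target, ∀ v, D2 (fun x => u ((base i).symm x)) x v +
      D2 (fun x => u ((base i).symm x)) x (mulI V v) ≤ 0) : ∃ c, ∀ b, u b = c := by
  have hcont : Continuous u := by
    rw [continuous_iff_continuousAt]
    intro b
    obtain ⟨i, hi⟩ := cover b
    have h1 : ContinuousAt (fun x => u ((base i).symm x)) (base i b) :=
      (hu i).continuousOn.continuousAt ((base i).open_target.mem_nhds ((base i).map_source hi))
    have h2 : ContinuousAt (base i) b := (base i).continuousAt hi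
    have h3 : ContinuousAt (fun b' => u ((base i).symm (base i b'))) b :=
      ContinuousAt.comp (f := base i) (g := fun x => u ((base i).symm x)) h1 h2
    refine h3.congr ?_
    filter_upwards [(base i).open_source.mem_nhds hi] with b' hb'
    rw [(base i).left_inv hb']
  obtain ⟨b₀, -, hb₀⟩ := isCompact_univ.exists_isMinOn (Set.univ_nonempty (α := B))
    hcont.continuousOn
  have hmin : ∀ b, u b₀ ≤ u b := fun b => hb₀ (mem_univ b)
  have hclosed : IsClosed {b | u b = u b₀} := isClosed_eq hcont continuous_const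
  have hopen : IsOpen {b | u b = u b₀} := by
    rw [isOpen_iff_mem_nhds]
    intro b hb
    change u b = u b₀ at hb
    obtain ⟨i, hi⟩ := cover b
    obtain ⟨R, hR, hball⟩ := Metric.isOpen_iff.1 (base i).open_target _ ((base i).map_source hi)
    have hpre : base i ⁻¹' ball (base i b) R ∈ 𝓝 b :=
      ((base i).continuousAt hi).preimage_mem_nhds (ball_mem_nhds _ hR)
    filter_upwards [hpre, (base i).open_source.mem_nhds hi] with b' hb' hb's
    have h1 := ball_min (u := fun x => u ((base i).symm x)) (x := base i b) (R := R)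
      ((hu i).mono hball) (fun y hy v => hΔ i y (hball hy) v)
      (fun y _ => by
        rw [(base i).left_inv hi, hb]
        exact hmin _) hb'
    simp only [(base i).left_inv hb's, (base i).left_inv hi] at h1
    change u b' = u b₀
    rw [h1, hb]
  have huniv : {b | u b = u b₀} = univ := IsClopen.eq_univ ⟨hclosed, hopen⟩ ⟨b₀, rfl⟩
  exact ⟨u b₀, fun b => by
    have : b ∈ {b | u b = u b₀} := by rw [huniv]; exact mem_univ b
    exact this⟩

end Pool.Agent.Helper80.TF
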