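import Pool.Agent.Helper80.TF.ParA
import Pool.Agent.Helper80.TF.MaxP

/-!
# A pluriclosed metric defines a parallel polarisation
-/

open Manifold Set Filter Topology MeasureTheory Matrix

namespace Pool.Agent.Helper80.TF.TorusFibration

variable {r : ℕ} {V W : Type*} [NormedAddCommGroup V] [NormedSpace ℂ V] [FiniteDimensional ℂ V]
    [NormedAddCommGroup W] [NormedSpace ℂ W] {B M : Type*} [TopologicalSpace B]
    [ChartedSpace V B] [IsManifold 𝓘(ℂ, V) ⊤ B] [TopologicalSpace M] [ChartedSpace (V × W) M]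
    [IsManifold 𝓘(ℂ, V × W) ⊤ M] {f : M → B} (T : TorusFibration r V W f)

omit [FiniteDimensional ℂ V] in
private theorem Par_D2_congr {u u' : V → ℝ} {x : V} (h : u =ᶠ[𝓝 x] u') (v : V) :
    D2 u x v = D2 u' x v := by
  have h1 : (fun y => fderiv ℝ u y v) =ᶠ[𝓝 x] fun y => fderiv ℝ u' y v := by
    filter_upwards [h.eventuallyEq_nhds] with y hy
    rw [hy.fderiv_eq]
  rw [D2, D2, h1.fderiv_eq]

omit [FiniteDimensional ℂ V] in
private theorem Par_D2_const {u : V → ℝ} {x : V} {c : ℝ} (h : u =ᶠ[𝓝 x] fun _ => c) (v : V) :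
    D2 u x v = 0 := by
  rw [Par_D2_congr h v, D2]
  simp

private theorem Par_ext {E E' : (Fin r → ℝ) [⋀^Fin 2]→L[ℝ] ℝ}
    (h : ∀ k l, E ![Pi.single k 1, Pi.single l 1] = E' ![Pi.single k 1, Pi.single l 1]) :
    E = E' := by
  apply ContinuousAlternatingMap.toAlternatingMap_injective
  refine Module.Basis.ext_alternating (Pi.basisFun ℝ (Fin r)) fun v _ => ?_
  have h1 : (fun i => (Pi.basisFun ℝ (Fin r)) (v i)) =
      ![Pi.single (v 0) 1, Pi.single (v 1) 1] := by
    funext i
    fin_cases i
    · simp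
    · simp
  rw [h1]
  exact h (v 0) (v 1)

/-- Proof sketch: `u b = log |det matE i g (base i b)|` does not depend on the chart
(`exists_ftrans`, `log_det_matE_ftrans`).  By `const_of_superharmonic` and `D2_log_det_matE` it is
constant, hence `D2 … = 0` and the derivatives of the entries of `matE` vanish on `D i`; so
`E i g` is locally constant (on a ball). -/
theorem polar_of_pluriclosed [CompactSpace B] [ConnectedSpace B]
    {g : M → (V × W) [⋀^Fin 2]→L[ℝ] ℝ} (hg : IsHermitian g) (hp : Pluriclosed g) :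
    T.Polar fun i x => T.E i g x := by
  choose ix hix using T.cover
  set u : B → ℝ := fun b => Real.log (T.matE (ix b) g (T.base (ix b) b)).det with hu
  have key : ∀ i, ∀ x ∈ T.D i, u ((T.base i).symm x) = Real.log (T.matE i g x).det := by
    intro i x hx
    set b := (T.base i).symm x with hb
    have hbi : b ∈ (T.base i).source := (T.base i).map_target hx
    have h1 : T.base (ix b) b ∈ T.D (ix b) := (T.base (ix b)).map_source (hix b)
    have h2 : (T.base (ix b)).symm (T.base (ix b) b) = b := (T.base (ix b)).left_inv (hix b)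
    obtain ⟨F, hF⟩ := T.exists_ftrans (ix b) i h1 (by rw [h2]; exact hbi)
    have h3 := T.log_det_matE_ftrans F hg.1 hF
    rw [F.a_eq _ hF, h2, hb, (T.base i).right_inv hx, ← hb] at h3
    exact h3
  have hsm : ∀ i, ContDiffOn ℝ (⊤ : ℕ∞) (fun x => Real.log (T.matE i g x).det) (T.D i) :=
    fun i => contDiffOn_log_det (fun k l => T.contDiffOn_matE i hg.1 k l)
      fun x hx => T.det_matE_ne_zero i hg hx
  have hev : ∀ i, ∀ x ∈ T.D i, (fun x => u ((T.base i).symm x)) =ᶠ[𝓝 x]
      fun x => Real.log (T.matE i g x).det := by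
    intro i x hx
    filter_upwards [(T.isOpen_D i).mem_nhds hx] with y hy
    exact key i y hy
  obtain ⟨c, hc⟩ := const_of_superharmonic T.base T.cover u
    (fun i => ((hsm i).congr (key i)).of_le
      (WithTop.coe_le_coe.2 (le_top : (2 : ℕ∞) ≤ ⊤)))
    (fun i x hx v => by
      rw [Par_D2_congr (hev i x hx) v, Par_D2_congr (hev i x hx) (mulI V v)]
      exact (T.D2_log_det_matE i hg hp hx v).1)
  have hconst : ∀ i, ∀ x ∈ T.D i, (fun y => Real.log (T.matE i g y).det) =ᶠ[𝓝 x]
      fun _ => c := by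
    intro i x hx
    filter_upwards [(T.isOpen_D i).mem_nhds hx] with y hy
    rw [← key i y hy, hc]
  have hder : ∀ i, ∀ x ∈ T.D i, ∀ k l, fderiv ℝ (fun y => T.matE i g y k l) x = 0 := by
    intro i x hx k l
    ext v
    rw [(T.D2_log_det_matE i hg hp hx v).2 ?_ k l]
    · rfl
    · rw [Par_D2_const (hconst i x hx), Par_D2_const (hconst i x hx), add_zero]
  refine ⟨?_, ?_, ?_, ?_⟩
  · intro i x hx
    obtain ⟨R, hR, hball⟩ := Metric.isOpen_iff.1 (T.isOpen_D i) x hx
    filter_upwards [Metric.ball_mem_nhds x hR] with y hy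
    refine Par_ext fun k l => ?_
    have h1 : DifferentiableOn ℝ (fun y => T.matE i g y k l) (Metric.ball x R) :=
      ((T.contDiffOn_matE i hg.1 k l).mono hball).differentiableOn (by simp)
    exact Metric.isOpen_ball.is_const_of_fderiv_eq_zero
      (convex_ball x R).isPreconnected h1 (fun z hz => hder i z (hball hz) k l) hy
      (Metric.mem_ball_self hR)
  · intro i x hx s s'
    exact T.E_inv i hg hx s s'
  · intro i x hx s hs
    exact T.E_pos i hg hx hs
  · intro i j F x hx s s'
    exact T.E_ftrans F hg.1 hx s s'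

end Pool.Agent.Helper80.TF.TorusFibration
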