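import Pool.Agent.Helper80.TF.AvgC
import Pool.Agent.Helper80.TF.ExtD
import Pool.Agent.Helper80.TF.Smth

/-!
# The average of a pluriclosed metric over the fibres
-/

open Manifold Set Filter Topology MeasureTheory

namespace Pool.Agent.Helper80.TF

variable {r : ℕ} {V : Type*} [NormedAddCommGroup V] [NormedSpace ℂ V]

theorem sktAvg_four {a b c d : (Fin r → ℝ) → ℝ} (ha : Continuous a) (hb : Continuous b)
    (hc : Continuous c) (hd : Continuous d) :
    avg (fun t => a t - b t + c t - d t) = avg a - avg b + avg c - avg d := by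
  have e1 := avg_sub (f := fun t => a t - b t + c t) (g := d)
    (by exact (ha.sub hb).add hc) hd
  have e2 := avg_add (f := fun t => a t - b t) (g := c) (by exact ha.sub hb) hc
  have e3 := avg_sub (f := a) (g := b) ha hb
  rw [e1, e2, e3]

theorem sktAvg_aux {D : Set V} (hD : IsOpen D)
    {g : V × (Fin r → ℝ) → (V × (Fin r → ℝ)) [⋀^Fin 2]→L[ℝ] ℝ}
    (hg : ContDiffOn ℝ (⊤ : ℕ∞) g (D ×ˢ univ)) (hper : ∀ x ∈ D, Per fun t => g (x, t))
    {y : V} (hy : y ∈ D) (w : V) (s s' : Fin r → ℝ) :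
    avg (fun t => extDeriv g (y, t) ![(w, 0), (0, s), (0, s')]) =
      fderiv ℝ (fun y => avg fun t => g (y, t)) y w ![(0, s), (0, s')] := by
  have hU : IsOpen (D ×ˢ (univ : Set (Fin r → ℝ))) := hD.prod isOpen_univ
  have hgd : ContDiffOn ℝ (⊤ : ℕ∞) (fderiv ℝ g) (D ×ˢ univ) := hg.fderiv_of_isOpen hU (by simp)
  have hc : Continuous fun t : Fin r → ℝ => fderiv ℝ g (y, t) := by
    have h1 := hgd.continuousOn
    rw [continuous_iff_continuousAt]
    intro t
    have h2 := h1.continuousAt (hU.mem_nhds (⟨hy, mem_univ t⟩ : (y, t) ∈ D ×ˢ univ))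
    exact h2.comp (Continuous.continuousAt (by fun_prop))
  have hc' : ∀ ξ : V × (Fin r → ℝ), Continuous fun t : Fin r → ℝ => fderiv ℝ g (y, t) ξ :=
    fun ξ => hc.clm_apply continuous_const
  have hev : ∀ (ξ : V × (Fin r → ℝ)) (v : Fin 2 → V × (Fin r → ℝ)),
      Continuous fun t : Fin r → ℝ => fderiv ℝ g (y, t) ξ v := by
    intro ξ v
    exact (ContinuousAlternatingMap.apply ℝ (V × (Fin r → ℝ)) ℝ v).continuous.comp (hc' ξ)
  have e1 : (fun t => extDeriv g (y, t) ![(w, 0), (0, s), (0, s')]) = fun t =>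
      (fderiv ℝ g (y, t) (w, 0) ![(0, s), (0, s')] -
        fderiv ℝ g (y, t) (0, s) ![(w, 0), (0, s')]) +
        fderiv ℝ g (y, t) (0, s') ![(w, 0), (0, s)] := by
    funext t
    exact extDeriv_two _ _ _ _ _
  have e2 := avg_add (f := fun t => fderiv ℝ g (y, t) (w, 0) ![(0, s), (0, s')] -
        fderiv ℝ g (y, t) (0, s) ![(w, 0), (0, s')])
        (g := fun t => fderiv ℝ g (y, t) (0, s') ![(w, 0), (0, s)])
        (by exact (hev _ _).sub (hev _ _)) (hev _ _)
  have e3 := avg_sub (f := fun t => fderiv ℝ g (y, t) (w, 0) ![(0, s), (0, s')])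
        (g := fun t => fderiv ℝ g (y, t) (0, s) ![(w, 0), (0, s')]) (hev _ _) (hev _ _)
  rw [e1, e2, e3, ← avg_alt_apply (hc' _), ← avg_alt_apply (hc' _), ← avg_alt_apply (hc' _),
    avg_fderiv_fibre hD hg hy (hper y hy), avg_fderiv_fibre hD hg hy (hper y hy),
    avg_fderiv hD hg hy]
  simp

/-- The key equation.  Proof sketch: put `ζ p = (extDeriv g p) (Jt ·, Jt ·, Jt ·)`, where
`Jt = (i, J x)`.  Evaluate `extDeriv ζ (x, t) = 0` at `(v, 0), (i v, 0), (0, s), (0, s')` and take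
the average over `t`.  The terms with a derivative in the direction of the fibre vanish
(`avg_fderiv_fibre`), also those inside `extDeriv g` (all coefficients are periodic in `t`, and
`J x` does not depend on `t`).  The average of `ζ (x, t) ![(i v, 0), (0, s), (0, s')]` is
`- (D_v Eb) (J s, J s')` and that of `ζ (x, t) ![(v, 0), (0, s), (0, s')]` is
`(D_{i v} Eb) (J s, J s')`. -/
theorem skt_avg {D : Set V} (hD : IsOpen D) {J : V → (Fin r → ℝ) →L[ℝ] (Fin r → ℝ)}
    (hJ : ContDiffOn ℝ (⊤ : ℕ∞) J D)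
    {g : V × (Fin r → ℝ) → (V × (Fin r → ℝ)) [⋀^Fin 2]→L[ℝ] ℝ}
    (hg : ContDiffOn ℝ (⊤ : ℕ∞) g (D ×ˢ univ)) (hper : ∀ x ∈ D, Per fun t => g (x, t))
    (hs : ∀ x ∈ D, ∀ t, extDeriv (fun p : V × (Fin r → ℝ) =>
      (extDeriv g p).compContinuousLinearMap ((mulI V).prodMap (J p.1))) (x, t) = 0)
    {Eb : V → (Fin r → ℝ) [⋀^Fin 2]→L[ℝ] ℝ}
    (hEb : ∀ y, Eb y = (avg fun t => g (y, t)).compContinuousLinearMap
      (ContinuousLinearMap.inr ℝ V (Fin r → ℝ)))
    {x : V} (hx : x ∈ D) (v : V) (s s' : Fin r → ℝ) :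
    fderiv ℝ (fun y => fderiv ℝ Eb y v ![J y s, J y s']) x v +
      fderiv ℝ (fun y => fderiv ℝ Eb y (mulI V v) ![J y s, J y s']) x (mulI V v) = 0 := by
  have hU : IsOpen (D ×ˢ (univ : Set (Fin r → ℝ))) := hD.prod isOpen_univ
  set A : V × (Fin r → ℝ) → V × (Fin r → ℝ) →L[ℝ] V × (Fin r → ℝ) :=
    fun p => (mulI V).prodMap (J p.1) with hA
  have hAs : ContDiffOn ℝ (⊤ : ℕ∞) A (D ×ˢ univ) := by
    have h1 : ContDiffOn ℝ (⊤ : ℕ∞) (fun p : V × (Fin r → ℝ) => J p.1) (D ×ˢ univ) :=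
      hJ.comp contDiffOn_fst (fun p hp => hp.1)
    exact (ContinuousLinearMap.prodMapL ℝ V V (Fin r → ℝ) (Fin r → ℝ)).contDiff.comp_contDiffOn
      (contDiffOn_const.prodMk h1)
  set ζ : V × (Fin r → ℝ) → (V × (Fin r → ℝ)) [⋀^Fin 3]→L[ℝ] ℝ :=
    fun p => (extDeriv g p).compContinuousLinearMap (A p) with hζ
  have hζs : ContDiffOn ℝ (⊤ : ℕ∞) ζ (D ×ˢ univ) :=
    contDiffOn_compAlt (contDiffOn_extDeriv hU hg) hAs
  -- scalar coefficients
  have hG : ∀ w : Fin 3 → V × (Fin r → ℝ),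
      ContDiffOn ℝ (⊤ : ℕ∞) (fun p => ζ p w) (D ×ˢ univ) :=
    fun w => contDiffOn_alt_apply hζs fun i => contDiffOn_const
  have hGd : ∀ (w : Fin 3 → V × (Fin r → ℝ)) (t : Fin r → ℝ) (ξ : V × (Fin r → ℝ)),
      fderiv ℝ (fun p => ζ p w) (x, t) ξ = fderiv ℝ ζ (x, t) ξ w := by
    intro w t ξ
    refine fderiv_alt_apply ?_ w ξ
    exact (hζs.contDiffAt (hU.mem_nhds ⟨hx, mem_univ t⟩)).differentiableAt (by simp)
  have hGc : ∀ (w : Fin 3 → V × (Fin r → ℝ)) (ξ : V × (Fin r → ℝ)),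
      Continuous fun t : Fin r → ℝ => fderiv ℝ (fun p => ζ p w) (x, t) ξ := by
    intro w ξ
    have h1 := ((hG w).fderiv_of_isOpen hU (m := (⊤ : ℕ∞)) (by simp)).continuousOn
    have h2 : Continuous fun t : Fin r → ℝ => fderiv ℝ (fun p => ζ p w) (x, t) := by
      rw [continuous_iff_continuousAt]
      intro t
      have h3 := h1.continuousAt (hU.mem_nhds (⟨hx, mem_univ t⟩ : (x, t) ∈ D ×ˢ univ))
      exact h3.comp (Continuous.continuousAt (by fun_prop))
    exact h2.clm_apply continuous_const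
  have hGper : ∀ w : Fin 3 → V × (Fin r → ℝ), Per fun t => ζ (x, t) w := by
    intro w t n
    change ζ (x, t + intVec n) w = ζ (x, t) w
    have h1 : extDeriv g (x, t + intVec n) = extDeriv g (x, t) := by
      unfold extDeriv
      congr 1
      have h2 : g =ᶠ[𝓝 (x, t)] fun p => g (p + ((0 : V), intVec n)) := by
        filter_upwards [hU.mem_nhds (⟨hx, mem_univ t⟩ : (x, t) ∈ D ×ˢ univ)] with p hp
        have := hper p.1 hp.1 p.2 n
        rw [show p + ((0 : V), intVec n) = (p.1, p.2 + intVec n) by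
          ext <;> simp]
        exact this.symm
      rw [h2.fderiv_eq, fderiv_comp_add_right]
      simp
    change (extDeriv g (x, t + intVec n)).compContinuousLinearMap (A (x, t + intVec n)) w =
      (extDeriv g (x, t)).compContinuousLinearMap (A (x, t)) w
    rw [h1]
  have key : ∀ t, fderiv ℝ (fun p => ζ p ![(mulI V v, 0), (0, s), (0, s')]) (x, t) (v, 0) -
      fderiv ℝ (fun p => ζ p ![(v, 0), (0, s), (0, s')]) (x, t) (mulI V v, 0) +
      fderiv ℝ (fun p => ζ p ![(v, 0), (mulI V v, 0), (0, s')]) (x, t) (0, s) -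
      fderiv ℝ (fun p => ζ p ![(v, 0), (mulI V v, 0), (0, s)]) (x, t) (0, s') = 0 := by
    intro t
    rw [hGd, hGd, hGd, hGd, ← extDeriv_three]
    have := hs x hx t
    change extDeriv ζ (x, t) = 0 at this
    rw [this]
    rfl
  have key1 := congrArg avg (funext key)
  have c1 := hGc ![(mulI V v, 0), (0, s), (0, s')] (v, 0)
  have c2 := hGc ![(v, 0), (0, s), (0, s')] (mulI V v, 0)
  have c3 := hGc ![(v, 0), (mulI V v, 0), (0, s')] (0, s)
  have c4 := hGc ![(v, 0), (mulI V v, 0), (0, s)] (0, s')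
  have key2 := (sktAvg_four c1 c2 c3 c4).symm.trans key1
  rw [avg_fderiv_fibre hD (hG _) hx (hGper _), avg_fderiv_fibre hD (hG _) hx (hGper _),
    ← avg_fderiv hD (hG _) hx, ← avg_fderiv hD (hG _) hx, avg_const, add_zero, sub_zero] at key2
  -- the averages of the coefficients
  have hEd : ∀ y ∈ D, ∀ w (a b : Fin r → ℝ), fderiv ℝ Eb y w ![a, b] =
      fderiv ℝ (fun y => avg fun t => g (y, t)) y w ![(0, a), (0, b)] := by
    intro y hy w a b
    have hb := avg_hasFDerivAt hD hg hy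
    let C : ((V × (Fin r → ℝ)) [⋀^Fin 2]→L[ℝ] ℝ) →L[ℝ] ((Fin r → ℝ) [⋀^Fin 2]→L[ℝ] ℝ) :=
      ContinuousAlternatingMap.compContinuousLinearMapCLM (ContinuousLinearMap.inr ℝ V (Fin r → ℝ))
    have h1 : Eb = fun y => C (avg fun t => g (y, t)) := by
      funext y
      rw [hEb]
      rfl
    have h2 := C.hasFDerivAt.comp y hb
    have h3 : fderiv ℝ Eb y = C.comp (fderiv ℝ (fun y => avg fun t => g (y, t)) y) := by
      rw [h1, hb.fderiv]
      exact h2.fderiv
    rw [h3]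
    change (fderiv ℝ (fun y => avg fun t => g (y, t)) y w)
      ((ContinuousLinearMap.inr ℝ V (Fin r → ℝ)) ∘ ![a, b]) = _
    congr 1
    funext i
    fin_cases i <;> rfl
  have hav : ∀ y ∈ D, ∀ w : V, avg (fun t => ζ (y, t) ![(w, 0), (0, s), (0, s')]) =
      fderiv ℝ Eb y (mulI V w) ![J y s, J y s'] := by
    intro y hy w
    rw [hEd y hy, ← sktAvg_aux hD hg hper hy]
    congr 1
    funext t
    change extDeriv g (y, t) (A (y, t) ∘ ![(w, 0), (0, s), (0, s')]) = _
    congr 1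
    funext i
    fin_cases i <;> simp [hA]
  have e1 : (fun y => avg fun t => ζ (y, t) ![(mulI V v, 0), (0, s), (0, s')]) =ᶠ[𝓝 x]
      fun y => -fderiv ℝ Eb y v ![J y s, J y s'] := by
    filter_upwards [hD.mem_nhds hx] with y hy
    rw [hav y hy]
    have : mulI V (mulI V v) = -v := by
      simp [mulI, smul_smul]
    rw [this, map_neg]
    rfl
  have e2 : (fun y => avg fun t => ζ (y, t) ![(v, 0), (0, s), (0, s')]) =ᶠ[𝓝 x]
      fun y => fderiv ℝ Eb y (mulI V v) ![J y s, J y s'] := by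
    filter_upwards [hD.mem_nhds hx] with y hy
    rw [hav y hy]
  rw [e1.fderiv_eq, e2.fderiv_eq] at key2
  have e3 : fderiv ℝ (fun y => -fderiv ℝ Eb y v ![J y s, J y s']) x v =
      -fderiv ℝ (fun y => fderiv ℝ Eb y v ![J y s, J y s']) x v := by
    rw [fderiv_fun_neg]
    rfl
  rw [e3] at key2
  linarith

end Pool.Agent.Helper80.TF
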