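import Pool.Agent.Helper80.TF.ParA0
import Pool.Agent.Helper80.TF.SktAvg
import Pool.Agent.Helper80.TF.Mat
import Pool.Agent.Helper80.TF.LogDet

/-!
# A pluriclosed metric: the logarithm of the volume of the fibres is superharmonic
-/

open Manifold Set Filter Topology MeasureTheory Matrix

set_option linter.unusedSectionVars false

namespace Pool.Agent.Helper80.TF

variable {r : ℕ} {V : Type*} [NormedAddCommGroup V] [NormedSpace ℝ V]

/-- Entrywise derivative of a product of matrices. -/
theorem parA_mul {A B : V → Matrix (Fin r) (Fin r) ℝ} {x : V}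
    (hA : ∀ k l, DifferentiableAt ℝ (fun y => A y k l) x)
    (hB : ∀ k l, DifferentiableAt ℝ (fun y => B y k l) x) (w : V) :
    (of fun k l => fderiv ℝ (fun y => (A y * B y) k l) x w) =
      (of fun k l => fderiv ℝ (fun y => A y k l) x w) * B x +
        A x * of fun k l => fderiv ℝ (fun y => B y k l) x w := by
  ext k l
  rw [of_apply, Matrix.add_apply, Matrix.mul_apply, Matrix.mul_apply]
  have h1 : (fun y => (A y * B y) k l) = fun y => ∑ m, A y k m * B y m l := by
    funext y
    rw [Matrix.mul_apply]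
  have h2 : HasFDerivAt (fun y => ∑ m, A y k m * B y m l)
      (∑ m, (A x k m • fderiv ℝ (fun y => B y m l) x + B x m l • fderiv ℝ (fun y => A y k m) x))
      x :=
    HasFDerivAt.fun_sum fun m _ => (hA k m).hasFDerivAt.mul (hB m l).hasFDerivAt
  rw [h1, h2.fderiv, ContinuousLinearMap.sum_apply, ← Finset.sum_add_distrib]
  refine Finset.sum_congr rfl fun m _ => ?_
  simp only [ContinuousLinearMap.add_apply, ContinuousLinearMap.smul_apply, smul_eq_mul, of_apply]
  ring

theorem parA_mul_diff {A B : V → Matrix (Fin r) (Fin r) ℝ} {x : V}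
    (hA : ∀ k l, DifferentiableAt ℝ (fun y => A y k l) x)
    (hB : ∀ k l, DifferentiableAt ℝ (fun y => B y k l) x) (k l : Fin r) :
    DifferentiableAt ℝ (fun y => (A y * B y) k l) x := by
  have h1 : (fun y => (A y * B y) k l) = fun y => ∑ m, A y k m * B y m l := by
    funext y
    rw [Matrix.mul_apply]
  rw [h1]
  exact DifferentiableAt.fun_sum fun m _ => (hA k m).mul (hB m l)

/-- Derivative of `Jᵀ * A * J`. -/
theorem parA_conj {J A : V → Matrix (Fin r) (Fin r) ℝ} {x : V}
    (hJ : ∀ k l, DifferentiableAt ℝ (fun y => J y k l) x)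
    (hA : ∀ k l, DifferentiableAt ℝ (fun y => A y k l) x) (w : V) :
    (of fun k l => fderiv ℝ (fun y => ((J y)ᵀ * A y * J y) k l) x w) =
      (of fun k l => fderiv ℝ (fun y => J y k l) x w)ᵀ * A x * J x +
        (J x)ᵀ * (of fun k l => fderiv ℝ (fun y => A y k l) x w) * J x +
        (J x)ᵀ * A x * of fun k l => fderiv ℝ (fun y => J y k l) x w := by
  have hJt : ∀ k l, DifferentiableAt ℝ (fun y => (J y)ᵀ k l) x := fun k l => hJ l k
  rw [parA_mul (A := fun y => (J y)ᵀ * A y) (B := J) (fun k l => parA_mul_diff hJt hA k l) hJ,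
    parA_mul hJt hA, Matrix.add_mul]
  rfl

end Pool.Agent.Helper80.TF

namespace Pool.Agent.Helper80.TF.TorusFibration

variable {r : ℕ} {V W : Type*} [NormedAddCommGroup V] [NormedSpace ℂ V] [FiniteDimensional ℂ V]
    [NormedAddCommGroup W] [NormedSpace ℂ W] {B M : Type*} [TopologicalSpace B]
    [ChartedSpace V B] [IsManifold 𝓘(ℂ, V) ⊤ B] [TopologicalSpace M] [ChartedSpace (V × W) M]
    [IsManifold 𝓘(ℂ, V × W) ⊤ M] {f : M → B} (T : TorusFibration r V W f)

theorem parA_J_mul (i : T.ι) (x : V) : T.matJ i x * T.matJ i x = -1 := by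
  ext k l
  have h := congrFun (T.J_J i x (Pi.single l 1)) k
  rw [matJ_eq, Matrix.mul_apply]
  have h2 := congrFun (matL_mulVec (T.J i x) (T.J i x (Pi.single l 1))) k
  rw [Matrix.mulVec, dotProduct] at h2
  rw [h] at h2
  refine (Eq.trans ?_ h2).trans ?_
  · rfl
  · rw [Matrix.neg_apply, Pi.neg_apply, Matrix.one_apply, Pi.single_apply]

theorem parA_conj_E (i : T.ι) {g : M → (V × W) [⋀^Fin 2]→L[ℝ] ℝ} (hg : IsHermitian g)
    {x : V} (hx : x ∈ T.D i) :
    (T.matJ i x)ᵀ * T.matE i g x * T.matJ i x = T.matE i g x := by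
  rw [matJ_eq, matE_eq, ← matA_comp]
  ext k l
  exact T.E_inv i hg hx _ _

theorem parA_diffJ (i : T.ι) {x : V} (hx : x ∈ T.D i) (k l : Fin r) :
    DifferentiableAt ℝ (fun y => T.matJ i y k l) x := by
  have h1 := ((T.contDiffOn_J i).contDiffAt ((T.isOpen_D i).mem_nhds hx)).differentiableAt
    (by simp)
  have h2 : DifferentiableAt ℝ (fun y => T.J i y (Pi.single l 1)) x :=
    h1.clm_apply (differentiableAt_const _)
  exact (differentiableAt_pi.1 h2) k

/-- Main local statement.  Proof sketch: apply `mat_key` with `J = matJ i x`, `E = matE i g x`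
and, for `r = 0, 1`, the first derivatives `J' r, E' r` of `matJ`, `matE` at `x` and the second
derivatives `E'' r` of `matE`, in the directions `v` and `i v`.  Hypothesis `h1` is the derivative
of `J ^ 2 = -1`, `h3` that of `E (J s, J s') = E (s, s')`, and `h4` is `skt_avg` (expand the
derivative of the product `Jᵀ (D_v E) J`).  Then use `D2_log_det`. -/
theorem D2_log_det_matE (i : T.ι) {g : M → (V × W) [⋀^Fin 2]→L[ℝ] ℝ} (hg : IsHermitian g)
    (hp : Pluriclosed g) {x : V} (hx : x ∈ T.D i) (v : V) :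
    D2 (fun y => Real.log (T.matE i g y).det) x v +
        D2 (fun y => Real.log (T.matE i g y).det) x (mulI V v) ≤ 0 ∧
      (D2 (fun y => Real.log (T.matE i g y).det) x v +
        D2 (fun y => Real.log (T.matE i g y).det) x (mulI V v) = 0 →
        ∀ k l, fderiv ℝ (fun y => T.matE i g y k l) x v = 0) := by
  have hD := T.isOpen_D i
  have hE := T.contDiffOn_matE i hg.1
  have h0 : ∀ y ∈ T.D i, (T.matE i g y).det ≠ 0 := fun y hy => T.det_matE_ne_zero i hg hy
  -- smoothness
  have hEd : ∀ y ∈ T.D i, ∀ k l, DifferentiableAt ℝ (fun y => T.matE i g y k l) y :=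
    fun y hy k l => ((hE k l).contDiffAt (hD.mem_nhds hy)).differentiableAt (by simp)
  have hEs : ∀ (w : V) (k l : Fin r),
      ContDiffOn ℝ (⊤ : ℕ∞) (fun y => fderiv ℝ (fun z => T.matE i g z k l) y w) (T.D i) :=
    fun w k l => ((hE k l).fderiv_of_isOpen hD (m := (⊤ : ℕ∞)) (by simp)).clm_apply
      contDiffOn_const
  have hEsd : ∀ (w : V) (k l : Fin r),
      DifferentiableAt ℝ (fun y => fderiv ℝ (fun z => T.matE i g z k l) y w) x :=
    fun w k l => ((hEs w k l).contDiffAt (hD.mem_nhds hx)).differentiableAt (by simp)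
  -- the matrices
  set w : Fin 2 → V := ![v, mulI V v] with hw
  set J' : Fin 2 → Matrix (Fin r) (Fin r) ℝ :=
    fun m => of fun k l => fderiv ℝ (fun y => T.matJ i y k l) x (w m) with hJ'
  set E' : Fin 2 → Matrix (Fin r) (Fin r) ℝ :=
    fun m => of fun k l => fderiv ℝ (fun y => T.matE i g y k l) x (w m) with hE'
  set E'' : Fin 2 → Matrix (Fin r) (Fin r) ℝ :=
    fun m => of fun k l => fderiv ℝ (fun y => fderiv ℝ (fun z => T.matE i g z k l) y (w m)) x
      (w m) with hE''
  have hJJ : T.matJ i x * T.matJ i x = -1 := T.parA_J_mul i x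
  have hEt : ∀ y, (T.matE i g y)ᵀ = -T.matE i g y := fun y => matA_transpose _
  have k1 : ∀ m, T.matJ i x * J' m + J' m * T.matJ i x = 0 := by
    intro m
    have h := parA_mul (A := T.matJ i) (B := T.matJ i) (fun k l => T.parA_diffJ i hx k l)
      (fun k l => T.parA_diffJ i hx k l) (w m)
    rw [add_comm, ← h]
    ext k l
    rw [of_apply]
    have h2 : (fun y => (T.matJ i y * T.matJ i y) k l) = fun _ => (-1 : Matrix _ _ ℝ) k l := by
      funext y
      rw [T.parA_J_mul]
    rw [h2]
    simp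
  have k2 : ∀ m, (E' m)ᵀ = -E' m := by
    intro m
    ext k l
    rw [transpose_apply, Matrix.neg_apply]
    change fderiv ℝ (fun y => T.matE i g y l k) x (w m) =
      -fderiv ℝ (fun y => T.matE i g y k l) x (w m)
    have h2 : (fun y => T.matE i g y l k) = fun y => -T.matE i g y k l := by
      funext y
      have := congrFun (congrFun (hEt y) k) l
      rwa [transpose_apply, Matrix.neg_apply] at this
    rw [h2, fderiv_fun_neg]
    rfl
  have k3 : ∀ m, E' m = (J' m)ᵀ * T.matE i g x * T.matJ i x +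
      (T.matJ i x)ᵀ * E' m * T.matJ i x + (T.matJ i x)ᵀ * T.matE i g x * J' m := by
    intro m
    have h := parA_conj (J := T.matJ i) (A := T.matE i g) (fun k l => T.parA_diffJ i hx k l)
      (hEd x hx) (w m)
    change _ = (J' m)ᵀ * T.matE i g x * T.matJ i x +
      (T.matJ i x)ᵀ * E' m * T.matJ i x + (T.matJ i x)ᵀ * T.matE i g x * J' m at h
    rw [← h]
    ext k l
    change fderiv ℝ (fun y => T.matE i g y k l) x (w m) = fderiv ℝ _ x (w m)
    congr 1
    apply Filter.EventuallyEq.fderiv_eq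
    filter_upwards [hD.mem_nhds hx] with y hy
    rw [T.parA_conj_E i hg hy]
  have hsk : ∀ s s' : Fin r → ℝ,
      fderiv ℝ (fun y => fderiv ℝ (T.E i g) y v ![T.J i y s, T.J i y s']) x v +
      fderiv ℝ (fun y => fderiv ℝ (T.E i g) y (mulI V v) ![T.J i y s, T.J i y s']) x
        (mulI V v) = 0 := by
    intro s s'
    exact skt_avg hD (T.contDiffOn_J i) (T.contDiffOn_flat i hg.1)
      (fun y hy => T.flat_per i g hy) (fun y hy t => T.ddc_flat i hg.1 hp hy t)
      (fun y => rfl) hx v s s'
  have hEf : ∀ y ∈ T.D i, ∀ (u : V) (k l : Fin r),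
      fderiv ℝ (T.E i g) y u ![Pi.single k 1, Pi.single l 1] =
        fderiv ℝ (fun z => T.matE i g z k l) y u := by
    intro y hy u k l
    have h1 := ((T.contDiffOn_E i hg.1).contDiffAt (hD.mem_nhds hy)).differentiableAt (by simp)
    exact (fderiv_alt_apply h1 _ u).symm
  have hconj : ∀ (u : V) (k l : Fin r),
      (fun y => fderiv ℝ (T.E i g) y u ![T.J i y (Pi.single k 1), T.J i y (Pi.single l 1)])
        =ᶠ[𝓝 x] fun y => ((T.matJ i y)ᵀ * (of fun k l =>
          fderiv ℝ (fun z => T.matE i g z k l) y u) * T.matJ i y) k l := by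
    intro u k l
    filter_upwards [hD.mem_nhds hx] with y hy
    have h1 : (of fun k l => fderiv ℝ (fun z => T.matE i g z k l) y u) =
        matA (fderiv ℝ (T.E i g) y u) := by
      ext k l
      rw [of_apply, ← hEf y hy]
      rfl
    rw [h1, matJ_eq, ← matA_comp]
    rfl
  have k4 : ∑ m, ((J' m)ᵀ * E' m * T.matJ i x + (T.matJ i x)ᵀ * E'' m * T.matJ i x +
      (T.matJ i x)ᵀ * E' m * J' m) = 0 := by
    have h : ∀ m, (J' m)ᵀ * E' m * T.matJ i x + (T.matJ i x)ᵀ * E'' m * T.matJ i x +
        (T.matJ i x)ᵀ * E' m * J' m = of fun k l => fderiv ℝ (fun y =>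
          ((T.matJ i y)ᵀ * (of fun k l => fderiv ℝ (fun z => T.matE i g z k l) y (w m)) *
            T.matJ i y) k l) x (w m) := by
      intro m
      exact (parA_conj (J := T.matJ i)
        (A := fun y => of fun k l => fderiv ℝ (fun z => T.matE i g z k l) y (w m))
        (fun k l => T.parA_diffJ i hx k l) (fun k l => hEsd (w m) k l) (w m)).symm
    simp only [h]
    rw [Fin.sum_univ_two]
    ext k l
    rw [Matrix.add_apply, of_apply, of_apply]
    change fderiv ℝ (fun y => ((T.matJ i y)ᵀ * (of fun k l =>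
        fderiv ℝ (fun z => T.matE i g z k l) y v) * T.matJ i y) k l) x v +
      fderiv ℝ (fun y => ((T.matJ i y)ᵀ * (of fun k l =>
        fderiv ℝ (fun z => T.matE i g z k l) y (mulI V v)) * T.matJ i y) k l) x (mulI V v) = 0
    rw [← (hconj v k l).fderiv_eq, ← (hconj (mulI V v) k l).fderiv_eq]
    exact hsk _ _
  have key := mat_key hJJ (hEt x) (T.parA_conj_E i hg hx) (T.matE_pos i hg hx) J' E' E'' k1 k2 k3
    k4
  have d1 : ∀ m, D2 (fun y => Real.log (T.matE i g y).det) x (w m) =
      trace ((T.matE i g x)⁻¹ * E'' m) -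
        trace ((T.matE i g x)⁻¹ * E' m * ((T.matE i g x)⁻¹ * E' m)) :=
    fun m => D2_log_det hD hE h0 hx (w m) (E' m) (E'' m) (fun _ _ => rfl) fun _ _ => rfl
  simp only [← d1, Fin.sum_univ_two] at key
  refine ⟨key.1, fun h k l => ?_⟩
  have := congrFun (congrFun (key.2 h 0) k) l
  exact this

end Pool.Agent.Helper80.TF.TorusFibration
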