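import Pool.Agent.Helper80.TF.Bar
import Pool.Agent.Helper80.TF.MatB
import Pool.Agent.Helper80.TF.Smth

/-!
# A pluriclosed metric: the logarithm of the volume of the fibres is superharmonic
-/

open Manifold Set Filter Topology MeasureTheory Matrix

namespace Pool.Agent.Helper80.TF

variable {r : ℕ}

theorem parA0_swap {L : Type*} [NormedAddCommGroup L] [NormedSpace ℝ L]
    (a : L [⋀^Fin 2]→L[ℝ] ℝ) (x y : L) : a ![y, x] = -a ![x, y] := by
  have h := a.toAlternatingMap.map_swap ![x, y] (i := 0) (j := 1) (by decide)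
  have h2 : (![x, y] ∘ ⇑(Equiv.swap (0 : Fin 2) 1)) = ![y, x] := by
    funext i
    fin_cases i <;> simp
  rw [h2] at h
  exact h

/-- An alternating form as a bilinear map. -/
noncomputable def bil {L : Type*} [NormedAddCommGroup L] [NormedSpace ℝ L]
    (a : L [⋀^Fin 2]→L[ℝ] ℝ) : L →ₗ[ℝ] L →ₗ[ℝ] ℝ :=
  LinearMap.mk₂ ℝ (fun x y => a ![x, y])
    (fun x y z => a.vecCons_add ![z] x y)
    (fun c x z => a.vecCons_smul ![z] c x)
    (fun x y z => by
      rw [parA0_swap a (y + z) x, parA0_swap a y x, parA0_swap a z x]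
      have := a.vecCons_add ![x] y z
      change -a (Matrix.vecCons (y + z) ![x]) = _
      rw [this]
      change _ = -a (Matrix.vecCons y ![x]) + -a (Matrix.vecCons z ![x])
      ring)
    (fun c x y => by
      rw [parA0_swap a (c • y) x, parA0_swap a y x]
      have := a.vecCons_smul ![x] c y
      change -a (Matrix.vecCons (c • y) ![x]) = _
      rw [this]
      change _ = c • -a (Matrix.vecCons y ![x])
      rw [smul_neg])

theorem bil_apply {L : Type*} [NormedAddCommGroup L] [NormedSpace ℝ L]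
    (a : L [⋀^Fin 2]→L[ℝ] ℝ) (x y : L) : bil a x y = a ![x, y] := rfl

/-- The matrix of an alternating form. -/
noncomputable def matA (a : (Fin r → ℝ) [⋀^Fin 2]→L[ℝ] ℝ) : Matrix (Fin r) (Fin r) ℝ :=
  of fun k l => a ![Pi.single k 1, Pi.single l 1]

/-- The matrix of a linear map. -/
noncomputable def matL (A : (Fin r → ℝ) →L[ℝ] (Fin r → ℝ)) : Matrix (Fin r) (Fin r) ℝ :=
  of fun k l => A (Pi.single l 1) k

theorem matL_mulVec (A : (Fin r → ℝ) →L[ℝ] (Fin r → ℝ)) (s : Fin r → ℝ) :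
    matL A *ᵥ s = A s := by
  have h : s = ∑ l, s l • (Pi.single l 1 : Fin r → ℝ) := by
    funext k
    simp [Finset.sum_apply, Pi.single_apply]
  funext k
  conv_rhs => rw [h, map_sum]
  simp only [map_smul, Finset.sum_apply, Pi.smul_apply, smul_eq_mul]
  rw [Matrix.mulVec, dotProduct]
  refine Finset.sum_congr rfl fun l _ => ?_
  rw [matL, of_apply, mul_comm]

theorem matA_apply (a : (Fin r → ℝ) [⋀^Fin 2]→L[ℝ] ℝ) (s s' : Fin r → ℝ) :
    a ![s, s'] = s ⬝ᵥ (matA a *ᵥ s') := by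
  have h : ∀ u : Fin r → ℝ, u = ∑ l, u l • (Pi.single l 1 : Fin r → ℝ) := by
    intro u
    funext k
    simp [Finset.sum_apply, Pi.single_apply]
  rw [← bil_apply]
  conv_lhs => rw [h s, h s']
  simp only [map_sum, map_smul, LinearMap.sum_apply, LinearMap.smul_apply, smul_eq_mul,
    dotProduct, Matrix.mulVec, bil_apply, Finset.mul_sum]
  rw [Finset.sum_comm]
  refine Finset.sum_congr rfl fun k _ => ?_
  refine Finset.sum_congr rfl fun l _ => ?_
  rw [matA, of_apply]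
  ring

theorem matA_comp (a : (Fin r → ℝ) [⋀^Fin 2]→L[ℝ] ℝ) (A : (Fin r → ℝ) →L[ℝ] (Fin r → ℝ)) :
    (of fun k l => a ![A (Pi.single k 1), A (Pi.single l 1)]) =
      (matL A)ᵀ * matA a * matL A := by
  ext k l
  rw [of_apply, matA_apply, ← matL_mulVec, ← matL_mulVec, Matrix.mul_assoc]
  rw [Matrix.mul_apply', Matrix.mulVec_mulVec]
  congr 1
  · funext m
    simp [Matrix.mulVec_single]
  · funext m
    simp [Matrix.mulVec_single]

theorem matA_transpose (a : (Fin r → ℝ) [⋀^Fin 2]→L[ℝ] ℝ) : (matA a)ᵀ = -matA a := by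
  ext k l
  rw [transpose_apply, Matrix.neg_apply]
  exact parA0_swap a _ _

end Pool.Agent.Helper80.TF

set_option linter.unusedSectionVars false

namespace Pool.Agent.Helper80.TF.TorusFibration

variable {r : ℕ} {V W : Type*} [NormedAddCommGroup V] [NormedSpace ℂ V] [FiniteDimensional ℂ V]
    [NormedAddCommGroup W] [NormedSpace ℂ W] {B M : Type*} [TopologicalSpace B]
    [ChartedSpace V B] [IsManifold 𝓘(ℂ, V) ⊤ B] [TopologicalSpace M] [ChartedSpace (V × W) M]
    [IsManifold 𝓘(ℂ, V × W) ⊤ M] {f : M → B} (T : TorusFibration r V W f)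

/-- The matrix of the form `E i g x`. -/
noncomputable def matE (i : T.ι) (g : M → (V × W) [⋀^Fin 2]→L[ℝ] ℝ) (x : V) :
    Matrix (Fin r) (Fin r) ℝ := of fun k l => T.E i g x ![Pi.single k 1, Pi.single l 1]

/-- The matrix of the complex structure. -/
noncomputable def matJ (i : T.ι) (x : V) : Matrix (Fin r) (Fin r) ℝ :=
  of fun k l => T.J i x (Pi.single l 1) k

theorem matE_eq (i : T.ι) (g : M → (V × W) [⋀^Fin 2]→L[ℝ] ℝ) (x : V) :
    T.matE i g x = matA (T.E i g x) := rfl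

theorem matJ_eq (i : T.ι) (x : V) : T.matJ i x = matL (T.J i x) := rfl

theorem matE_pos (i : T.ι) {g : M → (V × W) [⋀^Fin 2]→L[ℝ] ℝ} (hg : IsHermitian g)
    {x : V} (hx : x ∈ T.D i) (s : Fin r → ℝ) (hs : s ≠ 0) :
    0 < s ⬝ᵥ (T.matE i g x * T.matJ i x) *ᵥ s := by
  have h := T.E_pos i hg hx hs
  rwa [matA_apply, ← matL_mulVec, Matrix.mulVec_mulVec] at h

theorem det_matE_ne_zero (i : T.ι) {g : M → (V × W) [⋀^Fin 2]→L[ℝ] ℝ} (hg : IsHermitian g)
    {x : V} (hx : x ∈ T.D i) : (T.matE i g x).det ≠ 0 :=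
  (isUnit_det_of_pos (T.matE_pos i hg hx)).ne_zero

theorem contDiffOn_matE (i : T.ι) {g : M → (V × W) [⋀^Fin 2]→L[ℝ] ℝ} (hg : SmoothForm g)
    (k l : Fin r) : ContDiffOn ℝ (⊤ : ℕ∞) (fun x => T.matE i g x k l) (T.D i) :=
  contDiffOn_alt_apply (g := fun x => T.E i g x)
    (v := fun _ => ![Pi.single k 1, Pi.single l 1]) (T.contDiffOn_E i hg)
    fun _ => contDiffOn_const

/-- `|det|` does not depend on the chart. -/
theorem log_det_matE_ftrans {i j : T.ι} (F : T.FTrans i j)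
    {g : M → (V × W) [⋀^Fin 2]→L[ℝ] ℝ} (hg : SmoothForm g) {x : V} (hx : x ∈ F.O) :
    Real.log (T.matE i g x).det = Real.log (T.matE j g (F.a x)).det := by
  have h1 : T.matE i g x = (matL (F.N : (Fin r → ℝ) →L[ℝ] (Fin r → ℝ)))ᵀ *
      T.matE j g (F.a x) * matL (F.N : (Fin r → ℝ) →L[ℝ] (Fin r → ℝ)) := by
    rw [matE_eq, matE_eq, ← matA_comp]
    ext k l
    exact T.E_ftrans F hg hx _ _
  have h2 : (matL (F.N : (Fin r → ℝ) →L[ℝ] (Fin r → ℝ))).det =
      LinearMap.det (F.N : (Fin r → ℝ) →ₗ[ℝ] (Fin r → ℝ)) := by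
    rw [← LinearMap.det_toMatrix']
    rfl
  have h3 := abs_det_of_integral F.int
  rw [h1, det_mul, det_mul, det_transpose, h2]
  have h4 : LinearMap.det (F.N : (Fin r → ℝ) →ₗ[ℝ] (Fin r → ℝ)) *
      LinearMap.det (F.N : (Fin r → ℝ) →ₗ[ℝ] (Fin r → ℝ)) = 1 := by
    rw [← abs_mul_abs_self, h3, one_mul]
  rw [mul_right_comm, h4, one_mul]

end Pool.Agent.Helper80.TF.TorusFibration
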