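import Pool.Agent.Helper80.TF.CtrA
import Pool.Agent.Helper80.TF.CtrD0

/-!
# The root of a positive form of degree `2 p` in dimension `p + 1`: definitions

`V` is a complex vector space of dimension `p + 1`.  A positive `(p, p)`-form `Θ` on `V` is the
`p`-th power of exactly one positive `(1, 1)`-form, its root.
-/

open Manifold Set Filter Topology MeasureTheory

set_option linter.unusedSectionVars false

namespace Pool.Agent.Helper80.TF

variable {p : ℕ} {V : Type*} [NormedAddCommGroup V]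

/-- The index `l + 2`. -/
def sh (p : ℕ) (l : Fin (p * 2)) : Fin ((p + 1) * 2) := ⟨l.1 + 2, by omega⟩

/-- The value of `α ∧ β ∧ Θ` at the tuple `b`, up to a constant:
`∑ σ, sign σ α (b_σ0) β (b_σ1) Θ (b_σ2, …)`. -/
noncomputable def tm [NormedSpace ℝ V] (b : Fin ((p + 1) * 2) → V) (Θ : V [⋀^Fin (p * 2)]→L[ℝ] ℝ)
    (α β : V →L[ℝ] ℝ) : ℝ :=
  ∑ σ : Equiv.Perm (Fin ((p + 1) * 2)), ((Equiv.Perm.sign σ : ℤ) : ℝ) *
    (α (b (σ (tup0 p))) * β (b (σ (tup1 p))) * Θ fun l => b (σ (sh p l)))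

/-- The linear map `β ↦ lm β` with `α (lm β) = tm α β`. -/
noncomputable def lm [NormedSpace ℝ V] [FiniteDimensional ℝ V]
    (b : Module.Basis (Fin ((p + 1) * 2)) ℝ V) (Θ : V [⋀^Fin (p * 2)]→L[ℝ] ℝ) :
    (V →L[ℝ] ℝ) →L[ℝ] V :=
  ∑ i, ∑ σ : Equiv.Perm (Fin ((p + 1) * 2)), (((Equiv.Perm.sign σ : ℤ) : ℝ) *
    (b.coord i (b (σ (tup0 p))) * Θ fun l => b (σ (sh p l)))) •
      (ContinuousLinearMap.apply ℝ ℝ (b (σ (tup1 p)))).smulRight (b i)

/-- The alternating form `(v, w) ↦ (R v w - R w v) / 2`. -/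
noncomputable def toForm [NormedSpace ℝ V] (R : V →L[ℝ] V →L[ℝ] ℝ) : V [⋀^Fin 2]→L[ℝ] ℝ where
  toFun v := (R (v 0) (v 1) - R (v 1) (v 0)) / 2
  map_update_add' := by
    intro hd v l x y
    obtain rfl : hd = instDecidableEqFin 2 := Subsingleton.elim _ _
    fin_cases l
    · simp
      ring
    · simp
      ring
  map_update_smul' := by
    intro hd v l c x
    obtain rfl : hd = instDecidableEqFin 2 := Subsingleton.elim _ _
    fin_cases l
    · simp
      ring
    · simp
      ring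
  cont := by
    have h1 : Continuous fun v : Fin 2 → V => R (v 0) (v 1) :=
      (R.continuous.comp (continuous_apply 0)).clm_apply (continuous_apply 1)
    have h2 : Continuous fun v : Fin 2 → V => R (v 1) (v 0) :=
      (R.continuous.comp (continuous_apply 1)).clm_apply (continuous_apply 0)
    exact (h1.sub h2).div_const 2
  map_eq_zero_of_eq' := by
    intro v i j h hij
    have h01 : v 0 = v 1 := by
      fin_cases i <;> fin_cases j
      · exact absurd rfl hij
      · exact h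
      · exact h.symm
      · exact absurd rfl hij
    change (R (v 0) (v 1) - R (v 1) (v 0)) / 2 = 0
    rw [h01]
    ring

theorem toForm_apply [NormedSpace ℝ V] (R : V →L[ℝ] V →L[ℝ] ℝ) (v w : V) :
    toForm R ![v, w] = (R v w - R w v) / 2 := rfl

/-- The constant `(2p)! / (p+1)`. -/
noncomputable def cp (p : ℕ) : ℝ := (Nat.factorial (p * 2) : ℝ) / (p + 1)

/-- The form whose inverse is `Θ`, up to a factor. -/
noncomputable def root1 [NormedSpace ℝ V] [FiniteDimensional ℝ V]
    (b : Module.Basis (Fin ((p + 1) * 2)) ℝ V) (Θ : V [⋀^Fin (p * 2)]→L[ℝ] ℝ) :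
    V [⋀^Fin 2]→L[ℝ] ℝ := toForm (ContinuousLinearMap.inverse (lm b Θ))

/-- The root of `Θ`. -/
noncomputable def root [NormedSpace ℝ V] [FiniteDimensional ℝ V]
    (b : Module.Basis (Fin ((p + 1) * 2)) ℝ V) (Θ : V [⋀^Fin (p * 2)]→L[ℝ] ℝ) :
    V [⋀^Fin 2]→L[ℝ] ℝ :=
  ((cp p * wpow (p + 1) (root1 b Θ) b) ^ (-(1 : ℝ) / p)) • root1 b Θ

/-- `Θ` is a positive `(p, p)`-form (in dimension `p + 1`): it is invariant under the complex
structure and positive on the tuples `u_0, i u_0, …, u_{p-1}, i u_{p-1}` which are linearly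
independent. -/
def PosTop [NormedSpace ℂ V] (Θ : V [⋀^Fin (p * 2)]→L[ℝ] ℝ) : Prop :=
  Θ.compContinuousLinearMap (mulI V) = Θ ∧
    ∀ u : Fin p → V, LinearIndependent ℝ (inter (mulI V) u) → 0 < Θ (inter (mulI V) u)

/-- The basis `b` has the orientation of the complex structure. -/
def Oriented [NormedSpace ℂ V] (b : Fin ((p + 1) * 2) → V) : Prop :=
  ∃ u : Fin (p + 1) → V, b = inter (mulI V) u

end Pool.Agent.Helper80.TF
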