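import Pool.Agent.Helper80.TF.Root0

/-!
# Elementary properties of `tm` and `lm`
-/

open Manifold Set Filter Topology MeasureTheory

set_option linter.unusedSectionVars false

namespace Pool.Agent.Helper80.TF

variable {p : ℕ} {V : Type*} [NormedAddCommGroup V] [NormedSpace ℝ V]

private theorem RootA_ne : tup0 p ≠ tup1 p := by
  intro h
  have := congrArg Fin.val h
  simp [tup0, tup1] at this

private theorem RootA_sh0 (l : Fin (p * 2)) : sh p l ≠ tup0 p := by
  intro h
  have := congrArg Fin.val h
  simp [tup0, sh] at this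

private theorem RootA_sh1 (l : Fin (p * 2)) : sh p l ≠ tup1 p := by
  intro h
  have := congrArg Fin.val h
  simp [tup1, sh] at this

private theorem RootA_sh_inj : Function.Injective (sh p) := by
  intro l l' h
  have := congrArg Fin.val h
  simp only [sh] at this
  exact Fin.ext (by omega)

private theorem RootA_cases (i : Fin ((p + 1) * 2)) :
    i = tup0 p ∨ i = tup1 p ∨ ∃ l, i = sh p l := by
  rcases Nat.lt_or_ge i.1 2 with h | h
  · rcases Nat.lt_or_ge i.1 1 with h' | h'
    · left
      apply Fin.ext
      simp only [tup0]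
      omega
    · right
      left
      apply Fin.ext
      simp only [tup1]
      omega
  · right
    right
    refine ⟨⟨i.1 - 2, by have := i.2; omega⟩, ?_⟩
    apply Fin.ext
    simp only [sh]
    omega

/-- Reindex the sum by `σ ↦ σ * swap 0 1`. -/
theorem tm_swap (b : Fin ((p + 1) * 2) → V) (Θ : V [⋀^Fin (p * 2)]→L[ℝ] ℝ) (α β : V →L[ℝ] ℝ) :
    tm b Θ β α = -tm b Θ α β := by
  unfold tm
  rw [← Finset.sum_neg_distrib]
  refine Fintype.sum_equiv (Equiv.mulRight (Equiv.swap (tup0 p) (tup1 p))) _ _ fun σ => ?_
  have h0 : (σ * Equiv.swap (tup0 p) (tup1 p)) (tup0 p) = σ (tup1 p) := by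
    rw [Equiv.Perm.mul_apply, Equiv.swap_apply_left]
  have h1 : (σ * Equiv.swap (tup0 p) (tup1 p)) (tup1 p) = σ (tup0 p) := by
    rw [Equiv.Perm.mul_apply, Equiv.swap_apply_right]
  have h2 : ∀ l, (σ * Equiv.swap (tup0 p) (tup1 p)) (sh p l) = σ (sh p l) := fun l => by
    rw [Equiv.Perm.mul_apply, Equiv.swap_apply_of_ne_of_ne (RootA_sh0 l) (RootA_sh1 l)]
  rw [Equiv.coe_mulRight, h0, h1, Equiv.Perm.sign_mul, Equiv.Perm.sign_swap RootA_ne]
  simp only [h2]
  push_cast
  ring

open Classical in
/-- The multilinear map whose alternatization is `tm`. -/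
private noncomputable def RootA_mm (Θ : V [⋀^Fin (p * 2)]→L[ℝ] ℝ) (α β : V →L[ℝ] ℝ) :
    MultilinearMap ℝ (fun _ : Fin ((p + 1) * 2) => V) ℝ where
  toFun v := α (v (tup0 p)) * β (v (tup1 p)) * Θ fun l => v (sh p l)
  map_update_add' := by
    intro hd v i x y
    have hinst : hd = instDecidableEqFin _ := Subsingleton.elim _ _
    subst hinst
    rcases RootA_cases i with rfl | rfl | ⟨l, rfl⟩
    · have h2 : ∀ z : V, (fun l => Function.update v (tup0 p) z (sh p l)) =
          fun l => v (sh p l) := fun z => funext fun l => Function.update_of_ne (RootA_sh0 l) _ _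
      simp only [h2, Function.update_self, Function.update_of_ne RootA_ne.symm, map_add]
      ring
    · have h2 : ∀ z : V, (fun l => Function.update v (tup1 p) z (sh p l)) =
          fun l => v (sh p l) := fun z => funext fun l => Function.update_of_ne (RootA_sh1 l) _ _
      simp only [h2, Function.update_self, Function.update_of_ne RootA_ne, map_add]
      ring
    · have h2 : ∀ z : V, (fun l' => Function.update v (sh p l) z (sh p l')) =
          Function.update (fun l' => v (sh p l')) l z := fun z =>
        Function.update_comp_eq_of_injective v RootA_sh_inj l z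
      simp only [h2, Function.update_of_ne (RootA_sh0 l).symm,
        Function.update_of_ne (RootA_sh1 l).symm, ContinuousAlternatingMap.map_update_add]
      ring
  map_update_smul' := by
    intro hd v i c x
    have hinst : hd = instDecidableEqFin _ := Subsingleton.elim _ _
    subst hinst
    rcases RootA_cases i with rfl | rfl | ⟨l, rfl⟩
    · have h2 : ∀ z : V, (fun l => Function.update v (tup0 p) z (sh p l)) =
          fun l => v (sh p l) := fun z => funext fun l => Function.update_of_ne (RootA_sh0 l) _ _
      simp only [h2, Function.update_self, Function.update_of_ne RootA_ne.symm, map_smul,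
        smul_eq_mul]
      ring
    · have h2 : ∀ z : V, (fun l => Function.update v (tup1 p) z (sh p l)) =
          fun l => v (sh p l) := fun z => funext fun l => Function.update_of_ne (RootA_sh1 l) _ _
      simp only [h2, Function.update_self, Function.update_of_ne RootA_ne, map_smul, smul_eq_mul]
      ring
    · have h2 : ∀ z : V, (fun l' => Function.update v (sh p l) z (sh p l')) =
          Function.update (fun l' => v (sh p l')) l z := fun z =>
        Function.update_comp_eq_of_injective v RootA_sh_inj l z
      simp only [h2, Function.update_of_ne (RootA_sh0 l).symm,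
        Function.update_of_ne (RootA_sh1 l).symm, ContinuousAlternatingMap.map_update_smul,
        smul_eq_mul]
      ring

private theorem RootA_tm (b : Fin ((p + 1) * 2) → V) (Θ : V [⋀^Fin (p * 2)]→L[ℝ] ℝ)
    (α β : V →L[ℝ] ℝ) : tm b Θ α β = MultilinearMap.alternatization (RootA_mm Θ α β) b := by
  rw [MultilinearMap.alternatization_apply]
  unfold tm
  refine Finset.sum_congr rfl fun σ _ => ?_
  rw [MultilinearMap.domDomCongr_apply]
  change _ = Equiv.Perm.sign σ • (α (b (σ (tup0 p))) * β (b (σ (tup1 p))) *
    Θ fun l => b (σ (sh p l)))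
  rw [Units.smul_def, zsmul_eq_mul]

/-- `b' ↦ tm b' Θ α β` is alternating of top degree (it is the alternatization of a multilinear
map), so it is a multiple of `b.det`. -/
theorem tm_det (b : Module.Basis (Fin ((p + 1) * 2)) ℝ V) (b' : Fin ((p + 1) * 2) → V)
    (Θ : V [⋀^Fin (p * 2)]→L[ℝ] ℝ) (α β : V →L[ℝ] ℝ) :
    tm b' Θ α β = b.det b' * tm b Θ α β := by
  rw [RootA_tm, RootA_tm]
  have h := AlternatingMap.eq_smul_basis_det b (MultilinearMap.alternatization (RootA_mm Θ α β))
  have h2 := congrArg (fun f => f b') h
  simp only [AlternatingMap.smul_apply, smul_eq_mul] at h2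
  rw [h2]
  ring

/-- Expand `α (b_σ0)` in the basis. -/
theorem lm_apply [FiniteDimensional ℝ V] (b : Module.Basis (Fin ((p + 1) * 2)) ℝ V)
    (Θ : V [⋀^Fin (p * 2)]→L[ℝ] ℝ) (α β : V →L[ℝ] ℝ) : α (lm b Θ β) = tm b Θ α β := by
  unfold lm tm
  have h0 : ∀ v : V, α v = ∑ i, b.coord i v * α (b i) := by
    intro v
    conv_lhs => rw [← b.sum_repr v]
    rw [map_sum]
    refine Finset.sum_congr rfl fun i _ => ?_
    rw [map_smul, smul_eq_mul, Module.Basis.coord_apply]
  simp only [ContinuousLinearMap.sum_apply, ContinuousLinearMap.smul_apply, map_sum, map_smul,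
    ContinuousLinearMap.smulRight_apply, ContinuousLinearMap.apply_apply, smul_eq_mul]
  rw [Finset.sum_comm]
  refine Finset.sum_congr rfl fun σ _ => ?_
  rw [h0 (b (σ (tup0 p))), Finset.sum_mul, Finset.sum_mul, Finset.mul_sum]
  refine Finset.sum_congr rfl fun i _ => ?_
  ring

end Pool.Agent.Helper80.TF
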