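import Pool.Agent.Helper80.TF.Root0
import Pool.Agent.Helper80.TF.PowA

/-!
# A sum over permutations
-/

open Manifold Set Filter Topology MeasureTheory

set_option linter.unusedSectionVars false

namespace Pool.Agent.Helper80.TF

variable {p : ℕ} {V : Type*} [NormedAddCommGroup V] [NormedSpace ℝ V]

/-- The summand of the top power. -/
private noncomputable def RootB2_T (a : V [⋀^Fin 2]→L[ℝ] ℝ) (c : Fin ((p + 1) * 2) → V)
    (σ : Equiv.Perm (Fin ((p + 1) * 2))) : ℝ :=
  ((Equiv.Perm.sign σ : ℤ) : ℝ) * ∏ l : Fin (p + 1), a fun j => c (σ (finProdFinEquiv (l, j)))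

/-- Permutation of the blocks. -/
private def RootB2_blk (π : Equiv.Perm (Fin (p + 1))) : Equiv.Perm (Fin ((p + 1) * 2)) :=
  finProdFinEquiv.permCongr (Equiv.prodCongrLeft fun _ : Fin 2 => π)

/-- Exchange of the two positions of a block. -/
private def RootB2_flip (l₀ : Fin (p + 1)) : Equiv.Perm (Fin ((p + 1) * 2)) :=
  finProdFinEquiv.permCongr (Equiv.prodCongrRight fun l : Fin (p + 1) =>
    if l = l₀ then Equiv.swap (0 : Fin 2) 1 else 1)

private theorem RootB2_blk_apply (π : Equiv.Perm (Fin (p + 1))) (l : Fin (p + 1)) (j : Fin 2) :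
    RootB2_blk π (finProdFinEquiv (l, j)) = finProdFinEquiv (π l, j) := by
  rw [RootB2_blk, Equiv.permCongr_apply, Equiv.symm_apply_apply]
  rfl

private theorem RootB2_flip_apply (l₀ l : Fin (p + 1)) (j : Fin 2) :
    RootB2_flip l₀ (finProdFinEquiv (l, j)) =
      finProdFinEquiv (l, (if l = l₀ then Equiv.swap (0 : Fin 2) 1 else 1) j) := by
  rw [RootB2_flip, Equiv.permCongr_apply, Equiv.symm_apply_apply]
  rfl

private theorem RootB2_blk_sign (π : Equiv.Perm (Fin (p + 1))) :
    Equiv.Perm.sign (RootB2_blk π) = 1 := by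
  rw [RootB2_blk, Equiv.Perm.sign_permCongr, Equiv.Perm.sign_prodCongrLeft, Fin.prod_univ_two]
  exact Int.units_mul_self _

private theorem RootB2_flip_sign (l₀ : Fin (p + 1)) :
    Equiv.Perm.sign (RootB2_flip l₀) = -1 := by
  rw [RootB2_flip, Equiv.Perm.sign_permCongr, Equiv.Perm.sign_prodCongrRight,
    Finset.prod_eq_single l₀]
  · rw [if_pos rfl, Equiv.Perm.sign_swap (by decide)]
  · intro l _ hl
    rw [if_neg hl, Equiv.Perm.sign_one]
  · intro h
    exact absurd (Finset.mem_univ _) h

private theorem RootB2_T_blk (a : V [⋀^Fin 2]→L[ℝ] ℝ) (c : Fin ((p + 1) * 2) → V)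
    (σ : Equiv.Perm (Fin ((p + 1) * 2))) (π : Equiv.Perm (Fin (p + 1))) :
    RootB2_T a c (σ * RootB2_blk π) = RootB2_T a c σ := by
  unfold RootB2_T
  rw [Equiv.Perm.sign_mul, RootB2_blk_sign, mul_one]
  congr 1
  rw [← Equiv.prod_comp π fun l => a fun j => c (σ (finProdFinEquiv (l, j)))]
  refine Finset.prod_congr rfl fun l _ => ?_
  congr 1
  funext j
  rw [Equiv.Perm.mul_apply, RootB2_blk_apply]

private theorem RootB2_T_flip (a : V [⋀^Fin 2]→L[ℝ] ℝ) (c : Fin ((p + 1) * 2) → V)
    (σ : Equiv.Perm (Fin ((p + 1) * 2))) (l₀ : Fin (p + 1)) :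
    RootB2_T a c (σ * RootB2_flip l₀) = RootB2_T a c σ := by
  classical
  unfold RootB2_T
  rw [Equiv.Perm.sign_mul, RootB2_flip_sign, ← Finset.mul_prod_erase _ _ (Finset.mem_univ l₀),
    ← Finset.mul_prod_erase _ (fun l => a fun j => c (σ (finProdFinEquiv (l, j))))
      (Finset.mem_univ l₀)]
  have h1 : (a fun j => c ((σ * RootB2_flip l₀) (finProdFinEquiv (l₀, j)))) =
      -a fun j => c (σ (finProdFinEquiv (l₀, j))) := by
    have h2 := a.toAlternatingMap.map_swap (fun j => c (σ (finProdFinEquiv (l₀, j))))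
      (i := 0) (j := 1) (by decide)
    refine Eq.trans ?_ h2
    change _ = a ((fun j => c (σ (finProdFinEquiv (l₀, j)))) ∘ Equiv.swap 0 1)
    congr 1
    funext j
    rw [Equiv.Perm.mul_apply, RootB2_flip_apply, if_pos rfl]
    rfl
  have h3 : ∏ l ∈ Finset.univ.erase l₀,
      (a fun j => c ((σ * RootB2_flip l₀) (finProdFinEquiv (l, j)))) =
      ∏ l ∈ Finset.univ.erase l₀, a fun j => c (σ (finProdFinEquiv (l, j))) := by
    refine Finset.prod_congr rfl fun l hl => ?_
    congr 1
    funext j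
    rw [Equiv.Perm.mul_apply, RootB2_flip_apply, if_neg (Finset.ne_of_mem_erase hl)]
    rfl
  rw [h1, h3]
  push_cast
  ring

private theorem RootB2_e00 : (finProdFinEquiv ((0 : Fin (p + 1)), (0 : Fin 2)) :
    Fin ((p + 1) * 2)) = tup0 p := by
  apply Fin.ext
  simp [finProdFinEquiv, tup0]

private theorem RootB2_e01 : (finProdFinEquiv ((0 : Fin (p + 1)), (1 : Fin 2)) :
    Fin ((p + 1) * 2)) = tup1 p := by
  apply Fin.ext
  simp [finProdFinEquiv, tup1]

private theorem RootB2_esh (i : Fin p) (j : Fin 2) : (finProdFinEquiv (i.succ, j) :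
    Fin ((p + 1) * 2)) = sh p (finProdFinEquiv (i, j)) := by
  apply Fin.ext
  simp [finProdFinEquiv, sh]
  ring

private theorem RootB2_exists (m : Fin ((p + 1) * 2)) :
    ∃ ρ : Equiv.Perm (Fin ((p + 1) * 2)), ρ m = tup0 p ∧
      ∀ (a : V [⋀^Fin 2]→L[ℝ] ℝ) (c : Fin ((p + 1) * 2) → V) (σ : Equiv.Perm (Fin ((p + 1) * 2))),
        RootB2_T a c (σ * ρ) = RootB2_T a c σ := by
  obtain ⟨⟨l₀, j₀⟩, rfl⟩ := finProdFinEquiv.surjective m
  by_cases hj : j₀ = 0
  · refine ⟨RootB2_blk (Equiv.swap l₀ 0), ?_, fun a c σ => RootB2_T_blk a c σ _⟩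
    rw [RootB2_blk_apply, Equiv.swap_apply_left, hj, RootB2_e00]
  · have hj1 : j₀ = 1 := by
      fin_cases j₀
      · exact absurd rfl hj
      · rfl
    refine ⟨RootB2_blk (Equiv.swap l₀ 0) * RootB2_flip l₀, ?_, fun a c σ => ?_⟩
    · rw [Equiv.Perm.mul_apply, RootB2_flip_apply, if_pos rfl, hj1, Equiv.swap_apply_right,
        RootB2_blk_apply, Equiv.swap_apply_left, RootB2_e00]
    · rw [← mul_assoc, RootB2_T_flip, RootB2_T_blk]

private theorem RootB2_sum (a : V [⋀^Fin 2]→L[ℝ] ℝ) (c : Fin ((p + 1) * 2) → V)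
    (i : Fin ((p + 1) * 2)) :
    ((p + 1 : ℝ) * 2) * ∑ σ : Equiv.Perm (Fin ((p + 1) * 2)),
      (if σ (tup0 p) = i then RootB2_T a c σ else 0) = 2 ^ (p + 1) * wpow (p + 1) a c := by
  classical
  have h1 : ∀ m : Fin ((p + 1) * 2), ∑ σ : Equiv.Perm (Fin ((p + 1) * 2)),
      (if σ m = i then RootB2_T a c σ else 0) = ∑ σ : Equiv.Perm (Fin ((p + 1) * 2)),
      (if σ (tup0 p) = i then RootB2_T a c σ else 0) := by
    intro m
    obtain ⟨ρ, hρ, hT⟩ := RootB2_exists (V := V) m
    rw [← Equiv.sum_comp (Equiv.mulRight ρ)]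
    refine Finset.sum_congr rfl fun σ _ => ?_
    rw [Equiv.coe_mulRight, Equiv.Perm.mul_apply, hρ, hT]
  have h2 : ∑ m : Fin ((p + 1) * 2), ∑ σ : Equiv.Perm (Fin ((p + 1) * 2)),
      (if σ m = i then RootB2_T a c σ else 0) =
      ((p + 1 : ℝ) * 2) * ∑ σ : Equiv.Perm (Fin ((p + 1) * 2)),
      (if σ (tup0 p) = i then RootB2_T a c σ else 0) := by
    rw [Finset.sum_congr rfl fun m _ => h1 m, Finset.sum_const, Finset.card_univ,
      Fintype.card_fin, nsmul_eq_mul]
    push_cast
    ring
  rw [← h2, Finset.sum_comm, wpow_apply, ← mul_assoc]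
  have h3 : (2 : ℝ) ^ (p + 1) * (1 / 2) ^ (p + 1) = 1 := by
    rw [← mul_pow]
    norm_num
  rw [h3, one_mul]
  refine Finset.sum_congr rfl fun σ _ => ?_
  rw [Finset.sum_eq_single (σ⁻¹ i)]
  · rw [if_pos (by simp)]
    rfl
  · intro m _ hm
    rw [if_neg]
    intro h
    apply hm
    rw [← h]
    simp
  · intro h
    exact absurd (Finset.mem_univ _) h

private theorem RootB2_update (b : Module.Basis (Fin ((p + 1) * 2)) ℝ V)
    (f : V [⋀^Fin ((p + 1) * 2)]→L[ℝ] ℝ) (i : Fin ((p + 1) * 2)) (v : V) :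
    f (Function.update b i v) = b.coord i v * f b := by
  classical
  let g : V →ₗ[ℝ] ℝ :=
    { toFun := fun x => f (Function.update b i x)
      map_add' := fun x y => f.map_update_add _ _ _ _
      map_smul' := fun c x => f.map_update_smul _ _ _ _ }
  have h : g = f b • b.coord i := by
    refine b.ext fun j => ?_
    change f (Function.update b i (b j)) = f b * b.coord i (b j)
    rw [Module.Basis.coord_apply, Module.Basis.repr_self, Finsupp.single_apply]
    by_cases hij : j = i
    · subst hij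
      rw [Function.update_eq_self, if_pos rfl, mul_one]
    · rw [if_neg hij, mul_zero]
      exact f.toAlternatingMap.map_update_self b (Ne.symm hij)
  have h2 := LinearMap.congr_fun h v
  change f (Function.update b i v) = f b * b.coord i v at h2
  rw [h2, mul_comm]

/-- Second step, for a basis `b` and `β = a (v, ·)`.  By linearity `α = b.coord i` and
`v = b_k`.  The sum over the `σ` with `σ 0 = i` of `sign σ a (b_k, b_σ1) ∏ …` is the sum over the
same `σ` of `sign σ ∏_{i ≤ p} a (b'_σ(2i), b'_σ(2i+1))`, where `b'` is `b` with `b_i` replaced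
by `b_k`.  For every position `l` the sum over the `σ` with `σ l = i` is the same (exchange the
blocks, and the two positions of a block, of the product); so the sum is `1 / (2 (p + 1))` times
the sum over all `σ`, which is `2 ^ (p + 1) wpow (p + 1) a b'`; this is `0` for `i ≠ k`. -/
theorem tm_wpow_sum (b : Module.Basis (Fin ((p + 1) * 2)) ℝ V) (a : V [⋀^Fin 2]→L[ℝ] ℝ)
    (α β : V →L[ℝ] ℝ) (v : V) (hβ : ∀ w, β w = a ![v, w]) :
    ∑ σ : Equiv.Perm (Fin ((p + 1) * 2)), ((Equiv.Perm.sign σ : ℤ) : ℝ) *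
        (α (b (σ (tup0 p))) * β (b (σ (tup1 p))) *
          ∏ i : Fin p, a fun j => b (σ (sh p (finProdFinEquiv (i, j))))) =
      2 ^ p / (p + 1) * (α v * wpow (p + 1) a b) := by
  classical
  have hα : α v = ∑ i, b.coord i v * α (b i) := by
    conv_lhs => rw [← b.sum_repr v]
    rw [map_sum]
    exact Finset.sum_congr rfl fun i _ => by
      rw [map_smul, smul_eq_mul, Module.Basis.coord_apply]
  have h1 : ∀ σ : Equiv.Perm (Fin ((p + 1) * 2)), ((Equiv.Perm.sign σ : ℤ) : ℝ) *
        (α (b (σ (tup0 p))) * β (b (σ (tup1 p))) *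
          ∏ i : Fin p, a fun j => b (σ (sh p (finProdFinEquiv (i, j))))) =
      ∑ i, α (b i) * (if σ (tup0 p) = i then RootB2_T a (Function.update b i v) σ else 0) := by
    intro σ
    rw [Finset.sum_eq_single (σ (tup0 p))]
    · rw [if_pos rfl]
      unfold RootB2_T
      rw [Fin.prod_univ_succ]
      have h2 : (a fun j => Function.update b (σ (tup0 p)) v
          (σ (finProdFinEquiv ((0 : Fin (p + 1)), j)))) = β (b (σ (tup1 p))) := by
        rw [hβ]
        congr 1
        funext j
        fin_cases j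
        · change Function.update b (σ (tup0 p)) v (σ (finProdFinEquiv ((0 : Fin (p + 1)), 0))) = v
          rw [RootB2_e00, Function.update_self]
        · change Function.update b (σ (tup0 p)) v (σ (finProdFinEquiv ((0 : Fin (p + 1)), 1))) =
            b (σ (tup1 p))
          rw [RootB2_e01, Function.update_of_ne]
          intro h
          have h' := congrArg Fin.val (σ.injective h)
          exact one_ne_zero h'
      have h3 : ∀ i : Fin p, (a fun j => Function.update b (σ (tup0 p)) v
          (σ (finProdFinEquiv (i.succ, j)))) =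
          a fun j => b (σ (sh p (finProdFinEquiv (i, j)))) := by
        intro i
        congr 1
        funext j
        rw [RootB2_esh, Function.update_of_ne]
        intro h
        have h' := congrArg Fin.val (σ.injective h)
        simp [sh, tup0] at h'
      rw [h2, Finset.prod_congr rfl fun i _ => h3 i]
      ring
    · intro i _ hi
      rw [if_neg (Ne.symm hi), mul_zero]
    · intro h
      exact absurd (Finset.mem_univ _) h
  rw [Finset.sum_congr rfl fun σ _ => h1 σ, Finset.sum_comm]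
  have h4 : ∀ i, ∑ σ : Equiv.Perm (Fin ((p + 1) * 2)),
      α (b i) * (if σ (tup0 p) = i then RootB2_T a (Function.update b i v) σ else 0) =
      2 ^ p / (p + 1) * (b.coord i v * α (b i) * wpow (p + 1) a b) := by
    intro i
    have h5 := RootB2_sum a (Function.update b i v) i
    rw [RootB2_update, pow_succ] at h5
    have hp : (p + 1 : ℝ) ≠ 0 := by positivity
    rw [← Finset.mul_sum]
    have h6 : ∑ σ : Equiv.Perm (Fin ((p + 1) * 2)),
      (if σ (tup0 p) = i then RootB2_T a (Function.update b i v) σ else 0) =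
        2 ^ p / (p + 1) * (b.coord i v * wpow (p + 1) a b) := by
      field_simp
      linarith
    rw [h6]
    ring
  rw [Finset.sum_congr rfl fun i _ => h4 i, ← Finset.mul_sum, ← Finset.sum_mul, ← hα]

end Pool.Agent.Helper80.TF
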