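import Pool.Agent.Helper80.TF.RootB1
import Pool.Agent.Helper80.TF.RootB2

/-!
# The main identity
-/

open Manifold Set Filter Topology MeasureTheory

set_option linter.unusedSectionVars false

namespace Pool.Agent.Helper80.TF

variable {p : ℕ} {V : Type*} [NormedAddCommGroup V] [NormedSpace ℝ V]

theorem tm_wpow (b : Module.Basis (Fin ((p + 1) * 2)) ℝ V) (a : V [⋀^Fin 2]→L[ℝ] ℝ)
    (α β : V →L[ℝ] ℝ) (v : V) (hβ : ∀ w, β w = a ![v, w]) :
    tm b (wpow p a) α β = cp p * (α v * wpow (p + 1) a b) := by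
  rw [tm_wpow_expand, tm_wpow_sum b a α β v hβ, cp]
  have h1 : (1 / 2 : ℝ) ^ p * 2 ^ p = 1 := by
    rw [← mul_pow]
    norm_num
  calc (1 / 2 : ℝ) ^ p * (Nat.factorial (p * 2) : ℝ) *
        (2 ^ p / (p + 1) * (α v * wpow (p + 1) a b))
      = ((1 / 2 : ℝ) ^ p * 2 ^ p) * ((Nat.factorial (p * 2) : ℝ) / (p + 1) *
        (α v * wpow (p + 1) a b)) := by ring
    _ = _ := by rw [h1, one_mul]

end Pool.Agent.Helper80.TF
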