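import Pool.Agent.Helper80.TF.Root0
import Pool.Agent.Helper80.TF.PowA

/-!
# Expansion of `tm b (wpow p a)`
-/

open Manifold Set Filter Topology MeasureTheory

set_option linter.unusedSectionVars false

namespace Pool.Agent.Helper80.TF

variable {p : ℕ} {V : Type*} [NormedAddCommGroup V] [NormedSpace ℝ V]

private theorem rootB1_inj (p : ℕ) : Function.Injective (sh p) := by
  intro a b h
  have h1 := congrArg Fin.val h
  change a.1 + 2 = b.1 + 2 at h1
  exact Fin.ext (by omega)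

open Classical in
/-- The permutation `id ⊕ τ`. -/
private noncomputable def rootB1Lift (p : ℕ) (τ : Equiv.Perm (Fin (p * 2))) :
    Equiv.Perm (Fin ((p + 1) * 2)) :=
  τ.extendDomain (Equiv.ofInjective (sh p) (rootB1_inj p))

private theorem rootB1Lift_sign (p : ℕ) (τ : Equiv.Perm (Fin (p * 2))) :
    Equiv.Perm.sign (rootB1Lift p τ) = Equiv.Perm.sign τ := by
  classical
  unfold rootB1Lift
  convert Equiv.Perm.sign_extendDomain τ (Equiv.ofInjective (sh p) (rootB1_inj p))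

private theorem rootB1Lift_sh (p : ℕ) (τ : Equiv.Perm (Fin (p * 2))) (l : Fin (p * 2)) :
    rootB1Lift p τ (sh p l) = sh p (τ l) := by
  classical
  exact Equiv.Perm.extendDomain_apply_image τ (Equiv.ofInjective (sh p) (rootB1_inj p)) l

private theorem rootB1Lift_small (p : ℕ) (τ : Equiv.Perm (Fin (p * 2)))
    (l : Fin ((p + 1) * 2)) (hl : l.1 < 2) : rootB1Lift p τ l = l := by
  classical
  apply Equiv.Perm.extendDomain_apply_not_subtype
  rintro ⟨m, hm⟩
  have h1 := congrArg Fin.val hm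
  change m.1 + 2 = l.1 at h1
  omega

/-- First step: inserting the definition of `wpow p a` and substituting `σ ↦ σ ∘ (id ⊕ τ)` gives
`2 ^ (-p) (2p)!` times the sum over `σ` of
`sign σ α (b_σ0) β (b_σ1) a (b_σ2, b_σ3) ⋯ a (b_σ(2p), b_σ(2p+1))`. -/
theorem tm_wpow_expand (b : Fin ((p + 1) * 2) → V) (a : V [⋀^Fin 2]→L[ℝ] ℝ) (α β : V →L[ℝ] ℝ) :
    tm b (wpow p a) α β = (1 / 2 : ℝ) ^ p * (Nat.factorial (p * 2) : ℝ) *
      ∑ σ : Equiv.Perm (Fin ((p + 1) * 2)), ((Equiv.Perm.sign σ : ℤ) : ℝ) *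
        (α (b (σ (tup0 p))) * β (b (σ (tup1 p))) *
          ∏ i : Fin p, a fun j => b (σ (sh p (finProdFinEquiv (i, j))))) := by
  classical
  set G : Equiv.Perm (Fin ((p + 1) * 2)) → ℝ := fun σ =>
    α (b (σ (tup0 p))) * β (b (σ (tup1 p))) *
      ∏ i : Fin p, a fun j => b (σ (sh p (finProdFinEquiv (i, j)))) with hG
  have hstep : ∀ τ : Equiv.Perm (Fin (p * 2)),
      ∑ σ : Equiv.Perm (Fin ((p + 1) * 2)), ((Equiv.Perm.sign σ : ℤ) : ℝ) *
        (((Equiv.Perm.sign τ : ℤ) : ℝ) * G (σ * rootB1Lift p τ)) =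
      ∑ σ : Equiv.Perm (Fin ((p + 1) * 2)), ((Equiv.Perm.sign σ : ℤ) : ℝ) * G σ := by
    intro τ
    rw [← Equiv.sum_comp (Equiv.mulRight (rootB1Lift p τ))
      fun σ : Equiv.Perm (Fin ((p + 1) * 2)) => ((Equiv.Perm.sign σ : ℤ) : ℝ) * G σ]
    refine Finset.sum_congr rfl fun σ _ => ?_
    rw [Equiv.coe_mulRight, Equiv.Perm.sign_mul, rootB1Lift_sign, Units.val_mul, Int.cast_mul,
      mul_assoc]
  have hGl : ∀ (σ : Equiv.Perm (Fin ((p + 1) * 2))) (τ : Equiv.Perm (Fin (p * 2))),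
      G (σ * rootB1Lift p τ) = α (b (σ (tup0 p))) * β (b (σ (tup1 p))) *
        ∏ i : Fin p, a fun j => b (σ (sh p (τ (finProdFinEquiv (i, j))))) := by
    intro σ τ
    rw [hG]
    simp only [Equiv.Perm.mul_apply, rootB1Lift_sh]
    rw [rootB1Lift_small p τ (tup0 p) (by change 0 < 2; norm_num),
      rootB1Lift_small p τ (tup1 p) (by change 1 < 2; norm_num)]
  unfold tm
  calc ∑ σ : Equiv.Perm (Fin ((p + 1) * 2)), ((Equiv.Perm.sign σ : ℤ) : ℝ) *
        (α (b (σ (tup0 p))) * β (b (σ (tup1 p))) * wpow p a fun l => b (σ (sh p l)))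
      = ∑ σ : Equiv.Perm (Fin ((p + 1) * 2)), ∑ τ : Equiv.Perm (Fin (p * 2)),
          (1 / 2 : ℝ) ^ p * (((Equiv.Perm.sign σ : ℤ) : ℝ) *
            (((Equiv.Perm.sign τ : ℤ) : ℝ) * G (σ * rootB1Lift p τ))) := by
        refine Finset.sum_congr rfl fun σ _ => ?_
        rw [wpow_apply, Finset.mul_sum, Finset.mul_sum, Finset.mul_sum]
        refine Finset.sum_congr rfl fun τ _ => ?_
        rw [hGl]
        ring
    _ = ∑ τ : Equiv.Perm (Fin (p * 2)), (1 / 2 : ℝ) ^ p *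
          ∑ σ : Equiv.Perm (Fin ((p + 1) * 2)), ((Equiv.Perm.sign σ : ℤ) : ℝ) * G σ := by
        rw [Finset.sum_comm]
        refine Finset.sum_congr rfl fun τ _ => ?_
        rw [← Finset.mul_sum, hstep]
    _ = (1 / 2 : ℝ) ^ p * (Nat.factorial (p * 2) : ℝ) *
          ∑ σ : Equiv.Perm (Fin ((p + 1) * 2)), ((Equiv.Perm.sign σ : ℤ) : ℝ) * G σ := by
        rw [Finset.sum_const, Finset.card_univ, Fintype.card_perm, Fintype.card_fin,
          nsmul_eq_mul]
        ring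

end Pool.Agent.Helper80.TF
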