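import Pool.Agent.Helper80.TF.Root0

/-!
# `Θ` is determined by `tm b Θ`
-/

open Manifold Set Filter Topology MeasureTheory

set_option linter.unusedSectionVars false

namespace Pool.Agent.Helper80.TF

variable {p : ℕ} {V : Type*} [NormedAddCommGroup V] [NormedSpace ℝ V]

/-- The indices `≥ 2`. -/
private def RootC_e (p : ℕ) : Fin (p * 2) ≃ {i : Fin ((p + 1) * 2) // 2 ≤ i.1} where
  toFun l := ⟨sh p l, Nat.le_add_left 2 l.1⟩
  invFun i := ⟨i.1.1 - 2, by have := i.1.2; have := i.2; omega⟩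
  left_inv l := by
    ext
    change l.1 + 2 - 2 = l.1
    omega
  right_inv i := by
    ext
    change i.1.1 - 2 + 2 = i.1.1
    have := i.2
    omega

private theorem RootC_e_apply (p : ℕ) (l : Fin (p * 2)) : (RootC_e p l).1 = sh p l := rfl

private theorem RootC_lt {p : ℕ} (x : Fin ((p + 1) * 2)) (hx : ¬ 2 ≤ x.1) :
    x = tup0 p ∨ x = tup1 p := by
  have h : x.1 = 0 ∨ x.1 = 1 := by omega
  rcases h with h | h
  · exact Or.inl (Fin.ext h)
  · exact Or.inr (Fin.ext h)

/-- Permutations with the same values at the first two indices give the same term. -/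
private theorem RootC_key (b : Fin ((p + 1) * 2) → V) (Θ : V [⋀^Fin (p * 2)]→L[ℝ] ℝ)
    (σ₀ σ : Equiv.Perm (Fin ((p + 1) * 2))) (h0 : σ (tup0 p) = σ₀ (tup0 p))
    (h1 : σ (tup1 p) = σ₀ (tup1 p)) :
    ((Equiv.Perm.sign σ : ℤ) : ℝ) * (Θ fun l => b (σ (sh p l))) =
      ((Equiv.Perm.sign σ₀ : ℤ) : ℝ) * (Θ fun l => b (σ₀ (sh p l))) := by
  set π : Equiv.Perm (Fin ((p + 1) * 2)) := σ₀⁻¹ * σ with hπ
  have hπ0 : π (tup0 p) = tup0 p := by
    rw [hπ, Equiv.Perm.mul_apply, h0]
    exact σ₀.symm_apply_apply _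
  have hπ1 : π (tup1 p) = tup1 p := by
    rw [hπ, Equiv.Perm.mul_apply, h1]
    exact σ₀.symm_apply_apply _
  have hσ : σ = σ₀ * π := by rw [hπ, mul_inv_cancel_left]
  have hfix : ∀ x : Fin ((p + 1) * 2), ¬ 2 ≤ x.1 → π x = x := by
    intro x hx
    rcases RootC_lt x hx with h | h
    · rw [h, hπ0]
    · rw [h, hπ1]
  have hiff : ∀ x : Fin ((p + 1) * 2), 2 ≤ (π x).1 ↔ 2 ≤ x.1 := by
    intro x
    constructor
    · intro h
      by_contra hx
      rw [hfix x hx] at h
      exact hx h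
    · intro h
      by_contra hx
      have h2 := hfix (π x) hx
      have h3 : π x = x := π.injective h2
      rw [h3] at hx
      exact hx h
  set τ : Equiv.Perm (Fin (p * 2)) := (RootC_e p).symm.permCongr (π.subtypePerm hiff) with hτ
  have hτsign : Equiv.Perm.sign τ = Equiv.Perm.sign π := by
    rw [hτ, Equiv.Perm.sign_permCongr]
    exact Equiv.Perm.sign_subtypePerm π hiff fun x hx => by
      by_contra h
      exact hx (hfix x h)
  have hτsh : ∀ l, sh p (τ l) = π (sh p l) := by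
    intro l
    rw [← RootC_e_apply, hτ]
    change ((RootC_e p) ((RootC_e p).symm ((π.subtypePerm hiff) ((RootC_e p).symm.symm l)))).1 = _
    rw [Equiv.apply_symm_apply]
    rfl
  have hΘ : (Θ fun l => b (σ (sh p l))) =
      ((Equiv.Perm.sign τ : ℤ) : ℝ) * (Θ fun l => b (σ₀ (sh p l))) := by
    have e1 : (fun l => b (σ (sh p l))) = (fun l => b (σ₀ (sh p l))) ∘ τ := by
      funext l
      change b (σ (sh p l)) = b (σ₀ (sh p (τ l)))
      rw [hτsh, hσ]
      rfl
    have e2 := Θ.toAlternatingMap.map_perm (fun l => b (σ₀ (sh p l))) τ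
    rw [e1]
    refine e2.trans ?_
    rw [Units.smul_def, zsmul_eq_mul]
    rfl
  rw [hΘ, hσ, Equiv.Perm.sign_mul, ← hτsign, ← mul_assoc]
  congr 1
  rw [Units.val_mul, Int.cast_mul, mul_assoc]
  have e3 : ((Equiv.Perm.sign τ : ℤ) : ℝ) * ((Equiv.Perm.sign τ : ℤ) : ℝ) = 1 := by
    rcases Int.units_eq_one_or (Equiv.Perm.sign τ) with h | h
    · rw [h]
      norm_num
    · rw [h]
      norm_num
  rw [e3, mul_one]

/-- An injection of the last indices extends to a permutation. -/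
private theorem RootC_ext (v : Fin (p * 2) → Fin ((p + 1) * 2)) (hv : Function.Injective v) :
    ∃ σ₀ : Equiv.Perm (Fin ((p + 1) * 2)), ∀ l, σ₀ (sh p l) = v l := by
  classical
  have hsh : Function.Injective (sh p) := by
    intro x y hxy
    have h1 : x.1 + 2 = y.1 + 2 := congrArg Fin.val hxy
    exact Fin.ext (by omega)
  let e1 : Set.range (sh p) ≃ Set.range v :=
    (Equiv.ofInjective (sh p) hsh).symm.trans (Equiv.ofInjective v hv)
  refine ⟨e1.extendSubtype, fun l => ?_⟩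
  rw [Equiv.extendSubtype_apply_of_mem e1 (sh p l) ⟨l, rfl⟩]
  change ((Equiv.ofInjective v hv) ((Equiv.ofInjective (sh p) hsh).symm ⟨sh p l, _⟩)).1 = v l
  rw [Equiv.ofInjective_symm_apply]
  rfl

/-- Two alternating forms are equal if they agree on the tuples of distinct basis vectors.  Such a
tuple is `l ↦ b (σ₀ (sh p l))` for a permutation `σ₀` (extend the injection
`Fin (p * 2) → Fin ((p + 1) * 2)`, `l ↦ l + 2 ↦ …` to a permutation).  For
`α = b.coord (σ₀ 0)`, `β = b.coord (σ₀ 1)` only the `σ = σ₀ ∘ (id ⊕ τ)` contribute to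
`tm b Θ α β`, each of them `sign σ₀ Θ (l ↦ b (σ₀ (sh p l)))`. -/
theorem eq_of_tm (b : Module.Basis (Fin ((p + 1) * 2)) ℝ V) {Θ Θ' : V [⋀^Fin (p * 2)]→L[ℝ] ℝ}
    (h : ∀ α β, tm b Θ α β = tm b Θ' α β) : Θ = Θ' := by
  classical
  have hfd : FiniteDimensional ℝ V := Module.Basis.finiteDimensional_of_finite b
  have hmain : Θ.toAlternatingMap = Θ'.toAlternatingMap := by
    refine Module.Basis.ext_alternating b fun v hv => ?_
    obtain ⟨σ₀, hσ₀⟩ := RootC_ext v hv
    set α : V →L[ℝ] ℝ := LinearMap.toContinuousLinearMap (b.coord (σ₀ (tup0 p))) with hα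
    set β : V →L[ℝ] ℝ := LinearMap.toContinuousLinearMap (b.coord (σ₀ (tup1 p))) with hβ
    have hα1 : ∀ i, α (b i) = if i = σ₀ (tup0 p) then 1 else 0 := by
      intro i
      change b.coord (σ₀ (tup0 p)) (b i) = _
      rw [Module.Basis.coord_apply, Module.Basis.repr_self, Finsupp.single_apply]
    have hβ1 : ∀ i, β (b i) = if i = σ₀ (tup1 p) then 1 else 0 := by
      intro i
      change b.coord (σ₀ (tup1 p)) (b i) = _
      rw [Module.Basis.coord_apply, Module.Basis.repr_self, Finsupp.single_apply]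
    set A : Finset (Equiv.Perm (Fin ((p + 1) * 2))) :=
      Finset.univ.filter fun σ => σ (tup0 p) = σ₀ (tup0 p) ∧ σ (tup1 p) = σ₀ (tup1 p) with hA
    have htm : ∀ Ξ : V [⋀^Fin (p * 2)]→L[ℝ] ℝ, tm b Ξ α β =
        (A.card : ℝ) * (((Equiv.Perm.sign σ₀ : ℤ) : ℝ) * (Ξ fun l => b (σ₀ (sh p l)))) := by
      intro Ξ
      unfold tm
      have e1 : ∀ σ : Equiv.Perm (Fin ((p + 1) * 2)), ((Equiv.Perm.sign σ : ℤ) : ℝ) *
          (α (b (σ (tup0 p))) * β (b (σ (tup1 p))) * Ξ fun l => b (σ (sh p l))) =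
          if σ (tup0 p) = σ₀ (tup0 p) ∧ σ (tup1 p) = σ₀ (tup1 p) then
            ((Equiv.Perm.sign σ₀ : ℤ) : ℝ) * (Ξ fun l => b (σ₀ (sh p l))) else 0 := by
        intro σ
        rw [hα1, hβ1]
        by_cases h1 : σ (tup0 p) = σ₀ (tup0 p)
        · by_cases h2 : σ (tup1 p) = σ₀ (tup1 p)
          · rw [if_pos h1, if_pos h2, if_pos ⟨h1, h2⟩, one_mul, one_mul]
            exact RootC_key b Ξ σ₀ σ h1 h2
          · rw [if_neg h2, mul_zero, zero_mul, mul_zero, if_neg fun h3 => h2 h3.2]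
        · rw [if_neg h1, zero_mul, zero_mul, mul_zero, if_neg fun h3 => h1 h3.1]
      rw [Finset.sum_congr rfl fun σ _ => e1 σ, ← Finset.sum_filter, Finset.sum_const,
        nsmul_eq_mul]
    have hcard : (A.card : ℝ) ≠ 0 := by
      have h2 : σ₀ ∈ A := by
        rw [hA, Finset.mem_filter]
        exact ⟨Finset.mem_univ _, rfl, rfl⟩
      exact_mod_cast (Finset.card_pos.2 ⟨σ₀, h2⟩).ne'
    have hs : ((Equiv.Perm.sign σ₀ : ℤ) : ℝ) ≠ 0 := by
      rcases Int.units_eq_one_or (Equiv.Perm.sign σ₀) with h | h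
      · rw [h]
        norm_num
      · rw [h]
        norm_num
    have h3 := h α β
    rw [htm, htm] at h3
    have h4 := mul_left_cancel₀ hs (mul_left_cancel₀ hcard h3)
    have h5 : (fun l => b (σ₀ (sh p l))) = fun l => b (v l) := by
      funext l
      rw [hσ₀]
    rw [h5] at h4
    exact h4
  ext w
  exact congrArg (fun g : V [⋀^Fin (p * 2)]→ₗ[ℝ] ℝ => g w) hmain

end Pool.Agent.Helper80.TF
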