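import Pool.Agent.Helper80.TF.RootD0

/-!
# Positivity of `tm`
-/

open Manifold Set Filter Topology MeasureTheory

set_option linter.unusedSectionVars false

namespace Pool.Agent.Helper80.TF

variable {p : ℕ} {V : Type*} [NormedAddCommGroup V] [NormedSpace ℂ V]

private theorem RootD_mulI (v : V) : mulI V v = Complex.I • v := rfl

private theorem RootD_mulI2 (v : V) : mulI V (mulI V v) = -v := by
  rw [RootD_mulI, RootD_mulI, smul_smul, Complex.I_mul_I, neg_one_smul]

/-- the complex linear functional with real part `α` -/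
private noncomputable def RootD_fun (α : V →L[ℝ] ℝ) : V →ₗ[ℂ] ℂ where
  toFun v := ⟨α v, -α (mulI V v)⟩
  map_add' x y := by
    apply Complex.ext
    · simp
    · simp
      ring
  map_smul' c x := by
    have h1 : c • x = c.re • x + c.im • mulI V x := by
      conv_lhs => rw [← Complex.re_add_im c]
      rw [add_smul, mul_smul, RootD_mulI]
      rfl
    have h2 : mulI V (c • x) = c.re • mulI V x - c.im • x := by
      rw [h1, map_add, map_smul, map_smul, RootD_mulI2, smul_neg, sub_eq_add_neg]
    apply Complex.ext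
    · simp only [h1, map_add, map_smul, smul_eq_mul, Complex.mul_re, RingHom.id_apply]
      ring
    · simp only [h2, map_sub, map_smul, smul_eq_mul, Complex.mul_im, RingHom.id_apply]
      ring

private theorem RootD_re (α : V →L[ℝ] ℝ) (v : V) : (RootD_fun α v).re = α v := rfl

private theorem RootD_im (α : V →L[ℝ] ℝ) (v : V) : (RootD_fun α v).im = -α (mulI V v) := rfl

/-- a complex basis adapted to `α` -/
private theorem RootD_basis (hV : Module.finrank ℂ V = p + 1) {α : V →L[ℝ] ℝ} (hα : α ≠ 0) :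
    ∃ c : Module.Basis (Fin (p + 1)) ℂ V, α (c 0) = 1 ∧ α (mulI V (c 0)) = 0 ∧
      ∀ j : Fin p, α (c j.succ) = 0 ∧ α (mulI V (c j.succ)) = 0 := by
  have hfin : Module.Finite ℂ V := Module.finite_of_finrank_eq_succ hV
  set a := RootD_fun α with ha
  obtain ⟨v, hv⟩ : ∃ v, α v ≠ 0 := by
    by_contra hcon
    push Not at hcon
    exact hα (ContinuousLinearMap.ext hcon)
  have hav : a v ≠ 0 := by
    intro h
    apply hv
    rw [← RootD_re, ← ha, h]
    rfl
  have hsurj : Function.Surjective a := by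
    intro z
    refine ⟨(z / a v) • v, ?_⟩
    rw [map_smul, smul_eq_mul, div_mul_cancel₀ _ hav]
  obtain ⟨u0, hu0⟩ := hsurj 1
  have hker : Module.finrank ℂ (LinearMap.ker a) = p := by
    have h1 := LinearMap.finrank_range_add_finrank_ker a
    rw [LinearMap.range_eq_top.2 hsurj, finrank_top, Module.finrank_self, hV] at h1
    omega
  set w := Module.finBasisOfFinrankEq ℂ (LinearMap.ker a) hker with hw
  have hli : LinearIndependent ℂ (Fin.cons u0 (fun j => (w j : V)) : Fin (p + 1) → V) := by
    rw [linearIndependent_finCons]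
    refine ⟨w.linearIndependent.map' (LinearMap.ker a).subtype (Submodule.ker_subtype _), ?_⟩
    intro hmem
    have h1 : Submodule.span ℂ (Set.range fun j => (w j : V)) ≤ LinearMap.ker a := by
      rw [Submodule.span_le]
      rintro _ ⟨j, rfl⟩
      exact (w j).2
    have h2 : a u0 = 0 := h1 hmem
    rw [hu0] at h2
    exact one_ne_zero h2
  set c := basisOfLinearIndependentOfCardEqFinrank hli (by rw [Fintype.card_fin, hV]) with hc
  have hcc : ∀ l, c l = (Fin.cons u0 (fun j => (w j : V)) : Fin (p + 1) → V) l := fun l => by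
    rw [hc, coe_basisOfLinearIndependentOfCardEqFinrank]
  refine ⟨c, ?_, ?_, fun j => ?_⟩
  · rw [hcc, Fin.cons_zero, ← RootD_re, ← ha, hu0]
    rfl
  · rw [hcc, Fin.cons_zero]
    have h1 := RootD_im α u0
    rw [← ha, hu0, Complex.one_im] at h1
    linarith
  · have h0 : a (w j : V) = 0 := (w j).2
    rw [hcc, Fin.cons_succ]
    constructor
    · rw [← RootD_re, ← ha, h0]
      rfl
    · have h1 := RootD_im α (w j : V)
      rw [← ha, h0, Complex.zero_im] at h1
      linarith

/-- the real basis of a complex basis -/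
private theorem RootD_real (c : Module.Basis (Fin (p + 1)) ℂ V) :
    ∃ b : Module.Basis (Fin ((p + 1) * 2)) ℝ V, (b : Fin ((p + 1) * 2) → V) =
      inter (mulI V) c := by
  refine ⟨(Complex.basisOneI.smulTower c).reindex
    ((Equiv.prodComm _ _).trans finProdFinEquiv), ?_⟩
  funext l
  obtain ⟨⟨i, t⟩, rfl⟩ := (finProdFinEquiv (m := p + 1) (n := 2)).surjective l
  rw [Module.Basis.reindex_apply]
  unfold inter
  rw [Equiv.symm_apply_apply]
  have h1 : ((Equiv.prodComm (Fin 2) (Fin (p + 1))).trans finProdFinEquiv).symm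
      (finProdFinEquiv (i, t)) = (t, i) := by
    rw [Equiv.symm_apply_eq]
    rfl
  rw [h1, Module.Basis.smulTower_apply]
  fin_cases t
  · simp
  · simp [RootD_mulI]

/-- the permutations which exchange the first two indices -/
private theorem RootD_perm (Θ : V [⋀^Fin (p * 2)]→L[ℝ] ℝ) (b : Fin ((p + 1) * 2) → V)
    (σ : Equiv.Perm (Fin ((p + 1) * 2))) (h0 : σ (tup0 p) = tup1 p) (h1 : σ (tup1 p) = tup0 p) :
    Θ (fun l => b (σ (sh p l))) = -(((Equiv.Perm.sign σ : ℤ) : ℝ) * Θ fun l => b (sh p l)) := by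
  classical
  have h01 : tup0 p ≠ tup1 p := fun h => Nat.zero_ne_one (congrArg Fin.val h)
  set σ' : Equiv.Perm (Fin ((p + 1) * 2)) := Equiv.swap (tup0 p) (tup1 p) * σ with hσ'
  have hs : Equiv.Perm.sign σ' = -Equiv.Perm.sign σ := by
    rw [hσ', Equiv.Perm.sign_mul, Equiv.Perm.sign_swap h01, neg_one_mul]
  have hf0 : σ' (tup0 p) = tup0 p := by
    rw [hσ', Equiv.Perm.mul_apply, h0, Equiv.swap_apply_right]
  have hf1 : σ' (tup1 p) = tup1 p := by
    rw [hσ', Equiv.Perm.mul_apply, h1, Equiv.swap_apply_left]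
  have hne : ∀ l, sh p l ≠ tup0 p ∧ sh p l ≠ tup1 p := by
    intro l
    constructor
    · intro h
      have := congrArg Fin.val h
      simp [sh, tup0] at this
    · intro h
      have := congrArg Fin.val h
      simp [sh, tup1] at this
  have hsh : ∀ l, σ' (sh p l) = σ (sh p l) := by
    intro l
    rw [hσ', Equiv.Perm.mul_apply, Equiv.swap_apply_of_ne_of_ne]
    · intro h
      apply (hne l).2
      apply σ.injective
      rw [h, h1]
    · intro h
      apply (hne l).1
      apply σ.injective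
      rw [h, h0]
  let P : Fin ((p + 1) * 2) → Prop := fun x => x ≠ tup0 p ∧ x ≠ tup1 p
  have hP : ∀ x, P (σ' x) ↔ P x := by
    intro x
    have e0 : σ' x = tup0 p ↔ x = tup0 p :=
      ⟨fun h => σ'.injective (h.trans hf0.symm), fun h => by rw [h, hf0]⟩
    have e1 : σ' x = tup1 p ↔ x = tup1 p :=
      ⟨fun h => σ'.injective (h.trans hf1.symm), fun h => by rw [h, hf1]⟩
    show (σ' x ≠ tup0 p ∧ σ' x ≠ tup1 p) ↔ (x ≠ tup0 p ∧ x ≠ tup1 p)
    rw [Ne, Ne, e0, e1]
  let f : Fin (p * 2) → {x // P x} := fun l => ⟨sh p l, hne l⟩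
  have hbij : Function.Bijective f := by
    constructor
    · intro l l' h
      have h2 := congrArg (fun x : {x // P x} => (x.1 : ℕ)) h
      simp only [f, sh] at h2
      exact Fin.ext (by omega)
    · rintro ⟨x, hx0, hx1⟩
      have h2 : 2 ≤ (x : ℕ) := by
        by_contra hlt
        push Not at hlt
        rcases Nat.lt_or_ge (x : ℕ) 1 with h3 | h3
        · exact hx0 (Fin.ext (show (x : ℕ) = 0 by omega))
        · exact hx1 (Fin.ext (show (x : ℕ) = 1 by omega))
      refine ⟨⟨(x : ℕ) - 2, by have := x.2; omega⟩, ?_⟩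
      apply Subtype.ext
      apply Fin.ext
      simp only [f, sh]
      omega
  let e : Fin (p * 2) ≃ {x // P x} := Equiv.ofBijective f hbij
  have hsub : Equiv.Perm.sign (σ'.subtypePerm hP) = Equiv.Perm.sign σ' := by
    refine Equiv.Perm.sign_subtypePerm σ' hP fun x hx => ?_
    constructor
    · rintro rfl
      exact hx hf0
    · rintro rfl
      exact hx hf1
  let τ : Equiv.Perm (Fin (p * 2)) := e.symm.permCongr (σ'.subtypePerm hP)
  have hτs : Equiv.Perm.sign τ = Equiv.Perm.sign σ' := by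
    show Equiv.Perm.sign (e.symm.permCongr (σ'.subtypePerm hP)) = _
    rw [Equiv.Perm.sign_permCongr, hsub]
  have hτ : ∀ l, sh p (τ l) = σ (sh p l) := by
    intro l
    have h2 : e (τ l) = (σ'.subtypePerm hP) (e l) := by
      show e (e.symm ((σ'.subtypePerm hP) (e.symm.symm l))) = _
      rw [Equiv.apply_symm_apply, Equiv.symm_symm]
    have h3 := congrArg Subtype.val h2
    rw [← hsh]
    exact h3
  have h4 : (fun l => b (σ (sh p l))) = (fun l => b (sh p l)) ∘ τ := by
    funext l
    rw [Function.comp_apply, hτ]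
  rw [h4]
  have h5 := Θ.toAlternatingMap.map_perm (fun l => b (sh p l)) τ
  have h6 : Θ ((fun l => b (sh p l)) ∘ τ) =
      Equiv.Perm.sign τ • Θ (fun l => b (sh p l)) := h5
  rw [h6, hτs, hs]
  rcases Int.units_eq_one_or (Equiv.Perm.sign σ) with h7 | h7
  · rw [h7]
    simp
  · rw [h7]
    simp

/-- By `tm_det` and `det_pos_of_oriented` it is enough to find one oriented basis
`b' = inter (mulI V) u` with `0 < tm b' Θ (α ∘ i) α`.  Take `α (u_0) = 1`, `α (i u_0) = 0`,
`u_1, …, u_p` a complex basis of `{v | α v = 0, α (i v) = 0}`.  Only the `σ` with `σ 0 = 1`,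
`σ 1 = 0` contribute; each contributes `Θ (u_1, i u_1, …)`, with the sign `+1`. -/
theorem tm_pos (hV : Module.finrank ℂ V = p + 1) (b : Module.Basis (Fin ((p + 1) * 2)) ℝ V)
    (hb : Oriented b) {Θ : V [⋀^Fin (p * 2)]→L[ℝ] ℝ} (hΘ : PosTop Θ) {α : V →L[ℝ] ℝ}
    (hα : α ≠ 0) : 0 < tm b Θ (α ∘L mulI V) α := by
  classical
  obtain ⟨c, hc0, hc0', hcj⟩ := RootD_basis hV hα
  obtain ⟨b', hb'⟩ := RootD_real c
  have hdet := det_pos_of_oriented hV hb (b' := b') ⟨c, hb'⟩
  suffices h : 0 < tm b' Θ (α ∘L mulI V) α by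
    rw [tm_det b b'] at h
    exact (mul_pos_iff_of_pos_left hdet).1 h
  have h01 : tup0 p ≠ tup1 p := fun h => Nat.zero_ne_one (congrArg Fin.val h)
  -- the values of the tuple
  have hv : ∀ (i : Fin (p + 1)) (t : Fin 2), b' (finProdFinEquiv (i, t)) =
      if t = 0 then c i else mulI V (c i) := by
    intro i t
    rw [hb']
    unfold inter
    rw [Equiv.symm_apply_apply]
  have e0 : tup0 p = finProdFinEquiv ((0 : Fin (p + 1)), (0 : Fin 2)) := by
    apply Fin.ext
    simp [tup0]
  have e1 : tup1 p = finProdFinEquiv ((0 : Fin (p + 1)), (1 : Fin 2)) := by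
    apply Fin.ext
    simp [tup1]
  have esh : ∀ (j : Fin p) (t : Fin 2), sh p (finProdFinEquiv (j, t)) =
      finProdFinEquiv (j.succ, t) := by
    intro j t
    apply Fin.ext
    simp [sh]
    ring
  have hα1 : ∀ l, l ≠ tup0 p → α (b' l) = 0 := by
    intro l hl
    obtain ⟨⟨i, t⟩, rfl⟩ := (finProdFinEquiv (m := p + 1) (n := 2)).surjective l
    rw [hv]
    by_cases ht : t = 0
    · rw [if_pos ht]
      refine Fin.cases (motive := fun i => i ≠ 0 → α (c i) = 0) (fun h => absurd rfl h)
        (fun j _ => (hcj j).1) i ?_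
      rintro rfl
      rw [ht] at hl
      exact hl e0.symm
    · rw [if_neg ht]
      exact Fin.cases (motive := fun i => α (mulI V (c i)) = 0) hc0' (fun j => (hcj j).2) i
  have hα0 : ∀ l, l ≠ tup1 p → α (mulI V (b' l)) = 0 := by
    intro l hl
    obtain ⟨⟨i, t⟩, rfl⟩ := (finProdFinEquiv (m := p + 1) (n := 2)).surjective l
    rw [hv]
    by_cases ht : t = 0
    · rw [if_pos ht]
      exact Fin.cases (motive := fun i => α (mulI V (c i)) = 0) hc0' (fun j => (hcj j).2) i
    · rw [if_neg ht, RootD_mulI2, map_neg, neg_eq_zero]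
      refine Fin.cases (motive := fun i => i ≠ 0 → α (c i) = 0) (fun h => absurd rfl h)
        (fun j _ => (hcj j).1) i ?_
      rintro rfl
      have ht1 : t = 1 := by
        fin_cases t
        · exact absurd rfl ht
        · rfl
      rw [ht1] at hl
      exact hl e1.symm
  have hv0 : α (b' (tup0 p)) = 1 := by
    rw [e0, hv, if_pos rfl]
    exact hc0
  have hv1 : α (mulI V (b' (tup1 p))) = -1 := by
    rw [e1, hv, if_neg (show ¬ ((1 : Fin 2) = 0) by decide), RootD_mulI2, map_neg, hc0]
  -- positivity of `Θ`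
  have hsh : (fun l => b' (sh p l)) = inter (mulI V) (fun j : Fin p => c j.succ) := by
    funext l
    obtain ⟨⟨j, t⟩, rfl⟩ := (finProdFinEquiv (m := p) (n := 2)).surjective l
    rw [esh, hv]
    unfold inter
    rw [Equiv.symm_apply_apply]
  have hinj : Function.Injective (sh p) := by
    intro l l' h
    have h2 := congrArg Fin.val h
    simp only [sh] at h2
    exact Fin.ext (by omega)
  have hpos : 0 < Θ (fun l => b' (sh p l)) := by
    rw [hsh]
    refine hΘ.2 _ ?_
    rw [← hsh]
    exact b'.linearIndependent.comp (sh p) hinj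
  -- the terms of the sum
  have hterm : ∀ σ : Equiv.Perm (Fin ((p + 1) * 2)), ((Equiv.Perm.sign σ : ℤ) : ℝ) *
      ((α ∘L mulI V) (b' (σ (tup0 p))) * α (b' (σ (tup1 p))) * Θ fun l => b' (σ (sh p l))) =
      if σ (tup0 p) = tup1 p ∧ σ (tup1 p) = tup0 p then Θ (fun l => b' (sh p l)) else 0 := by
    intro σ
    rw [ContinuousLinearMap.comp_apply]
    by_cases h0 : σ (tup0 p) = tup1 p
    · by_cases h1 : σ (tup1 p) = tup0 p
      · rw [if_pos ⟨h0, h1⟩, RootD_perm Θ b' σ h0 h1, h0, h1, hv0, hv1]
        have h2 : ((Equiv.Perm.sign σ : ℤ) : ℝ) * ((Equiv.Perm.sign σ : ℤ) : ℝ) = 1 := by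
          rcases Int.units_eq_one_or (Equiv.Perm.sign σ) with h7 | h7
          · rw [h7]
            simp
          · rw [h7]
            simp
        linear_combination (Θ fun l => b' (sh p l)) * h2
      · rw [if_neg (fun h => h1 h.2), hα1 _ h1]
        ring
    · rw [if_neg (fun h => h0 h.1), hα0 _ h0]
      ring
  unfold tm
  rw [Finset.sum_congr rfl fun σ _ => hterm σ]
  refine Finset.sum_pos' (fun σ _ => ?_) ⟨Equiv.swap (tup0 p) (tup1 p), Finset.mem_univ _, ?_⟩
  · split_ifs
    · exact hpos.le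
    · exact le_rfl
  · rw [if_pos ⟨Equiv.swap_apply_left _ _, Equiv.swap_apply_right _ _⟩]
    exact hpos

end Pool.Agent.Helper80.TF
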