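import Pool.Agent.Helper80.TF.RootA
import Pool.Agent.Helper80.TF.CtrD

/-!
# Orientation
-/

open Manifold Set Filter Topology MeasureTheory

set_option linter.unusedSectionVars false

namespace Pool.Agent.Helper80.TF

variable {p : ℕ} {V : Type*} [NormedAddCommGroup V] [NormedSpace ℂ V]

private theorem RootD0_mulI (v : V) : mulI V v = Complex.I • v := rfl

private theorem RootD0_inter0 (u : Fin (p + 1) → V) (i : Fin (p + 1)) :
    inter (mulI V) u (finProdFinEquiv (i, 0)) = u i := by
  rw [inter, Equiv.symm_apply_apply, if_pos rfl]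

private theorem RootD0_inter1 (u : Fin (p + 1) → V) (i : Fin (p + 1)) :
    inter (mulI V) u (finProdFinEquiv (i, 1)) = Complex.I • u i := by
  rw [inter, Equiv.symm_apply_apply, if_neg (show ¬ ((1 : Fin 2) = 0) by decide)]
  rfl

/-- A complex vector space has an oriented real basis (`u, i u` for a complex basis `u`). -/
theorem exists_oriented (hV : Module.finrank ℂ V = p + 1) :
    ∃ b : Module.Basis (Fin ((p + 1) * 2)) ℝ V, Oriented b := by
  have hfin : Module.Finite ℂ V := Module.finite_of_finrank_pos (by rw [hV]; omega)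
  let c : Module.Basis (Fin (p + 1)) ℂ V := Module.finBasisOfFinrankEq ℂ V hV
  let b0 : Module.Basis (Fin 2 × Fin (p + 1)) ℝ V := Complex.basisOneI.smulTower c
  let b : Module.Basis (Fin ((p + 1) * 2)) ℝ V :=
    b0.reindex ((Equiv.prodComm _ _).trans finProdFinEquiv)
  refine ⟨b, c, ?_⟩
  funext l
  obtain ⟨⟨i, s⟩, rfl⟩ := finProdFinEquiv.surjective l
  have h : b (finProdFinEquiv (i, s)) = Complex.basisOneI s • c i := by
    show (b0.reindex ((Equiv.prodComm _ _).trans finProdFinEquiv)) (finProdFinEquiv (i, s)) = _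
    rw [Module.Basis.reindex_apply, Equiv.symm_trans_apply, Equiv.symm_apply_apply]
    exact Module.Basis.smulTower_apply _ _ _
  rw [h]
  fin_cases s
  · change Complex.basisOneI 0 • c i = inter (mulI V) c (finProdFinEquiv (i, 0))
    rw [RootD0_inter0, Complex.coe_basisOneI]
    simp
  · change Complex.basisOneI 1 • c i = inter (mulI V) c (finProdFinEquiv (i, 1))
    rw [RootD0_inter1, Complex.coe_basisOneI]
    simp

/-- the complex basis underlying an oriented real basis -/
private theorem RootD0_basis (hV : Module.finrank ℂ V = p + 1)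
    (b : Module.Basis (Fin ((p + 1) * 2)) ℝ V) (u : Fin (p + 1) → V)
    (hu : (b : Fin ((p + 1) * 2) → V) = inter (mulI V) u) :
    ∃ U : Module.Basis (Fin (p + 1)) ℂ V, ∀ i, U i = u i := by
  have hspan : ⊤ ≤ Submodule.span ℂ (Set.range u) := by
    have h1 : (⊤ : Submodule ℝ V) ≤ (Submodule.span ℂ (Set.range u)).restrictScalars ℝ := by
      rw [← b.span_eq, Submodule.span_le]
      rintro _ ⟨l, rfl⟩
      obtain ⟨⟨i, s⟩, rfl⟩ := finProdFinEquiv.surjective l
      rw [hu]
      have hui : u i ∈ Submodule.span ℂ (Set.range u) := Submodule.subset_span ⟨i, rfl⟩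
      fin_cases s
      · change inter (mulI V) u (finProdFinEquiv (i, 0)) ∈ Submodule.span ℂ (Set.range u)
        rw [RootD0_inter0]
        exact hui
      · change inter (mulI V) u (finProdFinEquiv (i, 1)) ∈ Submodule.span ℂ (Set.range u)
        rw [RootD0_inter1]
        exact Submodule.smul_mem _ _ hui
    intro x _
    exact h1 (Submodule.mem_top : x ∈ (⊤ : Submodule ℝ V))
  refine ⟨basisOfTopLeSpanOfCardEqFinrank u hspan (by rw [Fintype.card_fin, hV]), fun i => ?_⟩
  rw [coe_basisOfTopLeSpanOfCardEqFinrank]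

/-- The determinant of `i` is `1`, and the determinant of two oriented bases is positive (both
have the form `inter (mulI V) u`; use `wpow_pos_inter` for any positive form `a`: the top power of
`a` is positive on both). -/
theorem det_pos_of_oriented (hV : Module.finrank ℂ V = p + 1)
    {b b' : Module.Basis (Fin ((p + 1) * 2)) ℝ V} (hb : Oriented b) (hb' : Oriented b') :
    0 < b.det b' := by
  obtain ⟨u, hu⟩ := hb
  obtain ⟨u', hu'⟩ := hb'
  obtain ⟨U, hU⟩ := RootD0_basis hV b u hu
  obtain ⟨U', hU'⟩ := RootD0_basis hV b' u' hu'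
  let f : V ≃ₗ[ℂ] V := U.equiv U' (Equiv.refl _)
  have hf : ∀ i, f (u i) = u' i := by
    intro i
    rw [← hU, ← hU']
    exact U.equiv_apply i U' (Equiv.refl _)
  have hcomp : (b' : Fin ((p + 1) * 2) → V) =
      ((f : V →ₗ[ℂ] V).restrictScalars ℝ) ∘ (b : Fin ((p + 1) * 2) → V) := by
    funext l
    obtain ⟨⟨i, s⟩, rfl⟩ := finProdFinEquiv.surjective l
    rw [Function.comp_apply, hu, hu']
    fin_cases s
    · change inter (mulI V) u' (finProdFinEquiv (i, 0)) =
        f (inter (mulI V) u (finProdFinEquiv (i, 0)))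
      rw [RootD0_inter0, RootD0_inter0, hf]
    · change inter (mulI V) u' (finProdFinEquiv (i, 1)) =
        f (inter (mulI V) u (finProdFinEquiv (i, 1)))
      rw [RootD0_inter1, RootD0_inter1, map_smul, hf]
  have hfree : Module.Free ℂ V := Module.Free.of_basis U
  rw [hcomp, Module.Basis.det_comp, Module.Basis.det_self, mul_one,
    LinearMap.det_restrictScalars, Algebra.norm_complex_apply]
  exact Complex.normSq_pos.2 (LinearEquiv.isUnit_det' f).ne_zero

theorem det_mulI (hV : Module.finrank ℂ V = p + 1) (b : Module.Basis (Fin ((p + 1) * 2)) ℝ V) :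
    b.det (fun l => mulI V (b l)) = 1 := by
  have hfin : Module.Finite ℂ V := Module.finite_of_finrank_pos (by rw [hV]; omega)
  have hcomp : (fun l => mulI V (b l)) =
      (((Complex.I • (LinearMap.id : V →ₗ[ℂ] V))).restrictScalars ℝ) ∘
        (b : Fin ((p + 1) * 2) → V) := by
    funext l
    rfl
  rw [hcomp, Module.Basis.det_comp, Module.Basis.det_self, mul_one,
    LinearMap.det_restrictScalars, Algebra.norm_complex_apply, LinearMap.det_smul,
    LinearMap.det_id, mul_one, map_pow, Complex.normSq_I, one_pow]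

/-- By `tm_det` and `det_mulI`, since `Θ (i b_σ2, …) = Θ (b_σ2, …)`. -/
theorem tm_mulI (hV : Module.finrank ℂ V = p + 1) (b : Module.Basis (Fin ((p + 1) * 2)) ℝ V)
    {Θ : V [⋀^Fin (p * 2)]→L[ℝ] ℝ} (hΘ : Θ.compContinuousLinearMap (mulI V) = Θ)
    (α β : V →L[ℝ] ℝ) : tm b Θ (α ∘L mulI V) (β ∘L mulI V) = tm b Θ α β := by
  have h1 : tm b Θ (α ∘L mulI V) (β ∘L mulI V) = tm (fun l => mulI V (b l)) Θ α β := by
    unfold tm
    refine Finset.sum_congr rfl fun σ _ => ?_
    have h2 : (Θ fun l => b (σ (sh p l))) = Θ fun l => mulI V (b (σ (sh p l))) := by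
      conv_lhs => rw [← hΘ]
      rfl
    rw [h2]
    rfl
  rw [h1, tm_det, det_mulI hV, one_mul]

end Pool.Agent.Helper80.TF
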