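import Pool.Agent.Helper80.TF.RootD

/-!
# The inverse of `lm`
-/

open Manifold Set Filter Topology MeasureTheory

set_option linter.unusedSectionVars false

namespace Pool.Agent.Helper80.TF

variable {p : ℕ} {V : Type*} [NormedAddCommGroup V] [NormedSpace ℂ V] [FiniteDimensional ℝ V]

private theorem RootE0_bij (hV : Module.finrank ℂ V = p + 1)
    (b : Module.Basis (Fin ((p + 1) * 2)) ℝ V) (hb : Oriented b)
    {Θ : V [⋀^Fin (p * 2)]→L[ℝ] ℝ} (hΘ : PosTop Θ) : Function.Bijective (lm b Θ) := by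
  have hinj : Function.Injective (lm b Θ : (V →L[ℝ] ℝ) →ₗ[ℝ] V) := by
    rw [← LinearMap.ker_eq_bot, LinearMap.ker_eq_bot']
    intro β hβ
    by_contra hne
    have h1 := tm_pos hV b hb hΘ hne
    rw [← lm_apply b Θ] at h1
    have h2 : lm b Θ β = 0 := hβ
    rw [h2, map_zero] at h1
    exact lt_irrefl _ h1
  have hfr : Module.finrank ℝ (V →L[ℝ] ℝ) = Module.finrank ℝ V := by
    rw [← (LinearMap.toContinuousLinearMap : (V →ₗ[ℝ] ℝ) ≃ₗ[ℝ] (V →L[ℝ] ℝ)).finrank_eq]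
    exact Subspace.dual_finrank_eq
  exact ⟨hinj, (LinearMap.injective_iff_surjective_of_finrank_eq_finrank hfr).1 hinj⟩

/-- `lm b Θ` is injective by `lm_apply` and `tm_pos`, hence invertible. -/
theorem lm_invertible (hV : Module.finrank ℂ V = p + 1)
    (b : Module.Basis (Fin ((p + 1) * 2)) ℝ V) (hb : Oriented b)
    {Θ : V [⋀^Fin (p * 2)]→L[ℝ] ℝ} (hΘ : PosTop Θ) : (lm b Θ).IsInvertible := by
  refine ⟨(LinearEquiv.ofBijective (lm b Θ : (V →L[ℝ] ℝ) →ₗ[ℝ] V)
    (RootE0_bij hV b hb hΘ)).toContinuousLinearEquiv, ?_⟩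
  ext β
  rfl

private theorem RootE0_I (v : V) : mulI V (mulI V v) = -v := by
  simp [mulI, smul_smul]

/-- `root1 b Θ ![v, w] = R v w`, `R` the inverse of `lm b Θ` (by `tm_swap`, `R v w = - R w v`);
positivity is `tm_pos`, invariance is `tm_mulI`. -/
theorem root1_posForm (hV : Module.finrank ℂ V = p + 1)
    (b : Module.Basis (Fin ((p + 1) * 2)) ℝ V) (hb : Oriented b)
    {Θ : V [⋀^Fin (p * 2)]→L[ℝ] ℝ} (hΘ : PosTop Θ) : PosForm (root1 b Θ) ∧
      ∀ β w, root1 b Θ ![lm b Θ β, w] = β w := by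
  obtain ⟨e, he⟩ := lm_invertible hV b hb hΘ
  have hL : ∀ β, lm b Θ β = e β := fun β => by rw [← he]; rfl
  have hR : ContinuousLinearMap.inverse (lm b Θ) = (e.symm : V →L[ℝ] (V →L[ℝ] ℝ)) := by
    rw [← he, ContinuousLinearMap.inverse_equiv]
  have hval : ∀ β w, root1 b Θ ![lm b Θ β, w] = β w := by
    intro β w
    obtain ⟨γ, rfl⟩ : ∃ γ, lm b Θ γ = w := (RootE0_bij hV b hb hΘ).2 w
    rw [root1, toForm_apply, hR]
    have h1 : ∀ β, (e.symm : V →L[ℝ] (V →L[ℝ] ℝ)) (lm b Θ β) = β := fun β => by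
      rw [hL]
      exact e.symm_apply_apply β
    rw [h1, h1, lm_apply, lm_apply, tm_swap b Θ β γ]
    ring
  refine ⟨⟨?_, ?_⟩, hval⟩
  · intro v w
    obtain ⟨β, rfl⟩ : ∃ β, lm b Θ β = v := (RootE0_bij hV b hb hΘ).2 v
    have h2 : mulI V (lm b Θ β) = lm b Θ (-(β ∘L mulI V)) := by
      have h3 : mulI V (lm b Θ (β ∘L mulI V)) = lm b Θ β := by
        have h4 : ∀ α : V →L[ℝ] ℝ, α (mulI V (lm b Θ (β ∘L mulI V))) = α (lm b Θ β) := by
          intro α
          have h5 := lm_apply b Θ (α ∘L mulI V) (β ∘L mulI V)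
          rw [tm_mulI hV b hΘ.1, ← lm_apply b Θ α β] at h5
          exact h5
        by_contra hne
        obtain ⟨f, hf⟩ := SeparatingDual.exists_separating_of_ne (R := ℝ) hne
        exact hf (h4 f)
      rw [map_neg, ← h3, RootE0_I]
    rw [h2, hval, hval, ContinuousLinearMap.neg_apply, ContinuousLinearMap.comp_apply, RootE0_I,
      map_neg, neg_neg]
  · intro v hv
    obtain ⟨β, rfl⟩ : ∃ β, lm b Θ β = v := (RootE0_bij hV b hb hΘ).2 v
    rw [hval]
    have hβ : β ≠ 0 := by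
      rintro rfl
      exact hv (map_zero _)
    have h1 := tm_pos hV b hb hΘ hβ
    rw [← lm_apply b Θ] at h1
    exact h1

end Pool.Agent.Helper80.TF
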