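import Pool.Agent.Helper80.TF.RootB
import Pool.Agent.Helper80.TF.RootC
import Pool.Agent.Helper80.TF.RootE0

/-!
# The root of a positive form
-/

open Manifold Set Filter Topology MeasureTheory

set_option linter.unusedSectionVars false

namespace Pool.Agent.Helper80.TF

variable {p : ℕ} {V : Type*} [NormedAddCommGroup V] [NormedSpace ℂ V] [FiniteDimensional ℝ V]

private theorem RootE_wpow_smul {E : Type*} [NormedAddCommGroup E] [NormedSpace ℝ E] (k : ℕ)
    (c : ℝ) (a : E [⋀^Fin 2]→L[ℝ] ℝ) : wpow k (c • a) = c ^ k • wpow k a := by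
  ext v
  rw [ContinuousAlternatingMap.smul_apply, wpow_apply, wpow_apply, smul_eq_mul]
  simp only [ContinuousAlternatingMap.smul_apply, smul_eq_mul, Finset.prod_mul_distrib,
    Finset.prod_const, Finset.card_univ, Fintype.card_fin]
  rw [Finset.mul_sum, Finset.mul_sum, Finset.mul_sum]
  refine Finset.sum_congr rfl fun σ _ => ?_
  ring

private theorem RootE_tm_smul {E : Type*} [NormedAddCommGroup E] [NormedSpace ℝ E]
    (b : Fin ((p + 1) * 2) → E) (c : ℝ) (Θ : E [⋀^Fin (p * 2)]→L[ℝ] ℝ) (α β : E →L[ℝ] ℝ) :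
    tm b (c • Θ) α β = c * tm b Θ α β := by
  rw [tm, tm, Finset.mul_sum]
  refine Finset.sum_congr rfl fun σ _ => ?_
  rw [ContinuousAlternatingMap.smul_apply, smul_eq_mul]
  ring

private theorem RootE_mulI (x : V) : mulI V (mulI V x) = -x := by
  change Complex.I • (Complex.I • x) = -x
  rw [smul_smul, Complex.I_mul_I, neg_smul, one_smul]

private theorem RootE_pos (b : Module.Basis (Fin ((p + 1) * 2)) ℝ V) (hb : Oriented b)
    {a : V [⋀^Fin 2]→L[ℝ] ℝ} (ha : PosForm a) : 0 < wpow (p + 1) a b := by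
  obtain ⟨u, hu⟩ := hb
  have hk : Module.finrank ℝ V = (p + 1) * 2 := by
    rw [Module.finrank_eq_card_basis b, Fintype.card_fin]
  have hli : LinearIndependent ℝ (inter (mulI V) u) := by
    have h := b.linearIndependent
    rwa [hu] at h
  have h := wpow_pos_inter hk (mulI V) RootE_mulI a ha.1 ha.2 u hli
  rwa [← hu] at h

private theorem RootE_cp (p : ℕ) : 0 < cp p := by
  rw [cp]
  positivity

private theorem RootE_posForm_smul {a : V [⋀^Fin 2]→L[ℝ] ℝ} (ha : PosForm a) {c : ℝ}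
    (hc : 0 < c) : PosForm (c • a) := by
  refine ⟨fun v w => ?_, fun v hv => ?_⟩
  · rw [ContinuousAlternatingMap.smul_apply, ContinuousAlternatingMap.smul_apply, ha.1]
  · rw [ContinuousAlternatingMap.smul_apply, smul_eq_mul]
    exact mul_pos hc (ha.2 v hv)

/-- Put `r = root b Θ = c • root1 b Θ`, `c ^ p * (cp p * wpow (p + 1) (root1 b Θ) b) = 1`.  By
`tm_wpow` and `root1_posForm`, `tm b (wpow p r) α β = α (lm b Θ β) = tm b Θ α β` for all `α`,
`β`; use `eq_of_tm`. -/
theorem root_spec (hp : p ≠ 0) (hV : Module.finrank ℂ V = p + 1)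
    (b : Module.Basis (Fin ((p + 1) * 2)) ℝ V) (hb : Oriented b)
    {Θ : V [⋀^Fin (p * 2)]→L[ℝ] ℝ} (hΘ : PosTop Θ) :
    PosForm (root b Θ) ∧ wpow p (root b Θ) = Θ := by
  obtain ⟨h1, h2⟩ := root1_posForm hV b hb hΘ
  have hW : 0 < wpow (p + 1) (root1 b Θ) b := RootE_pos b hb h1
  have hK : 0 < cp p * wpow (p + 1) (root1 b Θ) b := mul_pos (RootE_cp p) hW
  have hc : 0 < (cp p * wpow (p + 1) (root1 b Θ) b) ^ (-(1 : ℝ) / p) := Real.rpow_pos_of_pos hK _
  refine ⟨RootE_posForm_smul h1 hc, ?_⟩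
  have hp' : (p : ℝ) ≠ 0 := Nat.cast_ne_zero.2 hp
  have hcp : ((cp p * wpow (p + 1) (root1 b Θ) b) ^ (-(1 : ℝ) / p)) ^ p =
      (cp p * wpow (p + 1) (root1 b Θ) b)⁻¹ := by
    rw [← Real.rpow_natCast, ← Real.rpow_mul hK.le, div_mul_cancel₀ _ hp', Real.rpow_neg_one]
  rw [root, RootE_wpow_smul, hcp]
  refine eq_of_tm b fun α β => ?_
  rw [RootE_tm_smul, tm_wpow b (root1 b Θ) α β (lm b Θ β) fun w => (h2 β w).symm,
    ← lm_apply b Θ α β]
  have hcp0 : cp p ≠ 0 := (RootE_cp p).ne'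
  field_simp

/-- By `tm_wpow`, `lm b (wpow p a) (a (v, ·)) = (cp p * wpow (p + 1) a b) • v`, so that
`root1 b (wpow p a) = (cp p * wpow (p + 1) a b)⁻¹ • a`. -/
theorem root_wpow (hp : p ≠ 0) (hV : Module.finrank ℂ V = p + 1)
    (b : Module.Basis (Fin ((p + 1) * 2)) ℝ V) (hb : Oriented b)
    {a : V [⋀^Fin 2]→L[ℝ] ℝ} (ha : PosForm a) : root b (wpow p a) = a := by
  classical
  have hW : 0 < wpow (p + 1) a b := RootE_pos b hb ha
  set W : ℝ := wpow (p + 1) a b with hWdef
  have hK : 0 < cp p * W := mul_pos (RootE_cp p) hW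
  set K : ℝ := cp p * W with hKdef
  -- the map `v ↦ a (v, ·) / K`
  have hswap : ∀ v w : V, a ![w, v] = -a ![v, w] := by
    intro v w
    have h := a.map_swap ![v, w] (show (0 : Fin 2) ≠ 1 by decide)
    have h' : (![v, w] ∘ ⇑(Equiv.swap (0 : Fin 2) 1)) = ![w, v] := by
      funext i
      fin_cases i <;> simp
    rw [h'] at h
    exact h
  have hup0 : ∀ v w x : V, Function.update ![v, w] 0 x = ![x, w] := by
    intro v w x
    funext i
    fin_cases i <;> simp
  have hup1 : ∀ v w x : V, Function.update ![v, w] 1 x = ![v, x] := by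
    intro v w x
    funext i
    fin_cases i <;> simp
  have hadd0 : ∀ v v' w : V, a ![v + v', w] = a ![v, w] + a ![v', w] := by
    intro v v' w
    have h := a.map_update_add ![v, w] 0 v v'
    rwa [hup0, hup0, hup0] at h
  have hadd1 : ∀ v w w' : V, a ![v, w + w'] = a ![v, w] + a ![v, w'] := by
    intro v w w'
    have h := a.map_update_add ![v, w] 1 w w'
    rwa [hup1, hup1, hup1] at h
  have hsm0 : ∀ (c : ℝ) (v w : V), a ![c • v, w] = c * a ![v, w] := by
    intro c v w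
    have h := a.map_update_smul ![v, w] 0 c v
    rwa [hup0, hup0, smul_eq_mul] at h
  have hsm1 : ∀ (c : ℝ) (v w : V), a ![v, c • w] = c * a ![v, w] := by
    intro c v w
    have h := a.map_update_smul ![v, w] 1 c w
    rwa [hup1, hup1, smul_eq_mul] at h
  let A1 : V → V →L[ℝ] ℝ := fun v => LinearMap.toContinuousLinearMap
    ({ toFun := fun w => K⁻¹ * a ![v, w]
       map_add' := fun w w' => by rw [hadd1, mul_add]
       map_smul' := fun c w => by rw [hsm1, RingHom.id_apply, smul_eq_mul]; ring } : V →ₗ[ℝ] ℝ)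
  have hA1 : ∀ v w, A1 v w = K⁻¹ * a ![v, w] := fun v w => rfl
  let A2 : V →L[ℝ] V →L[ℝ] ℝ := LinearMap.toContinuousLinearMap
    ({ toFun := A1
       map_add' := fun v v' => by
        ext w
        rw [add_apply, hA1, hA1, hA1, hadd0, mul_add]
       map_smul' := fun c v => by
        ext w
        rw [RingHom.id_apply, smul_apply, hA1, hA1, hsm0, smul_eq_mul]
        ring } : V →ₗ[ℝ] V →L[ℝ] ℝ)
  have hA2 : ∀ v w, A2 v w = K⁻¹ * a ![v, w] := fun v w => rfl
  -- the right inverse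
  have hr : ∀ v, lm b (wpow p a) (A2 v) = v := by
    intro v
    refine b.ext_elem fun i => ?_
    have h := lm_apply b (wpow p a) (LinearMap.toContinuousLinearMap (b.coord i)) (A2 v)
    have h' := tm_wpow b a (LinearMap.toContinuousLinearMap (b.coord i)) (A2 v) (K⁻¹ • v)
      (fun w => by rw [hA2, hsm0])
    rw [h'] at h
    have h2 : (LinearMap.toContinuousLinearMap (b.coord i)) (K⁻¹ • v) =
        K⁻¹ * b.repr v i := by
      rw [map_smul, smul_eq_mul]
      rfl
    rw [h2] at h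
    have h3 : (LinearMap.toContinuousLinearMap (b.coord i)) (lm b (wpow p a) (A2 v)) =
        b.repr (lm b (wpow p a) (A2 v)) i := rfl
    rw [h3, ← hWdef] at h
    rw [h]
    have : cp p * (K⁻¹ * b.repr v i * W) = K⁻¹ * (cp p * W) * b.repr v i := by ring
    rw [this, ← hKdef, inv_mul_cancel₀ hK.ne', one_mul]
  have hinj : Function.Injective (A2 : V →ₗ[ℝ] V →L[ℝ] ℝ) := by
    intro v v' h
    have h1 : A2 v = A2 v' := h
    rw [← hr v, ← hr v', h1]
  have hfr : Module.finrank ℝ V = Module.finrank ℝ (V →L[ℝ] ℝ) := by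
    rw [← LinearEquiv.finrank_eq (LinearMap.toContinuousLinearMap : (V →ₗ[ℝ] ℝ) ≃ₗ[ℝ] V →L[ℝ] ℝ)]
    exact (Subspace.dual_finrank_eq (K := ℝ) (V := V)).symm
  have hsurj : Function.Surjective (A2 : V →ₗ[ℝ] V →L[ℝ] ℝ) :=
    (LinearMap.injective_iff_surjective_of_finrank_eq_finrank hfr).1 hinj
  have hl : ∀ β, A2 (lm b (wpow p a) β) = β := by
    intro β
    obtain ⟨v, hv⟩ := hsurj β
    have hv' : A2 v = β := hv
    rw [← hv', hr]
  have hinv : ContinuousLinearMap.inverse (lm b (wpow p a)) = A2 := by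
    refine ContinuousLinearMap.inverse_eq ?_ ?_
    · ext v
      exact hr v
    · ext β w
      exact congrArg (fun f : V →L[ℝ] ℝ => f w) (hl β)
  have hroot1 : root1 b (wpow p a) = K⁻¹ • a := by
    rw [root1, hinv]
    ext v
    obtain ⟨x, y, rfl⟩ : ∃ x y, v = ![x, y] := ⟨v 0, v 1, by
      funext i
      fin_cases i <;> rfl⟩
    rw [toForm_apply, hA2, hA2, hswap x y, ContinuousAlternatingMap.smul_apply, smul_eq_mul]
    ring
  rw [root, hroot1, RootE_wpow_smul, ContinuousAlternatingMap.smul_apply, smul_eq_mul, ← hWdef]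
  have hp' : (p : ℝ) ≠ 0 := Nat.cast_ne_zero.2 hp
  have h1 : cp p * (K⁻¹ ^ (p + 1) * W) = K⁻¹ ^ p := by
    have h2 : cp p * (K⁻¹ ^ (p + 1) * W) = K⁻¹ ^ p * (K⁻¹ * (cp p * W)) := by ring
    rw [h2, ← hKdef, inv_mul_cancel₀ hK.ne', mul_one]
  have hKi : 0 < K⁻¹ := inv_pos.2 hK
  rw [h1, ← Real.rpow_natCast, ← Real.rpow_mul hKi.le, mul_div_cancel₀ _ hp', Real.rpow_neg_one,
    inv_inv, smul_smul, mul_inv_cancel₀ hK.ne', one_smul]

/-- By `root_spec`, `root_wpow` and `wpow_comp`. -/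
theorem root_comp (hp : p ≠ 0) (hV : Module.finrank ℂ V = p + 1)
    (b : Module.Basis (Fin ((p + 1) * 2)) ℝ V) (hb : Oriented b)
    {Θ : V [⋀^Fin (p * 2)]→L[ℝ] ℝ} (hΘ : PosTop Θ) (A : V →L[ℝ] V)
    (hA : ∀ v, A (mulI V v) = mulI V (A v)) (hi : Function.Injective A) :
    root b (Θ.compContinuousLinearMap A) = (root b Θ).compContinuousLinearMap A := by
  obtain ⟨h1, h2⟩ := root_spec hp hV b hb hΘ
  have h3 : ∀ v w : V, (root b Θ).compContinuousLinearMap A ![v, w] = root b Θ ![A v, A w] := by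
    intro v w
    change root b Θ (fun i => A (![v, w] i)) = _
    congr 1
    funext i
    fin_cases i <;> rfl
  have h4 : PosForm ((root b Θ).compContinuousLinearMap A) := by
    refine ⟨fun v w => ?_, fun v hv => ?_⟩
    · rw [h3, h3, hA, hA, h1.1]
    · rw [h3, hA]
      refine h1.2 _ fun h => hv (hi ?_)
      rw [h, map_zero]
  have h5 := root_wpow hp hV b hb h4
  rw [wpow_comp, h2] at h5
  exact h5

end Pool.Agent.Helper80.TF
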