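import Pool.Agent.Helper80.TF.Core

/-!
# Changes of flat coordinates
-/

open Manifold Set Filter Topology MeasureTheory

namespace Pool.Agent.Helper80.TF.TorusFibration

variable {r : ℕ} {V W : Type*} [NormedAddCommGroup V] [NormedSpace ℂ V] [FiniteDimensional ℂ V]
    [NormedAddCommGroup W] [NormedSpace ℂ W] {B M : Type*} [TopologicalSpace B]
    [ChartedSpace V B] [TopologicalSpace M] [ChartedSpace (V × W) M] {f : M → B}
    (T : TorusFibration r V W f)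

theorem isOpen_D (i : T.ι) : IsOpen (T.D i) := (T.base i).open_target

theorem TransA_mulI_mulI {E : Type*} [NormedAddCommGroup E] [NormedSpace ℂ E] (v : E) :
    mulI E (mulI E v) = -v := by
  simp only [mulI, smul_apply, ContinuousLinearMap.id_apply]
  rw [smul_smul, Complex.I_mul_I, neg_one_smul]

theorem J_J (i : T.ι) (x : V) (s : Fin r → ℝ) : T.J i x (T.J i x s) = -s := by
  simp only [J, ContinuousLinearMap.comp_apply, ContinuousLinearEquiv.coe_coe,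
    ContinuousLinearEquiv.apply_symm_apply]
  rw [TransA_mulI_mulI, map_neg, ContinuousLinearEquiv.symm_apply_apply]

theorem P_J (i : T.ι) (x : V) (s : Fin r → ℝ) : T.P i x (T.J i x s) = mulI W (T.P i x s) := by
  simp only [J, ContinuousLinearMap.comp_apply, ContinuousLinearEquiv.coe_coe,
    ContinuousLinearEquiv.apply_symm_apply]

theorem Psi_Phi (i : T.ι) (p : V × W) : T.Psi i (T.Phi i p) = p := by
  simp only [Psi, Phi, ContinuousLinearEquiv.apply_symm_apply]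

theorem Phi_Psi (i : T.ι) (p : V × (Fin r → ℝ)) : T.Phi i (T.Psi i p) = p := by
  simp only [Psi, Phi, ContinuousLinearEquiv.symm_apply_apply]

/-- The periods depend smoothly on `x`, as linear maps.  (`ℝ ^ r` is finite-dimensional.) -/
theorem contDiffOn_P (i : T.ι) : ContDiffOn ℝ (⊤ : ℕ∞)
    (fun x => ((T.P i x : (Fin r → ℝ) ≃L[ℝ] W) : (Fin r → ℝ) →L[ℝ] W)) (T.D i) := by
  rw [contDiffOn_clm_apply]
  intro t
  exact ((T.P_hol i t).restrict_scalars ℝ).of_le le_top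

/-- Smoothness of the inverse (`W` is finite-dimensional if `D` is not empty; use
`contDiffAt_map_inverse`). -/
theorem contDiffOn_P_symm (i : T.ι) : ContDiffOn ℝ (⊤ : ℕ∞)
    (fun x => ((T.P i x).symm : W →L[ℝ] (Fin r → ℝ))) (T.D i) := by
  intro x hx
  have h1 : ContDiffAt ℝ (⊤ : ℕ∞) ContinuousLinearMap.inverse
      ((T.P i x : (Fin r → ℝ) ≃L[ℝ] W) : (Fin r → ℝ) →L[ℝ] W) := contDiffAt_map_inverse (T.P i x)
  have h2 := ContDiffAt.comp_contDiffWithinAt x h1 (T.contDiffOn_P i x hx)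
  have h3 : (fun x => ((T.P i x).symm : W →L[ℝ] (Fin r → ℝ))) =
      ContinuousLinearMap.inverse ∘
        fun x => ((T.P i x : (Fin r → ℝ) ≃L[ℝ] W) : (Fin r → ℝ) →L[ℝ] W) := by
    funext y
    exact (ContinuousLinearMap.inverse_equiv (T.P i y)).symm
  rw [h3]
  exact h2

theorem contDiffOn_J (i : T.ι) : ContDiffOn ℝ (⊤ : ℕ∞) (T.J i) (T.D i) :=
  (T.contDiffOn_P_symm i).clm_comp (contDiffOn_const.clm_comp (T.contDiffOn_P i))

theorem contDiffOn_Psi (i : T.ι) : ContDiffOn ℝ (⊤ : ℕ∞) (T.Psi i) (T.D i ×ˢ univ) := by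
  have h1 : ContDiffOn ℝ (⊤ : ℕ∞) (fun p : V × (Fin r → ℝ) =>
      ((T.P i p.1 : (Fin r → ℝ) ≃L[ℝ] W) : (Fin r → ℝ) →L[ℝ] W)) (T.D i ×ˢ univ) :=
    (T.contDiffOn_P i).comp contDiff_fst.contDiffOn (fun p hp => hp.1)
  exact contDiff_fst.contDiffOn.prodMk (h1.clm_apply contDiff_snd.contDiffOn)

theorem contDiffOn_Phi (i : T.ι) : ContDiffOn ℝ (⊤ : ℕ∞) (T.Phi i) (T.D i ×ˢ univ) := by
  have h1 : ContDiffOn ℝ (⊤ : ℕ∞) (fun p : V × W =>
      ((T.P i p.1).symm : W →L[ℝ] (Fin r → ℝ))) (T.D i ×ˢ univ) :=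
    (T.contDiffOn_P_symm i).comp contDiff_fst.contDiffOn (fun p hp => hp.1)
  exact contDiff_fst.contDiffOn.prodMk (h1.clm_apply contDiff_snd.contDiffOn)

theorem TransA_fderiv (i : T.ι) {x : V} (hx : x ∈ T.D i) (t : Fin r → ℝ)
    (ξ : V × (Fin r → ℝ)) : fderiv ℝ (T.Psi i) (x, t) ξ =
      (ξ.1, T.P i x ξ.2 + fderiv ℂ (fun y => T.P i y t) x ξ.1) := by
  have hD : T.D i ∈ 𝓝 x := (T.isOpen_D i).mem_nhds hx
  have h0 : HasFDerivAt (fun x => ((T.P i x : (Fin r → ℝ) ≃L[ℝ] W) : (Fin r → ℝ) →L[ℝ] W))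
      (fderiv ℝ (fun x => ((T.P i x : (Fin r → ℝ) ≃L[ℝ] W) : (Fin r → ℝ) →L[ℝ] W)) x) x :=
    (((T.contDiffOn_P i).contDiffAt hD).differentiableAt (by simp)).hasFDerivAt
  set c' := fderiv ℝ (fun x => ((T.P i x : (Fin r → ℝ) ≃L[ℝ] W) : (Fin r → ℝ) →L[ℝ] W)) x
    with hc'
  have h1 : HasFDerivAt (fun p : V × (Fin r → ℝ) =>
      ((T.P i p.1 : (Fin r → ℝ) ≃L[ℝ] W) : (Fin r → ℝ) →L[ℝ] W))
      (c'.comp (ContinuousLinearMap.fst ℝ V (Fin r → ℝ))) (x, t) := by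
    have h0' : HasFDerivAt
        (fun x => ((T.P i x : (Fin r → ℝ) ≃L[ℝ] W) : (Fin r → ℝ) →L[ℝ] W)) c'
        (Prod.fst ((x, t) : V × (Fin r → ℝ))) := h0
    exact h0'.comp (x, t) (hasFDerivAt_fst (𝕜 := ℝ) (p := ((x, t) : V × (Fin r → ℝ))))
  have h2 := hasFDerivAt_fst.prodMk (h1.clm_apply (hasFDerivAt_snd (𝕜 := ℝ) (p := (x, t))))
  have h3 : fderiv ℝ (T.Psi i) (x, t) = _ := h2.fderiv
  have h4 : HasFDerivAt (fun y => T.P i y t)
      ((fderiv ℂ (fun y => T.P i y t) x).restrictScalars ℝ) x :=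
    ((((T.P_hol i t).contDiffAt hD).differentiableAt (by simp)).hasFDerivAt).restrictScalars ℝ
  have h5 := h0.clm_apply (hasFDerivAt_const t x)
  have h6 := h5.unique h4
  have h7 : c' ξ.1 t = fderiv ℂ (fun y => T.P i y t) x ξ.1 := by
    have h8 := congrArg (fun L => L ξ.1) h6
    simpa using h8
  rw [h3, ← h7]
  simp

/-- The derivative of `Psi` is compatible with the complex structures.  Proof sketch:
`D Psi (x, t) (v, s) = (v, P x s + (D_v P) (x) t)`, and `D_{i v} P = i D_v P` since the periods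
are holomorphic. -/
theorem fderiv_Psi_Jt (i : T.ι) {x : V} (hx : x ∈ T.D i) (t : Fin r → ℝ)
    (ξ : V × (Fin r → ℝ)) : fderiv ℝ (T.Psi i) (x, t) (T.Jt i x ξ) =
      mulI (V × W) (fderiv ℝ (T.Psi i) (x, t) ξ) := by
  rw [T.TransA_fderiv i hx, T.TransA_fderiv i hx]
  have h1 : (T.Jt i x ξ).1 = mulI V ξ.1 := rfl
  have h2 : (T.Jt i x ξ).2 = T.J i x ξ.2 := rfl
  rw [h1, h2, T.P_J]
  simp only [mulI, smul_apply, ContinuousLinearMap.id_apply, Prod.smul_mk,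
    smul_add, map_smul]

/-- `D Psi` is injective. -/
theorem fderiv_Psi_injective (i : T.ι) {x : V} (hx : x ∈ T.D i) (t : Fin r → ℝ)
    {ξ : V × (Fin r → ℝ)} (h : fderiv ℝ (T.Psi i) (x, t) ξ = 0) : ξ = 0 := by
  rw [T.TransA_fderiv i hx] at h
  have h1 : ξ.1 = 0 := congrArg Prod.fst h
  have h2 : T.P i x ξ.2 + fderiv ℂ (fun y => T.P i y t) x ξ.1 = 0 := congrArg Prod.snd h
  rw [h1, map_zero, add_zero] at h2
  exact Prod.ext h1 ((map_eq_zero_iff _ (T.P i x).injective).1 h2)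

end Pool.Agent.Helper80.TF.TorusFibration
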