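import Pool.Agent.Helper80.TF.TransA

/-!
# Existence of changes of flat coordinates
-/

open Manifold Set Filter Topology MeasureTheory

namespace Pool.Agent.Helper80.TF.TorusFibration

variable {r : ℕ} {V W : Type*} [NormedAddCommGroup V] [NormedSpace ℂ V] [FiniteDimensional ℂ V]
    [NormedAddCommGroup W] [NormedSpace ℂ W] {B M : Type*} [TopologicalSpace B]
    [ChartedSpace V B] [IsManifold 𝓘(ℂ, V) ⊤ B] [TopologicalSpace M] [ChartedSpace (V × W) M]
    {f : M → B} (T : TorusFibration r V W f)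

/-- The translation by an integer vector (`O = T.D i`, `a = id`, `N = id`). -/
theorem exists_shift (i : T.ι) (n : Fin r → ℤ) :
    ∃ F : T.FTrans i i, F.O = T.D i ∧ (∀ x, F.a x = x) ∧ (∀ t, F.N t = t) ∧
      ∀ x, F.σ x = intVec n := by
  refine ⟨{ O := T.D i
            isOpen := T.isOpen_D i
            sub := subset_rfl
            src := fun x hx => (T.base i).map_target hx
            a := id
            a_eq := fun x hx => ((T.base i).right_inv hx).symm
            a_smooth := contDiffOn_id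
            N := ContinuousLinearEquiv.refl ℝ _
            int := ⟨fun m => ⟨m, rfl⟩, fun m => ⟨m, rfl⟩⟩
            σ := fun _ => intVec n
            σ_smooth := contDiffOn_const
            q_eq := ?_ }, rfl, fun _ => rfl, fun _ => rfl, fun _ => rfl⟩
  intro x hx t
  change T.q i (x, T.P i x t) = T.q i (x, T.P i x (t + intVec n))
  rw [T.q_ker i x hx]
  exact ⟨n, by rw [map_add]; rfl⟩

variable {T}

theorem FTrans.a_mem {i j : T.ι} (F : T.FTrans i j) {x : V} (hx : x ∈ F.O) : F.a x ∈ T.D j := by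
  rw [F.a_eq x hx]
  exact (T.base j).map_source (F.src x hx)

/-- The derivative of the change of coordinates. -/
theorem FTrans.hasFDerivAt_map {i j : T.ι} (F : T.FTrans i j) {x : V} (hx : x ∈ F.O)
    (t : Fin r → ℝ) : HasFDerivAt F.map (F.lin x) (x, t) := by
  have h1 : HasFDerivAt F.a (fderiv ℝ F.a x) x :=
    ((F.a_smooth.contDiffAt (F.isOpen.mem_nhds hx)).differentiableAt (by simp)).hasFDerivAt
  have h2 : HasFDerivAt F.σ (fderiv ℝ F.σ x) x :=
    ((F.σ_smooth.contDiffAt (F.isOpen.mem_nhds hx)).differentiableAt (by simp)).hasFDerivAt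
  have h0 : HasFDerivAt (fun p : V × (Fin r → ℝ) => p.1)
      (ContinuousLinearMap.fst ℝ V (Fin r → ℝ)) (x, t) := hasFDerivAt_fst
  have h3 : HasFDerivAt (fun p : V × (Fin r → ℝ) => F.a p.1)
      ((fderiv ℝ F.a x).comp (ContinuousLinearMap.fst ℝ V (Fin r → ℝ))) (x, t) :=
    HasFDerivAt.comp (x, t) h1 h0
  have h4 : HasFDerivAt (fun p : V × (Fin r → ℝ) => F.σ p.1)
      ((fderiv ℝ F.σ x).comp (ContinuousLinearMap.fst ℝ V (Fin r → ℝ))) (x, t) :=
    HasFDerivAt.comp (x, t) h2 h0
  have h5 : HasFDerivAt (fun p : V × (Fin r → ℝ) => F.N p.2)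
      ((F.N : (Fin r → ℝ) →L[ℝ] (Fin r → ℝ)).comp (ContinuousLinearMap.snd ℝ V (Fin r → ℝ)))
      (x, t) :=
    HasFDerivAt.comp (x, t) F.N.hasFDerivAt hasFDerivAt_snd
  exact h3.prodMk (h5.add h4)

theorem FTrans.lin_apply {i j : T.ι} (F : T.FTrans i j) (x v : V) (s : Fin r → ℝ) :
    F.lin x (v, s) = (fderiv ℝ F.a x v, F.N s + fderiv ℝ F.σ x v) := by
  rfl

/-- A change of coordinates in the base, by the charts of `B`, is holomorphic. -/
theorem FTrans.fderiv_a_mulI {i j : T.ι} (F : T.FTrans i j) {x : V} (hx : x ∈ F.O) (v : V) :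
    fderiv ℝ F.a x (mulI V v) = mulI V (fderiv ℝ F.a x v) := by
  have h1 : (T.base i).symm.trans (T.base j) ∈ contDiffGroupoid ⊤ 𝓘(ℂ, V) :=
    IsManifold.compatible_of_mem_maximalAtlas (T.base_mem i) (T.base_mem j)
  have h2 := contMDiffOn_of_mem_contDiffGroupoid h1
  rw [contMDiffOn_iff_contDiffOn] at h2
  have h3 : x ∈ ((T.base i).symm.trans (T.base j)).source := by
    rw [OpenPartialHomeomorph.trans_source]
    exact ⟨F.sub hx, F.src x hx⟩
  have h4 : DifferentiableAt ℂ ((T.base i).symm.trans (T.base j)) x :=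
    (h2.contDiffAt (((T.base i).symm.trans (T.base j)).open_source.mem_nhds h3)).differentiableAt
      (by simp)
  have h5 : F.a =ᶠ[𝓝 x] ((T.base i).symm.trans (T.base j)) := by
    filter_upwards [F.isOpen.mem_nhds hx] with y hy
    rw [F.a_eq y hy]
    rfl
  have h6 : DifferentiableAt ℂ F.a x := h4.congr_of_eventuallyEq h5
  rw [h6.fderiv_restrictScalars ℝ]
  change (fderiv ℂ F.a x) (Complex.I • v) = Complex.I • (fderiv ℂ F.a x) v
  rw [map_smul]

end Pool.Agent.Helper80.TF.TorusFibration
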